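import Pool.Agent.Lib.CR5.B.Cmm
import Pool.Agent.Lib.CR5.B.Cfs
import Pool.Agent.Lib.CR5.B.HB1
import Pool.Agent.Lib.CR5.B.Har
import Pool.Agent.Lib.CR5.B.TL
import Pool.Agent.Lib.CR5.B.BId
import Pool.Agent.Lib.CR5.B.BCm
import Pool.Agent.Lib.CR5.B.Bas
import Pool.Agent.Lib.CR5.B.Inf

/-!
# CR5, block B without hypotheses
-/

noncomputable section

namespace Pool.Agent.CR5

theorem okHar : S_Har := tHar

theorem okTL : S_TL := pTL pCmm pCfs pHB1 okHar

theorem okBas : S_Bas := pBas pCmm pCfs pHB1 okHar okTL pBId pBCm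

theorem okInf : S_Inf := tInf

end Pool.Agent.CR5
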