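import Pool.Agent.Lib.CR5.AllB
import Pool.Agent.Lib.CR5.C.AE
import Pool.Agent.Lib.CR5.C.AbsOrb
import Pool.Agent.Lib.CR5.C.Coe
import Pool.Agent.Lib.CR5.C.Com
import Pool.Agent.Lib.CR5.C.Dec
import Pool.Agent.Lib.CR5.C.EEb
import Pool.Agent.Lib.CR5.C.Equ
import Pool.Agent.Lib.CR5.C.Exp
import Pool.Agent.Lib.CR5.C.FFb
import Pool.Agent.Lib.CR5.C.Fou
import Pool.Agent.Lib.CR5.C.Hil
import Pool.Agent.Lib.CR5.C.Low
import Pool.Agent.Lib.CR5.C.Main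
import Pool.Agent.Lib.CR5.C.MuB
import Pool.Agent.Lib.CR5.C.OrbL2
import Pool.Agent.Lib.CR5.C.OrbMu
import Pool.Agent.Lib.CR5.C.Pat
import Pool.Agent.Lib.CR5.C.Rep
import Pool.Agent.Lib.CR5.C.SSb
import Pool.Agent.Lib.CR5.C.SVZ
import Pool.Agent.Lib.CR5.C.Stp
import Pool.Agent.Lib.CR5.C.Tay
import Pool.Agent.Lib.CR5.C.Wk

/-!
# CR5, block C without hypotheses: existence of smooth solutions of the regularised equation
-/

noncomputable section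

namespace Pool.Agent.CR5

open C in
theorem okEX : S_EX := by
  have hOrbL2 : S_OrbL2 := pOrbL2 pAbsOrb pTay
  have hSVZ : S_SVZ := pSVZ pTay hOrbL2
  have hRep : S_Rep := pRep (pDec hSVZ) (pFou pAE) pPat
  have hEEb : S_EEb := pEEb pCom
  have hSSb : S_SSb := pSSb (pOrbMu pAbsOrb pTay pMuB) pMuB pExp
  have hFFb : S_FFb := pFFb hOrbL2 hEEb
  have hStp : S_Stp := pStp hFFb hRep (pWk hEEb) pAE hEEb hSVZ
  have hEqu : S_Equ := pEqu hEEb hSSb hFFb pAE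
  exact pMainC pHil hSSb (pLow (pCoe okBas) hSSb hEEb) hFFb hEEb hRep hStp hEqu

end Pool.Agent.CR5
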