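import Pool.Agent.Lib.CR5.AllB
import Pool.Agent.Lib.CR5.D.aB1
import Pool.Agent.Lib.CR5.D.aB2
import Pool.Agent.Lib.CR5.D.aCb
import Pool.Agent.Lib.CR5.D.aCf
import Pool.Agent.Lib.CR5.D.aCm
import Pool.Agent.Lib.CR5.D.aE1
import Pool.Agent.Lib.CR5.D.aE2
import Pool.Agent.Lib.CR5.D.aE3
import Pool.Agent.Lib.CR5.D.aE4
import Pool.Agent.Lib.CR5.D.aEn
import Pool.Agent.Lib.CR5.D.aHs
import Pool.Agent.Lib.CR5.D.aI
import Pool.Agent.Lib.CR5.D.aId
import Pool.Agent.Lib.CR5.D.aId2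
import Pool.Agent.Lib.CR5.D.aL1
import Pool.Agent.Lib.CR5.D.aL2
import Pool.Agent.Lib.CR5.D.aUNI
import Pool.Agent.Lib.CR5.D.cChi
import Pool.Agent.Lib.CR5.D.cCom
import Pool.Agent.Lib.CR5.D.cCom0
import Pool.Agent.Lib.CR5.D.cEll
import Pool.Agent.Lib.CR5.D.cHar
import Pool.Agent.Lib.CR5.D.cKap
import Pool.Agent.Lib.CR5.D.cKs
import Pool.Agent.Lib.CR5.D.cLIN
import Pool.Agent.Lib.CR5.D.cMem
import Pool.Agent.Lib.CR5.D.cOut
import Pool.Agent.Lib.CR5.D.cY2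
import Pool.Agent.Lib.CR5.D.cZ
import Pool.Agent.Lib.CR5.D.cZA

/-!
# CR5, block D without hypotheses: `S_LIN`
-/

noncomputable section

namespace Pool.Agent.CR5

theorem okcMem : S_cMem := pcMem pcOut

theorem okcChi : S_cChi := pcChi pcOut

theorem okcHar : S_cHar := pcHar okHar okInf okcMem okcChi

theorem okaCf : S_aCf := paCf pcCom0

theorem okaCm : S_aCm := paCm pcZ okaCf (paCb pcOut)

theorem okaE3 : S_aE3 := paE3 okHar pcOut

theorem okaE4 : S_aE4 := paE4 okBas pcOut okcChi paE1 paE2 okaE3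

theorem okaEn : S_aEn := paEn okcMem okaE4

theorem okaB1 : S_aB1 := paB1 okaCm

theorem okaB2 : S_aB2 := paB2 okaCm okaB1

theorem okaI : S_aI := paI pcOut okcMem okcHar

theorem okaL1 : S_aL1 := paL1 paId okaEn okaCm okaB1 okaI paHs

theorem okaL2 : S_aL2 := paL2 (paId2 paId) okaEn okaCm okaB2 okaI paHs okaL1

theorem okcUNI : S_cUNI := paUNI okcHar okcMem okaL1 okaL2

theorem okcCom : S_cCom := pcCom pcOut pcZ pcCom0

theorem okcZA : S_cZA := pcZA okcUNI okcCom okcHar okcMem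

theorem okLIN : S_LIN :=
  pcLIN okcUNI okcMem (pcY2 okInf okcChi) (pcEll okHar okBas okInf okcChi) pcKs (pcKap pcOut pcZ)
    okcZA

end Pool.Agent.CR5
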