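import Pool.Agent.Lib.CR5.G.ELP
import Pool.Agent.Lib.CR5.G.GEO
import Pool.Agent.Lib.CR5.G.LG1
import Pool.Agent.Lib.CR5.G.LGW
import Pool.Agent.Lib.CR5.G.Sts
import Pool.Agent.Lib.CR5.G.gBdE
import Pool.Agent.Lib.CR5.G.gBox
import Pool.Agent.Lib.CR5.G.gChi
import Pool.Agent.Lib.CR5.G.gD1
import Pool.Agent.Lib.CR5.G.gEx
import Pool.Agent.Lib.CR5.G.gHs
import Pool.Agent.Lib.CR5.G.gIA
import Pool.Agent.Lib.CR5.G.gIG
import Pool.Agent.Lib.CR5.G.gIY
import Pool.Agent.Lib.CR5.G.gMix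
import Pool.Agent.Lib.CR5.G.gNum
import Pool.Agent.Lib.CR5.G.gPhi
import Pool.Agent.Lib.CR5.G.gPt
import Pool.Agent.Lib.CR5.G.gQuB
import Pool.Agent.Lib.CR5.G.gQua
import Pool.Agent.Lib.CR5.G.gSol
import Pool.Agent.Lib.CR5.G.gSub
import Pool.Agent.Lib.CR5.G.gUeq
import Pool.Agent.Lib.CR5.G.gW0
import Pool.Agent.Lib.CR5.G.gYeq
import Pool.Agent.Lib.CR5.F.All
import Pool.Agent.Lib.CR5.D.cKs

/-!
# CR5: block G, assembly

`S_SUB` from `S_EX`, `S_LIN`, `S_LOC`.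
-/

open MeasureTheory Set Filter Topology
open scoped ENNReal ComplexConjugate

noncomputable section

namespace Pool.Agent.CR5

theorem okGEO : S_GEO := pGEO

theorem okELP : S_ELP := pELP okGEO okSOB pEpt

theorem okLGW : S_LGW := pLGW okGEO okPR okEXPO (pLG1 okGEO okPR)

theorem okSTS : S_STS := pSTS okGEO okELP okCUT2 pInv

/-- The substep from the global, the existence and the interior estimates. -/
theorem subOf (hEX : S_EX) (hLIN : S_LIN) (hLOC : S_LOC) : S_SUB :=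
  pgSub
    (pgMix pgPhi okSTS pgSol pgQua pgQuB pgBdE pgBox pgNum okGEO okCUT pEpt okELP pgChi pgEx pgHs
      pgD1 pgPt hEX hLIN hLOC)
    pgIA pgIY pgIG pgUeq pgW0 pgNum hLOC okLGW okEXPO okGEO okPR pgD1 pcKs pgYeq

end Pool.Agent.CR5
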