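import Pool.Agent.Lib.CR5.Iface

/-!
# CR5, block B: global estimates for test functions

Every statement `S_X` has a complete proof in its docstring; task `X` proves `theorem pX : S_X` in
`Pool/Agent/Lib/CR5/B/X.lean`.  `S_Har`, `S_TL`, `S_Bas`, `S_Inf` are declared in `Iface.lean`;
here they are repeated as implications `R_X` where they use other statements.
-/

open MeasureTheory Set Filter Topology
open scoped ENNReal ComplexConjugate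

noncomputable section

namespace Pool.Agent.CR5

/-- `L j (conj a k l)` minus its value for the standard structure. -/
def cA (a : Str) (j k : Fin 2) (l : Fin 3) : E5 → ℂ := fun x =>
  L a j (fun y => conj (a k l y)) x - if j = k ∧ l = 2 then Complex.I else 0

/-- `Lb k (a j l)` minus its value for the standard structure. -/
def cB (a : Str) (j k : Fin 2) (l : Fin 3) : E5 → ℂ := fun x =>
  Lb a k (a j l) x + if j = k ∧ l = 2 then Complex.I else 0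

/-- **Cmm**: the commutator of `L j` and `Lb k`.

Proof. Exactly as `D1_D0` in `Basic2.lean`: `L a j (Lb a k f) = db j (Lb a k f) + ∑ m, a j m * dz m (Lb a k f)`
and `Lb a k f = dz k f + ∑ l, conj (a k l) * db l f`; expand with `db_add`, `db_sum`, `db_mul`, `dz_add`,
`dz_sum`, `dz_mul`; in the same way `Lb a k (L a j f)`.  The second derivatives of `f` cancel by
`db_db`, `db_dz`, `dz_dz`.  The remaining terms are `∑ l, (L a j (conj a k l)) * db l f` and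
`- ∑ l, (Lb a k (a j l)) * dz l f`; finally `L a j (conj a k l) = cA + [j = k, l = 2] I` and
`Lb a k (a j l) = cB - [j = k, l = 2] I`, and `dz 2 = db 2 = pd 4`. -/
def S_Cmm : Prop := ∀ (a : Str), SmS a → ∀ (j k : Fin 2) (f : E5 → ℂ), Sm f → ∀ x,
  L a j (Lb a k f) x - Lb a k (L a j f) x
    = (if j = k then 2 * Complex.I * pd 4 f x else 0)
      + ∑ l, (cA a j k l x * db l f x - cB a j k l x * dz l f x)

/-- **Cfs**: the coefficients `cA`, `cB` and the function `dv` are small and supported in the unit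
ball.

Proof. Put `b = a - a0` (smooth, zero for `‖x‖ ≥ 1`, `sq i (b j l) ≤ ε^2` for `i ≤ 2`).  For the standard
structure `L a0 j (conj (a0 k l)) = [j = k, l = 2] I` (`conj (a0 k 2) = I conj (z_k)`, `db j (conj z_k) = δ_jk`,
`dz l (conj z_k) = 0`, `conj (a0 k l) = 0` for `l ≠ 2`) and `Lb a0 k (a0 j l) = -[j = k, l = 2] I`
(`dz k z_j = δ_jk`, `db l z_j = 0`).  Since `L a j f = L a0 j f + ∑ l, b j l * dz l f`,
`cA a j k l = L a0 j (conj (b k l)) + ∑ m, b j m * dz m (conj (a k l))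
= db j (conj (b k l)) - I z_j pd 4 (conj (b k l)) + ∑ m, b j m * (dz m (conj (b k l)) + dz m (conj (a0 k l)))`.
Every term has a factor which is `b`, or a first derivative of `b`: it vanishes for `‖x‖ ≥ 1` (the
function `b` vanishes on the closed set `‖x‖ ≥ 1`, hence its derivatives vanish for `‖x‖ > 1`, and for
`‖x‖ = 1` by continuity: every point with `‖x‖ = 1` is a limit of points `r x`, `r > 1`), and in the unit
ball the other factors and their first derivatives are bounded by absolute constants (`‖z_j‖ ≤ 1`,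
derivatives of `a0` are constants, `‖b‖ ≤ ε ≤ 1`).  So `‖cA‖ ≤ C ε` and `‖pd i cA‖ ≤ C ε` (products of two
factors, `b` and its derivatives of order at most two are at most `ε` in absolute value, because each
`‖pd i b‖^2 ≤ sq 1 b`, `‖pd i (pd k b)‖^2 ≤ sq 2 b`).  The same for `cB`.  For `dv`: `∑ l, db l (conj a0 j l) = 0`
(`conj (a0 j 2) = I conj z_j` does not depend on `t`), so `dv a j = ∑ l, db l (conj (b j l))`. -/
def S_Cfs : Prop := ∃ C : ℝ, 1 ≤ C ∧ ∀ (a : Str) (ε : ℝ), 0 < ε → ε ≤ 1 → Near a 2 ε →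
  (∀ j k l, Sm (cA a j k l) ∧ (∀ x, 1 ≤ ‖x‖ → cA a j k l x = 0) ∧ (∀ x, ‖cA a j k l x‖ ≤ C * ε) ∧
    ∀ i x, ‖pd i (cA a j k l) x‖ ≤ C * ε) ∧
  (∀ j k l, Sm (cB a j k l) ∧ (∀ x, 1 ≤ ‖x‖ → cB a j k l x = 0) ∧ (∀ x, ‖cB a j k l x‖ ≤ C * ε) ∧
    ∀ i x, ‖pd i (cB a j k l) x‖ ≤ C * ε) ∧
  (∀ j, Sm (dv a j) ∧ (∀ x, 1 ≤ ‖x‖ → dv a j x = 0) ∧ (∀ x, ‖dv a j x‖ ≤ C * ε) ∧
    ∀ i x, ‖pd i (dv a j) x‖ ≤ C * ε)

/-- **Har** (`S_Har` of `Iface.lean`; no other statement is used).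

Proof. Let `g = 1 / (1 + |z|²)` (smooth, `0 < g ≤ 1`), `b = a - a0` (zero for `‖x‖ ≥ 1`, `‖b‖, ‖pd i b‖ ≤ ε`),
`f` a test function, `E f = ∑ j, (conj z_j * L a j f + z_j * Lb a j f)`.
(1) `L a j (conj z_k) = δ_jk`, `L a j z_k = a j k` (`k = 0, 1`), so `L a j g = -g² (z_j + ∑_k conj z_k * a j k)`.
(2) Integration by parts (`ibp_L'` with second function `conj (conj z_j g) = z_j g`):
`∫ conj z_j * g * L a j (f f̄) = ∫ |f|² conj (Ls a j (z_j g))`, and by `Ls_eq`, `conj_Lb`: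
`conj (Ls a j (z_j g)) = -L a j (conj z_j g) - conj (dv a j) conj z_j g`
`= -g + g² (|z_j|² + conj z_j ∑_k conj z_k a j k) - conj (dv a j) conj z_j g`.
The integral with `Lb` is the complex conjugate (`conj_L`; `f f̄` and `g` are real).  Sum over `j` and
conjugates: `∫ g * 2 Re (∑_j conj z_j L a j (f f̄)) = -∫ |f|² D`, where
`D = 4 g - 2 g² |z|² - 2 Re (g² ∑_jk conj z_j conj z_k a j k) + 2 Re ∑_j conj (dv a j) conj z_j g`.
Since `g |z|² ≤ 1`: `4 g - 2 g² |z|² ≥ 2 g`; `a j k = b j k` for `k = 0, 1` and `dv a j = ∑_l db l (conj (b j l))` are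
at most `3 ε` in absolute value and vanish for `‖x‖ ≥ 1`, so the last two terms are at least `-40 ε g`; with
`ε = 1/40`: `D ≥ g`.
(3) `2 Re ∑_j conj z_j L a j (f f̄) = 2 Re (f̄ E f)` (product rule, `L a j f̄ = conj (Lb a j f)`), so
`∫ g |f|² ≤ ∫ |f|² D ≤ 2 ∫ g |f| |E f|`, `|E f|² ≤ 2 |z|² gr a f` (Cauchy-Schwarz with four terms), hence
`∫ g |f|² ≤ 2 (∫ g |f|²)^{1/2} (∫ 2 g |z|² gr a f)^{1/2}` and `∫ g |f|² ≤ 8 ∫ gr a f`. -/
def R_Har : Prop := S_Har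

/-- **HB1**: consequence for the unit ball (`zz x ≤ 1` there).

Proof. `∫_{B_1} ‖f‖² ≤ 2 ∫ ‖f‖²/(1+zz)`. -/
def S_HB1 : Prop := S_Har → ∃ ε > 0, ∃ C > 0, ∀ a : Str, Near a 1 ε → ∀ f : E5 → ℂ, Tst f →
  ∫ x in Metric.ball (0 : E5) 1, ‖f x‖ ^ 2 ≤ C * ∫ x, gr a f x

/-- **TL** (`S_TL`, using `S_Cmm`, `S_Cfs`, `S_HB1`).

Proof. Fix `f, g` test functions; write `G f = (∫ gr a f)^{1/2}`.  For `l = 0, 1, 2` and `u = dz l` or `u = db l` let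
`N` be the supremum of `|∫ c * (u f) * conj g|` over these six operators `u` and all smooth `c` with
`c = 0` for `‖x‖ ≥ 1`, `‖c‖ ≤ 1`, `‖pd k c‖ ≤ 1`.  `N` is finite: `N ≤ ∫ (∑ |pd i f|) |g|`.  By scaling
`|∫ c (u f) ḡ| ≤ M N` if the bounds are `M`.
(1) `u = dz 2 = db 2 = pd 4`.  By `S_Cmm` (`j = k = 0`): `2 I pd 4 f = L(Lb f) - Lb(L f) - ∑ l (cA db l f - cB dz l f)`
(`L = L a 0`, `Lb = Lb a 0`).  `∫ c L(Lb f) ḡ = ∫ L (Lb f) conj (c̄ g) = ∫ Lb f conj (Ls a 0 (c̄ g))`,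
`Ls a 0 (c̄ g) = -Lb(c̄) g - c̄ Lb g - dv c̄ g`, so this is at most `‖Lb f‖ (C ‖g‖_{L²(B_1)} + ‖Lb g‖) ≤ C G f G g`
(`‖g‖_{L²(B_1)} ≤ C G g` by `S_HB1`; on the unit ball the coefficients of `Lb` are bounded by `2`).  In the same
way `∫ c Lb(L f) ḡ`: here use `∫ (Lb h) ψ = -∫ h (Lb ψ) - ∫ h dv ψ` (complex conjugate of `ibp_L` with
`Ls_eq`).  The terms with `cA`, `cB`: the functions `c * cA` vanish for `‖x‖ ≥ 1` and they and their first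
derivatives are at most `2 C ε`; so each term is at most `2 C ε N`.  Together
`|∫ c (pd 4 f) ḡ| ≤ C₁ G f G g + C₁ ε N` for admissible `c`.
(2) `u = db j`, `j = 0, 1`: `db j f = L a j f - ∑ l, a j l dz l f`, `a j l = b j l` small for `l = 0, 1`, and
`a j 2 = -I z_j + b j 2`: `|∫ c (db j f) ḡ| ≤ ‖L a j f‖ ‖g‖_{L²(B_1)} + 4 ε N + |∫ (c z_j) (pd 4 f) ḡ|` and the last term is
at most `4 (C₁ G f G g + C₁ ε N)` by (1) (the function `c z_j` and its first derivatives are at most `4`).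
`u = dz j` in the same way with `Lb`.
(3) So `N ≤ C₂ G f G g + C₂ ε N`; take `C₂ ε ≤ 1/2`: `N ≤ 2 C₂ G f G g`.  Finally every `pd i` is a combination of
`dz l`, `db l` with coefficients of absolute value at most one (`pd 0 = dz 0 + db 0`,
`pd 1 = I (dz 0 - db 0)`, ...). -/
def R_TL : Prop := S_Cmm → S_Cfs → S_HB1 → S_Har → S_TL

/-- **BId**: the identities for the quadratic form.  `⟨u, v⟩ = ∫ u conj v`.

Proof. (i) Expand the squares.  `∫ |L a 0 w₁ - L a 1 w₀|² = ∫|L a 0 w₁|² + ∫|L a 1 w₀|² - 2 Re ⟨L a 0 w₁, L a 1 w₀⟩`,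
`∫ |Ls a 0 w₀ + Ls a 1 w₁|² = ∫|Ls a 0 w₀|² + ∫|Ls a 1 w₁|² + 2 Re ⟨Ls a 0 w₀, Ls a 1 w₁⟩`, and
`⟨Ls a 0 w₀, Ls a 1 w₁⟩ = ⟨L a 1 (Ls a 0 w₀), w₁⟩` (`ibp_L`), `⟨Ls a 0 (L a 1 w₀), w₁⟩ = conj ⟨w₁, Ls a 0 (L a 1 w₀)⟩
= conj ⟨L a 0 w₁, L a 1 w₀⟩ = ⟨L a 1 w₀, L a 0 w₁⟩`.  So the cross terms add up to
`2 Re ⟨L a 1 (Ls a 0 w₀) - Ls a 0 (L a 1 w₀), w₁⟩`.
(ii) `∫|Ls a j g|² = ⟨L a j (Ls a j g), g⟩` and `∫ |L a j g|² = ⟨Ls a j (L a j g), g⟩` (both by `ibp_L`, taking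
complex conjugates where necessary; the integrals are real). -/
def S_BId : Prop := ∀ a : Str, SmS a →
  (∀ w : F2, (∀ j, Tst (w j)) →
    (∫ x, ‖D0s a w x‖ ^ 2) + (∫ x, ‖D1 a w x‖ ^ 2)
      = (∫ x, ‖L a 0 (w 1) x‖ ^ 2) + (∫ x, ‖L a 1 (w 0) x‖ ^ 2)
        + (∫ x, ‖Ls a 0 (w 0) x‖ ^ 2) + (∫ x, ‖Ls a 1 (w 1) x‖ ^ 2)
        + 2 * (∫ x, (L a 1 (Ls a 0 (w 0)) x - Ls a 0 (L a 1 (w 0)) x) * conj (w 1 x)).re) ∧
  (∀ (j : Fin 2) (g : E5 → ℂ), Tst g →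
    (∫ x, ‖Ls a j g x‖ ^ 2) = (∫ x, ‖L a j g x‖ ^ 2)
      + (∫ x, (L a j (Ls a j g) x - Ls a j (L a j g) x) * conj (g x)).re)

/-- **BCm**: the commutator of `L j` and `Ls k`.

Proof. `Ls a k g = -Lb a k g - dv a k * g` (`Ls_eq`), so
`L a j (Ls a k g) - Ls a k (L a j g) = -(L a j (Lb a k g) - Lb a k (L a j g)) - L a j (dv a k * g) + dv a k * L a j g`
and the last two terms are `-(L a j (dv a k)) * g`; use `S_Cmm`. -/
def S_BCm : Prop := S_Cmm → ∀ a : Str, SmS a → ∀ (j k : Fin 2) (g : E5 → ℂ), Sm g → ∀ x,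
  L a j (Ls a k g) x - Ls a k (L a j g) x
    = -(if j = k then 2 * Complex.I * pd 4 g x else 0)
      - ∑ l, (cA a j k l x * db l g x - cB a j k l x * dz l g x) - L a j (dv a k) x * g x

/-- **Bas** (`S_Bas`).

Proof. Let `w` be a pair of test functions, `G g = ∫ gr a g`, `Q` the right side of `S_Bas`.
(0) Error bound: for all `j, k` and test functions `g, h` the operator
`E g = ∑ l, (cA a j k l db l g - cB a j k l dz l g) + L a j (dv a k) g` satisfies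
`|∫ (E g) conj h| ≤ C ε (G g)^{1/2} (G h)^{1/2}`: the first terms by `S_TL` (with `M = C ε`, `S_Cfs`), the last
because `|L a j (dv a k)| ≤ C ε`, it vanishes for `‖x‖ ≥ 1` (`dv a k` vanishes there) and `S_HB1`.
(1) By `S_BCm` the cross term in `S_BId` (first part; `j = 1`, `k = 0`) is at least
`-2 C ε (G w₀)^{1/2} (G w₁)^{1/2} ≥ -C ε (G w₀ + G w₁)`.
(2) By `S_BId` (second part) and `S_BCm`:
`∫|Ls a 0 g|² + ∫|L a 1 g|² = ∫|L a 0 g|² + ∫|Ls a 1 g|² + Re ∫ (([L₀, Ls₀] - [L₁, Ls₁]) g) conj g`, the terms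
`2 I pd 4 g` cancel in the difference, so by (0) the last integral is at least `-2 C ε G g`.  Hence
`2 (∫|Ls a 0 g|² + ∫|L a 1 g|²) ≥ ∫|L a 0 g|² + ∫|L a 1 g|² + ∫|Ls a 0 g|² + ∫|Ls a 1 g|² - 2 C ε G g`.  The same for
`∫|Ls a 1 g|² + ∫|L a 0 g|²`.
(3) `|Ls a j g|² ≥ |Lb a j g|²/2 - |dv a j g|²` (`Ls_eq`), so `∫ |Ls a j g|² ≥ (1/2) ∫ |Lb a j g|² - C ε² G g` (`S_HB1`).
(4) Together `Q ≥ (1/4 - C ε) (G w₀ + G w₁)`; take `ε` small, `c = 1/8`.  (`w₀` occurs in `Q` with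
`∫|Ls a 0 w₀|² + ∫|L a 1 w₀|²`, `w₁` with `∫|Ls a 1 w₁|² + ∫|L a 0 w₁|²`.) -/
def R_Bas : Prop := S_Cmm → S_Cfs → S_HB1 → S_Har → S_TL → S_BId → S_BCm → S_Bas

/-- **Inf** (`S_Inf`).

Proof. Let `ϕ s = Real.smoothTransition (2 - s)`: smooth, `0 ≤ ϕ ≤ 1`, `ϕ = 1` for `s ≤ 1`, `ϕ = 0` for `s ≥ 2`; its
derivative is continuous with support in `[1, 2]`, so bounded by some `K`.  Put
`χ x = ϕ (|z|²/ρ²) * ϕ (t²/ρ⁴)` (a real function, seen as a complex one).  Its support is contained in the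
bounded set `|z|² ≤ 2 ρ²`, `t² ≤ 2 ρ⁴`.  If `‖x‖ ≤ ρ` then `|z|²/ρ² ≤ 1` and `t²/ρ⁴ ≤ 1/ρ² ≤ 1`, so `χ = 1`.
Derivatives: `L a0 j χ = db j χ - I z_j pd 4 χ`.  `db j (|z|²) = z_j`, so
`db j χ = ϕ'(|z|²/ρ²) (z_j/ρ²) ϕ(t²/ρ⁴)`, at most `K √2 ρ/ρ² `; `pd 4 χ = ϕ(|z|²/ρ²) ϕ'(t²/ρ⁴) 2 t/ρ⁴`, at most
`K 2√2 ρ²/ρ⁴ = 2√2 K/ρ² ≤ C/ρ`, and `|z_j pd 4 χ| ≤ √2 ρ * 2√2 K/ρ² = 4 K/ρ` (on the support of `χ`).
`Lb a0 j χ = conj (L a0 j χ)` since `χ` is real (`conj_L`). -/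
def R_Inf : Prop := S_Inf

end Pool.Agent.CR5
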