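import Pool.Agent.Lib.CR5.F.Nn

/-!
# CR5, block F: definitions and statements (complete proofs in the docstrings)

Proved already (use freely): `F/Sq.lean` (`sq_nonneg'`, `sq_continuous`, `sq_congr`,
`sq_eq_of_open`, `sq_pd_le`, `sq_add_le`, `sqrt_sq_add_le`, `sq_const_mul`, `sq_neg`, `sq_conj`,
`sq_const`, `sq_mul_le` = Leibniz rule with squares) and `F/Nn.lean` (`intOn_sq`, `sqrt_int_add_le`
= Minkowski, `NN_nonneg`, `NN_term`, `NN_mono`, `NN_add_le`, `NN_const_mul`, `NN_congr`, `NN_sum_le`,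
`setInt_le_of_bdd`, `volB`, `NN_le_of_sup`).

Every statement `S_X` is to be proved as `theorem pX : S_X` (or `theorem pX (h : S_Y) : S_X` where
the docstring says that `S_Y` is used) in `Pool/Agent/Lib/CR5/F/X.lean`, namespace
`Pool.Agent.CR5`, importing this file.
-/

open MeasureTheory Set Filter Topology
open scoped ENNReal ComplexConjugate

noncomputable section

namespace Pool.Agent.CR5

/-- **Mix.** A test function is bounded by the `L¹` norm of its mixed derivative of order five.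
PROOF. For `v : ℝ → ℂ` of class `C¹` with compact support `‖v t‖ₑ ≤ ∫⁻ u, ‖deriv v u‖ₑ`
(Mathlib: `HasCompactSupport.enorm_le_lintegral_Ici_deriv`, the domain of integration is then
enlarged).  Transport `g` to `G : (Fin 5 → ℝ) → ℂ`, `G z = g (toLp 2 z)` (write `T` for this
transport); by the chain rule `u ↦ G (Function.update z i u)` has derivative
`(T (pd i g)) (Function.update z i u)` and compact support.  So, for every test function `g` and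
every `z`,
(*) `‖T g z‖ₑ ≤ ∫⁻ u, ‖T (pd i g) (Function.update z i u)‖ₑ`.
Now use `MeasureTheory.lmarginal` (`∫⋯∫⁻_s, f ∂μ` with `μ i = volume`): for `i ∉ s`
`(∫⋯∫⁻_s, ‖T g‖ₑ) z ≤ (∫⋯∫⁻_s, fun z ↦ ∫⁻ u, ‖T (pd i g) (update z i u)‖ₑ) z
  = (∫⋯∫⁻_(insert i s), ‖T (pd i g)‖ₑ) z` by `lmarginal_mono` with (*) and `lmarginal_insert'`.
Starting from `s = ∅` (`lmarginal_empty`) apply this with `i = 4, 3, 2, 1, 0`; at the end `s` is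
`Finset.univ` and `lmarginal_univ` gives `‖T g z‖ₑ ≤ ∫⁻ z, ‖T (pd 0 (pd 1 (pd 2 (pd 3 (pd 4 g))))) z‖ₑ`
for the volume `Measure.pi`, which is the volume of `Fin 5 → ℝ`; go back to `E5` with
`EuclideanSpace.volume_preserving_symm_measurableEquiv_toLp` (or the variant
`EuclideanSpace.volume_preserving_measurableEquiv`) and to the Bochner integral with
`ofReal_integral_norm_eq_lintegral_enorm` (`Tst.integrable` for the derivative, `Tst.pd`). -/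
def S_Mix : Prop := ∀ g : E5 → ℂ, Tst g → ∀ x : E5,
  ‖g x‖ ≤ ∫ y, ‖pd 0 (pd 1 (pd 2 (pd 3 (pd 4 g)))) y‖

/-- **Sca.** Scaling.  PROOF. By the chain rule `pd k (fun y ↦ f (c • (y - x0))) y
= c * pd k f (c • (y - x0))` (`fderiv` of the affine map is `c • id`; note
`fderiv f z (c • e5 k) = c • fderiv f z (e5 k)`).  Induction on `n` for all smooth `f`: `n = 0` is
trivial, and `sq (n+1)` of the left function is `∑ k, sq n (fun y ↦ c * pd k f (c • (y - x0))) x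
= ∑ k, c ^ 2 * sq n (fun y ↦ pd k f (c • (y - x0))) x` by `sq_const_mul`, then the induction
hypothesis. -/
def S_Sca : Prop := ∀ (n : ℕ) (f : E5 → ℂ), Sm f → ∀ (c : ℝ) (x0 x : E5),
  sq n (fun y => f (c • (y - x0))) x = (c ^ n) ^ 2 * sq n f (c • (x - x0))

/-- **Bmp.** Bump functions with bounds.  PROOF (uses `S_Sca`). Let `b` be a `ContDiffBump (0 : E5)`
with `rIn = 1/4`, `rOut = 1/2`, `φ x = (b x : ℂ)`; it is a test function, `φ 0 = 1`, `φ x = 0` for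
`‖x‖ ≥ 1/2`.  The functions `sq i φ` are continuous and vanish for `‖x‖ > 1/2` (`sq_congr` with the
zero function, `sq_zero_fun`), so they are bounded; let `C ≥ 1` with `sq i φ ≤ C ^ 2` for all
`i ≤ m` (finite maximum; for one `i` use `Continuous.bounded_above_of_compact_support` or the
maximum on the compact closed unit ball).  Put `ψ x = φ (s⁻¹ • (x - x0))`; by `S_Sca`
`sq i ψ x = ((s⁻¹) ^ i) ^ 2 * sq i φ _ ≤ (C / s ^ i) ^ 2`. -/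
def S_Bmp : Prop := ∀ m : ℕ, ∃ C ≥ 1, ∀ (x0 : E5) (s : ℝ), 0 < s → s ≤ 1 → ∃ ψ : E5 → ℂ,
  Tst ψ ∧ ψ x0 = 1 ∧ (∀ x, s / 2 ≤ dist x x0 → ψ x = 0) ∧ ∀ i ≤ m, ∀ x, sq i ψ x ≤ (C / s ^ i) ^ 2

/-- **Sob** = `S_SOB` of `Iface.lean`.  PROOF (uses `S_Mix`, `S_Bmp`).
(1) Let `ψ` be the function of `S_Bmp` for `m = 5` at `x0 = x` with radius `s`, `C1` its constant,
`g = ψ f` (test function), `G = pd 0 (pd 1 (pd 2 (pd 3 (pd 4 g))))`.  `S_Mix`: `‖f x‖ = ‖g x‖ ≤ ∫ ‖G‖`.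
`g = 0` at all points of distance `≥ s/2` from `x`, so `G = 0` at all points of distance `> s/2`
(locality: iterate `pd_congr`), hence `∫ ‖G‖ = ∫ y in ball x s, ‖G y‖`.
(2) Cauchy-Schwarz on the ball: `(∫ y in ball x s, ‖G y‖) ^ 2 ≤ vol (ball x s) * ∫ y in ball x s,
‖G y‖ ^ 2`, and `vol (ball x s) ≤ volB` (translation invariance and monotonicity,
`Measure.addHaar_ball_center`).
(3) `‖G y‖ ^ 2 = sq 0 G y ≤ sq 5 g y` by `sq_pd_le` five times, and by `sq_mul_le`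
`sq 5 (ψ f) y ≤ 4 ^ 5 * ∑ i ≤ 5, sq i ψ y * sq (5 - i) f y
≤ 4 ^ 5 * (C1 / s ^ 5) ^ 2 * ∑ j ≤ 5, sq j f y` (`s ≤ 1`).
(4) So `‖f x‖ ^ 2 ≤ A / s ^ 10 * ∑ j < 6, ∫ y in ball x s, sq j f y` with `A = volB * 4 ^ 5 * C1 ^ 2`.
(5) Induction on `i`, for all smooth `f`:
`sq i f x ≤ A / s ^ 10 * ∑ j < 6, ∫ y in ball x s, sq (i + j) f y`
(`sq (i+1) f x = ∑ k, sq i (pd k f) x`, exchange the sums and the integral, `intOn_sq` for the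
integrability).
(6) Square roots: `sqrt (∑) ≤ ∑ sqrt`, `sqrt (A / s ^ 10) = sqrt A / s ^ 5 ≤ (C / s) ^ 5` with
`C = max 1 A` (`sqrt A ≤ max 1 A ≤ C ^ 5`).  So `p = 5`. -/
def S_Sob : Prop := S_SOB

/-- **Sup.** Pointwise bounds from `NN`.  PROOF (uses `S_SOB`).  With the constants of `S_SOB`
`h (i+5) * sqrt (sq i f x) ≤ (C/s)^p * ∑ q < 6, h (i+5) * sqrt (∫ y in ball x s, sq (i+q) f y)`.
`ball x s ⊆ Ω` (definition of `Inn`), `h (i+5) ≤ h (i+q)` for `q ≤ 5` (`anti`), and monotonicity of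
the integral (`setIntegral_mono_set`, `intOn_sq`), so the sum is at most
`∑ q < 6, h (i+q) * sqrt (∫ y in Ω, sq (i+q) f y) ≤ NN h m Ω f`, because `i + q ≤ m` are six
different indices (a sum over the image of `range 6` under `q ↦ i + q`, a subset of
`range (m+1)`; all terms are nonnegative). -/
def S_Sup : Prop := ∃ (C : ℝ) (p : ℕ), 1 ≤ C ∧ ∀ (m : ℕ) (h : ℕ → ℝ), Adm h m → ∀ s : ℝ, 0 < s →
  s ≤ 1 → ∀ Ω' Ω : Set E5, Inn Ω' Ω s → Ω ⊆ Metric.ball 0 1 → ∀ f : E5 → ℂ, Sm f →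
  ∀ i, i + 5 ≤ m → ∀ x ∈ Ω', h (i + 5) * Real.sqrt (sq i f x) ≤ (C / s) ^ p * NN h m Ω f

/-- `f` has weighted sup and `L²` bounds `A` on `G`, with the weights shifted by `r`. -/
structure AO (h : ℕ → ℝ) (m : ℕ) (G : Set E5) (r : ℕ) (A : ℝ) (f : E5 → ℂ) : Prop where
  sup : ∀ i, r + i + 5 ≤ m → ∀ x ∈ G, h (r + i + 5) ^ 2 * sq i f x ≤ A ^ 2
  l2 : ∀ i, r + i ≤ m → h (r + i) ^ 2 * ∫ x in G, sq i f x ≤ A ^ 2

/-- **Aof.** PROOF (uses `S_Sup`). `sup` with `r = 0` is the square of `S_Sup`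
(`(h (i+5) * sqrt (sq i f x)) ^ 2 = h (i+5) ^ 2 * sq i f x`).  `l2`: `h i * sqrt (∫ x in Ω', sq i f)
≤ NN h m Ω' f ≤ NN h m Ω f ≤ (C/s)^p * NN h m Ω f` (`NN_term`, `NN_mono`, `1 ≤ (C/s)^p` because
`C ≥ 1 ≥ s`), then square. -/
def S_Aof : Prop := ∃ (C : ℝ) (p : ℕ), 1 ≤ C ∧ ∀ (m : ℕ) (h : ℕ → ℝ), Adm h m → ∀ s : ℝ, 0 < s →
  s ≤ 1 → ∀ Ω' Ω : Set E5, Ω' ⊆ Ω → Inn Ω' Ω s → Ω ⊆ Metric.ball 0 1 → ∀ f : E5 → ℂ, Sm f →
  AO h m Ω' 0 ((C / s) ^ p * NN h m Ω f) f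

/-- **Aon.** PROOF. Each term `h i * sqrt (∫ x in G, sq i f x)` of `NN` is at most `A` (square root
of `l2` with `r = 0`), and there are `m + 1` terms. -/
def S_Aon : Prop := ∀ (h : ℕ → ℝ) (m : ℕ) (G : Set E5) (A : ℝ) (f : E5 → ℂ), (∀ i, 0 < h i) →
  0 ≤ A → AO h m G 0 A f → NN h m G f ≤ (m + 1) * A

/-- **Aoa.** Sums, derivatives and shifts.  PROOF. (sum) `sqrt_sq_add_le` and `sqrt_int_add_le`:
`h * sqrt (sq i (f+g) x) ≤ h * sqrt (sq i f x) + h * sqrt (sq i g x) ≤ A + B`, then square; the same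
for the integrals over `G` (`intOn_sq`).  (derivative) `sq i (pd k f) x ≤ sq (i+1) f x`
(`sq_pd_le`) and `(r+1) + i = r + (i+1)`; monotonicity of the integral.  (shift) `h (r+1+i+5) ≤
h (r+i+5)`, `h (r+1+i) ≤ h (r+i)` (`anti`), squares of nonnegative numbers, and `r + i ≤ m` follows
from `r + 1 + i ≤ m`. -/
def S_Aoa : Prop := ∀ (h : ℕ → ℝ) (m : ℕ) (G : Set E5), Adm h m → G ⊆ Metric.ball 0 1 →
  (∀ (r : ℕ) (A B : ℝ) (f g : E5 → ℂ), Sm f → Sm g → 0 ≤ A → 0 ≤ B → AO h m G r A f →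
    AO h m G r B g → AO h m G r (A + B) (fun x => f x + g x)) ∧
  (∀ (r : ℕ) (A : ℝ) (f : E5 → ℂ) (k : Fin 5), Sm f → AO h m G r A f →
    AO h m G (r + 1) A (pd k f)) ∧
  (∀ (r : ℕ) (A : ℝ) (f : E5 → ℂ), AO h m G r A f → AO h m G (r + 1) A f)

/-- **Aop.** Products (the algebra property).  PROOF. Let `C = 4 ^ m * (m + 1)`, so
`4 ^ i * (i + 1) ≤ C ≤ C ^ 2` for `i ≤ m`.  By `sq_mul_le`
`sq i (f g) x ≤ 4 ^ i * ∑ j ≤ i, sq j f x * sq (i - j) g x`.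
(l2) Let `r + r' + i ≤ m`, `j ≤ i`, `u = r + j`, `v = r' + (i - j)`, so `u + v = r + r' + i`.
CLAIM `h (u + v) ^ 2 * ∫ x in G, sq j f x * sq (i-j) g x ≤ A ^ 2 * B ^ 2`.
If `u ≤ v`: `Adm.mul` gives `h (u+v) ≤ h (u+5) * h v`; `u ≤ m / 2`, so `u + 5 ≤ m` (because
`10 ≤ m`), so `h (u+5) ^ 2 * sq j f x ≤ A ^ 2` on `G`, hence
`h (u+v) ^ 2 * ∫ ≤ ∫ (h (u+5) ^ 2 * sq j f x) * (h v ^ 2 * sq (i-j) g x) ≤ A ^ 2 * h v ^ 2 *
∫ sq (i-j) g ≤ A ^ 2 * B ^ 2` (`setIntegral_mono_on`, `G` is open and bounded, everything is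
continuous, `intOn_cont`).  If `v < u` exchange the roles.
(sup) Let `r + r' + i + 5 ≤ m` and `u`, `v` as before.  If `u ≤ v + 5` then `h (u + (v+5)) ≤
h (u+5) * h (v+5)`; otherwise `v ≤ u + 5` and `h (v + (u+5)) ≤ h (v+5) * h (u+5)`.  So
`h (r+r'+i+5) ^ 2 * sq j f x * sq (i-j) g x ≤ A ^ 2 * B ^ 2` for `x ∈ G` (both sup bounds apply:
`u + 5 ≤ m`, `v + 5 ≤ m`).
In both cases the sum over `j ≤ i` gives `4 ^ i * (i+1) * A ^ 2 * B ^ 2 ≤ (C * A * B) ^ 2`. -/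
def S_Aop : Prop := ∀ m : ℕ, ∃ C ≥ 1, ∀ (h : ℕ → ℝ), Adm h m → ∀ G : Set E5, IsOpen G →
  G ⊆ Metric.ball 0 1 → ∀ (r r' : ℕ) (A B : ℝ) (f g : E5 → ℂ), Sm f → Sm g → 0 ≤ A → 0 ≤ B →
  AO h m G r A f → AO h m G r' B g → AO h m G (r + r') (C * A * B) (fun x => f x * g x)

/-- The operator `f ↦ ∂_k f + (∂_k φ) f = e^{-φ} ∂_k (e^φ f)`. -/
def Tk (φ : E5 → ℂ) (k : Fin 5) (f : E5 → ℂ) : E5 → ℂ := fun x => pd k f x + pd k φ x * f x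

/-- Sum of the squares of all `T_{k_1} ... T_{k_n} f`. -/
def tq (φ : E5 → ℂ) : ℕ → (E5 → ℂ) → E5 → ℝ
  | 0, f => fun x => ‖f x‖ ^ 2
  | n + 1, f => fun x => ∑ k : Fin 5, tq φ n (Tk φ k f) x

/-- **Tqe.** PROOF. `pd k (e^φ f) = e^φ * Tk φ k f` (`pd_mul`, `pd_cexp`).  Induction on `n` for all
smooth `f`: `sq (n+1) (e^φ f) = ∑ k, sq n (e^φ * Tk φ k f) = ‖e^φ‖ ^ 2 * ∑ k, tq φ n (Tk φ k f)`. -/
def S_Tqe : Prop := ∀ (φ : E5 → ℂ), Sm φ → ∀ (n : ℕ) (f : E5 → ℂ), Sm f → ∀ x,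
  sq n (fun y => Complex.exp (φ y) * f y) x = ‖Complex.exp (φ x)‖ ^ 2 * tq φ n f x

/-- **Tqb.** PROOF (uses `S_Aoa`, `S_Aop`).  Let `C0` be the constant of `S_Aop` for `m` and
`C = 2 * C0`.
STEP: if `AO h m G r A f` and `AO h m G 0 P φ` then `AO h m G (r+1) (C * (1+P) * A) (Tk φ k f)`.
Indeed `pd k f` has `AO (r+1) A` and `pd k φ` has `AO 1 P` (`S_Aoa`), so `pd k φ * f` has
`AO (1 + r) (C0 * P * A)` (`S_Aop`), the sum has `AO (r+1) (A + C0 * P * A)`, and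
`A + C0 P A ≤ C (1+P) A` (an `AO` bound may be enlarged: `A ^ 2 ≤ A' ^ 2` for `0 ≤ A ≤ A'`).
BOUND: by induction on `n`, for all `r`, `A ≥ 0`, smooth `f` with `AO h m G r A f` and `r + n ≤ m`:
`h (r+n) ^ 2 * ∫ x in G, tq φ n f x ≤ (5 * (C * (1+P)) ^ (2 : ℕ)) ^ n * A ^ 2`.
`n = 0`: `l2` with `i = 0`.  `n + 1`: `tq φ (n+1) f = ∑ k, tq φ n (Tk φ k f)`, apply the induction
hypothesis to the five functions `Tk φ k f` with `r + 1` and `C * (1+P) * A` and add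
(`integral_finset_sum`; `tq φ n f` is continuous for smooth `f`, `intOn_cont`). -/
def S_Tqb : Prop := ∀ m : ℕ, ∃ C ≥ 1, ∀ (h : ℕ → ℝ), Adm h m → ∀ G : Set E5, IsOpen G →
  G ⊆ Metric.ball 0 1 → ∀ (P A : ℝ) (φ f : E5 → ℂ), Sm φ → Sm f → 0 ≤ P → 0 ≤ A →
  AO h m G 0 P φ → AO h m G 0 A f → ∀ n ≤ m,
  h n ^ 2 * ∫ x in G, tq φ n f x ≤ (5 * (C * (1 + P)) ^ 2) ^ n * A ^ 2

/-- **Exp0.** PROOF (uses `S_Tqe`, `S_Tqb`).  For `n ≤ m`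
`∫ x in G, sq n (e^φ f) x = ∫ x in G, ‖e^φ‖ ^ 2 * tq φ n f x ≤ M ^ 2 * ∫ x in G, tq φ n f x`, so
`h n * sqrt (∫ x in G, sq n (e^φ f) x) ≤ M * sqrt ((5 * (C0 * (1+P)) ^ 2) ^ n * A ^ 2)
≤ M * (5 * C0 * (1+P)) ^ m * A` (`5 * (C0 (1+P)) ^ 2 ≤ (5 C0 (1+P)) ^ 2`, base `≥ 1`, `n ≤ m`).
Sum over the `m + 1` values of `n`: the constant `C = (m+1) * (5 * C0) ^ m` works. -/
def S_Exp0 : Prop := ∀ m : ℕ, ∃ C ≥ 1, ∀ (h : ℕ → ℝ), Adm h m → ∀ G : Set E5, IsOpen G →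
  G ⊆ Metric.ball 0 1 → ∀ (P A M : ℝ) (φ f : E5 → ℂ), Sm φ → Sm f → 0 ≤ P → 0 ≤ A → 0 ≤ M →
  AO h m G 0 P φ → AO h m G 0 A f → (∀ x ∈ G, ‖Complex.exp (φ x)‖ ≤ M) →
  NN h m G (fun x => Complex.exp (φ x) * f x) ≤ C * (1 + P) ^ m * M * A

/-- **Expo** = `S_EXPO` of `Iface.lean`.  PROOF (uses `S_Aof`, `S_Exp0`).  Let `C1, p1` be the
constants of `S_Aof`, `C2` that of `S_Exp0` for `m`.  `φ = I * Δ * g`; `NN h m Ω φ = |Δ| * NN h m Ω g`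
(`NN_const_mul`).  `S_Aof` for `φ` and `f` on `Ω'`, restricted to `G ⊆ Ω'` (an `AO` bound restricts
to subsets: the sup part is clear, the `l2` part by `setIntegral_mono_set`), gives
`P = (C1/s)^p1 * |Δ| * N g` and `A = (C1/s)^p1 * N f`.  So
`NN ≤ C2 * (1 + P) ^ m * M * A` and `1 + P ≤ (C1/s)^p1 * (1 + |Δ|) * (1 + N g)`.  Hence the claim
with `p = p1 * (m + 1) + 1`, `C = C1 * C2` (`C2 ≤ C2 / s ≤ C / s`). -/
def S_Expo : Prop := S_EXPO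

/-- **Pr** = `S_PR` of `Iface.lean`.  PROOF (uses `S_Aof`, `S_Aon`, `S_Aop`).  `S_Aof` for `f` and
`g` on `Ω'`, `S_Aop` with `r = r' = 0`, `S_Aon`:
`NN h m Ω' (f g) ≤ (m+1) * C0 * (C1/s)^p1 * N f * (C1/s)^p1 * N g`; take `p = 2 * p1 + 1`,
`C = C1 * C0 * (m+1)`. -/
def S_Pr : Prop := S_PR

/-- **Pb** = `S_PB` of `Iface.lean`.  PROOF.  On `Ω`, for `n ≤ m`, by `sq_mul_le`
`sq n (g f) ≤ 4 ^ n * ∑ j ≤ n, sq j g * sq (n-j) f ≤ 4 ^ n * M ^ 2 * ∑ j ≤ n, sq (n-j) f`, so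
`sqrt (∫ x in Ω, sq n (g f)) ≤ 2 ^ n * M * ∑ j ≤ n, sqrt (∫ x in Ω, sq (n-j) f)`
(`Real.sqrt` of a finite sum is at most the sum of the square roots), and since `h n ≤ h (n-j)`
`h n * sqrt (∫ x in Ω, sq n (g f)) ≤ 2 ^ n * M * NN h m Ω f`.  Sum over `n ≤ m`:
`C = (m+1) * 2 ^ m`. -/
def S_Pb : Prop := S_PB

/-- **Ptw.** Pointwise product.  PROOF. `sq_mul_le`: `sq i (f g) x ≤ 4 ^ i * ∑ j ≤ i, A ^ 2 * B ^ 2
= 4 ^ i * (i+1) * A ^ 2 * B ^ 2 ≤ (C * A * B) ^ 2` with `C = 4 ^ n * (n+1)`. -/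
def S_Ptw : Prop := ∀ n : ℕ, ∃ C ≥ 1, ∀ (f g : E5 → ℂ) (A B : ℝ) (x : E5), Sm f → Sm g →
  (∀ i ≤ n, sq i f x ≤ A ^ 2) → (∀ i ≤ n, sq i g x ≤ B ^ 2) →
  ∀ i ≤ n, sq i (fun y => f y * g y) x ≤ (C * A * B) ^ 2

/-- **Inv.** Pointwise bounds of a reciprocal.  PROOF. Let `u = 1 / g` (smooth), `G = ‖g x‖ > 0`.
`pd k u = -(u * (u * pd k g))`.  By strong induction on `i ≤ n` there is `c_i ≥ 1` (independent of
`g, x, B`; take `c_0 = 1`) with `sq i u x ≤ (c_i * B ^ i / G) ^ 2`: by `sq_neg` and `sq_mul_le`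
twice
`sq (i+1) u x = ∑ k, sq i (u * (u * pd k g)) x
≤ ∑ k, 4 ^ i * ∑ j ≤ i, sq j u x * (4 ^ (i-j) * ∑ l ≤ i-j, sq l u x * sq (i-j-l) (pd k g) x)`,
`sq (i-j-l) (pd k g) x ≤ sq (i-j-l+1) g x ≤ (B * G) ^ 2` (`sq_pd_le`), so with `c` = the largest of
`c_0, ..., c_i` every term is at most `(c * B ^ j / G) ^ 2 * (c * B ^ l / G) ^ 2 * (B * G) ^ 2
≤ c ^ 4 * (B ^ (i+1) / G) ^ 2` (`B ≥ 1`, `j + l + 1 ≤ i + 1`).  So
`c_{i+1} ^ 2 = 5 * 16 ^ i * (i+1) ^ 2 * c ^ 4` works.  `C` = the largest of `c_0, ..., c_n`. -/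
def S_Inv : Prop := ∀ n : ℕ, ∃ C ≥ 1, ∀ g : E5 → ℂ, Sm g → (∀ y, g y ≠ 0) → ∀ (x : E5) (B : ℝ),
  1 ≤ B → (∀ i ≤ n, sq i g x ≤ (B * ‖g x‖) ^ 2) →
  ∀ i ≤ n, sq i (fun y => 1 / g y) x ≤ (C * B ^ i / ‖g x‖) ^ 2

/-- **Ept.** Pointwise bounds of an exponential.  PROOF. `pd k (e^φ) = e^φ * pd k φ` (`pd_cexp`).
By induction on `i ≤ n` there is `c_i ≥ 1` with `sq i (e^φ) x ≤ (c_i * B ^ i * ‖e^φ(x)‖) ^ 2`
(strong induction; `c_0 = 1`): by `sq_mul_le`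
`sq (i+1) (e^φ) x = ∑ k, sq i (e^φ * pd k φ) x ≤ ∑ k, 4 ^ i * ∑ j ≤ i, sq j (e^φ) x *
sq (i-j) (pd k φ) x`, `sq (i-j) (pd k φ) x ≤ sq (i-j+1) φ x ≤ B ^ 2`, so with `c` the largest of
`c_0, ..., c_i` it is at most `5 * 4 ^ i * (i+1) * c ^ 2 * B ^ (2*i) * B ^ 2 * ‖e^φ(x)‖ ^ 2`. -/
def S_Ept : Prop := ∀ n : ℕ, ∃ C ≥ 1, ∀ φ : E5 → ℂ, Sm φ → ∀ (x : E5) (B : ℝ), 1 ≤ B →
  (∀ i, 1 ≤ i → i ≤ n → sq i φ x ≤ B ^ 2) →
  ∀ i ≤ n, sq i (fun y => Complex.exp (φ y)) x ≤ (C * B ^ i * ‖Complex.exp (φ x)‖) ^ 2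

/-- **Wt1.** The weights `1` are admissible of order `10`.  Trivial. -/
def S_Wt1 : Prop := Adm (fun _ => 1) MM

/-- **Wt2.** Extension of weights.  PROOF. Let `θ` be the smallest of `η`, `h (m+1)`, and
the products `h (i+5) * h (m+1-i)`, `1 ≤ i ≤ (m+1)/2` (all positive; note `i + 5 ≤ m` because
`m ≥ 10`), and put `h' i = h i` for `i ≤ m` and `h' i = min (h i) θ` for `i > m`.  `one`, `pos`,
`anti` are clear (`h (m+1) ≤ h m`, and `min` with a constant is monotone).  `mul` for `i ≤ l`,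
`i + l ≤ m`: the indices `i + l`, `l` are `≤ m`, and `i + 5 ≤ m` (because `i ≤ m/2`, `m ≥ 10`), so
it is `mul` for `h`.  `mul` for `i + l = m + 1`: if `i = 0` it is `h' (m+1) ≤ h' 5 * h' (m+1)` with
`h' 5 = h 5 = 1`; if `i ≥ 1` then `l ≤ m`, `i + 5 ≤ m`, `h' (m+1) ≤ θ ≤ h (i+5) * h l`. -/
def S_Wt2 : Prop := ∀ (h : ℕ → ℝ) (m : ℕ) (η : ℝ), Adm h m → 0 < η → ∃ h' : ℕ → ℝ,
  (∀ i ≤ m, h' i = h i) ∧ h' (m + 1) ≤ η ∧ (∀ i, h' i ≤ h i) ∧ Adm h' (m + 1)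

/-- The convolution of the indicator of `A` with `ρ`. -/
def cv (A : Set E5) (ρ : E5 → ℂ) : E5 → ℂ := fun x => ∫ y in A, ρ (x - y)

/-- **Cnv.** PROOF. `cv A ρ` is the convolution `ρ ⋆ 1_A` for the bilinear map
`ContinuousLinearMap.mul ℝ ℂ` (or `lsmul`): `∫ t, ρ t * 1_A (x - t) = ∫ y, ρ (x - y) * 1_A y`
(substitution `t = x - y`, `integral_sub_left_eq_self`; `convolution_eq_swap`).  The indicator of
a measurable set is locally integrable.  `HasCompactSupport.contDiff_convolution_left` gives the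
smoothness and `HasCompactSupport.hasFDerivAt_convolution_left` the derivative; evaluate it at
`e5 k` (`ContinuousLinearMap.integral_apply`-type lemma, the integrand is integrable because it is
bounded with compact support). -/
def S_Cnv : Prop := ∀ (A : Set E5), MeasurableSet A → ∀ ρ : E5 → ℂ, Tst ρ →
  Sm (cv A ρ) ∧ ∀ k x, pd k (cv A ρ) x = cv A (pd k ρ) x

/-- **Cut1.** Cutoff functions at the scale one.  PROOF (uses `S_Cnv`).  Let `b` be a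
`ContDiffBump (0 : E5)` with `rIn = 1/4`, `rOut = 3/8`, `ρ x = (b.normed volume x : ℂ)`: smooth,
nonnegative, integral one, zero for `‖x‖ ≥ 3/8`.  `A1 = Metric.thickening (5/8) A` (open),
`χ = cv A1 ρ`.  It is smooth (`S_Cnv`), its values are real and between `0` and `∫ ρ = 1`.
If `dist x y < 1/4` with `y ∈ A` then `ball x (3/8) ⊆ A1`, so `ρ (x - z) = 0` for `z ∉ A1` and
`χ x = ∫ ρ (x - z) dz = 1`.  If `χ x ≠ 0` there is `z ∈ A1` with `ρ (x - z) ≠ 0`, so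
`dist x z < 3/8`, and a `y ∈ A` with `dist z y < 5/8`; so `dist x y < 1`.
BOUNDS: for every test function `q` with `q = 0` outside the unit ball,
`‖cv A1 q x‖ ^ 2 ≤ (∫ ‖q‖) ^ 2 ≤ volB * ∫ ‖q‖ ^ 2` (Cauchy-Schwarz on the unit ball), so by induction
on `i` (`pd k (cv A1 q) = cv A1 (pd k q)`, and `pd k q` vanishes outside the unit ball as well if `q`
vanishes outside a smaller ball; better: assume `tsupport q ⊆ ball 0 1`, which passes to `pd k q`)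
`sq i (cv A1 q) x ≤ volB * ∫ sq i q`.  Take `C ≥ 1` with `volB * ∫ sq i ρ ≤ C ^ 2` for `i ≤ m`. -/
def S_Cut1 : Prop := ∀ m : ℕ, ∃ C ≥ 1, ∀ (A : Set E5),
  ∃ χ : E5 → ℂ, Sm χ ∧ (∀ x, ∃ r : ℝ, 0 ≤ r ∧ r ≤ 1 ∧ χ x = r) ∧
  (∀ y ∈ A, ∀ x, dist x y < 1 / 4 → χ x = 1) ∧
  (∀ x, χ x ≠ 0 → ∃ y ∈ A, dist x y < 1) ∧ ∀ i ≤ m, ∀ x, sq i χ x ≤ C ^ 2

/-- **Cut2** = `S_CUT2` of `Iface.lean`.  PROOF (uses `S_Cut1`, `S_Sca`).  Apply `S_Cut1` to the set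
`{z | s • z ∈ A}` and put `χ x = χ1 (s⁻¹ • x)` (`S_Sca` with `c = s⁻¹`, `x0 = 0`);
`dist x y < s / 4 ↔ dist (s⁻¹ • x) (s⁻¹ • y) < 1 / 4` (`dist_smul₀`), and
`sq i χ x = (s⁻¹ ^ i) ^ 2 * sq i χ1 _ ≤ (C / s ^ i) ^ 2`. -/
def S_Cut2 : Prop := S_CUT2

end Pool.Agent.CR5
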