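import Pool.Agent.Lib.CR5.AllC
import Pool.Agent.Lib.CR5.AllD
import Pool.Agent.Lib.CR5.E.All
import Pool.Agent.Lib.CR5.AllG
import Pool.Agent.Lib.CR5.H.hCore
import Pool.Agent.Lib.CR5.H.hEnd
import Pool.Agent.Lib.CR5.H.hGd
import Pool.Agent.Lib.CR5.H.hHyp
import Pool.Agent.Lib.CR5.H.hLim
import Pool.Agent.Lib.CR5.H.hPr
import Pool.Agent.Lib.CR5.H.hR
import Pool.Agent.Lib.CR5.H.hSeq
import Pool.Agent.Lib.CR5.H.hSt0
import Pool.Agent.Lib.CR5.H.hStp
import Pool.Agent.Lib.CR5.H.hSup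
import Pool.Agent.Lib.CR5.H.hUp
import Pool.Agent.Lib.CR5.H.stCm
import Pool.Agent.Lib.CR5.H.stCt
import Pool.Agent.Lib.CR5.H.stEn
import Pool.Agent.Lib.CR5.H.stFin
import Pool.Agent.Lib.CR5.H.stGm
import Pool.Agent.Lib.CR5.H.stIt
import Pool.Agent.Lib.CR5.H.stJ
import Pool.Agent.Lib.CR5.H.stMu
import Pool.Agent.Lib.CR5.H.stSp
import Pool.Agent.Lib.CR5.H.stT
import Pool.Agent.Lib.CR5.H.stUn

/-!
# CR5: the core theorem without hypotheses
-/

open MeasureTheory Set Filter Topology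
open scoped ENNReal ComplexConjugate

noncomputable section

namespace Pool.Agent.CR5

theorem okLOC : S_LOC := eLOC okBas okCUT2

theorem okSUB : S_SUB := subOf okEX okLIN okLOC

theorem okStage : S_STG :=
  stage_of okSUB okEXPO okLGW okGEO okCUT2 okPB okSup okPR pstJ pstT pstUn pstIt pstCt pstMu pstSp
    pstGm pstEn pstCm pstFin

/-- The core theorem: integrable structures on `ℝ⁵` close to the Heisenberg structure are
embeddable on a ball of fixed radius. -/
theorem okCORE : S_CORE :=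
  phCore okStage okELP okSOB pWt1 pWt2 phPr phGd phHyp phStp phUp phSeq phSup phLim phSt0 phR phEnd
    pgBdE

end Pool.Agent.CR5
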