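import Pool.Agent.Lib.CR5.SpecH1
import Pool.Agent.Lib.CR5.H.stJ
import Pool.Agent.Lib.CR5.H.stT
import Pool.Agent.Lib.CR5.H.stUn
import Pool.Agent.Lib.CR5.H.stIt
import Pool.Agent.Lib.CR5.H.stCt
import Pool.Agent.Lib.CR5.H.stMu
import Pool.Agent.Lib.CR5.H.stSp
import Pool.Agent.Lib.CR5.H.stGm
import Pool.Agent.Lib.CR5.H.stEn
import Pool.Agent.Lib.CR5.H.stCm
import Pool.Agent.Lib.CR5.H.stFin
import Pool.Agent.Lib.CR5.AllG

/-!
# CR5: block H1, assembly

The stage `S_STG` from the substep `S_SUB`.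
-/

noncomputable section

namespace Pool.Agent.CR5

/-- The stage from the substep. -/
theorem okSTG (h : S_SUB) : S_STG :=
  stage_of h okEXPO okLGW okGEO okCUT2 okPB okSup okPR pstJ pstT pstUn pstIt pstCt pstMu pstSp pstGm
    pstEn pstCm pstFin

/-- The stage from the global, the existence and the interior estimates. -/
theorem stgOf (hEX : S_EX) (hLIN : S_LIN) (hLOC : S_LOC) : S_STG := okSTG (subOf hEX hLIN hLOC)

end Pool.Agent.CR5
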