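import Pool.Agent.Lib.CR5.Defs

/-!
# CR5: basic calculus of the operators
-/

open MeasureTheory Set Filter Topology
open scoped ENNReal ComplexConjugate

noncomputable section

namespace Pool.Agent.CR5

/-! ### Smooth functions -/

theorem Sm.contDiff {f : E5 → ℂ} (h : Sm f) : ContDiff ℝ (⊤ : ℕ∞) f := h

theorem Sm.diff {f : E5 → ℂ} (h : Sm f) : Differentiable ℝ f :=
  ContDiff.differentiable h (by norm_num)

theorem Sm.diffAt {f : E5 → ℂ} (h : Sm f) (x : E5) : DifferentiableAt ℝ f x := h.diff x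

theorem Sm.cont {f : E5 → ℂ} (h : Sm f) : Continuous f := ContDiff.continuous h

theorem Sm.add {f g : E5 → ℂ} (hf : Sm f) (hg : Sm g) : Sm fun x => f x + g x :=
  ContDiff.add hf hg

theorem Sm.sub {f g : E5 → ℂ} (hf : Sm f) (hg : Sm g) : Sm fun x => f x - g x :=
  ContDiff.sub hf hg

theorem Sm.neg {f : E5 → ℂ} (hf : Sm f) : Sm fun x => -f x := ContDiff.neg hf

theorem Sm.mul {f g : E5 → ℂ} (hf : Sm f) (hg : Sm g) : Sm fun x => f x * g x :=
  ContDiff.mul hf hg

theorem Sm.const (c : ℂ) : Sm fun _ => c := contDiff_const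

theorem Sm.pow {f : E5 → ℂ} (hf : Sm f) (n : ℕ) : Sm fun x => f x ^ n := ContDiff.pow hf n

theorem Sm.sum {ι : Type*} (s : Finset ι) {f : ι → E5 → ℂ} (hf : ∀ i ∈ s, Sm (f i)) :
    Sm fun x => ∑ i ∈ s, f i x :=
  ContDiff.sum hf

theorem contDiff_conj : ContDiff ℝ (⊤ : ℕ∞) (fun z : ℂ => conj z) :=
  Complex.conjCLE.contDiff

theorem Sm.conj {f : E5 → ℂ} (hf : Sm f) : Sm fun x => conj (f x) :=
  contDiff_conj.comp hf

theorem Sm.ofReal {f : E5 → ℝ} (hf : ContDiff ℝ (⊤ : ℕ∞) f) : Sm fun x => (f x : ℂ) :=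
  Complex.ofRealCLM.contDiff.comp hf

theorem contDiff_coord (i : Fin 5) : ContDiff ℝ (⊤ : ℕ∞) (fun x : E5 => x i) :=
  (EuclideanSpace.proj i : E5 →L[ℝ] ℝ).contDiff

theorem Sm.coord (i : Fin 5) : Sm fun x => (x i : ℂ) := Sm.ofReal (contDiff_coord i)

theorem Sm.cexp {f : E5 → ℂ} (hf : Sm f) : Sm fun x => Complex.exp (f x) :=
  ContDiff.cexp hf

theorem Sm.pd {f : E5 → ℂ} (hf : Sm f) (i : Fin 5) : Sm (pd i f) := by
  have h1 : ContDiff ℝ (⊤ : ℕ∞) (fderiv ℝ f) := ContDiff.fderiv_right hf (by simp)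
  exact h1.clm_apply contDiff_const

theorem Sm.dz {f : E5 → ℂ} (hf : Sm f) (l : Fin 3) : Sm (dz l f) := by
  unfold CR5.dz
  by_cases h0 : l = 0
  · simp only [h0, if_true]
    exact ((hf.pd 0).sub ((Sm.const _).mul (hf.pd 1))).div_const 2
  · by_cases h1 : l = 1
    · simp only [h1]
      exact ((hf.pd 2).sub ((Sm.const _).mul (hf.pd 3))).div_const 2
    · simp only [h0, h1, if_false]
      exact hf.pd 4

theorem Sm.db {f : E5 → ℂ} (hf : Sm f) (l : Fin 3) : Sm (db l f) := by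
  unfold CR5.db
  by_cases h0 : l = 0
  · simp only [h0, if_true]
    exact ((hf.pd 0).add ((Sm.const _).mul (hf.pd 1))).div_const 2
  · by_cases h1 : l = 1
    · simp only [h1]
      exact ((hf.pd 2).add ((Sm.const _).mul (hf.pd 3))).div_const 2
    · simp only [h0, h1, if_false]
      exact hf.pd 4

theorem Sm.zc (j : Fin 2) : Sm (zc j) := by
  unfold CR5.zc
  by_cases h : j = 0
  · simp only [h, if_true]
    exact (Sm.coord 0).add ((Sm.const _).mul (Sm.coord 1))
  · simp only [h, if_false]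
    exact (Sm.coord 2).add ((Sm.const _).mul (Sm.coord 3))

/-- All coefficients are smooth. -/
def SmS (a : Str) : Prop := ∀ j l, Sm (a j l)

theorem smS_a0 : SmS a0 := by
  intro j l
  unfold a0
  by_cases h : l = 2
  · simp only [h, if_true]
    exact ((Sm.const _).mul (Sm.zc j)).neg
  · simp only [h, if_false]
    exact Sm.const 0

theorem Near.smS {a : Str} {m : ℕ} {ε : ℝ} (h : Near a m ε) : SmS a := h.sm

theorem Sm.L {a : Str} (ha : SmS a) (j : Fin 2) {f : E5 → ℂ} (hf : Sm f) : Sm (L a j f) :=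
  (hf.db _).add (Sm.sum _ fun l _ => (ha j l).mul (hf.dz l))

theorem Sm.Lb {a : Str} (ha : SmS a) (j : Fin 2) {f : E5 → ℂ} (hf : Sm f) : Sm (Lb a j f) :=
  (hf.dz _).add (Sm.sum _ fun l _ => (ha j l).conj.mul (hf.db l))

theorem Sm.Ls {a : Str} (ha : SmS a) (j : Fin 2) {g : E5 → ℂ} (hg : Sm g) : Sm (Ls a j g) :=
  (hg.dz _).neg.sub (Sm.sum _ fun l _ => ((ha j l).conj.mul hg).db l)

theorem Sm.D0 {a : Str} (ha : SmS a) {f : E5 → ℂ} (hf : Sm f) (j : Fin 2) : Sm (D0 a f j) :=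
  hf.L ha j

theorem Sm.D0s {a : Str} (ha : SmS a) {w : F2} (hw : ∀ j, Sm (w j)) : Sm (D0s a w) :=
  ((hw 0).Ls ha 0).add ((hw 1).Ls ha 1)

theorem Sm.D1 {a : Str} (ha : SmS a) {w : F2} (hw : ∀ j, Sm (w j)) : Sm (D1 a w) :=
  ((hw 1).L ha 0).sub ((hw 0).L ha 1)

theorem Sm.D1s {a : Str} (ha : SmS a) {v : E5 → ℂ} (hv : Sm v) (j : Fin 2) :
    Sm (D1s a v j) := by
  unfold CR5.D1s
  by_cases h : j = 0
  · simp only [h, if_true]; exact (hv.Ls ha 1).neg
  · simp only [h, if_false]; exact hv.Ls ha 0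

theorem Sm.Box {a : Str} (ha : SmS a) {w : F2} (hw : ∀ j, Sm (w j)) (j : Fin 2) :
    Sm (Box a w j) :=
  ((Sm.D0s ha hw).D0 ha j).add ((Sm.D1 ha hw).D1s ha j)

theorem Sm.kap {a : Str} (ha : SmS a) (l : Fin 3) : Sm (kap a l) :=
  ((ha 1 l).L ha 0).sub ((ha 0 l).L ha 1)

theorem Sm.Kap {a : Str} (ha : SmS a) {f : E5 → ℂ} (hf : Sm f) : Sm (Kap a f) :=
  Sm.sum _ fun l _ => (Sm.kap ha l).mul (hf.dz l)

theorem Sm.Kaps {a : Str} (ha : SmS a) {g : E5 → ℂ} (hg : Sm g) : Sm (Kaps a g) :=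
  (Sm.sum _ fun l _ => ((Sm.kap ha l).conj.mul hg).db l).neg

theorem contDiff_zco (k : Fin 5) : ContDiff ℝ (⊤ : ℕ∞) (zco k) := by
  unfold zco
  by_cases h0 : k = 0
  · simp only [h0, if_true]; exact contDiff_const.mul (contDiff_coord 1)
  by_cases h1 : k = 1
  · simp only [h1]; exact contDiff_const.mul (contDiff_coord 0)
  by_cases h2 : k = 2
  · simp only [h2]; exact contDiff_const.mul (contDiff_coord 3)
  by_cases h3 : k = 3
  · simp only [h3]; exact contDiff_const.mul (contDiff_coord 2)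
  simp only [h0, h1, h2, h3, if_false]
  exact contDiff_const

theorem Sm.Zf {f : E5 → ℂ} (hf : Sm f) (k : Fin 5) : Sm (Zf k f) :=
  (hf.pd k).add ((Sm.ofReal (contDiff_zco k)).mul (hf.pd 4))

theorem Sm.ZL {f : E5 → ℂ} (hf : Sm f) : ∀ I : List (Fin 5), Sm (ZL I f)
  | [] => hf
  | k :: I => (Sm.ZL hf I).Zf k

/-! ### Rules for the partial derivatives -/

theorem pd_add {f g : E5 → ℂ} (hf : Sm f) (hg : Sm g) (i : Fin 5) (x : E5) :
    pd i (fun y => f y + g y) x = pd i f x + pd i g x := by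
  unfold pd
  rw [fderiv_fun_add (hf.diffAt x) (hg.diffAt x)]; rfl

theorem pd_sub {f g : E5 → ℂ} (hf : Sm f) (hg : Sm g) (i : Fin 5) (x : E5) :
    pd i (fun y => f y - g y) x = pd i f x - pd i g x := by
  unfold pd
  rw [fderiv_fun_sub (hf.diffAt x) (hg.diffAt x)]; rfl

theorem pd_neg (f : E5 → ℂ) (i : Fin 5) (x : E5) :
    pd i (fun y => -f y) x = -pd i f x := by
  unfold pd
  rw [fderiv_fun_neg]; rfl

theorem pd_mul {f g : E5 → ℂ} (hf : Sm f) (hg : Sm g) (i : Fin 5) (x : E5) :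
    pd i (fun y => f y * g y) x = f x * pd i g x + pd i f x * g x := by
  unfold pd
  rw [fderiv_fun_mul (hf.diffAt x) (hg.diffAt x)]
  simp [mul_comm]

theorem pd_const (c : ℂ) (i : Fin 5) (x : E5) : pd i (fun _ => c) x = 0 := by
  unfold pd
  simp

theorem pd_const_mul {f : E5 → ℂ} (hf : Sm f) (c : ℂ) (i : Fin 5) (x : E5) :
    pd i (fun y => c * f y) x = c * pd i f x := by
  rw [pd_mul (Sm.const c) hf, pd_const]; ring

theorem pd_sum {ι : Type*} (s : Finset ι) {f : ι → E5 → ℂ} (hf : ∀ k ∈ s, Sm (f k))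
    (i : Fin 5) (x : E5) :
    pd i (fun y => ∑ k ∈ s, f k y) x = ∑ k ∈ s, pd i (f k) x := by
  unfold pd
  rw [fderiv_fun_sum (fun k hk => (hf k hk).diffAt x)]
  simp

theorem pd_conj {f : E5 → ℂ} (hf : Sm f) (i : Fin 5) (x : E5) :
    pd i (fun y => conj (f y)) x = conj (pd i f x) := by
  unfold pd
  have h : HasFDerivAt (fun y => conj (f y))
      ((Complex.conjCLE : ℂ →L[ℝ] ℂ).comp (fderiv ℝ f x)) x :=
    (Complex.conjCLE : ℂ →L[ℝ] ℂ).hasFDerivAt.comp x (hf.diffAt x).hasFDerivAt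
  rw [h.fderiv]; rfl

theorem pd_comm {f : E5 → ℂ} (hf : Sm f) (i k : Fin 5) (x : E5) :
    pd i (pd k f) x = pd k (pd i f) x := by
  have h1 : ContDiff ℝ (⊤ : ℕ∞) (fderiv ℝ f) := ContDiff.fderiv_right hf (by simp)
  have hd : DifferentiableAt ℝ (fderiv ℝ f) x := (h1.differentiable (by norm_num)) x
  have key : ∀ u v : E5, fderiv ℝ (fun y => fderiv ℝ f y v) x u = fderiv ℝ (fderiv ℝ f) x u v := by
    intro u v
    have := (hd.hasFDerivAt.clm_apply (hasFDerivAt_const v x)).fderiv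
    rw [this]
    simp
  unfold pd
  rw [key, key]
  have hs : IsSymmSndFDerivAt ℝ f x :=
    ContDiffAt.isSymmSndFDerivAt (n := (⊤ : ℕ∞)) (ContDiff.contDiffAt hf)
      (by
        simp only [minSmoothness_of_isRCLikeNormedField]
        have h : ((2 : ℕ∞) : WithTop ℕ∞) ≤ ((⊤ : ℕ∞) : WithTop ℕ∞) := WithTop.coe_le_coe.2 le_top
        exact h)
  exact hs.eq (e5 i) (e5 k)

/-- Chain rule for the exponential. -/
theorem pd_cexp {f : E5 → ℂ} (hf : Sm f) (i : Fin 5) (x : E5) :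
    pd i (fun y => Complex.exp (f y)) x = Complex.exp (f x) * pd i f x := by
  unfold pd
  rw [(hf.diffAt x).hasFDerivAt.cexp.fderiv]
  simp

/-! ### Rules for `dz`, `db` -/

theorem fin3_cases (l : Fin 3) : l = 0 ∨ l = 1 ∨ l = 2 := by fin_cases l <;> simp

theorem dz_zero (f : E5 → ℂ) (x : E5) : dz 0 f x = (pd 0 f x - Complex.I * pd 1 f x) / 2 := by
  simp [dz]

theorem dz_one (f : E5 → ℂ) (x : E5) : dz 1 f x = (pd 2 f x - Complex.I * pd 3 f x) / 2 := by
  simp [dz]

theorem dz_two (f : E5 → ℂ) (x : E5) : dz 2 f x = pd 4 f x := by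
  simp [dz]

theorem db_zero (f : E5 → ℂ) (x : E5) : db 0 f x = (pd 0 f x + Complex.I * pd 1 f x) / 2 := by
  simp [db]

theorem db_one (f : E5 → ℂ) (x : E5) : db 1 f x = (pd 2 f x + Complex.I * pd 3 f x) / 2 := by
  simp [db]

theorem db_two (f : E5 → ℂ) (x : E5) : db 2 f x = pd 4 f x := by
  simp [db]

theorem dz_add {f g : E5 → ℂ} (hf : Sm f) (hg : Sm g) (l : Fin 3) (x : E5) :
    dz l (fun y => f y + g y) x = dz l f x + dz l g x := by
  rcases fin3_cases l with rfl | rfl | rfl <;>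
    simp only [dz_zero, dz_one, dz_two, pd_add hf hg] <;> ring

theorem db_add {f g : E5 → ℂ} (hf : Sm f) (hg : Sm g) (l : Fin 3) (x : E5) :
    db l (fun y => f y + g y) x = db l f x + db l g x := by
  rcases fin3_cases l with rfl | rfl | rfl <;>
    simp only [db_zero, db_one, db_two, pd_add hf hg] <;> ring

theorem dz_sub {f g : E5 → ℂ} (hf : Sm f) (hg : Sm g) (l : Fin 3) (x : E5) :
    dz l (fun y => f y - g y) x = dz l f x - dz l g x := by
  rcases fin3_cases l with rfl | rfl | rfl <;>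
    simp only [dz_zero, dz_one, dz_two, pd_sub hf hg] <;> ring

theorem db_sub {f g : E5 → ℂ} (hf : Sm f) (hg : Sm g) (l : Fin 3) (x : E5) :
    db l (fun y => f y - g y) x = db l f x - db l g x := by
  rcases fin3_cases l with rfl | rfl | rfl <;>
    simp only [db_zero, db_one, db_two, pd_sub hf hg] <;> ring

theorem dz_neg (f : E5 → ℂ) (l : Fin 3) (x : E5) :
    dz l (fun y => -f y) x = -dz l f x := by
  rcases fin3_cases l with rfl | rfl | rfl <;>
    simp only [dz_zero, dz_one, dz_two, pd_neg] <;> ring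

theorem db_neg (f : E5 → ℂ) (l : Fin 3) (x : E5) :
    db l (fun y => -f y) x = -db l f x := by
  rcases fin3_cases l with rfl | rfl | rfl <;>
    simp only [db_zero, db_one, db_two, pd_neg] <;> ring

theorem dz_mul {f g : E5 → ℂ} (hf : Sm f) (hg : Sm g) (l : Fin 3) (x : E5) :
    dz l (fun y => f y * g y) x = f x * dz l g x + dz l f x * g x := by
  rcases fin3_cases l with rfl | rfl | rfl <;>
    simp only [dz_zero, dz_one, dz_two, pd_mul hf hg] <;> ring

theorem db_mul {f g : E5 → ℂ} (hf : Sm f) (hg : Sm g) (l : Fin 3) (x : E5) :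
    db l (fun y => f y * g y) x = f x * db l g x + db l f x * g x := by
  rcases fin3_cases l with rfl | rfl | rfl <;>
    simp only [db_zero, db_one, db_two, pd_mul hf hg] <;> ring

theorem dz_const (c : ℂ) (l : Fin 3) (x : E5) : dz l (fun _ => c) x = 0 := by
  rcases fin3_cases l with rfl | rfl | rfl <;> simp [dz_zero, dz_one, dz_two, pd_const]

theorem db_const (c : ℂ) (l : Fin 3) (x : E5) : db l (fun _ => c) x = 0 := by
  rcases fin3_cases l with rfl | rfl | rfl <;> simp [db_zero, db_one, db_two, pd_const]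

theorem dz_const_mul {f : E5 → ℂ} (hf : Sm f) (c : ℂ) (l : Fin 3) (x : E5) :
    dz l (fun y => c * f y) x = c * dz l f x := by
  rw [dz_mul (Sm.const c) hf, dz_const]; ring

theorem db_const_mul {f : E5 → ℂ} (hf : Sm f) (c : ℂ) (l : Fin 3) (x : E5) :
    db l (fun y => c * f y) x = c * db l f x := by
  rw [db_mul (Sm.const c) hf, db_const]; ring

theorem dz_conj {f : E5 → ℂ} (hf : Sm f) (l : Fin 3) (x : E5) :
    dz l (fun y => conj (f y)) x = conj (db l f x) := by
  rcases fin3_cases l with rfl | rfl | rfl <;>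
    simp [dz_zero, dz_one, dz_two, db_zero, db_one, db_two, pd_conj hf, map_div₀, sub_eq_add_neg,
      map_ofNat]

theorem db_conj {f : E5 → ℂ} (hf : Sm f) (l : Fin 3) (x : E5) :
    db l (fun y => conj (f y)) x = conj (dz l f x) := by
  rcases fin3_cases l with rfl | rfl | rfl <;>
    simp [dz_zero, dz_one, dz_two, db_zero, db_one, db_two, pd_conj hf, map_div₀, sub_eq_add_neg,
      map_ofNat]

theorem dz_sum {ι : Type*} (s : Finset ι) {f : ι → E5 → ℂ} (hf : ∀ k ∈ s, Sm (f k))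
    (l : Fin 3) (x : E5) :
    dz l (fun y => ∑ k ∈ s, f k y) x = ∑ k ∈ s, dz l (f k) x := by
  rcases fin3_cases l with rfl | rfl | rfl <;>
    simp only [dz_zero, dz_one, dz_two, pd_sum s hf, Finset.sum_sub_distrib, Finset.mul_sum,
      ← Finset.sum_div]

theorem db_sum {ι : Type*} (s : Finset ι) {f : ι → E5 → ℂ} (hf : ∀ k ∈ s, Sm (f k))
    (l : Fin 3) (x : E5) :
    db l (fun y => ∑ k ∈ s, f k y) x = ∑ k ∈ s, db l (f k) x := by
  rcases fin3_cases l with rfl | rfl | rfl <;>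
    simp only [db_zero, db_one, db_two, pd_sum s hf, Finset.sum_add_distrib, Finset.mul_sum,
      ← Finset.sum_div]

/-- A first order operator with constant coefficients commutes with `pd`. -/
theorem pd_dz {f : E5 → ℂ} (hf : Sm f) (i : Fin 5) (l : Fin 3) (x : E5) :
    pd i (dz l f) x = dz l (pd i f) x := by
  rcases fin3_cases l with rfl | rfl | rfl
  · have h : dz 0 f = fun y => (1 / 2 : ℂ) * (pd 0 f y - Complex.I * pd 1 f y) := by
      funext y; rw [dz_zero]; ring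
    rw [h, pd_const_mul ((hf.pd 0).sub ((Sm.const _).mul (hf.pd 1))),
      pd_sub (hf.pd 0) ((Sm.const _).mul (hf.pd 1)), pd_const_mul (hf.pd 1), dz_zero,
      pd_comm hf i 0, pd_comm hf i 1]
    ring
  · have h : dz 1 f = fun y => (1 / 2 : ℂ) * (pd 2 f y - Complex.I * pd 3 f y) := by
      funext y; rw [dz_one]; ring
    rw [h, pd_const_mul ((hf.pd 2).sub ((Sm.const _).mul (hf.pd 3))),
      pd_sub (hf.pd 2) ((Sm.const _).mul (hf.pd 3)), pd_const_mul (hf.pd 3), dz_one,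
      pd_comm hf i 2, pd_comm hf i 3]
    ring
  · have h : dz 2 f = pd 4 f := by funext y; rw [dz_two]
    rw [h, dz_two, pd_comm hf i 4]

theorem pd_db {f : E5 → ℂ} (hf : Sm f) (i : Fin 5) (l : Fin 3) (x : E5) :
    pd i (db l f) x = db l (pd i f) x := by
  rcases fin3_cases l with rfl | rfl | rfl
  · have h : db 0 f = fun y => (1 / 2 : ℂ) * (pd 0 f y + Complex.I * pd 1 f y) := by
      funext y; rw [db_zero]; ring
    rw [h, pd_const_mul ((hf.pd 0).add ((Sm.const _).mul (hf.pd 1))),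
      pd_add (hf.pd 0) ((Sm.const _).mul (hf.pd 1)), pd_const_mul (hf.pd 1), db_zero,
      pd_comm hf i 0, pd_comm hf i 1]
    ring
  · have h : db 1 f = fun y => (1 / 2 : ℂ) * (pd 2 f y + Complex.I * pd 3 f y) := by
      funext y; rw [db_one]; ring
    rw [h, pd_const_mul ((hf.pd 2).add ((Sm.const _).mul (hf.pd 3))),
      pd_add (hf.pd 2) ((Sm.const _).mul (hf.pd 3)), pd_const_mul (hf.pd 3), db_one,
      pd_comm hf i 2, pd_comm hf i 3]
    ring
  · have h : db 2 f = pd 4 f := by funext y; rw [db_two]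
    rw [h, db_two, pd_comm hf i 4]

theorem dz_dz {f : E5 → ℂ} (hf : Sm f) (k l : Fin 3) (x : E5) :
    dz k (dz l f) x = dz l (dz k f) x := by
  rcases fin3_cases k with rfl | rfl | rfl
  · have h : dz 0 f = fun y => (1 / 2 : ℂ) * (pd 0 f y - Complex.I * pd 1 f y) := by
      funext y; rw [dz_zero]; ring
    rw [h, dz_const_mul ((hf.pd 0).sub ((Sm.const _).mul (hf.pd 1))),
      dz_sub (hf.pd 0) ((Sm.const _).mul (hf.pd 1)), dz_const_mul (hf.pd 1), dz_zero,
      pd_dz hf 0, pd_dz hf 1]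
    ring
  · have h : dz 1 f = fun y => (1 / 2 : ℂ) * (pd 2 f y - Complex.I * pd 3 f y) := by
      funext y; rw [dz_one]; ring
    rw [h, dz_const_mul ((hf.pd 2).sub ((Sm.const _).mul (hf.pd 3))),
      dz_sub (hf.pd 2) ((Sm.const _).mul (hf.pd 3)), dz_const_mul (hf.pd 3), dz_one,
      pd_dz hf 2, pd_dz hf 3]
    ring
  · have h : dz 2 f = pd 4 f := by funext y; rw [dz_two]
    rw [h, dz_two, pd_dz hf 4]

theorem db_dz {f : E5 → ℂ} (hf : Sm f) (k l : Fin 3) (x : E5) :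
    db k (dz l f) x = dz l (db k f) x := by
  rcases fin3_cases k with rfl | rfl | rfl
  · have h : db 0 f = fun y => (1 / 2 : ℂ) * (pd 0 f y + Complex.I * pd 1 f y) := by
      funext y; rw [db_zero]; ring
    rw [h, dz_const_mul ((hf.pd 0).add ((Sm.const _).mul (hf.pd 1))),
      dz_add (hf.pd 0) ((Sm.const _).mul (hf.pd 1)), dz_const_mul (hf.pd 1), db_zero,
      pd_dz hf 0, pd_dz hf 1]
    ring
  · have h : db 1 f = fun y => (1 / 2 : ℂ) * (pd 2 f y + Complex.I * pd 3 f y) := by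
      funext y; rw [db_one]; ring
    rw [h, dz_const_mul ((hf.pd 2).add ((Sm.const _).mul (hf.pd 3))),
      dz_add (hf.pd 2) ((Sm.const _).mul (hf.pd 3)), dz_const_mul (hf.pd 3), db_one,
      pd_dz hf 2, pd_dz hf 3]
    ring
  · have h : db 2 f = pd 4 f := by funext y; rw [db_two]
    rw [h, db_two, pd_dz hf 4]

theorem db_db {f : E5 → ℂ} (hf : Sm f) (k l : Fin 3) (x : E5) :
    db k (db l f) x = db l (db k f) x := by
  rcases fin3_cases k with rfl | rfl | rfl
  · have h : db 0 f = fun y => (1 / 2 : ℂ) * (pd 0 f y + Complex.I * pd 1 f y) := by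
      funext y; rw [db_zero]; ring
    rw [h, db_const_mul ((hf.pd 0).add ((Sm.const _).mul (hf.pd 1))),
      db_add (hf.pd 0) ((Sm.const _).mul (hf.pd 1)), db_const_mul (hf.pd 1), db_zero,
      pd_db hf 0, pd_db hf 1]
    ring
  · have h : db 1 f = fun y => (1 / 2 : ℂ) * (pd 2 f y + Complex.I * pd 3 f y) := by
      funext y; rw [db_one]; ring
    rw [h, db_const_mul ((hf.pd 2).add ((Sm.const _).mul (hf.pd 3))),
      db_add (hf.pd 2) ((Sm.const _).mul (hf.pd 3)), db_const_mul (hf.pd 3), db_one,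
      pd_db hf 2, pd_db hf 3]
    ring
  · have h : db 2 f = pd 4 f := by funext y; rw [db_two]
    rw [h, db_two, pd_db hf 4]

end Pool.Agent.CR5
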