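import Pool.Agent.Lib.CR5.I.Bs
import Pool.Agent.Lib.CR5.I.Ca
import Pool.Agent.Lib.CR5.I.Cd
import Pool.Agent.Lib.CR5.I.Cm
import Pool.Agent.Lib.CR5.I.Cn
import Pool.Agent.Lib.CR5.I.Cr
import Pool.Agent.Lib.CR5.I.Dl
import Pool.Agent.Lib.CR5.I.Eb
import Pool.Agent.Lib.CR5.I.Em
import Pool.Agent.Lib.CR5.I.Fn
import Pool.Agent.Lib.CR5.I.Fr
import Pool.Agent.Lib.CR5.I.Gl
import Pool.Agent.Lib.CR5.I.Gr
import Pool.Agent.Lib.CR5.I.Kp
import Pool.Agent.Lib.CR5.I.Lb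
import Pool.Agent.Lib.CR5.I.Ma
import Pool.Agent.Lib.CR5.I.Nf
import Pool.Agent.Lib.CR5.I.Nr
import Pool.Agent.Lib.CR5.I.Pb
import Pool.Agent.Lib.CR5.I.Pf
import Pool.Agent.Lib.CR5.I.Pl
import Pool.Agent.Lib.CR5.I.Qd
import Pool.Agent.Lib.CR5.I.Sa
import Pool.Agent.Lib.CR5.I.Sb
import Pool.Agent.Lib.CR5.I.Se
import Pool.Agent.Lib.CR5.I.Tr
import Pool.Agent.Lib.CR5.I.Ts
import Pool.Agent.Lib.CR5.I.Vb

/-!
# CR5, block I: the final theorem from the core theorem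
-/

open Set Topology
open scoped Manifold ContDiff

noncomputable section

namespace Pool.Agent.CR5.Man

universe u

theorem okPl : S_Pl :=
  pPl (pGl pLb (pSa pDl) (pSb pDl)) pCd pQd (pTs pCn) (pTr pCn) (pKp (pTr pCn)) pEm

theorem okNf : S_Nf := pNf pBs pNr pCm pGr

theorem okMa : S_Ma.{u} := pMa pCa (pSe pPb pVb) (pFr pPf)

/-- The final theorem from the core theorem. -/
theorem finalOf (hCORE : S_CORE) : S_Fn.{u} := pFn hCORE okPl okNf okMa pCr pEb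

end Pool.Agent.CR5.Man
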