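import Pool.Agent.Lib.CR5.Basic

/-!
# CR5: rules for `L`, adjoints, integration by parts
-/

open MeasureTheory Set Filter Topology
open scoped ENNReal ComplexConjugate

noncomputable section

namespace Pool.Agent.CR5

/-! ### Rules for `L`, `Lb` -/

theorem L_add {a : Str} {f g : E5 → ℂ} (hf : Sm f) (hg : Sm g) (j : Fin 2) (x : E5) :
    L a j (fun y => f y + g y) x = L a j f x + L a j g x := by
  simp only [L, db_add hf hg, dz_add hf hg, mul_add, Finset.sum_add_distrib]; ring

theorem L_sub {a : Str} {f g : E5 → ℂ} (hf : Sm f) (hg : Sm g) (j : Fin 2) (x : E5) :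
    L a j (fun y => f y - g y) x = L a j f x - L a j g x := by
  simp only [L, db_sub hf hg, dz_sub hf hg, mul_sub, Finset.sum_sub_distrib]; ring

theorem L_neg {a : Str} (f : E5 → ℂ) (j : Fin 2) (x : E5) :
    L a j (fun y => -f y) x = -L a j f x := by
  simp only [L, db_neg, dz_neg, mul_neg, Finset.sum_neg_distrib]; ring

theorem L_mul {a : Str} {f g : E5 → ℂ} (hf : Sm f) (hg : Sm g) (j : Fin 2) (x : E5) :
    L a j (fun y => f y * g y) x = f x * L a j g x + L a j f x * g x := by
  simp only [L, db_mul hf hg, dz_mul hf hg, Fin.sum_univ_three]; ring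

theorem L_const (a : Str) (c : ℂ) (j : Fin 2) (x : E5) : L a j (fun _ => c) x = 0 := by
  simp only [L, db_const, dz_const, mul_zero, Finset.sum_const_zero, add_zero]

theorem L_const_mul {a : Str} {f : E5 → ℂ} (hf : Sm f) (c : ℂ) (j : Fin 2) (x : E5) :
    L a j (fun y => c * f y) x = c * L a j f x := by
  rw [L_mul (Sm.const c) hf, L_const]; ring

theorem Lb_add {a : Str} {f g : E5 → ℂ} (hf : Sm f) (hg : Sm g) (j : Fin 2) (x : E5) :
    Lb a j (fun y => f y + g y) x = Lb a j f x + Lb a j g x := by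
  simp only [Lb, db_add hf hg, dz_add hf hg, mul_add, Finset.sum_add_distrib]; ring

theorem Lb_sub {a : Str} {f g : E5 → ℂ} (hf : Sm f) (hg : Sm g) (j : Fin 2) (x : E5) :
    Lb a j (fun y => f y - g y) x = Lb a j f x - Lb a j g x := by
  simp only [Lb, db_sub hf hg, dz_sub hf hg, mul_sub, Finset.sum_sub_distrib]; ring

theorem Lb_neg {a : Str} (f : E5 → ℂ) (j : Fin 2) (x : E5) :
    Lb a j (fun y => -f y) x = -Lb a j f x := by
  simp only [Lb, db_neg, dz_neg, mul_neg, Finset.sum_neg_distrib]; ring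

theorem Lb_mul {a : Str} {f g : E5 → ℂ} (hf : Sm f) (hg : Sm g) (j : Fin 2) (x : E5) :
    Lb a j (fun y => f y * g y) x = f x * Lb a j g x + Lb a j f x * g x := by
  simp only [Lb, db_mul hf hg, dz_mul hf hg, Fin.sum_univ_three]; ring

theorem Lb_const (a : Str) (c : ℂ) (j : Fin 2) (x : E5) : Lb a j (fun _ => c) x = 0 := by
  simp only [Lb, db_const, dz_const, mul_zero, Finset.sum_const_zero, add_zero]

theorem conj_L {a : Str} {f : E5 → ℂ} (hf : Sm f) (j : Fin 2) (x : E5) :
    conj (L a j f x) = Lb a j (fun y => conj (f y)) x := by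
  simp only [L, Lb, map_add, map_sum, map_mul, dz_conj hf, db_conj hf]

theorem conj_Lb {a : Str} {f : E5 → ℂ} (hf : Sm f) (j : Fin 2) (x : E5) :
    conj (Lb a j f x) = L a j (fun y => conj (f y)) x := by
  simp only [L, Lb, map_add, map_sum, map_mul, dz_conj hf, db_conj hf, Complex.conj_conj]

/-- The function `∑ l, db l (conj a j l)` (conjugate of the divergence of `L j`). -/
def dv (a : Str) (j : Fin 2) : E5 → ℂ := fun x => ∑ l, db l (fun y => conj (a j l y)) x

theorem Sm.dv {a : Str} (ha : SmS a) (j : Fin 2) : Sm (dv a j) :=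
  Sm.sum _ fun l _ => (ha j l).conj.db l

theorem Ls_eq {a : Str} (ha : SmS a) {g : E5 → ℂ} (hg : Sm g) (j : Fin 2) (x : E5) :
    Ls a j g x = -Lb a j g x - dv a j x * g x := by
  simp only [Ls, Lb, dv, db_mul (ha j _).conj hg, Fin.sum_univ_three]; ring

theorem Ls_add {a : Str} (ha : SmS a) {f g : E5 → ℂ} (hf : Sm f) (hg : Sm g) (j : Fin 2) (x : E5) :
    Ls a j (fun y => f y + g y) x = Ls a j f x + Ls a j g x := by
  rw [Ls_eq ha (hf.add hg), Ls_eq ha hf, Ls_eq ha hg, Lb_add hf hg]; ring

theorem Ls_sub {a : Str} (ha : SmS a) {f g : E5 → ℂ} (hf : Sm f) (hg : Sm g) (j : Fin 2) (x : E5) :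
    Ls a j (fun y => f y - g y) x = Ls a j f x - Ls a j g x := by
  rw [Ls_eq ha (hf.sub hg), Ls_eq ha hf, Ls_eq ha hg, Lb_sub hf hg]; ring

/-- Product rule for the adjoint: `L*(f g) = f L* g - (L̄ f) g`. -/
theorem Ls_mul {a : Str} (ha : SmS a) {f g : E5 → ℂ} (hf : Sm f) (hg : Sm g) (j : Fin 2) (x : E5) :
    Ls a j (fun y => f y * g y) x = f x * Ls a j g x - Lb a j f x * g x := by
  rw [Ls_eq ha (hf.mul hg), Ls_eq ha hg, Lb_mul hf hg]; ring

/-- `D1 (D0 f) = [L 0, L 1] f`. -/
theorem D1_D0 {a : Str} (ha : SmS a) {f : E5 → ℂ} (hf : Sm f) (x : E5) :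
    D1 a (D0 a f) x = Kap a f x := by
  have e0 : ∀ (j k : Fin 2) (y : E5), L a j (L a k f) y
      = db j.castSucc (db k.castSucc f) y + ∑ l, (a k l y * db j.castSucc (dz l f) y
          + db j.castSucc (a k l) y * dz l f y)
        + ∑ m, a j m y * (dz m (db k.castSucc f) y + ∑ l, (a k l y * dz m (dz l f) y
          + dz m (a k l) y * dz l f y)) := by
    intro j k y
    have h1 : ∀ m, dz m (L a k f) y = dz m (db k.castSucc f) y + ∑ l, (a k l y * dz m (dz l f) y
          + dz m (a k l) y * dz l f y) := by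
      intro m
      have : L a k f = fun y => db k.castSucc f y + ∑ l, a k l y * dz l f y := rfl
      rw [this, dz_add (hf.db _) (Sm.sum _ fun l _ => (ha k l).mul (hf.dz l)),
        dz_sum _ (fun l _ => (ha k l).mul (hf.dz l))]
      simp only [dz_mul (ha k _) (hf.dz _)]
    have h2 : db j.castSucc (L a k f) y = db j.castSucc (db k.castSucc f) y
        + ∑ l, (a k l y * db j.castSucc (dz l f) y + db j.castSucc (a k l) y * dz l f y) := by
      have : L a k f = fun y => db k.castSucc f y + ∑ l, a k l y * dz l f y := rfl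
      rw [this, db_add (hf.db _) (Sm.sum _ fun l _ => (ha k l).mul (hf.dz l)),
        db_sum _ (fun l _ => (ha k l).mul (hf.dz l))]
      simp only [db_mul (ha k _) (hf.dz _)]
    show db j.castSucc (L a k f) y + ∑ m, a j m y * dz m (L a k f) y = _
    rw [h2]; simp only [h1]
  have c1 : db (Fin.castSucc (0 : Fin 2)) (db (Fin.castSucc (1 : Fin 2)) f) x
      = db (Fin.castSucc (1 : Fin 2)) (db (Fin.castSucc (0 : Fin 2)) f) x := db_db hf _ _ x
  have c2 : ∀ k l, db k (dz l f) x = dz l (db k f) x := fun k l => db_dz hf k l x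
  have c3 := fun k l => dz_dz hf k l x
  show L a 0 (L a 1 f) x - L a 1 (L a 0 f) x = _
  rw [e0, e0]
  simp only [Kap, kap, L, Fin.sum_univ_three, c1, c2]
  rw [c3 1 0, c3 2 0, c3 2 1]
  ring

/-! ### Compactly supported functions -/

theorem Tst.pd {f : E5 → ℂ} (h : Tst f) (i : Fin 5) : Tst (pd i f) := by
  refine ⟨h.sm.pd i, ?_⟩
  have := (HasCompactSupport.fderiv (𝕜 := ℝ) h.cs)
  exact this.comp_left (g := fun A : E5 →L[ℝ] ℂ => A (e5 i)) rfl

theorem Tst.mul_left {f g : E5 → ℂ} (hf : Sm f) (hg : Tst g) : Tst fun x => f x * g x :=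
  ⟨hf.mul hg.sm, hg.cs.mul_left⟩

theorem Tst.mul_right {f g : E5 → ℂ} (hf : Tst f) (hg : Sm g) : Tst fun x => f x * g x :=
  ⟨hf.sm.mul hg, hf.cs.mul_right⟩

theorem Tst.add {f g : E5 → ℂ} (hf : Tst f) (hg : Tst g) : Tst fun x => f x + g x :=
  ⟨hf.sm.add hg.sm, hf.cs.add hg.cs⟩

theorem Tst.neg {f : E5 → ℂ} (hf : Tst f) : Tst fun x => -f x :=
  ⟨hf.sm.neg, hf.cs.comp_left (g := fun z : ℂ => -z) neg_zero⟩

theorem Tst.sub {f g : E5 → ℂ} (hf : Tst f) (hg : Tst g) : Tst fun x => f x - g x := by
  have := hf.add hg.neg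
  simpa only [sub_eq_add_neg] using this

theorem Tst.conj {f : E5 → ℂ} (hf : Tst f) : Tst fun x => conj (f x) :=
  ⟨hf.sm.conj, hf.cs.comp_left (g := fun z : ℂ => (starRingEnd ℂ) z) (map_zero _)⟩

theorem Tst.zero : Tst fun _ => 0 := ⟨Sm.const 0, HasCompactSupport.zero⟩

theorem Tst.sum {ι : Type*} (s : Finset ι) {f : ι → E5 → ℂ} (hf : ∀ i ∈ s, Tst (f i)) :
    Tst fun x => ∑ i ∈ s, f i x := by
  classical
  induction s using Finset.induction_on with
  | empty => simpa using Tst.zero
  | insert i s hi ih =>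
    simp only [Finset.sum_insert hi]
    exact (hf i (Finset.mem_insert_self _ _)).add (ih fun k hk => hf k (Finset.mem_insert_of_mem hk))

theorem Tst.dz {f : E5 → ℂ} (h : Tst f) (l : Fin 3) : Tst (dz l f) := by
  rcases fin3_cases l with rfl | rfl | rfl
  · have e : CR5.dz 0 f = fun y => (1 / 2 : ℂ) * (CR5.pd 0 f y - Complex.I * CR5.pd 1 f y) := by
      funext y; rw [dz_zero]; ring
    rw [e]
    exact Tst.mul_left (Sm.const _) ((h.pd 0).sub (Tst.mul_left (Sm.const _) (h.pd 1)))
  · have e : CR5.dz 1 f = fun y => (1 / 2 : ℂ) * (CR5.pd 2 f y - Complex.I * CR5.pd 3 f y) := by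
      funext y; rw [dz_one]; ring
    rw [e]
    exact Tst.mul_left (Sm.const _) ((h.pd 2).sub (Tst.mul_left (Sm.const _) (h.pd 3)))
  · have e : CR5.dz 2 f = CR5.pd 4 f := by funext y; rw [dz_two]
    rw [e]; exact h.pd 4

theorem Tst.db {f : E5 → ℂ} (h : Tst f) (l : Fin 3) : Tst (db l f) := by
  rcases fin3_cases l with rfl | rfl | rfl
  · have e : CR5.db 0 f = fun y => (1 / 2 : ℂ) * (CR5.pd 0 f y + Complex.I * CR5.pd 1 f y) := by
      funext y; rw [db_zero]; ring
    rw [e]
    exact Tst.mul_left (Sm.const _) ((h.pd 0).add (Tst.mul_left (Sm.const _) (h.pd 1)))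
  · have e : CR5.db 1 f = fun y => (1 / 2 : ℂ) * (CR5.pd 2 f y + Complex.I * CR5.pd 3 f y) := by
      funext y; rw [db_one]; ring
    rw [e]
    exact Tst.mul_left (Sm.const _) ((h.pd 2).add (Tst.mul_left (Sm.const _) (h.pd 3)))
  · have e : CR5.db 2 f = CR5.pd 4 f := by funext y; rw [db_two]
    rw [e]; exact h.pd 4

theorem Tst.L {a : Str} (ha : SmS a) (j : Fin 2) {f : E5 → ℂ} (hf : Tst f) : Tst (L a j f) :=
  (hf.db _).add (Tst.sum _ fun l _ => Tst.mul_left (ha j l) (hf.dz l))

theorem Tst.Lb {a : Str} (ha : SmS a) (j : Fin 2) {f : E5 → ℂ} (hf : Tst f) : Tst (Lb a j f) :=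
  (hf.dz _).add (Tst.sum _ fun l _ => Tst.mul_left (ha j l).conj (hf.db l))

theorem Tst.Ls {a : Str} (ha : SmS a) (j : Fin 2) {g : E5 → ℂ} (hg : Tst g) : Tst (Ls a j g) :=
  (hg.dz _).neg.sub (Tst.sum _ fun l _ => (Tst.mul_left (ha j l).conj hg).db l)

theorem Tst.integrable {f : E5 → ℂ} (h : Tst f) : Integrable f volume :=
  h.sm.cont.integrable_of_hasCompactSupport h.cs

theorem Tst.memLp {f : E5 → ℂ} (h : Tst f) : MemLp f 2 volume :=
  h.sm.cont.memLp_of_hasCompactSupport h.cs

/-! ### Integration by parts -/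

/-- The integral of a partial derivative of a test function vanishes. -/
theorem integral_pd {f : E5 → ℂ} (h : Tst f) (i : Fin 5) : ∫ x, pd i f x = 0 := by
  have := integral_mul_fderiv_eq_neg_fderiv_mul_of_integrable (𝕜 := ℂ) (μ := (volume : Measure E5))
    (f := fun _ : E5 => (1 : ℂ)) (g := f) (v := e5 i) ?_ ?_ ?_ ?_ ?_
  · simpa [pd] using this
  · simp
  · have h2 : Integrable (fun x => fderiv ℝ f x (e5 i)) volume := (h.pd i).integrable
    simpa using h2
  · simpa using h.integrable
  · exact fun x _ => differentiableAt_const _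
  · exact fun x _ => h.sm.diffAt x

theorem ibp_pd {f g : E5 → ℂ} (hf : Sm f) (hg : Tst g) (i : Fin 5) :
    ∫ x, pd i f x * g x = -∫ x, f x * pd i g x := by
  have h := integral_pd (Tst.mul_left hf hg) i
  simp only [pd_mul hf hg.sm] at h
  rw [integral_add (Tst.mul_left hf (hg.pd i)).integrable
    (Tst.mul_left (hf.pd i) hg).integrable] at h
  exact (eq_neg_of_add_eq_zero_right h)

theorem ibp_dz {f g : E5 → ℂ} (hf : Sm f) (hg : Tst g) (l : Fin 3) :
    ∫ x, dz l f x * g x = -∫ x, f x * dz l g x := by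
  have key : ∀ (i k : Fin 5), ∫ x, (pd i f x - Complex.I * pd k f x) / 2 * g x
      = -∫ x, f x * ((pd i g x - Complex.I * pd k g x) / 2) := by
    intro i k
    have e1 : ∀ x, (pd i f x - Complex.I * pd k f x) / 2 * g x
        = (1 / 2 : ℂ) * (pd i f x * g x) - Complex.I / 2 * (pd k f x * g x) := by
      intro x; ring
    have e2 : ∀ x, f x * ((pd i g x - Complex.I * pd k g x) / 2)
        = (1 / 2 : ℂ) * (f x * pd i g x) - Complex.I / 2 * (f x * pd k g x) := by
      intro x; ring
    simp only [e1, e2]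
    rw [integral_sub ((Tst.mul_left (hf.pd i) hg).integrable.const_mul _)
        ((Tst.mul_left (hf.pd k) hg).integrable.const_mul _),
      integral_sub ((Tst.mul_left hf (hg.pd i)).integrable.const_mul _)
        ((Tst.mul_left hf (hg.pd k)).integrable.const_mul _),
      integral_const_mul, integral_const_mul, integral_const_mul, integral_const_mul,
      ibp_pd hf hg, ibp_pd hf hg]
    ring
  rcases fin3_cases l with rfl | rfl | rfl
  · simpa only [dz_zero] using key 0 1
  · simpa only [dz_one] using key 2 3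
  · simpa only [dz_two] using ibp_pd hf hg 4

theorem ibp_db {f g : E5 → ℂ} (hf : Sm f) (hg : Tst g) (l : Fin 3) :
    ∫ x, db l f x * g x = -∫ x, f x * db l g x := by
  have key : ∀ (i k : Fin 5), ∫ x, (pd i f x + Complex.I * pd k f x) / 2 * g x
      = -∫ x, f x * ((pd i g x + Complex.I * pd k g x) / 2) := by
    intro i k
    have e1 : ∀ x, (pd i f x + Complex.I * pd k f x) / 2 * g x
        = (1 / 2 : ℂ) * (pd i f x * g x) + Complex.I / 2 * (pd k f x * g x) := by
      intro x; ring
    have e2 : ∀ x, f x * ((pd i g x + Complex.I * pd k g x) / 2)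
        = (1 / 2 : ℂ) * (f x * pd i g x) + Complex.I / 2 * (f x * pd k g x) := by
      intro x; ring
    simp only [e1, e2]
    rw [integral_add ((Tst.mul_left (hf.pd i) hg).integrable.const_mul _)
        ((Tst.mul_left (hf.pd k) hg).integrable.const_mul _),
      integral_add ((Tst.mul_left hf (hg.pd i)).integrable.const_mul _)
        ((Tst.mul_left hf (hg.pd k)).integrable.const_mul _),
      integral_const_mul, integral_const_mul, integral_const_mul, integral_const_mul,
      ibp_pd hf hg, ibp_pd hf hg]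
    ring
  rcases fin3_cases l with rfl | rfl | rfl
  · simpa only [db_zero] using key 0 1
  · simpa only [db_one] using key 2 3
  · simpa only [db_two] using ibp_pd hf hg 4

/-- The adjoint of `L j` (second function with compact support). -/
theorem ibp_L {a : Str} (ha : SmS a) (j : Fin 2) {f g : E5 → ℂ} (hf : Sm f) (hg : Tst g) :
    ∫ x, L a j f x * conj (g x) = ∫ x, f x * conj (Ls a j g x) := by
  have e1 : ∀ x, L a j f x * conj (g x) = db j.castSucc f x * conj (g x)
      + ∑ l, dz l f x * (a j l x * conj (g x)) := by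
    intro x
    simp only [L, add_mul, Finset.sum_mul]
    congr 1
    exact Finset.sum_congr rfl fun l _ => by ring
  have e2 : ∀ x, f x * conj (Ls a j g x) = -(f x * db j.castSucc (fun y => conj (g y)) x)
      - ∑ l, f x * dz l (fun y => a j l y * conj (g y)) x := by
    intro x
    have h : ∀ l, conj (db l (fun y => conj (a j l y) * g y) x)
        = dz l (fun y => a j l y * conj (g y)) x := by
      intro l
      rw [← dz_conj ((ha j l).conj.mul hg.sm)]
      simp only [map_mul, Complex.conj_conj]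
    simp only [Ls, map_sub, map_neg, map_sum, h, ← db_conj hg.sm]
    rw [mul_sub, Finset.mul_sum, mul_neg]
  simp only [e1, e2]
  rw [integral_add (Tst.mul_left (hf.db _) hg.conj).integrable
      (Tst.sum _ fun l _ => Tst.mul_left (hf.dz l) (Tst.mul_left (ha j l) hg.conj)).integrable,
    integral_sub (Tst.mul_left hf (hg.conj.db _)).neg.integrable
      (Tst.sum _ fun l _ => Tst.mul_left hf ((Tst.mul_left (ha j l) hg.conj).dz l)).integrable,
    integral_finset_sum _ (fun l _ => (Tst.mul_left (hf.dz l)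
      (Tst.mul_left (ha j l) hg.conj)).integrable),
    integral_finset_sum _ (fun l _ => (Tst.mul_left hf
      ((Tst.mul_left (ha j l) hg.conj).dz l)).integrable),
    integral_neg, ibp_db hf hg.conj]
  simp only [ibp_dz hf (Tst.mul_left (ha j _) hg.conj), Finset.sum_neg_distrib]
  ring

/-- The adjoint of `L j` (first function with compact support). -/
theorem ibp_L' {a : Str} (ha : SmS a) (j : Fin 2) {f g : E5 → ℂ} (hf : Tst f) (hg : Sm g) :
    ∫ x, L a j f x * conj (g x) = ∫ x, f x * conj (Ls a j g x) := by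
  have e1 : ∀ x, L a j f x * conj (g x) = conj (g x) * db j.castSucc f x
      + ∑ l, (a j l x * conj (g x)) * dz l f x := by
    intro x
    simp only [L, add_mul, Finset.sum_mul]
    rw [mul_comm (db _ f x)]
    congr 1
    exact Finset.sum_congr rfl fun l _ => by ring
  have e2 : ∀ x, f x * conj (Ls a j g x) = -(db j.castSucc (fun y => conj (g y)) x * f x)
      - ∑ l, dz l (fun y => a j l y * conj (g y)) x * f x := by
    intro x
    have h : ∀ l, conj (db l (fun y => conj (a j l y) * g y) x)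
        = dz l (fun y => a j l y * conj (g y)) x := by
      intro l
      rw [← dz_conj ((ha j l).conj.mul hg)]
      simp only [map_mul, Complex.conj_conj]
    simp only [Ls, map_sub, map_neg, map_sum, h, ← db_conj hg]
    rw [mul_sub, Finset.mul_sum, mul_neg, mul_comm (f x) (db _ _ x)]
    congr 1
    exact Finset.sum_congr rfl fun l _ => by ring
  simp only [e1, e2]
  rw [integral_add (Tst.mul_left hg.conj (hf.db _)).integrable
      (Tst.sum _ fun l _ => Tst.mul_left ((ha j l).mul hg.conj) (hf.dz l)).integrable,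
    integral_sub (Tst.mul_left (hg.conj.db _) hf).neg.integrable
      (Tst.sum _ fun l _ => Tst.mul_left (((ha j l).mul hg.conj).dz l) hf).integrable,
    integral_finset_sum _ (fun l _ => (Tst.mul_left ((ha j l).mul hg.conj) (hf.dz l)).integrable),
    integral_finset_sum _ (fun l _ => (Tst.mul_left (((ha j l).mul hg.conj).dz l) hf).integrable),
    integral_neg, ibp_db hg.conj hf]
  simp only [ibp_dz ((ha j _).mul hg.conj) hf, Finset.sum_neg_distrib]
  ring

end Pool.Agent.CR5
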