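import Pool.Agent.Lib.CR5.SpecG0

/-!
# CR5, block G: calculus of `Bo`, of the domains `Dm` and of the exponentials `ex`
-/

open MeasureTheory Set Filter Topology
open scoped ENNReal ComplexConjugate

noncomputable section

namespace Pool.Agent.CR5

/-! ### `Bo` -/

theorem Bo.mono {m m' : ℕ} {Ω Ω' : Set E5} {f : E5 → ℂ} {M M' : ℝ} (h : Bo m Ω f M) (hm : m' ≤ m)
    (hΩ : Ω' ⊆ Ω) (h0 : 0 ≤ M) (hM : M ≤ M') : Bo m' Ω' f M' := fun i hi x hx =>
  (h i (hi.trans hm) x (hΩ hx)).trans (by gcongr)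

theorem Bo.sqrt {m : ℕ} {Ω : Set E5} {f : E5 → ℂ} {M : ℝ} (h : Bo m Ω f M) (h0 : 0 ≤ M) {i : ℕ}
    (hi : i ≤ m) {x : E5} (hx : x ∈ Ω) : Real.sqrt (sq i f x) ≤ M := by
  rw [Real.sqrt_le_left h0]; exact h i hi x hx

theorem Bo.of_sqrt {m : ℕ} {Ω : Set E5} {f : E5 → ℂ} {M : ℝ} (h0 : 0 ≤ M)
    (h : ∀ i ≤ m, ∀ x ∈ Ω, Real.sqrt (sq i f x) ≤ M) : Bo m Ω f M := fun i hi x hx => by
  have := h i hi x hx
  rwa [Real.sqrt_le_left h0] at this

theorem Bo.norm_le {m : ℕ} {Ω : Set E5} {f : E5 → ℂ} {M : ℝ} (h : Bo m Ω f M) (h0 : 0 ≤ M) {x : E5}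
    (hx : x ∈ Ω) : ‖f x‖ ≤ M := by
  have := h 0 (Nat.zero_le m) x hx
  rw [sq_zero'] at this
  exact (sq_le_sq₀ (norm_nonneg _) h0).1 this

theorem Bo.add {m : ℕ} {Ω : Set E5} {f g : E5 → ℂ} {M N : ℝ} (hf : Sm f) (hg : Sm g) (h0 : 0 ≤ M)
    (h1 : 0 ≤ N) (h : Bo m Ω f M) (h' : Bo m Ω g N) : Bo m Ω (fun x => f x + g x) (M + N) :=
  Bo.of_sqrt (by positivity) fun i hi x hx =>
    (sqrt_sq_add_le i hf hg x).trans (add_le_add (h.sqrt h0 hi hx) (h'.sqrt h1 hi hx))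

theorem Bo.const_mul {m : ℕ} {Ω : Set E5} {f : E5 → ℂ} {M : ℝ} (hf : Sm f) (c : ℂ)
    (h : Bo m Ω f M) : Bo m Ω (fun x => c * f x) (‖c‖ * M) := fun i hi x hx => by
  rw [sq_const_mul i hf, mul_pow]
  exact mul_le_mul_of_nonneg_left (h i hi x hx) (by positivity)

theorem Bo.neg {m : ℕ} {Ω : Set E5} {f : E5 → ℂ} {M : ℝ} (hf : Sm f) (h : Bo m Ω f M) :
    Bo m Ω (fun x => -f x) M := fun i hi x hx => by
  rw [sq_neg i hf]; exact h i hi x hx

theorem Bo.sub {m : ℕ} {Ω : Set E5} {f g : E5 → ℂ} {M N : ℝ} (hf : Sm f) (hg : Sm g) (h0 : 0 ≤ M)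
    (h1 : 0 ≤ N) (h : Bo m Ω f M) (h' : Bo m Ω g N) : Bo m Ω (fun x => f x - g x) (M + N) := by
  have := Bo.add hf hg.neg h0 h1 h (h'.neg hg)
  simpa only [sub_eq_add_neg] using this

theorem Bo.conj {m : ℕ} {Ω : Set E5} {f : E5 → ℂ} {M : ℝ} (hf : Sm f) (h : Bo m Ω f M) :
    Bo m Ω (fun x => (starRingEnd ℂ) (f x)) M := fun i hi x hx => by
  rw [sq_conj i hf]; exact h i hi x hx

theorem Bo.const (m : ℕ) (Ω : Set E5) (c : ℂ) : Bo m Ω (fun _ => c) ‖c‖ := fun i _ x _ => by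
  rw [sq_const]; split_ifs
  · exact le_rfl
  · positivity

theorem Bo.congr {m : ℕ} {Ω : Set E5} (ho : IsOpen Ω) {f g : E5 → ℂ} {M : ℝ}
    (hfg : ∀ x ∈ Ω, f x = g x) (h : Bo m Ω f M) : Bo m Ω g M := fun i hi x hx => by
  rw [← sq_eq_of_open ho hfg hx]; exact h i hi x hx

/-- The constant of the product estimate. -/
def cmG (m : ℕ) : ℝ := 2 ^ m * (m + 1)

theorem cmG_one_le (m : ℕ) : 1 ≤ cmG m := by
  unfold cmG
  have h1 : (1 : ℝ) ≤ 2 ^ m := one_le_pow₀ (by norm_num)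
  have h2 : (1 : ℝ) ≤ (m : ℝ) + 1 := by
    have : (0 : ℝ) ≤ (m : ℝ) := Nat.cast_nonneg m
    linarith
  calc (1 : ℝ) = 1 * 1 := by norm_num
    _ ≤ _ := mul_le_mul h1 h2 (by norm_num) (by positivity)

theorem cmG_pos (m : ℕ) : 0 < cmG m := lt_of_lt_of_le one_pos (cmG_one_le m)

/-- Pointwise product estimate. -/
theorem sq_mul_le_cm (m : ℕ) {f g : E5 → ℂ} {M N : ℝ} (hf : Sm f) (hg : Sm g) (x : E5)
    (h : ∀ i ≤ m, sq i f x ≤ M ^ 2) (h' : ∀ i ≤ m, sq i g x ≤ N ^ 2) :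
    ∀ i ≤ m, sq i (fun y => f y * g y) x ≤ (cmG m * M * N) ^ 2 := by
  intro i hi
  have h1 := sq_mul_le i hf hg x
  have h2 : ∑ j ∈ Finset.range (i + 1), sq j f x * sq (i - j) g x
      ≤ ∑ _j ∈ Finset.range (i + 1), M ^ 2 * N ^ 2 := by
    refine Finset.sum_le_sum fun j hj => ?_
    have hj' := Finset.mem_range.1 hj
    exact mul_le_mul (h j (by omega)) (h' (i - j) (by omega)) (sq_nonneg' _ _ _) (by positivity)
  rw [Finset.sum_const, Finset.card_range, nsmul_eq_mul] at h2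
  have h3 : (4 : ℝ) ^ i * (((i + 1 : ℕ) : ℝ)) ≤ cmG m ^ 2 := by
    unfold cmG
    have e1 : (4 : ℝ) ^ i ≤ 4 ^ m := pow_le_pow_right₀ (by norm_num) hi
    have e2 : (((i + 1 : ℕ) : ℝ)) ≤ ((m : ℝ) + 1) ^ 2 := by
      have : ((i : ℝ)) ≤ m := by exact_mod_cast hi
      have hm : (0 : ℝ) ≤ (m : ℝ) := Nat.cast_nonneg m
      push_cast
      nlinarith
    calc (4 : ℝ) ^ i * (((i + 1 : ℕ) : ℝ)) ≤ 4 ^ m * ((m : ℝ) + 1) ^ 2 :=
          mul_le_mul e1 e2 (by positivity) (by positivity)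
      _ = (2 ^ m * ((m : ℝ) + 1)) ^ 2 := by
          rw [mul_pow, ← pow_mul, mul_comm m 2, pow_mul]; norm_num
  calc sq i (fun y => f y * g y) x ≤ 4 ^ i * (((i + 1 : ℕ) : ℝ) * (M ^ 2 * N ^ 2)) :=
        h1.trans (mul_le_mul_of_nonneg_left h2 (by positivity))
    _ = (4 ^ i * ((i + 1 : ℕ) : ℝ)) * (M ^ 2 * N ^ 2) := by ring
    _ ≤ cmG m ^ 2 * (M ^ 2 * N ^ 2) := mul_le_mul_of_nonneg_right h3 (by positivity)
    _ = _ := by ring

theorem Bo.mul {m : ℕ} {Ω : Set E5} {f g : E5 → ℂ} {M N : ℝ} (hf : Sm f) (hg : Sm g)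
    (h : Bo m Ω f M) (h' : Bo m Ω g N) : Bo m Ω (fun x => f x * g x) (cmG m * M * N) :=
  fun i hi x hx => sq_mul_le_cm m hf hg x (fun i hi => h i hi x hx) (fun i hi => h' i hi x hx) i hi

theorem Bo.pd {m : ℕ} {Ω : Set E5} {f : E5 → ℂ} {M : ℝ} (h : Bo (m + 1) Ω f M) (k : Fin 5) :
    Bo m Ω (pd k f) M := fun i hi x hx =>
  (sq_pd_le i f k x).trans (h (i + 1) (by omega) x hx)

theorem Bo.zero (m : ℕ) (Ω : Set E5) : Bo m Ω (fun _ => 0) 0 := fun i _ x _ => by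
  rw [sq_zero_fun]; norm_num

theorem Bo.sum {ι : Type*} {m : ℕ} {Ω : Set E5} (s : Finset ι) {f : ι → E5 → ℂ} {M : ι → ℝ}
    (hf : ∀ i ∈ s, Sm (f i)) (h0 : ∀ i ∈ s, 0 ≤ M i) (h : ∀ i ∈ s, Bo m Ω (f i) (M i)) :
    Bo m Ω (fun x => ∑ i ∈ s, f i x) (∑ i ∈ s, M i) := by
  classical
  induction s using Finset.induction_on with
  | empty => simpa using Bo.zero m Ω
  | insert i s hi ih =>
    simp only [Finset.sum_insert hi]
    exact Bo.add (hf i (Finset.mem_insert_self _ _))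
      (Sm.sum s fun k hk => hf k (Finset.mem_insert_of_mem hk))
      (h0 i (Finset.mem_insert_self _ _))
      (Finset.sum_nonneg fun k hk => h0 k (Finset.mem_insert_of_mem hk))
      (h i (Finset.mem_insert_self _ _))
      (ih (fun k hk => hf k (Finset.mem_insert_of_mem hk))
        (fun k hk => h0 k (Finset.mem_insert_of_mem hk))
        (fun k hk => h k (Finset.mem_insert_of_mem hk)))

theorem Bo.half {m : ℕ} {Ω : Set E5} {f g : E5 → ℂ} {M : ℝ} (hf : Sm f) (hg : Sm g) (h0 : 0 ≤ M)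
    (h : Bo m Ω f M) (h' : Bo m Ω g M) : Bo m Ω (fun x => (f x + g x) / 2) M := by
  have h1 := (Bo.add hf hg h0 h0 h h').const_mul (hf.add hg) (1 / 2)
  have e : (fun x => (f x + g x) / 2) = fun x => (1 / 2 : ℂ) * (f x + g x) := by
    funext x; ring
  rw [e]
  have e2 : ‖(1 / 2 : ℂ)‖ * (M + M) = M := by simp; ring
  rwa [e2] at h1

theorem Bo.dz {m : ℕ} {Ω : Set E5} {f : E5 → ℂ} {M : ℝ} (hf : Sm f) (h0 : 0 ≤ M)
    (h : Bo (m + 1) Ω f M) (l : Fin 3) : Bo m Ω (dz l f) M := by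
  have key : ∀ i k : Fin 5, Bo m Ω (fun x => (CR5.pd i f x - Complex.I * CR5.pd k f x) / 2) M := by
    intro i k
    have h1 := Bo.const_mul (hf.pd k) (-Complex.I) (h.pd k)
    have e : ‖-Complex.I‖ * M = M := by simp
    rw [e] at h1
    have h2 := Bo.half (hf.pd i) ((Sm.const (-Complex.I)).mul (hf.pd k)) h0 (h.pd i) h1
    have e2 : (fun x => (CR5.pd i f x - Complex.I * CR5.pd k f x) / 2)
        = fun x => (CR5.pd i f x + -Complex.I * CR5.pd k f x) / 2 := by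
      funext x; ring
    rw [e2]; exact h2
  rcases fin3_cases l with rfl | rfl | rfl
  · have e : CR5.dz 0 f = fun x => (CR5.pd 0 f x - Complex.I * CR5.pd 1 f x) / 2 := by
      funext x; rw [dz_zero]
    rw [e]; exact key 0 1
  · have e : CR5.dz 1 f = fun x => (CR5.pd 2 f x - Complex.I * CR5.pd 3 f x) / 2 := by
      funext x; rw [dz_one]
    rw [e]; exact key 2 3
  · have e : CR5.dz 2 f = CR5.pd 4 f := by funext x; rw [dz_two]
    rw [e]; exact h.pd 4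

theorem Bo.db {m : ℕ} {Ω : Set E5} {f : E5 → ℂ} {M : ℝ} (hf : Sm f) (h0 : 0 ≤ M)
    (h : Bo (m + 1) Ω f M) (l : Fin 3) : Bo m Ω (db l f) M := by
  have key : ∀ i k : Fin 5, Bo m Ω (fun x => (CR5.pd i f x + Complex.I * CR5.pd k f x) / 2) M := by
    intro i k
    have h1 := Bo.const_mul (hf.pd k) Complex.I (h.pd k)
    have e : ‖Complex.I‖ * M = M := by simp
    rw [e] at h1
    exact Bo.half (hf.pd i) ((Sm.const Complex.I).mul (hf.pd k)) h0 (h.pd i) h1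
  rcases fin3_cases l with rfl | rfl | rfl
  · have e : CR5.db 0 f = fun x => (CR5.pd 0 f x + Complex.I * CR5.pd 1 f x) / 2 := by
      funext x; rw [db_zero]
    rw [e]; exact key 0 1
  · have e : CR5.db 1 f = fun x => (CR5.pd 2 f x + Complex.I * CR5.pd 3 f x) / 2 := by
      funext x; rw [db_one]
    rw [e]; exact key 2 3
  · have e : CR5.db 2 f = CR5.pd 4 f := by funext x; rw [db_two]
    rw [e]; exact h.pd 4

theorem Bo.L {a : Str} (ha : SmS a) {m : ℕ} {Ω : Set E5} {f : E5 → ℂ} {A M : ℝ} (hf : Sm f)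
    (hA : 0 ≤ A) (h0 : 0 ≤ M) (j : Fin 2) (hb : ∀ l, Bo m Ω (a j l) A) (h : Bo (m + 1) Ω f M) :
    Bo m Ω (L a j f) ((1 + 3 * cmG m * A) * M) := by
  have hc := cmG_pos m
  have h1 := Bo.sum (Finset.univ : Finset (Fin 3)) (f := fun l x => a j l x * CR5.dz l f x)
    (M := fun _ => cmG m * A * M) (fun l _ => (ha j l).mul (hf.dz l))
    (fun _ _ => by positivity) (fun l _ => Bo.mul (ha j l) (hf.dz l) (hb l) (h.dz hf h0 l))
  have h2 := Bo.add (hf.db j.castSucc)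
    (Sm.sum _ fun l _ => (ha j l).mul (hf.dz l)) h0 (by simp; positivity)
    (h.db hf h0 j.castSucc) h1
  refine Bo.mono h2 le_rfl (Subset.refl _) (by simp; positivity) (le_of_eq ?_)
  simp only [Finset.sum_const, Finset.card_univ, Fintype.card_fin, nsmul_eq_mul]
  push_cast; ring

theorem Bo.Lb {a : Str} (ha : SmS a) {m : ℕ} {Ω : Set E5} {f : E5 → ℂ} {A M : ℝ} (hf : Sm f)
    (hA : 0 ≤ A) (h0 : 0 ≤ M) (j : Fin 2) (hb : ∀ l, Bo m Ω (a j l) A) (h : Bo (m + 1) Ω f M) :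
    Bo m Ω (Lb a j f) ((1 + 3 * cmG m * A) * M) := by
  have h1 := Bo.L ha hf.conj hA h0 j hb (h.conj hf)
  have h2 := Bo.conj (hf.conj.L ha j) h1
  have e : CR5.Lb a j f
      = fun x => (starRingEnd ℂ) (CR5.L a j (fun y => (starRingEnd ℂ) (f y)) x) := by
    funext x
    rw [conj_L hf.conj]
    simp only [Complex.conj_conj]
  rw [e]; exact h2

/-! ### The standard functions -/

theorem pd_coordC (i k : Fin 5) (x : E5) :
    pd k (fun y => ((y i : ℝ) : ℂ)) x = if k = i then 1 else 0 := by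
  unfold pd
  have h : HasFDerivAt (fun y : E5 => ((y i : ℝ) : ℂ))
      (Complex.ofRealCLM.comp (EuclideanSpace.proj i : E5 →L[ℝ] ℝ)) x :=
    (Complex.ofRealCLM.comp (EuclideanSpace.proj i : E5 →L[ℝ] ℝ)).hasFDerivAt
  rw [h.fderiv]
  show (((EuclideanSpace.single k (1 : ℝ) : E5) i : ℝ) : ℂ) = _
  by_cases hk : k = i
  · subst hk; simp
  · rw [if_neg hk]
    have : (EuclideanSpace.single k (1 : ℝ) : E5) i = 0 := by
      simp
      exact fun h => hk h.symm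
    rw [this]; simp

theorem norm_coord_le {x : E5} (hx : ‖x‖ < 1) (i : Fin 5) : |x i| ≤ 1 := by
  have : ‖x i‖ ≤ ‖x‖ := PiLp.norm_apply_le x i
  rw [Real.norm_eq_abs] at this
  linarith

theorem Bo_coord (m : ℕ) (i : Fin 5) : Bo m (Metric.ball 0 1) (fun y : E5 => ((y i : ℝ) : ℂ)) 1 := by
  intro n _ x hx
  rw [mem_ball_zero_iff] at hx
  have hpd : ∀ k : Fin 5, pd k (fun y : E5 => ((y i : ℝ) : ℂ)) = fun _ => if k = i then 1 else 0 := by
    intro k; funext y; exact pd_coordC i k y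
  match n with
  | 0 =>
    rw [sq_zero', Complex.norm_real, Real.norm_eq_abs]
    have := norm_coord_le hx i
    have h0 := abs_nonneg (x i)
    nlinarith
  | n + 1 =>
    rw [sq_succ]
    simp only [hpd]
    match n with
    | 0 =>
      have : ∀ k : Fin 5, sq 0 (fun _ => if k = i then (1 : ℂ) else 0) x
          = if k = i then 1 else 0 := by
        intro k; rw [sq_zero']; split_ifs <;> simp
      simp only [this]
      simp
    | n + 1 =>
      have : ∀ k : Fin 5, sq (n + 1) (fun _ => if k = i then (1 : ℂ) else 0) x = 0 := by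
        intro k; rw [sq_const]; simp
      simp [this]

theorem Bo_zc (m : ℕ) (j : Fin 2) : Bo m (Metric.ball 0 1) (zc j) 2 := by
  have key : ∀ i k : Fin 5, Bo m (Metric.ball (0 : E5) 1)
      (fun x => ((x i : ℝ) : ℂ) + Complex.I * ((x k : ℝ) : ℂ)) 2 := by
    intro i k
    have h1 := Bo.const_mul (Sm.coord k) Complex.I (Bo_coord m k)
    have e : ‖Complex.I‖ * 1 = (1 : ℝ) := by simp
    rw [e] at h1
    have h2 := Bo.add (Sm.coord i) ((Sm.const Complex.I).mul (Sm.coord k)) zero_le_one zero_le_one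
      (Bo_coord m i) h1
    norm_num at h2
    exact h2
  by_cases hj : j = 0
  · have e : zc j = fun x => ((x 0 : ℝ) : ℂ) + Complex.I * ((x 1 : ℝ) : ℂ) := by
      funext x; simp [zc, hj]
    rw [e]; exact key 0 1
  · have e : zc j = fun x => ((x 2 : ℝ) : ℂ) + Complex.I * ((x 3 : ℝ) : ℂ) := by
      funext x; simp [zc, hj]
    rw [e]; exact key 2 3

theorem Bo_a0 (m : ℕ) (j : Fin 2) (l : Fin 3) : Bo m (Metric.ball 0 1) (a0 j l) 2 := by
  by_cases hl : l = 2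
  · have e : a0 j l = fun x => -Complex.I * zc j x := by
      funext x; simp [a0, hl]
    rw [e]
    have h1 := Bo.const_mul (Sm.zc j) (-Complex.I) (Bo_zc m j)
    have e2 : ‖-Complex.I‖ * 2 = (2 : ℝ) := by simp
    rwa [e2] at h1
  · have e : a0 j l = fun _ => (0 : ℂ) := by
      funext x; simp [a0, hl]
    rw [e]
    exact Bo.mono (Bo.zero m _) le_rfl (Subset.refl _) le_rfl (by norm_num)

/-- Coefficients of a structure are bounded on the unit ball. -/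
theorem Bo_a {a : Str} (ha : SmS a) {m : ℕ} {B : ℝ} (hB : 0 ≤ B) (h : BdA a m B) (j : Fin 2)
    (l : Fin 3) : Bo m (Metric.ball 0 1) (a j l) (2 + B) := by
  have h1 : Bo m (Metric.ball (0 : E5) 1) (fun y => a j l y - a0 j l y) B :=
    fun i hi x _ => h j l i hi x
  have h2 := Bo.add (smS_a0 j l) ((ha j l).sub (smS_a0 j l)) (by norm_num) hB (Bo_a0 m j l) h1
  have e : a j l = fun x => a0 j l x + (a j l x - a0 j l x) := by funext x; ring
  rw [e]; exact h2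

theorem Near.bdAG {a : Str} {m : ℕ} {ε : ℝ} (h : Near a m ε) : BdA a m ε :=
  fun j l i hi x => h.bd j l i hi x

theorem Near.monoG {a : Str} {m m' : ℕ} {ε ε' : ℝ} (h : Near a m ε) (hm : m' ≤ m) (h0 : 0 ≤ ε)
    (hε : ε ≤ ε') : Near a m' ε' :=
  ⟨h.sm, h.out, fun j l i hi x => (h.bd j l i (hi.trans hm) x).trans (by gcongr)⟩

theorem Bo_near {a : Str} {m : ℕ} {ε : ℝ} (h : Near a m ε) (h0 : 0 ≤ ε) (h1 : ε ≤ 1) (j : Fin 2)
    (l : Fin 3) : Bo m (Metric.ball 0 1) (a j l) 3 :=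
  Bo.mono (Bo_a h.smS h0 h.bdAG j l) le_rfl (Subset.refl _) (by positivity) (by linarith)

/-! ### `gam`, `ex`, `Dm` -/

theorem sm_F0 (k : Fin 3) : Sm (F0 k) := by
  rcases fin3_cases k with rfl | rfl | rfl
  · have e : F0 0 = zc 0 := by funext x; simp [F0]
    rw [e]; exact Sm.zc 0
  · have e : F0 1 = zc 1 := by funext x; simp [F0]
    rw [e]; exact Sm.zc 1
  · have e : F0 2 = fun x => ((x 4 : ℝ) : ℂ) + Complex.I * ((((x 0 : ℝ) : ℂ) ^ 2
        + ((x 1 : ℝ) : ℂ) ^ 2 + ((x 2 : ℝ) : ℂ) ^ 2) + ((x 3 : ℝ) : ℂ) ^ 2) := by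
      funext x; simp [F0, zz]
    rw [e]
    exact (Sm.coord 4).add ((Sm.const _).mul
      (((((Sm.coord 0).pow 2).add ((Sm.coord 1).pow 2)).add ((Sm.coord 2).pow 2)).add
        ((Sm.coord 3).pow 2)))

theorem gam_sm {F : Mp} (hF : ∀ k, Sm (F k)) : Sm (gam F) :=
  (hF 2).add ((Sm.const _).mul ((hF 2).pow 2))

theorem ex_sm {F : Mp} (hF : ∀ k, Sm (F k)) (μ : ℝ) : Sm (ex μ F) :=
  ((Sm.const _).mul (gam_sm hF)).cexp

theorem ex_norm (μ : ℝ) (F : Mp) (x : E5) : ‖ex μ F x‖ = Real.exp (-(μ * (gam F x).im)) := by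
  unfold ex
  rw [Complex.norm_exp]
  congr 1
  simp [Complex.mul_re, Complex.mul_im]

theorem ex_add (μ D : ℝ) (F : Mp) (x : E5) : ex (μ + D) F x = ex D F x * ex μ F x := by
  unfold ex
  rw [← Complex.exp_add]
  congr 1
  push_cast; ring

theorem ex_neg_mul (μ : ℝ) (F : Mp) (x : E5) : ex (-μ) F x * ex μ F x = 1 := by
  rw [← ex_add]
  unfold ex
  simp

theorem ex_ne (μ : ℝ) (F : Mp) (x : E5) : ex μ F x ≠ 0 := Complex.exp_ne_zero _

theorem dz_cexp {f : E5 → ℂ} (hf : Sm f) (l : Fin 3) (x : E5) :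
    dz l (fun y => Complex.exp (f y)) x = Complex.exp (f x) * dz l f x := by
  rcases fin3_cases l with rfl | rfl | rfl <;>
    simp only [dz_zero, dz_one, dz_two, pd_cexp hf] <;> ring

theorem db_cexp {f : E5 → ℂ} (hf : Sm f) (l : Fin 3) (x : E5) :
    db l (fun y => Complex.exp (f y)) x = Complex.exp (f x) * db l f x := by
  rcases fin3_cases l with rfl | rfl | rfl <;>
    simp only [db_zero, db_one, db_two, pd_cexp hf] <;> ring

theorem L_cexp {a : Str} {f : E5 → ℂ} (hf : Sm f) (j : Fin 2) (x : E5) :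
    L a j (fun y => Complex.exp (f y)) x = Complex.exp (f x) * L a j f x := by
  simp only [L, db_cexp hf, dz_cexp hf, Fin.sum_univ_three]; ring

/-- `L (e^{iμγ}) = i μ e^{iμγ} L γ`. -/
theorem L_ex {a : Str} {F : Mp} (hF : ∀ k, Sm (F k)) (μ : ℝ) (j : Fin 2) (x : E5) :
    L a j (ex μ F) x = Complex.I * (μ : ℂ) * ex μ F x * L a j (gam F) x := by
  unfold ex
  rw [L_cexp ((Sm.const _).mul (gam_sm hF)), L_const_mul (gam_sm hF)]
  ring

/-- `L γ = (1 + (i/2) F₂) E_{j,2}`. -/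
theorem L_gam {a : Str} {F : Mp} (hF : ∀ k, Sm (F k)) (j : Fin 2) (x : E5) :
    L a j (gam F) x = (1 + Complex.I / 2 * F 2 x) * EF a F j 2 x := by
  have e : gam F = fun y => F 2 y + Complex.I / 4 * (F 2 y * F 2 y) := by
    funext y; unfold gam; ring
  rw [e, L_add (hF 2) ((Sm.const _).mul ((hF 2).mul (hF 2))), L_const_mul ((hF 2).mul (hF 2)),
    L_mul (hF 2) (hF 2)]
  unfold EF
  ring

theorem Dm_open {F : Mp} (hF : ∀ k, Sm (F k)) (ρ : ℝ) : IsOpen (Dm F ρ) := by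
  have h1 : IsOpen {x : E5 | ‖x‖ < 3 / 4} := isOpen_lt continuous_norm continuous_const
  have h2 : IsOpen {x : E5 | (gam F x).im < ρ} :=
    isOpen_lt (Complex.continuous_im.comp (gam_sm hF).cont) continuous_const
  exact h1.inter h2

theorem Dm_sub (F : Mp) (ρ : ℝ) : Dm F ρ ⊆ Metric.ball 0 1 := fun x hx => by
  rw [mem_ball_zero_iff]; have := hx.1; linarith

theorem Dm_bdd (F : Mp) (ρ : ℝ) : Bornology.IsBounded (Dm F ρ) := bdd_of_ball (Dm_sub F ρ)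

theorem Dm_mono (F : Mp) {ρ ρ' : ℝ} (h : ρ ≤ ρ') : Dm F ρ ⊆ Dm F ρ' := fun _ hx =>
  ⟨hx.1, lt_of_lt_of_le hx.2 h⟩

theorem HypF.fc {a : Str} {h : ℕ → ℝ} {m : ℕ} {ε1 lam R : ℝ} {F : Mp}
    (H : HypF a h m ε1 lam R F) : FC ε1 F := ⟨H.sm, H.out, H.c5⟩

/-- If two structures agree on an open set, then so do their operators. -/
theorem L_congr_str {a b : Str} {x : E5} (j : Fin 2) (h : ∀ l, a j l x = b j l x) (f : E5 → ℂ) :
    L a j f x = L b j f x := by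
  simp only [L, h]

theorem L_congr {a : Str} {f g : E5 → ℂ} {x : E5} (j : Fin 2) (h : f =ᶠ[𝓝 x] g) :
    L a j f x = L a j g x := by
  have hp : ∀ i, pd i f x = pd i g x := fun i => (pd_congr h i).eq_of_nhds
  simp only [L, dz, db, hp]

theorem Ls_congr {a b : Str} {f g : E5 → ℂ} {x : E5} (j : Fin 2) (h : f =ᶠ[𝓝 x] g)
    (hab : ∀ l, a j l =ᶠ[𝓝 x] b j l) : Ls a j f x = Ls b j g x := by
  have hp : ∀ i, pd i f x = pd i g x := fun i => (pd_congr h i).eq_of_nhds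
  have hq : ∀ l i, pd i (fun y => (starRingEnd ℂ) (a j l y) * f y) x
      = pd i (fun y => (starRingEnd ℂ) (b j l y) * g y) x := fun l i => by
    have : (fun y => (starRingEnd ℂ) (a j l y) * f y)
        =ᶠ[𝓝 x] fun y => (starRingEnd ℂ) (b j l y) * g y := by
      filter_upwards [h, hab l] with y h1 h2
      rw [h1, h2]
    exact (pd_congr this i).eq_of_nhds
  simp only [Ls, dz, db, hp, hq]

/-! ### Powers -/

theorem pw_le {C C' X : ℝ} {p p' : ℕ} (h1 : 1 ≤ C) (hC : C ≤ C') (hp : p ≤ p') (hX : 1 ≤ X) :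
    (C * X) ^ p ≤ (C' * X) ^ p' := by
  have hb : 1 ≤ C' * X := by nlinarith
  calc (C * X) ^ p ≤ (C' * X) ^ p := by gcongr
    _ ≤ _ := pow_le_pow_right₀ hb hp

theorem pw_one {C X : ℝ} (h1 : 1 ≤ C) (hX : 1 ≤ X) (p : ℕ) : 1 ≤ (C * X) ^ p :=
  one_le_pow₀ (by nlinarith)

theorem pw_mul {C C' X : ℝ} {p p' : ℕ} (h1 : 1 ≤ C) (h1' : 1 ≤ C') (hX : 1 ≤ X) :
    (C * X) ^ p * (C' * X) ^ p' ≤ (C * C' * X) ^ (p + p') := by
  have a1 : (C * X) ^ p ≤ (C * C' * X) ^ p := by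
    have : C * X ≤ C * C' * X := by nlinarith [mul_nonneg (by linarith : (0:ℝ) ≤ C) (by linarith : (0:ℝ) ≤ X)]
    have h0 : 0 ≤ C * X := by positivity
    exact pow_le_pow_left₀ h0 this p
  have a2 : (C' * X) ^ p' ≤ (C * C' * X) ^ p' := by
    have : C' * X ≤ C * C' * X := by nlinarith [mul_nonneg (by linarith : (0:ℝ) ≤ C') (by linarith : (0:ℝ) ≤ X)]
    have h0 : 0 ≤ C' * X := by positivity
    exact pow_le_pow_left₀ h0 this p'
  rw [pow_add]
  exact mul_le_mul a1 a2 (by positivity) (by positivity)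

theorem pw_add {C C' X : ℝ} {p p' : ℕ} (h1 : 1 ≤ C) (h1' : 1 ≤ C') (hX : 1 ≤ X) :
    (C * X) ^ p + (C' * X) ^ p' ≤ ((C + C') * X) ^ (p + p' + 1) := by
  have a1 : (C * X) ^ p ≤ ((C + C') * X) ^ (p + p') :=
    pw_le h1 (by linarith) (by omega) hX
  have a2 : (C' * X) ^ p' ≤ ((C + C') * X) ^ (p + p') :=
    pw_le h1' (by linarith) (by omega) hX
  have a3 : 2 ≤ (C + C') * X := by nlinarith
  have a4 : 0 ≤ ((C + C') * X) ^ (p + p') := by positivity
  rw [pow_succ]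
  nlinarith

end Pool.Agent.CR5
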