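import Mathlib

/-!
# CR5 (MP_3b98b0_an): definitions

Structures on `ℝ⁵` close to the Heisenberg structure, the operators `D0`, `D1`, their adjoints,
the box operator on forms of type `(0,1)`, and the weighted Sobolev sums.  The paper proof is in
`TEXT.md` in this folder.
-/

open MeasureTheory Set Filter Topology
open scoped ENNReal ComplexConjugate

noncomputable section

namespace Pool.Agent.CR5

/-- The space `ℝ⁵` with coordinates `(x₁, y₁, x₂, y₂, t) = (x 0, x 1, x 2, x 3, x 4)`. -/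
abbrev E5 := EuclideanSpace ℝ (Fin 5)

/-- Basis vectors. -/
def e5 (i : Fin 5) : E5 := EuclideanSpace.single i 1

/-- Smooth complex functions on `ℝ⁵`. -/
def Sm (f : E5 → ℂ) : Prop := ContDiff ℝ (⊤ : ℕ∞) f

/-- Smooth functions with compact support. -/
structure Tst (f : E5 → ℂ) : Prop where
  sm : Sm f
  cs : HasCompactSupport f

/-- Partial derivatives. -/
def pd (i : Fin 5) (f : E5 → ℂ) : E5 → ℂ := fun x => fderiv ℝ f x (e5 i)

/-- The complex coordinates `z₁ = x₁ + i y₁`, `z₂ = x₂ + i y₂`. -/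
def zc (j : Fin 2) (x : E5) : ℂ :=
  if j = 0 then (x 0 : ℂ) + Complex.I * (x 1 : ℂ) else (x 2 : ℂ) + Complex.I * (x 3 : ℂ)

/-- `|z|² = |z₁|² + |z₂|²`. -/
def zz (x : E5) : ℝ := x 0 ^ 2 + x 1 ^ 2 + x 2 ^ 2 + x 3 ^ 2

/-- `d 0 = ∂/∂z₁`, `d 1 = ∂/∂z₂`, `d 2 = ∂/∂t`. -/
def dz (l : Fin 3) (f : E5 → ℂ) : E5 → ℂ := fun x =>
  if l = 0 then (pd 0 f x - Complex.I * pd 1 f x) / 2
  else if l = 1 then (pd 2 f x - Complex.I * pd 3 f x) / 2
  else pd 4 f x

/-- `db 0 = ∂/∂z̄₁`, `db 1 = ∂/∂z̄₂`, `db 2 = ∂/∂t`. -/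
def db (l : Fin 3) (f : E5 → ℂ) : E5 → ℂ := fun x =>
  if l = 0 then (pd 0 f x + Complex.I * pd 1 f x) / 2
  else if l = 1 then (pd 2 f x + Complex.I * pd 3 f x) / 2
  else pd 4 f x

/-- A structure: the coefficients `a j l` of `L j = ∂/∂z̄_j + ∑ l, a j l * d l`. -/
abbrev Str := Fin 2 → Fin 3 → E5 → ℂ

/-- The standard (Heisenberg) structure: `L j = ∂/∂z̄_j - i z_j ∂/∂t`. -/
def a0 : Str := fun j l x => if l = 2 then -(Complex.I * zc j x) else 0

/-- The vector fields `L j`. -/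
def L (a : Str) (j : Fin 2) (f : E5 → ℂ) : E5 → ℂ := fun x =>
  db j.castSucc f x + ∑ l, a j l x * dz l f x

/-- The conjugate vector fields. -/
def Lb (a : Str) (j : Fin 2) (f : E5 → ℂ) : E5 → ℂ := fun x =>
  dz j.castSucc f x + ∑ l, conj (a j l x) * db l f x

/-- The formal adjoint of `L j` for the Lebesgue measure. -/
def Ls (a : Str) (j : Fin 2) (g : E5 → ℂ) : E5 → ℂ := fun x =>
  -dz j.castSucc g x - ∑ l, db l (fun y => conj (a j l y) * g y) x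

/-- Pairs of functions (forms of type `(0,1)`). -/
abbrev F2 := Fin 2 → E5 → ℂ

/-- `D0 f = (L 0 f, L 1 f)`. -/
def D0 (a : Str) (f : E5 → ℂ) : F2 := fun j => L a j f

/-- The adjoint of `D0`. -/
def D0s (a : Str) (w : F2) : E5 → ℂ := fun x => Ls a 0 (w 0) x + Ls a 1 (w 1) x

/-- `D1 (w₀, w₁) = L 0 w₁ - L 1 w₀`. -/
def D1 (a : Str) (w : F2) : E5 → ℂ := fun x => L a 0 (w 1) x - L a 1 (w 0) x

/-- The adjoint of `D1`. -/
def D1s (a : Str) (v : E5 → ℂ) : F2 := fun j x => if j = 0 then -Ls a 1 v x else Ls a 0 v x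

/-- The box operator `D0 D0* + D1* D1`. -/
def Box (a : Str) (w : F2) : F2 := fun j x => D0 a (D0s a w) j x + D1s a (D1 a w) j x

/-- Coefficients of the commutator `[L 0, L 1] = ∑ l, kap l * d l`. -/
def kap (a : Str) (l : Fin 3) : E5 → ℂ := fun x => L a 0 (a 1 l) x - L a 1 (a 0 l) x

/-- The commutator `[L 0, L 1]`. -/
def Kap (a : Str) (f : E5 → ℂ) : E5 → ℂ := fun x => ∑ l, kap a l x * dz l f x

/-- The adjoint of `Kap`. -/
def Kaps (a : Str) (g : E5 → ℂ) : E5 → ℂ := fun x =>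
  -∑ l, db l (fun y => conj (kap a l y) * g y) x

/-- `|grad f|²` at `x`: the sum of the squares of `L j f` and `Lb j f`. -/
def gr (a : Str) (f : E5 → ℂ) : E5 → ℝ := fun x =>
  ∑ j : Fin 2, (‖L a j f x‖ ^ 2 + ‖Lb a j f x‖ ^ 2)

/-- Sum of the squares of all partial derivatives of order `n`. -/
def sq : ℕ → (E5 → ℂ) → E5 → ℝ
  | 0, f => fun x => ‖f x‖ ^ 2
  | n + 1, f => fun x => ∑ k : Fin 5, sq n (pd k f) x

/-- The structure `a` is smooth, equal to the standard one outside the unit ball, and `ε`-close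
to it in `C^m`. -/
structure Near (a : Str) (m : ℕ) (ε : ℝ) : Prop where
  sm : ∀ j l, Sm (a j l)
  out : ∀ j l x, 1 ≤ ‖x‖ → a j l x = a0 j l x
  bd : ∀ j l i, i ≤ m → ∀ x, sq i (fun y => a j l y - a0 j l y) x ≤ ε ^ 2

/-- Coefficients of the right invariant fields. -/
def zco (k : Fin 5) (x : E5) : ℝ :=
  if k = 0 then -2 * x 1 else if k = 1 then 2 * x 0 else if k = 2 then -2 * x 3
  else if k = 3 then 2 * x 2 else 0

/-- The right invariant fields `∂/∂x_j - 2 y_j ∂/∂t`, `∂/∂y_j + 2 x_j ∂/∂t`, `∂/∂t`.  They commute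
with `L a0 j` and `Lb a0 j` and are divergence free. -/
def Zf (k : Fin 5) (f : E5 → ℂ) : E5 → ℂ := fun x => pd k f x + (zco k x : ℂ) * pd 4 f x

/-- Iterated right invariant fields. -/
def ZL : List (Fin 5) → (E5 → ℂ) → E5 → ℂ
  | [], f => f
  | k :: I, f => Zf k (ZL I f)

/-- Smooth `f` with `f`, `L⁰ f`, `L̄⁰ f`, `∂f/∂t` square integrable on `ℝ⁵`. -/
structure WW (f : E5 → ℂ) : Prop where
  sm : Sm f
  l2 : MemLp f 2 volume
  lL : ∀ j, MemLp (L a0 j f) 2 volume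
  lLb : ∀ j, MemLp (Lb a0 j f) 2 volume
  lt : MemLp (pd 4 f) 2 volume

/-- All `Z^I f` are in `WW`. -/
def WI (f : E5 → ℂ) : Prop := ∀ I : List (Fin 5), WW (ZL I f)

/-- The weighted Sobolev sum `∑_{i ≤ m} h i * ‖∂^i f‖_{L²(Ω)}`. -/
def NN (h : ℕ → ℝ) (m : ℕ) (Ω : Set E5) (f : E5 → ℂ) : ℝ :=
  ∑ i ∈ Finset.range (m + 1), h i * Real.sqrt (∫ x in Ω, sq i f x)

/-- The same for pairs. -/
def NN2 (h : ℕ → ℝ) (m : ℕ) (Ω : Set E5) (w : F2) : ℝ := NN h m Ω (w 0) + NN h m Ω (w 1)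

/-- The order `M = 10` up to which the weights are `1`. -/
def MM : ℕ := 10

/-- Admissible weights up to the order `m`. -/
structure Adm (h : ℕ → ℝ) (m : ℕ) : Prop where
  big : MM ≤ m
  one : ∀ i, i ≤ MM → h i = 1
  pos : ∀ i, 0 < h i
  anti : ∀ i, h (i + 1) ≤ h i
  mul : ∀ i l, i ≤ l → i + l ≤ m → h (i + l) ≤ h (i + 5) * h l

/-- `Ω'` is a subset of `Ω` at distance at least `s` from the complement. -/
def Inn (Ω' Ω : Set E5) (s : ℝ) : Prop := ∀ x ∈ Ω', Metric.ball x s ⊆ Ω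

/-- The regularised box operator `Box + ε (1 - ∂²/∂t²)`. -/
def BoxE (a : Str) (ε : ℝ) (w : F2) : F2 := fun j x =>
  Box a w j x + (ε : ℂ) * (w j x - pd 4 (pd 4 (w j)) x)

/-- Maps from `ℝ⁵` to `ℂ³`. -/
abbrev Mp := Fin 3 → E5 → ℂ

/-- The standard embedding `(z₁, z₂, t + i |z|²)`. -/
def F0 : Mp := fun k x =>
  if k = 0 then zc 0 x else if k = 1 then zc 1 x else (x 4 : ℂ) + Complex.I * (zz x : ℂ)

/-- The matrix `(d_l F_k)` (row `k`, column `l`). -/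
def NF (F : Mp) (x : E5) : Matrix (Fin 3) (Fin 3) ℂ := Matrix.of fun k l => dz l (F k) x

/-- The error `E_{j,k} = L j (F k)` of the map `F` for the structure `a`. -/
def EF (a : Str) (F : Mp) : Fin 2 → Fin 3 → E5 → ℂ := fun j k => L a j (F k)

/-- The function `γ = F₃ + (i/4) F₃²`. -/
def gam (F : Mp) : E5 → ℂ := fun x => F 2 x + Complex.I / 4 * F 2 x ^ 2

/-- The domain `D_ρ(F) = {|x| < 3/4, Im γ < ρ}`. -/
def Dm (F : Mp) (ρ : ℝ) : Set E5 := {x | ‖x‖ < 3 / 4 ∧ (gam F x).im < ρ}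

/-- `exp (i μ γ)`. -/
def ex (μ : ℝ) (F : Mp) : E5 → ℂ := fun x => Complex.exp (Complex.I * (μ : ℂ) * gam F x)

end Pool.Agent.CR5
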