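import Pool.Agent.Lib.CR5.Basic2

/-!
# CR5: interface statements of the blocks B, C, D, E, F, H

Each block proves its statements; the other blocks use them as hypotheses.
-/

open MeasureTheory Set Filter Topology
open scoped ENNReal ComplexConjugate

noncomputable section

namespace Pool.Agent.CR5

/-! ### Block B: global estimates for test functions -/

/-- Hardy inequality. -/
def S_Har : Prop := ∃ ε > 0, ∃ C > 0, ∀ a : Str, Near a 1 ε → ∀ f : E5 → ℂ, Tst f →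
  ∫ x, ‖f x‖ ^ 2 / (1 + zz x) ≤ C * ∫ x, gr a f x

/-- The T-lemma: first order operators with compactly supported coefficients are bounded by the
horizontal gradients. -/
def S_TL : Prop := ∃ ε > 0, ∃ C > 0, ∀ a : Str, Near a 2 ε → ∀ (c : E5 → ℂ) (M : ℝ), Sm c →
  (∀ x, 1 ≤ ‖x‖ → c x = 0) → (∀ x, ‖c x‖ ≤ M) → (∀ k x, ‖pd k c x‖ ≤ M) →
  ∀ (i : Fin 5) (f g : E5 → ℂ), Tst f → Tst g →
    ‖∫ x, c x * pd i f x * conj (g x)‖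
      ≤ C * M * Real.sqrt (∫ x, gr a f x) * Real.sqrt (∫ x, gr a g x)

/-- The basic estimate. -/
def S_Bas : Prop := ∃ ε > 0, ∃ c > 0, ∀ a : Str, Near a 2 ε → ∀ w : F2, (∀ j, Tst (w j)) →
  c * ((∫ x, gr a (w 0) x) + ∫ x, gr a (w 1) x)
    ≤ (∫ x, ‖D0s a w x‖ ^ 2) + ∫ x, ‖D1 a w x‖ ^ 2

/-- Cutoff functions at infinity. -/
def S_Inf : Prop := ∃ C > 0, ∀ ρ : ℝ, 1 ≤ ρ → ∃ χ : E5 → ℂ, Tst χ ∧ (∀ x, ‖χ x‖ ≤ 1) ∧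
  (∀ x, conj (χ x) = χ x) ∧ (∀ x, ‖x‖ ≤ ρ → χ x = 1) ∧
  (∀ j x, ‖L a0 j χ x‖ ≤ C / ρ) ∧ (∀ j x, ‖Lb a0 j χ x‖ ≤ C / ρ) ∧ ∀ x, ‖pd 4 χ x‖ ≤ C / ρ

/-! ### Block C: existence of smooth solutions of the regularised equation -/

/-- Existence. -/
def S_EX : Prop := ∃ ε > 0, ∀ a : Str, Near a 2 ε → ∀ Φ : F2, (∀ j, Tst (Φ j)) →
  ∀ e : ℝ, 0 < e → e ≤ 1 → ∃ w : F2, (∀ j, WI (w j)) ∧ ∀ j x, BoxE a e w j x = Φ j x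

/-! ### Block D: uniform estimates -/

/-- Sum of the squares of all derivatives up to the order `m` of both components, integrated
over `ℝ⁵`. -/
def Hs (m : ℕ) (Φ : F2) : ℝ :=
  ∑ i ∈ Finset.range (m + 1), ((∫ x, sq i (Φ 0) x) + ∫ x, sq i (Φ 1) x)

/-- Uniform estimates for the solutions of the regularised equation. -/
def S_LIN : Prop := ∃ ε > 0, ∃ C > 0, ∀ a : Str, Near a 4 ε → ∀ Φ : F2, (∀ j, Tst (Φ j)) →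
  (∀ j x, 1 ≤ ‖x‖ → Φ j x = 0) → ∀ e : ℝ, 0 < e → e ≤ 1 → ∀ w : F2, (∀ j, WI (w j)) →
  (∀ j x, BoxE a e w j x = Φ j x) → ∀ κ : ℝ,
  (∀ l x, ‖kap a l x‖ ≤ κ) → (∀ l i x, ‖pd i (kap a l) x‖ ≤ κ) →
  (∫ x in Metric.ball (0 : E5) 1, (‖w 0 x‖ ^ 2 + ‖w 1 x‖ ^ 2)) ≤ C * Hs 0 Φ ∧
  (∫ x in Metric.ball (0 : E5) 1,
      (‖D1s a (D1 a w) 0 x‖ ^ 2 + ‖D1s a (D1 a w) 1 x‖ ^ 2))
    ≤ C * ((∫ x, ‖D1 a Φ x‖ ^ 2) + κ ^ 2 * Hs 1 Φ + e ^ 2 * Hs 2 Φ)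

/-! ### Block E: interior estimates -/

/-- Weights for the interior estimates: positive, nonincreasing, starting with one. -/
structure Wt (h : ℕ → ℝ) : Prop where
  one : h 0 = 1
  pos : ∀ i, 0 < h i
  anti : ∀ i, h (i + 1) ≤ h i

/-- The derivatives of `a - a0` up to the order `m` are bounded by `B`. -/
def BdA (a : Str) (m : ℕ) (B : ℝ) : Prop :=
  ∀ j l i, i ≤ m → ∀ x, sq i (fun y => a j l y - a0 j l y) x ≤ B ^ 2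

/-- Interior estimates of all orders; the constants depend only on the order and on a bound for
the derivatives of the structure, not on the weights, the sets, the regularisation parameter. -/
def S_LOC : Prop := ∃ ε > 0, ∀ (m : ℕ) (B : ℝ), ∃ (C : ℝ) (p : ℕ), 1 ≤ C ∧
  ∀ a : Str, Near a 4 ε → BdA a (m + 4) B →
  ∀ h : ℕ → ℝ, Wt h → ∀ s : ℝ, 0 < s → s ≤ 1 → ∀ Ω' Ω : Set E5, IsOpen Ω' → IsOpen Ω →
  Ω' ⊆ Ω → Inn Ω' Ω s → Ω ⊆ Metric.ball 0 1 → ∀ e : ℝ, 0 ≤ e → e ≤ 1 →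
  ∀ (w f : F2) (β b : E5 → ℂ), (∀ j, Sm (w j)) → (∀ j, Sm (f j)) → Sm β → Sm b →
  (∀ j, ∀ x ∈ Ω, BoxE a e w j x = f j x + D1s a β j x + D0 a b j x) →
  NN2 h m Ω' w + NN h m Ω' (D0s a w) + NN h m Ω' (D1 a w)
    ≤ (C / s) ^ p * (NN2 h m Ω f + NN h m Ω β + NN h m Ω b
      + Real.sqrt (∫ x in Ω, (‖w 0 x‖ ^ 2 + ‖w 1 x‖ ^ 2)))

/-! ### Block F: calculus of the weighted sums -/

/-- Cutoff functions between a set and its `s`-neighbourhood. -/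
def S_CUT : Prop := ∀ m : ℕ, ∃ C ≥ 1, ∀ (A : Set E5) (s : ℝ), 0 < s → s ≤ 1 →
  ∃ χ : E5 → ℂ, Sm χ ∧ (∀ x, ∃ r : ℝ, 0 ≤ r ∧ r ≤ 1 ∧ χ x = r) ∧ (∀ x ∈ A, χ x = 1) ∧
  (∀ x, χ x ≠ 0 → ∃ y ∈ A, dist x y < s) ∧ ∀ i ≤ m, ∀ x, sq i χ x ≤ (C / s ^ i) ^ 2

/-- Moreover the cutoff can be taken equal to one near `A`. -/
def S_CUT2 : Prop := ∀ m : ℕ, ∃ C ≥ 1, ∀ (A : Set E5) (s : ℝ), 0 < s → s ≤ 1 →
  ∃ χ : E5 → ℂ, Sm χ ∧ (∀ x, ∃ r : ℝ, 0 ≤ r ∧ r ≤ 1 ∧ χ x = r) ∧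
  (∀ y ∈ A, ∀ x, dist x y < s / 4 → χ x = 1) ∧
  (∀ x, χ x ≠ 0 → ∃ y ∈ A, dist x y < s) ∧ ∀ i ≤ m, ∀ x, sq i χ x ≤ (C / s ^ i) ^ 2

/-- Sobolev inequality on balls. -/
def S_SOB : Prop := ∃ (C : ℝ) (p : ℕ), 1 ≤ C ∧ ∀ (f : E5 → ℂ) (i : ℕ) (x : E5) (s : ℝ), Sm f →
  0 < s → s ≤ 1 → Real.sqrt (sq i f x)
    ≤ (C / s) ^ p * ∑ q ∈ Finset.range 6, Real.sqrt (∫ y in Metric.ball x s, sq (i + q) f y)

/-- Product estimate. -/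
def S_PR : Prop := ∀ m : ℕ, ∃ (C : ℝ) (p : ℕ), 1 ≤ C ∧ ∀ h : ℕ → ℝ, Adm h m → ∀ s : ℝ, 0 < s →
  s ≤ 1 → ∀ Ω' Ω : Set E5, IsOpen Ω' → IsOpen Ω → Ω' ⊆ Ω → Inn Ω' Ω s → Ω ⊆ Metric.ball 0 1 →
  ∀ f g : E5 → ℂ, Sm f → Sm g →
  NN h m Ω' (fun x => f x * g x) ≤ (C / s) ^ p * NN h m Ω f * NN h m Ω g

/-- Product with a function whose derivatives are bounded. -/
def S_PB : Prop := ∀ m : ℕ, ∃ C ≥ 1, ∀ h : ℕ → ℝ, Adm h m → ∀ Ω : Set E5, IsOpen Ω →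
  Ω ⊆ Metric.ball 0 1 → ∀ (f g : E5 → ℂ) (M : ℝ), Sm f → Sm g →
  (∀ i ≤ m, ∀ x ∈ Ω, sq i g x ≤ M ^ 2) → 0 ≤ M →
  NN h m Ω (fun x => g x * f x) ≤ C * M * NN h m Ω f

/-- Exponential estimate on an open subset `G` of `Ω'`. -/
def S_EXPO : Prop := ∀ m : ℕ, ∃ (C : ℝ) (p : ℕ), 1 ≤ C ∧ ∀ h : ℕ → ℝ, Adm h m → ∀ s : ℝ,
  0 < s → s ≤ 1 → ∀ G Ω' Ω : Set E5, IsOpen G → G ⊆ Ω' → IsOpen Ω' → IsOpen Ω → Ω' ⊆ Ω →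
  Inn Ω' Ω s → Ω ⊆ Metric.ball 0 1 → ∀ (g f : E5 → ℂ) (Δ M : ℝ), Sm g → Sm f → 0 ≤ M →
  (∀ x ∈ G, ‖Complex.exp (Complex.I * (Δ : ℂ) * g x)‖ ≤ M) →
  NN h m G (fun x => Complex.exp (Complex.I * (Δ : ℂ) * g x) * f x)
    ≤ (C / s) ^ p * (1 + |Δ|) ^ m * (1 + NN h m Ω g) ^ m * M * NN h m Ω f

/-! ### Blocks G, H: the embedding of structures close to the standard one -/

/-- Hypotheses on the map `F` (for the structure `a`, the weights `h`, the order `m`, and the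
parameters `lam`, `R`): `F` is smooth, equal to `F0` outside the ball of radius `3/4`, close to
`F0` in `C^5` and in the weighted sense, and the error satisfies the weighted bound. -/
structure HypF (a : Str) (h : ℕ → ℝ) (m : ℕ) (ε1 lam R : ℝ) (F : Mp) : Prop where
  sm : ∀ k, Sm (F k)
  out : ∀ k x, 3 / 4 ≤ ‖x‖ → F k x = F0 k x
  c5 : ∀ k i, i ≤ 5 → ∀ x, sq i (fun y => F k y - F0 k y) x ≤ ε1 ^ 2
  nn : ∀ k, NN h m (Dm F R) (fun y => F k y - F0 k y) ≤ 1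
  er : ∀ j k, NN h m (Dm F R) (fun y => ex lam F y * EF a F j k y) ≤ Real.exp (-(lam * R))

/-- **Substep** (block G).  See section 5 of `TEXT.md`.  `K = (C lam / s)^p`. -/
def S_SUB : Prop := ∃ ε > 0, ∃ ε1 > 0, ∀ (m : ℕ) (B : ℝ), ∃ (C : ℝ) (p : ℕ), 1 ≤ C ∧
  ∀ a : Str, Near a MM ε → BdA a (m + 6) B → (∀ l x, ‖x‖ < 3 / 4 → kap a l x = 0) →
  ∀ h : ℕ → ℝ, Adm h m → ∀ (lam R δ : ℝ), 1 ≤ lam → 1 / 32 ≤ R → R ≤ 1 / 16 → 0 < δ →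
  δ ≤ 1 / 1000 → ∀ F : Mp, HypF a h m ε1 lam R F → ∀ s : ℝ, 0 < s → s ≤ δ →
  p * Real.log (C * lam / s) ≤ lam * δ / 4 →
  ∀ (μ D ρ : ℝ), lam ≤ μ → μ ≤ 2 * lam → 0 < D → D ≤ lam → D * R ≤ lam * δ / 8 →
  R - 4 * δ + s ≤ ρ → ρ ≤ R - 3 * δ → ∀ E' : F2, (∀ j, Sm (E' j)) →
  (∀ x ∈ Dm F ρ, D1 a E' x = 0) → ∃ u : E5 → ℂ, Sm u ∧
    NN2 h m (Dm F (ρ - s)) (fun j x => ex (μ + D) F x * (E' j x - D0 a u j x))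
      ≤ (C * lam / s) ^ p * Real.exp (-(D * (R - 5 * δ)))
        * NN2 h m (Dm F ρ) (fun j x => ex μ F x * E' j x) ∧
    NN h m (Dm F (ρ - s)) (fun x => ex (μ + D) F x * u x)
      ≤ (C * lam / s) ^ p * Real.exp (D * R)
        * NN2 h m (Dm F ρ) (fun j x => ex μ F x * E' j x)

/-- **Stage** (block H, part one).  See section 6 of `TEXT.md`. -/
def S_STG : Prop := ∃ ε > 0, ∃ ε1 > 0, ∀ (m : ℕ) (B : ℝ), ∃ (C : ℝ), 1 ≤ C ∧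
  ∀ a : Str, Near a MM ε → BdA a (m + 6) B → (∀ l x, ‖x‖ < 3 / 4 → kap a l x = 0) →
  ∀ h : ℕ → ℝ, Adm h m → ∀ (lam R δ : ℝ), 1 ≤ lam → 1 / 32 ≤ R → R ≤ 1 / 16 → 0 < δ →
  δ ≤ 1 / 1000 → ∀ F : Mp, HypF a h m ε1 lam R F →
  C * (Real.log lam + Real.log (1 / δ)) ≤ lam * δ ^ 2 →
  ∃ F' : Mp, (∀ k, Sm (F' k)) ∧ (∀ k x, 3 / 4 ≤ ‖x‖ → F' k x = F0 k x) ∧
    (∀ k x, R - 7 * δ ≤ (gam F x).im → F' k x = F k x) ∧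
    (∀ k, NN h m Set.univ (fun y => F' k y - F k y) ≤ Real.exp (-(2 * lam * δ))) ∧
    (∀ k i, i ≤ 5 → ∀ x, sq i (fun y => F' k y - F k y) x ≤ Real.exp (-(lam * δ)) ^ 2) ∧
    ∀ j k, NN h m (Dm F' (R - 10 * δ)) (fun y => ex (2 * lam) F' y * EF a F' j k y)
      ≤ Real.exp (-(2 * lam * (R - 10 * δ))) * Real.exp (-(lam * δ))

/-- The core theorem: integrable structures close to the Heisenberg structure are embeddable on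
a ball of fixed radius. -/
def S_CORE : Prop := ∃ ε > 0, ∀ a : Str, Near a (MM + 6) ε →
  (∀ l x, ‖x‖ < 3 / 4 → kap a l x = 0) →
  ∃ F : Mp, (∀ k, ContDiffOn ℝ (⊤ : ℕ∞) (F k) (Metric.ball 0 (1 / 8))) ∧
    (∀ j k x, ‖x‖ < 1 / 8 → L a j (F k) x = 0) ∧
    (∀ k x, ‖x‖ < 1 / 8 → ‖F k x - F0 k x‖ ≤ 1 / 100) ∧
    ∀ k i x, ‖x‖ < 1 / 8 → ‖pd i (F k) x - pd i (F0 k) x‖ ≤ 1 / 100

end Pool.Agent.CR5
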