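import Pool.Agent.Lib.CR5.Iface
import Pool.Agent.Lib.CR5.C.Defs

/-!
# CR5, block C: statements (existence of smooth solutions of the regularised equation, `S_EX`)

Definitions in `C/Defs.lean`.  Module `C/Name.lean` proves `Pool.Agent.CR5.C.pName : ... → S_Name`;
the statements used are hypotheses.  Complete proofs in the docstrings.

Notation: `T_h u = u ∘ lh h` (`Tt h`), `Z_i = Zf i`, `∂_i = pd i`; `Z_i ψ = ∂_i ψ + zco i ∂_4 ψ`,
`zco k x = 2 om (e5 k) x` (`zco_eq`), group law `lh h (lh k x) = lh (lh h k) x` (`lh_lh`),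
`lh (-h)` is the inverse of `lh h`; `Tt h (Tt k u) = Tt (lh k h) u` (`Tt_Tt`).
-/

open MeasureTheory Set Filter Topology
open scoped ENNReal ComplexConjugate FourierTransform

noncomputable section

namespace Pool.Agent.CR5.C

/-! ### Tools -/

/-- **`C/AE`.** Two locally integrable functions with the same integrals against all test
functions agree almost everywhere; if both are continuous they are equal.

Proof. `ae_eq_of_integral_contDiff_smul_eq` (Mathlib; real test functions `g`, apply the hypothesis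
to `ψ x = (g x : ℂ)`, `Tst ψ`), and `Continuous.ae_eq_iff_eq` for continuous functions. -/
def S_AE : Prop :=
  (∀ f g : E5 → ℂ, LocallyIntegrable f volume → LocallyIntegrable g volume →
    (∀ ψ, Tst ψ → ∫ x, f x * ψ x = ∫ x, g x * ψ x) → f =ᵐ[volume] g) ∧
  ∀ f g : E5 → ℂ, Continuous f → Continuous g →
    (∀ ψ, Tst ψ → ∫ x, f x * ψ x = ∫ x, g x * ψ x) → f = g

/-- **`C/Com`.** The operators `L a0 j`, `Lb a0 j`, `pd 4` commute with the translations; test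
functions are preserved.

Proof. `lh h` is affine: `lh h (x + v) = lh h x + v + 2 ω(h, v) e₄`, so
`∂_i (f ∘ lh h) = (∂_i f) ∘ lh h + 2 ω(h, e_i) (∂_4 f) ∘ lh h` (chain rule; `HasFDerivAt` of
`lh h` is `id + (2 ω(h, ·)) e₄`, see `omL`), with `ω(h, e_0) = h₁`, `ω(h, e_1) = -h₀`,
`ω(h, e_2) = h₃`, `ω(h, e_3) = -h₂`, `ω(h, e_4) = 0`.  For `L a0 0 f = (∂_0 f + i ∂_1 f)/2
- i z_0 ∂_4 f`: the additional terms are `(2 h₁ - 2 i h₀)/2 ∂_4 f = -i (h₀ + i h₁) ∂_4 f`, and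
`zc 0 (lh h x) = zc 0 x + (h₀ + i h₁)`.  The other three operators in the same way.
Compact support: `lh h` is a homeomorphism with the inverse `lh (-h)`
(`HasCompactSupport.comp_homeomorph`). -/
def S_Com : Prop :=
  (∀ (h : E5) (f : E5 → ℂ), Sm f → Sm (fun x => f (lh h x)) ∧
    ∀ k x, Jf (fun y => f (lh h y)) k x = Jf f k (lh h x)) ∧
  ∀ (h : E5) (f : E5 → ℂ), Tst f → Tst fun x => f (lh h x)

/-- **`C/Tay`.** Taylor estimate for the orbit of a test function.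

Proof. Let `f = 0` outside `ball 0 r`, `r ≥ 1`.  `‖om k y‖ ≤ 4 ‖k‖ ‖y‖` (each coordinate is at
most the norm).  If `‖k‖ ≤ 1` and `‖lh k x‖ < r` then `x = lh (-k) (lh k x)` has norm at most
`r + 1 + 8 r`; put `R = 10 r + 1`.  For `‖x‖ ≥ R` everything vanishes (`Zf i f x = 0` since `f`
vanishes near `x`).  For `‖x‖ < R`: `v := lh k x - x = k + 2 ω(k, x) e₄`, `‖v‖ ≤ (1 + 8 R) ‖k‖`,
and `fderiv ℝ f x v = ∑ k_i ∂_i f x + 2 ω(k,x) ∂_4 f x = ∑ k_i Z_i f x` (`zco_eq`, linearity of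
`om` in the first variable).  `fderiv ℝ f` is Lipschitz with a constant `M₀` (`C¹` with compact
support: `ContDiff.lipschitzWith_of_hasCompactSupport`), hence
`‖f (x + v) - f x - fderiv ℝ f x v‖ ≤ M₀ ‖v‖²` (mean value inequality on the segment,
`Convex.norm_image_sub_le_of_norm_hasFDerivWithin_le'`).  `M = M₀ (1 + 8 R)²`. -/
def S_Tay : Prop := ∀ f, Tst f → ∃ M R : ℝ, 0 ≤ M ∧ 0 < R ∧ ∀ k x : E5, ‖k‖ ≤ 1 →
  ‖f (lh k x) - f x - ∑ i, (k i : ℂ) * Zf i f x‖ ≤ M * ‖k‖ ^ 2 ∧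
  (R ≤ ‖x‖ → f (lh k x) = 0 ∧ f x = 0 ∧ ∀ i, Zf i f x = 0)

/-- **`C/AbsOrb`.** Orbits are smooth if they are differentiable at the origin.

Proof.  (1) Derivative at `h`: `lh (lh (h + v) (-h)) h = h + v` and
`lh (h + v) (-h) = v - 2 ω(v, h) e₄ =: k(v)` is linear in `v`; so
`τ (h + v) (R f) = τ h (τ (k v) (R f))` and the orbit has at `h` the derivative
`D_h v = τ h (∑ i, (k v)_i R (Z_i f)) = ∑ i, v_i (τ h (R (Z_i f)) - zco i h • τ h (R (Z_4 f)))`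
(`zco_eq`: `∑ v_i zco i h = 2 ω(v, h)`).
(2) For all `n : ℕ`: for all `f` with `K f`, `ContDiff ℝ n (fun h => τ h (R f))`, by induction:
`contDiff_succ_iff_fderiv` (or `contDiff_succ_iff_hasFDerivAt`), the derivative is
`fun h => ∑ i, (proj i).smulRight (τ h (R (Z_i f)) - zco i h • τ h (R (Z_4 f)))`, which is
`C^n` by the induction hypothesis for `Z_i f`, `Z_4 f` and `contDiff_zco`; then
`contDiff_infty`. -/
def S_AbsOrb : Prop := ∀ (V : Type) [NormedAddCommGroup V] [NormedSpace ℝ V]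
  (τ : E5 → V →L[ℝ] V), (∀ h k v, τ h (τ k v) = τ (lh k h) v) →
  ∀ (K : (E5 → ℂ) → Prop) (R : (E5 → ℂ) → V), (∀ i f, K f → K (Zf i f)) →
  (∀ f, K f → HasFDerivAt (fun h => τ h (R f))
    (∑ i, (EuclideanSpace.proj i : E5 →L[ℝ] ℝ).smulRight (R (Zf i f))) 0) →
  ∀ f, K f → ContDiff ℝ (⊤ : ℕ∞) fun h => τ h (R f)

/-- **`C/OrbL2`.** Test functions are smooth vectors in `L²`.

Proof. `S_AbsOrb` with `V = H2`, `τ h = Tt h` (restricted to real scalars), `K = Tst`, `R = cl`.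
Derivative at the origin: for `‖k‖ ≤ 1`, `Tt k (cl f) - cl f - ∑ k_i cl (Z_i f)` is the class of
`g x = f (lh k x) - f x - ∑ k_i Z_i f x` (`Tt_cl`, `cl_coe`, `Lp.ext`), which by `S_Tay` is
bounded by `M ‖k‖²` and vanishes for `‖x‖ ≥ R`; so its norm is at most
`M ‖k‖² (volume (ball 0 R))^(1/2)` (`Lp.norm_def`, `eLpNorm` of a bounded function supported in
a set of finite measure, or `‖cl g‖² = ∫ ‖g‖²`).  A bound `≤ C ‖k‖²` for `‖k‖ ≤ 1` gives the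
derivative (`hasFDerivAt_iff_isLittleO`, or `HasFDerivAt.of_isLittleO`).  `Tst (Zf i f)` by
`Tst.pd`, `Tst.mul_left`. -/
def S_OrbL2 : Prop := ∀ f, Tst f → SV (cl f)

/-- **`C/MuB`.** Rules for the multiplication operators.

Proof. `Mu_coe` and `Lp.ext`; the norm bound: `‖Mu c u‖² = ∫ ‖c x u x‖² ≤ C² ‖u‖²` (or
`eLpNorm` monotone, `Lp.norm_le_mul_norm_of_ae_le_mul`), `ContinuousLinearMap.opNorm_le_bound`.
The last rule: `(Mu (c ∘ lh h) (T_h u))(x) = c (lh h x) u (lh h x) = (T_h (Mu c u))(x)` a.e.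
(compose the a.e. identity `Mu_coe` with the measure preserving map `lh h`, as in `Tt_Tt`). -/
def S_MuB : Prop :=
  (∀ (c : E5 → ℂ) (C : ℝ), Bc c → 0 ≤ C → (∀ x, ‖c x‖ ≤ C) → ‖Mu c‖ ≤ C) ∧
  (∀ c d : E5 → ℂ, Bc c → Bc d → Mu (fun x => c x + d x) = Mu c + Mu d) ∧
  (∀ (r : ℂ) (c : E5 → ℂ), Bc c → Mu (fun x => r * c x) = r • Mu c) ∧
  (∀ (c : E5 → ℂ) (h : E5), Bc c → Bc (fun x => c (lh h x))) ∧
  ∀ (c : E5 → ℂ) (h : E5) (u : H2), Bc c → Mu (fun x => c (lh h x)) (Tt h u) = Tt h (Mu c u)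

/-- **`C/OrbMu`.** The translated multiplication operators depend smoothly on the translation.

Proof. `CT c` implies `Bc c`.  `S_AbsOrb` with `V = H2 →L[ℂ] H2`, `τ h A = T_h ∘ A ∘ T_{-h}`
(real linear in `A`, bounded by `‖A‖`: `LinearMap.mkContinuous`), `K = CT`, `R = Mu`:
`τ h (τ k A) = T_h T_k A T_{-k} T_{-h} = T_{lh k h} A T_{lh (-h) (-k)}` and
`lh (-h) (-k) = -lh k h` (both are `-h - k - 2 ω(k, h) e₄`).  `τ h (Mu c) = Mu (c ∘ lh h)` by the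
last rule of `S_MuB` and `T_h T_{-h} = 1`.  Derivative at the origin: `c = c₀ + f`, `f` a test
function, `Z_i c = Z_i f` is a test function; for `‖k‖ ≤ 1` the operator
`τ k (Mu c) - Mu c - ∑ k_i Mu (Z_i c)` is the multiplication by
`c (lh k x) - c x - ∑ k_i Z_i c x`, whose norm is at most `M ‖k‖²` by `S_Tay` (for `f`). -/
def S_OrbMu : Prop := ∀ c, CT c → ContDiff ℝ (⊤ : ℕ∞) fun h => Mu fun x => c (lh h x)

/-- **`C/Hil`.** The abstract theorem: the solution of a coercive problem has a smooth orbit.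

Proof. `E` is a complete space; `P : H → E` the orthogonal projection.  `G h : E →L[ℂ] E`,
`G h = P ∘ (S h)† ∘ (S h) ∘ (inclusion)`, so `⟪G h u, v⟫ = ⟪S h u, S h v⟫` for `u, v ∈ E`.
`G` is smooth over `ℝ`: composition is bounded bilinear; the adjoint is additive, isometric and
commutes with real scalars, so it is a continuous real linear map.
`G 0` is bijective: `c² ‖u‖² ≤ ⟪G 0 u, u⟫` gives `c² ‖u‖ ≤ ‖G 0 u‖`, so it is injective with
closed range (`AntilipschitzWith.isClosed_range`), and `v ⟂ range` gives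
`0 = ⟪G 0 v, v⟫ = ‖S 0 v‖²`, `v = 0`; so `G 0` is a continuous linear equivalence
(`ContinuousLinearEquiv.ofBijective`), `contDiffAt_map_inverse` applies.
`U := (G 0)⁻¹ (P F)`: `⟪S 0 v, S 0 U⟫ = ⟪v, G 0 U⟫ = ⟪v, P F⟫ = ⟪v, F⟫` for `v ∈ E`.
Orbit: for `v ∈ E`, `⟪S h v, S h (T h U)⟫ = ⟪v, T h F⟫`: write `v = T h v'`,
`v' = T (-h) v ∈ E` (`T h (T (-h) u) = T (lh (-h) h) u = T 0 u = u`, `lh (-h) h = 0`); then
`⟪S h (T h v'), S h (T h U)⟫ = ⟪T' h (S 0 v'), T' h (S 0 U)⟫ = ⟪S 0 v', S 0 U⟫ = ⟪v', F⟫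
= ⟪T h v', T h F⟫`.  So `G h (T h U) = P (T h F)` (`T h U` as an element of `E`).  The set of
`h` with `G h` invertible is a neighbourhood of `0` (`ContinuousLinearEquiv.nhds`, continuity of
`G`), and there `T h U = (G h)⁻¹ (P (T h F))` is smooth: the orbit is smooth at `0`.  At `h₀`:
`T h U = T h₀ (T (lh h (-h₀)) U)` (as `lh (lh h (-h₀)) h₀ = lh h 0 = h`), where
`h ↦ lh h (-h₀)` is smooth (`contDiff_lh`) with the value `0` at `h₀`, and `T h₀` is linear and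
continuous. -/
def S_Hil : Prop := ∀ (H H' : Type) [NormedAddCommGroup H] [InnerProductSpace ℂ H]
  [CompleteSpace H] [NormedAddCommGroup H'] [InnerProductSpace ℂ H'] [CompleteSpace H']
  (E : Submodule ℂ H), IsClosed (E : Set H) →
  ∀ (T : E5 → H →ₗᵢ[ℂ] H) (T' : E5 → H' →ₗᵢ[ℂ] H') (S : E5 → H →L[ℂ] H'),
  (∀ u, T 0 u = u) → (∀ h k u, T h (T k u) = T (lh k h) u) → (∀ h, ∀ u ∈ E, T h u ∈ E) →
  ContDiff ℝ (⊤ : ℕ∞) S → (∀ h u, S h (T h u) = T' h (S 0 u)) →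
  ∀ F : H, ContDiff ℝ (⊤ : ℕ∞) (fun h => T h F) →
  ∀ c : ℝ, 0 < c → (∀ u ∈ E, c * ‖u‖ ≤ ‖S 0 u‖) →
  ∃ U ∈ E, (∀ v ∈ E, inner ℂ (S 0 v) (S 0 U) = inner ℂ v F) ∧
    ContDiff ℝ (⊤ : ℕ∞) fun h => T h U

/-! ### Smooth vectors are smooth functions -/

/-- **`C/SVZ`.** The infinitesimal translations of a smooth vector.

Proof. Let `O h = T_h u`, `v = fderiv ℝ O 0 (e5 i)`.  `T_h T_{s e_i} u = T_{lh (s e_i) h} u` and
`lh (s e_i) h = h + s (e_i + 2 ω(e_i, h) e₄) = h + s (e_i + zco i h e₄)`; differentiate in `s`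
at `0` (`T_h` is linear and continuous): `T_h v = fderiv ℝ O h (e5 i + zco i h • e5 4)`, which is
smooth in `h` (`ContDiff.fderiv_right`, `ContDiff.clm_apply`, `contDiff_zco`): `SV v`.
Weak identity: for a test function `ψ`, `∫ (T_h u) ψ = ∫ u (ψ ∘ lh (-h))` (measure preserving
change of variables `x = lh (-h) y`, `(mp_lh (-h)).integral_comp`, or first multiply out:
`(T_h u)(x) ψ(x) = (u · (ψ ∘ lh (-h))) (lh h x)`).  With `h = s e_i` differentiate at `s = 0`: the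
left side has the derivative `∫ v ψ` (the functional `w ↦ ∫ w ψ` is continuous and linear on
`L²`; it is `w ↦ inner ℂ (cl (conj ψ)) w`, `L2.inner_def`), the right side is
`∫ u · T_{-s e_i} ψ` with the derivative `-∫ u Z_i ψ`: by `S_OrbL2` and `S_Tay` (or directly from
`S_Tay`: `‖ψ (lh (-s e_i) x) - ψ x + s Z_i ψ x‖ ≤ M s²`, zero for `‖x‖ ≥ R`, and
`∫_{ball 0 R} ‖u‖ < ∞`).  Uniqueness of derivatives. -/
def S_SVZ : Prop := ∀ u : H2, SV u → ∀ i : Fin 5,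
  SV (fderiv ℝ (fun h => Tt h u) 0 (e5 i)) ∧
  ∀ ψ, Tst ψ → ∫ x, (fderiv ℝ (fun h => Tt h u) 0 (e5 i) : H2) x * ψ x
    = -∫ x, u x * Zf i ψ x

/-- **`C/Dec`.** The Fourier transform of `χ u` decays rapidly.

Proof. By induction on `n`, for all `u`, `χ`.  `n = 0`: `‖𝓕 f ξ‖ ≤ ∫ ‖f‖`
(`VectorFourier.norm_fourierIntegral_le_integral_norm` or `Real.norm_fourier_le..`); `χ u` is
integrable (`L² · L²`: `MemLp.integrable_mul`).  Step: `e_ξ x = 𝐞 (-⟪x, ξ⟫)`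
`= exp (-2 π i ⟪x, ξ⟫)` is smooth, `∂_i e_ξ = -2 π i ξ_i e_ξ`.  With the test function
`ψ = χ e_ξ`, and `v_i`, `v_4` the vectors of `S_SVZ` for `u`:
`∂_i ψ = Z_i ψ - zco i Z_4 ψ = Z_i ψ - Z_4 (zco i ψ)` (`zco i` does not depend on `x 4`,
`zco 4 = 0`), so `∫ u ∂_i ψ = -∫ v_i ψ + ∫ v_4 zco i ψ`, and
`∂_i ψ = (∂_i χ) e_ξ - 2 π i ξ_i χ e_ξ`.  Hence
`-2 π i ξ_i 𝓕(χ u)(ξ) = -𝓕(χ v_i)(ξ) + 𝓕(zco i χ v_4)(ξ) - 𝓕((∂_i χ) u)(ξ)`, all of the same
kind; finally `‖ξ‖ ≤ ∑ |ξ_i|`, so `‖ξ‖^(n+1) ‖𝓕(χ u) ξ‖ ≤ ∑ ‖ξ‖^n |ξ_i| ‖𝓕(χ u) ξ‖ ≤ C`. -/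
def S_Dec : Prop := ∀ u : H2, SV u → ∀ χ, Tst χ → ∀ n : ℕ, ∃ C : ℝ, ∀ ξ : E5,
  ‖ξ‖ ^ n * ‖𝓕 (fun x => χ x * u x) ξ‖ ≤ C

/-- **`C/Fou`.** A function with rapidly decaying Fourier transform is smooth.

Proof. `F := 𝓕 f` is continuous (`VectorFourier.fourierIntegral_continuous` /
`Real.fourierIntegral_continuous`..) and `‖ξ‖^n ‖F ξ‖` is integrable for all `n` (bounded by
`C (1 + ‖ξ‖)^(-6)`, `integrable_one_add_norm`, dimension `5 < 6`; use the bounds for `0` and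
`n + 6`).  So `g := 𝓕⁻ F` is smooth (`Real.contDiff_fourierIntegral` / `contDiff_fourier`; the
inverse transform is the transform at `-x`).  `f = g` a.e.: by `S_AE` it is enough that
`∫ f ψ = ∫ g ψ` for test functions `ψ`.  `ψ` is a Schwartz function
(`HasCompactSupport.toSchwartzMap`), `φ := 𝓕⁻ ψ` is Schwartz and `𝓕 φ = ψ`; the symmetry of the
Fourier integral (`Real.integral_fourier..`, `VectorFourier.integral_fourierIntegral_smul_eq_flip`)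
gives `∫ g ψ = ∫ (𝓕⁻ F) ψ = ∫ F (𝓕⁻ ψ) = ∫ (𝓕 f) φ = ∫ f (𝓕 φ) = ∫ f ψ`. -/
def S_Fou : Prop := ∀ f : E5 → ℂ, Integrable f volume →
  (∀ n : ℕ, ∃ C : ℝ, ∀ ξ : E5, ‖ξ‖ ^ n * ‖𝓕 f ξ‖ ≤ C) → ∃ g, Sm g ∧ f =ᵐ[volume] g

/-- **`C/Pat`.** Patching.

Proof. For `n : ℕ` choose a test function `χ_n` with `χ_n = 1` on `ball 0 (n + 1)`
(`exists_contDiff_tsupport_subset`, or `ContDiffBump` with `rIn = n + 1`, `rOut = n + 2`), and a
smooth `g_n` with `χ_n u = g_n` a.e.  For `n ≤ m`: `g_n = u = g_m` a.e. on the open ball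
`ball 0 (n + 1)`, so `g_n = g_m` there (continuous functions equal a.e. on an open set:
`MeasureTheory.Measure.eqOn_open_of_ae_eq`).  `g x := g_{⌊‖x‖⌋₊} x`.  On
`ball 0 (n + 1)`: `g = g_n` (for `‖x‖ < n + 1`, `k = ⌊‖x‖⌋₊ ≤ n` and `x ∈ ball 0 (k + 1)`).  So
`g` is smooth (locally equal to a smooth function) and `u = g` a.e. (countably many balls). -/
def S_Pat : Prop := ∀ u : E5 → ℂ,
  (∀ χ, Tst χ → ∃ g, Sm g ∧ (fun x => χ x * u x) =ᵐ[volume] g) → ∃ g, Sm g ∧ u =ᵐ[volume] g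

/-- **`C/Rep`** (short). Smooth vectors are smooth functions: `S_Dec → S_Fou → S_Pat → S_Rep`. -/
def S_Rep : Prop := ∀ u : H2, SV u → ∃ g, Sm g ∧ (u : E5 → ℂ) =ᵐ[volume] g

/-! ### The form -/

/-- **`C/Exp`.** Expansion of the operators in the components `Jf`.

Proof. `d l f = Lb a0 l f - conj (a0 l 2) ∂_4 f` and `db l f = L a0 l f - a0 l 2 ∂_4 f` for
`l = 0, 1` (unfold `L`, `Lb` for `a0`: only the coefficient `l = 2` is nonzero),
`d 2 = db 2 = ∂_4`; insert this in `L a j f = db_j f + ∑ a_jl d_l f` and in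
`Ls a j f = -Lb a j f - dv a j f` (`Ls_eq`).  For `D0s`, `D1`: sum over `Fin 2 × Fin 6`
(`Fintype.sum_prod_type`).
`CT`: if `Near a m ε` then `a j 0`, `a j 1`, `a j 2 - a0 j 2` are smooth and vanish for
`‖x‖ ≥ 1` (`a0 j 0 = a0 j 1 = 0`), hence are test functions (`HasCompactSupport.intro` with the
closed ball); so are `tau a j` and `dv a j` (`dv a j = dv a0 j` outside the closed unit ball, and
`dv a0 j = db 2 (conj (a0 j 2)) = 0`, as `a0 j 2 = -i z_j` does not depend on `x 4`; or write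
`dv a j` as the divergence of the compactly supported `conj (a - a0)` plus `dv a0 j`). -/
def S_Exp : Prop := ∀ (a : Str) (m : ℕ) (ε : ℝ), Near a m ε →
  (∀ j f, Sm f → ∀ x, L a j f x = ∑ k, cL a j k x * Jf f k x) ∧
  (∀ j f, Sm f → ∀ x, Ls a j f x = ∑ k, cS a j k x * Jf f k x) ∧
  (∀ w : F2, (∀ j, Sm (w j)) → ∀ x, D0s a w x = ∑ p, q0 a p x * Jf (w p.1) p.2 x) ∧
  (∀ w : F2, (∀ j, Sm (w j)) → ∀ x, D1 a w x = ∑ p, q1 a p x * Jf (w p.1) p.2 x) ∧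
  (∀ p, CT (q0 a p)) ∧ ∀ p, CT (q1 a p)

/-- **`C/Coe`.** Coercivity on test pairs.

Proof. Pointwise, for `ε ≤ 1/8`: by `Near.bd` with `i = 0`, `‖a j l x - a0 j l x‖ ≤ ε`, and the
difference vanishes for `‖x‖ ≥ 1`; `‖a0 l 2 x‖ = ‖zc l x‖ ≤ ‖x‖ ≤ 1` inside.  From
`L a j f = L a0 j f + ∑ l, (a j l - a0 j l) d_l f` and `d_l f = Lb a0 l f - conj (a0 l 2) ∂_4 f`
(`l = 0, 1`), `d_2 = ∂_4`: `‖L a0 j f‖ ≤ ‖L a j f‖ + ε (‖Lb a0 0 f‖ + ‖Lb a0 1 f‖ + 3 ‖∂_4 f‖)`,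
and the same for `Lb`.  Summing the four: `Σ₀ ≤ Σ_a + ε (2 Σ₀ + 12 ‖∂_4 f‖)`, so
`Σ₀ ≤ 2 Σ_a + 4 ‖∂_4 f‖`, hence `∑_k ‖Jf f k x‖² ≤ C (gr a f x + ‖f x‖² + ‖∂_4 f x‖²)` with an
absolute `C`.  Integrate (everything is integrable: test functions) and use `S_Bas`:
`∑_j ∫ gr a (w j) ≤ c⁻¹ (∫ ‖D0s‖² + ∫ ‖D1‖²)`. -/
def S_Coe : Prop := ∃ ε > 0, ∀ a : Str, Near a 2 ε → ∀ e : ℝ, 0 < e → e ≤ 1 →
  ∃ c : ℝ, 0 < c ∧ ∀ w : F2, (∀ j, Tst (w j)) →
    c * ∑ p : Fin 2 × Fin 6, ∫ x, ‖Jf (w p.1) p.2 x‖ ^ 2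
      ≤ (∫ x, ‖D0s a w x‖ ^ 2) + (∫ x, ‖D1 a w x‖ ^ 2)
        + e * ∑ j, ((∫ x, ‖w j x‖ ^ 2) + ∫ x, ‖pd 4 (w j) x‖ ^ 2)

/-- **`C/EEb`.** The set of the `JJ w`, `w` a test pair, is a submodule, dense in `EE`; a closed
condition which holds for the `JJ w` holds on `EE`; `EE` is invariant under translations.

Proof. `JJ` is additive and homogeneous on test pairs (`Jf` is linear, `cl` is linear on square
integrable functions: `cl_coe`, `Lp.ext`, `Tst.memLp`), so the set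
`{u | ∃ w test pair, u = JJ w}` is closed under the operations, the span is the set itself
(`Submodule.span_le`, or `Submodule.span_induction`); `Submodule.topologicalClosure_coe`,
`closure_minimal`.  Invariance: `TH h (JJ w) = JJ (w ∘ lh h)` by `Tt_cl` and `S_Com`, and
`TH h` is continuous (the preimage of the closed set `EE` is closed). -/
def S_EEb : Prop :=
  (∀ w : F2, (∀ j, Tst (w j)) → JJ w ∈ EE) ∧
  (∀ P : HH → Prop, IsClosed {u | P u} → (∀ w : F2, (∀ j, Tst (w j)) → P (JJ w)) →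
    ∀ u ∈ EE, P u) ∧
  (∀ h : E5, ∀ u ∈ EE, TH h u ∈ EE) ∧
  (∀ w : F2, (∀ j, Tst (w j)) → ∀ p, (JJ w p : E5 → ℂ) =ᵐ[volume] Jf (w p.1) p.2) ∧
  IsClosed (EE : Set HH)

/-- **`C/SSb`.** The operators `SS a e h`.

Proof. Smoothness: `SS a e h = Φ (fun k => SSc a e h k)` where `Φ` is the continuous linear map
(`ContinuousLinearMap.pi` composed with the equivalence; smooth in the components:
`contDiff_pi`, or write `SS a e h = ∑ k, (inclusion of the k-th factor) ∘ SSc a e h k`, with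
`ContDiff.clm_comp`), and each `SSc a e · k` is smooth by `S_OrbMu` (finite sums,
`ContDiff.clm_comp` with constants).  Covariance: componentwise from the last rule of `S_MuB`
(`CT c → Bc c`; `lh 0 x = x`).  Value on `JJ w`: `Mu_coe`, `S_Exp`. -/
def S_SSb : Prop := ∀ (a : Str) (m : ℕ) (ε : ℝ), Near a m ε → ∀ e : ℝ, 0 < e →
  ContDiff ℝ (⊤ : ℕ∞) (SS a e) ∧
  (∀ h u, SS a e h (TH h u) = TP (Fin 6) h (SS a e 0 u)) ∧
  ∀ (u : HH) (w : F2), (∀ j, Sm (w j)) → (∀ p, (u p : E5 → ℂ) =ᵐ[volume] Jf (w p.1) p.2) →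
    (SS a e 0 u 0 : E5 → ℂ) =ᵐ[volume] D0s a w ∧ (SS a e 0 u 1 : E5 → ℂ) =ᵐ[volume] D1 a w ∧
    SS a e 0 u 2 = (Real.sqrt e : ℂ) • u (0, 0) ∧ SS a e 0 u 3 = (Real.sqrt e : ℂ) • u (1, 0) ∧
    SS a e 0 u 4 = (Real.sqrt e : ℂ) • u (0, 5) ∧ SS a e 0 u 5 = (Real.sqrt e : ℂ) • u (1, 5)

/-- **`C/Low`.** Lower bound on `EE`.

Proof. For `u = JJ w`: `‖u‖² = ∑ p, ∫ ‖Jf (w p.1) p.2‖²` and
`‖SS a e 0 u‖² = ∫ ‖D0s‖² + ∫ ‖D1‖² + e (...)` (`PiLp.norm_sq_eq_of_L2`, `L2` norm as an integral,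
`S_SSb`, `Fin.sum_univ_six`), so `S_Coe` gives `c ‖u‖² ≤ ‖SS a e 0 u‖²`; closed condition:
`S_EEb`. -/
def S_Low : Prop := ∃ ε > 0, ∀ a : Str, Near a 2 ε → ∀ e : ℝ, 0 < e → e ≤ 1 →
  ∃ c : ℝ, 0 < c ∧ ∀ u ∈ EE, c * ‖u‖ ≤ ‖SS a e 0 u‖

/-- **`C/FFb`.** The right hand side has a smooth orbit, and its pairing with `JJ ψ`.

Proof. `TH h (FF Φ)` has the components `Tt h (cl (Φ j))` (smooth by `S_OrbL2`) or `0`;
`contDiff_piLp`-type lemma: a map into `PiLp` is smooth iff its components are.  Pairing: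
`PiLp.inner_apply`, `L2.inner_def`, `Fintype.sum_prod_type`; only `p.2 = 0` contributes.
The last statement: a vector of `HH` is smooth iff its components are smooth vectors. -/
def S_FFb : Prop :=
  (∀ Φ : F2, (∀ j, Tst (Φ j)) → SVH (FF Φ)) ∧
  (∀ Φ ψ : F2, (∀ j, Tst (Φ j)) → (∀ j, Tst (ψ j)) →
    inner ℂ (JJ ψ) (FF Φ) = ∑ j, ∫ x, Φ j x * conj (ψ j x)) ∧
  ∀ u : HH, SVH u ↔ ∀ p, SV (u p)

/-- **`C/Wk`.** Elements of `EE` satisfy the differential relations weakly.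

Proof. For `V = JJ w`: `∫ (Jf f k) ψ = -∫ f (Jf ψ k)` for `k ≠ 0` (`f`, `ψ` test functions):
`L a0 j`, `Lb a0 j`, `pd 4` are divergence free; from `ibp_pd`, `ibp_dz`, `ibp_db` (the coefficient
`a0 j 2 = -i z_j` does not depend on `x 4`, so it can be moved inside `∂_4`).  Both sides are
continuous in `V ∈ HH` (the functional `v ↦ ∫ v φ`, `φ` a test function, is continuous on `H2`:
it is `v ↦ inner ℂ (cl (conj φ)) v`), so the condition is closed: `S_EEb`. -/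
def S_Wk : Prop := ∀ V ∈ EE, ∀ (j : Fin 2) (k : Fin 6), k ≠ 0 → ∀ ψ, Tst ψ →
  ∫ x, (V (j, k) : H2) x * ψ x = -∫ x, (V (j, 0) : H2) x * Jf ψ k x

/-- **`C/Stp`.** The inductive step for the solution.

Proof. (1) Each `V (j, k)` is a smooth vector (`S_FFb`), so it is a.e. equal to a smooth function
`g` (`S_Rep`).  For `k ≠ 0` and test functions `ψ`:
`∫ g ψ = ∫ V(j,k) ψ = -∫ V(j,0) Jf ψ k = -∫ f_j Jf ψ k = ∫ (Jf f_j k) ψ` (`S_Wk`, and the
integration by parts of `C/Wk` with `f_j` smooth and `ψ` a test function), so `g = Jf f_j k` by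
`S_AE`; hence `V (j, k) = Jf f_j k` a.e. for all `k`, and all `Jf f_j k` are square integrable:
`WW (f_j)`.
(2) `V' := fderiv ℝ (fun h => TH h V) 0 (e5 i)`.  It lies in `EE`: `EE` is closed and contains
the difference quotients (`S_EEb`), and a derivative is a limit of difference quotients.
Its components are `V' p = fderiv ℝ (fun h => Tt h (V p)) 0 (e5 i)` (the projection is linear
and continuous), smooth vectors by `S_SVZ`, so `SVH V'` by `S_FFb`.  Weakly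
`∫ V'(j,0) ψ = -∫ V(j,0) Z_i ψ = -∫ f_j Z_i ψ = ∫ (Z_i f_j) ψ` (`ibp_pd`; `zco i` does not depend
on `x 4`), so `V'(j,0) = Z_i f_j` a.e. by `S_AE` (an `L²` function is locally integrable). -/
def S_Stp : Prop := ∀ V ∈ EE, SVH V → ∀ f : F2, (∀ j, Sm (f j)) →
  (∀ j, ((V (j, 0) : H2) : E5 → ℂ) =ᵐ[volume] f j) →
  (∀ j, WW (f j)) ∧ (∀ p, ((V p : H2) : E5 → ℂ) =ᵐ[volume] Jf (f p.1) p.2) ∧
  ∀ i, ∃ V' ∈ EE, SVH V' ∧ ∀ j, ((V' (j, 0) : H2) : E5 → ℂ) =ᵐ[volume] Zf i (f j)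

/-- **`C/Equ`.** The weak equation gives the equation.

Proof. Test with `v = JJ ψ`, `ψ` a test pair (`S_EEb`, `S_SSb` for `u = U` and for `u = JJ ψ`,
`PiLp.inner_apply`, `L2.inner_def`, `Fin.sum_univ_six`, `√e √e = e`):
`∫ D0s a w conj (D0s a ψ) + ∫ D1 a w conj (D1 a ψ) + e ∑_j (∫ w_j conj ψ_j + ∫ ∂_4 w_j conj (∂_4 ψ_j))
= ∑_j ∫ Φ_j conj ψ_j` (`S_FFb`).  Integration by parts (`ψ` has compact support, the other
functions are smooth; `ibp_L`, `ibp_pd`): `∫ D0s a w conj (Ls a j ψ_j) = ∫ L a j (D0s a w) conj ψ_j`,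
`∫ D1 a w conj (L a 0 ψ_1 - L a 1 ψ_0) = ∫ Ls a 0 (D1 a w) conj ψ_1 - ∫ Ls a 1 (D1 a w) conj ψ_0`
(conjugate of `ibp_L'`), `∫ ∂_4 w_j conj (∂_4 ψ_j) = -∫ ∂_4 ∂_4 w_j conj ψ_j`.  So
`∑_j ∫ (BoxE a e w j - Φ_j) conj ψ_j = 0` for all test pairs; take `ψ` with one component zero
and use `S_AE` (continuous functions). -/
def S_Equ : Prop := ∀ (a : Str) (m : ℕ) (ε : ℝ), Near a m ε → ∀ e : ℝ, 0 < e →
  ∀ U ∈ EE, ∀ w Φ : F2, (∀ j, Sm (w j)) → (∀ j, Tst (Φ j)) →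
  (∀ p, ((U p : H2) : E5 → ℂ) =ᵐ[volume] Jf (w p.1) p.2) →
  (∀ v ∈ EE, inner ℂ (SS a e 0 v) (SS a e 0 U) = inner ℂ v (FF Φ)) →
  ∀ j x, BoxE a e w j x = Φ j x

/-- **`C/Main`.** `S_EX` from `S_Hil`, `S_SSb`, `S_Low`, `S_FFb`, `S_EEb`, `S_Rep`, `S_Stp`,
`S_Equ`.

Proof. `S_Hil` with `H = HH`, `H' = HK`, `E = EE`, `T = TH`, `T' = TP (Fin 6)`, `S = SS a e`,
`F = FF Φ` (`TP_zero`, `TP_TP`) gives `U`.  `w j` := the smooth representative of `U (j, 0)`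
(`S_FFb`, `S_Rep`).  By `S_Stp` and induction on the word `I`: for every `I` there is `V ∈ EE`,
`SVH V`, with `V (j, 0) = ZL I (w j)` a.e. for both `j` (`ZL (k :: I) f = Zf k (ZL I f)`), so
`WW (ZL I (w j))`.  The equation: `S_Equ` with the second part of `S_Stp` for `V = U`. -/
def S_MainC : Prop := S_Hil → S_SSb → S_Low → S_FFb → S_EEb → S_Rep → S_Stp → S_Equ → S_EX

end Pool.Agent.CR5.C
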