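import Pool.Agent.Lib.CR5.SpecDc
import Pool.Agent.Lib.CR5.B.Inf

/-!
# CR5, block D, parts (a), (b): uniform estimates of the solutions (helper76)

Every `S_...` is a statement to be proved in its own file `CR5/D/Name.lean` (theorem `pName`); the
docstring contains the complete proof.  The final statement is `S_cUNI` of `SpecDc.lean`.

In the docstrings: `b = a - a0` (smooth, zero for `1 ≤ |x|`), `B₁` the unit ball, `Z_k = Zf k`,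
`⟨f, g⟩ = ∫ f conj g`, `|f|₂` the norm of `L²(ℝ⁵)`.  The cutoffs at infinity are proved: `tInf2 : S_Inf2` in `B/Inf.lean`.
-/

open MeasureTheory Set Filter Topology
open scoped ENNReal ComplexConjugate

noncomputable section

namespace Pool.Agent.CR5

/-- `Z_k w` for pairs -/
def Zp (k : Fin 5) (w : F2) : F2 := fun j => Zf k (w j)

/-- the commutator `[Z_k, L_j]` -/
def zcL (a : Str) (k : Fin 5) (j : Fin 2) (f : E5 → ℂ) : E5 → ℂ := fun x =>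
  Zf k (L a j f) x - L a j (Zf k f) x

/-- the commutator `[Z_k, L_j*]` -/
def zcS (a : Str) (k : Fin 5) (j : Fin 2) (f : E5 → ℂ) : E5 → ℂ := fun x =>
  Zf k (Ls a j f) x - Ls a j (Zf k f) x

/-- `[Z_k, D0]` -/
def cD0 (a : Str) (k : Fin 5) (f : E5 → ℂ) : F2 := fun j => zcL a k j f

/-- `[Z_k, D1*]` -/
def cD1s (a : Str) (k : Fin 5) (v : E5 → ℂ) : F2 := fun j x =>
  if j = 0 then -zcS a k 1 v x else zcS a k 0 v x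

/-- `[Z_k, D0*]` -/
def cD0s (a : Str) (k : Fin 5) (w : F2) : E5 → ℂ := fun x => zcS a k 0 (w 0) x + zcS a k 1 (w 1) x

/-- `[Z_k, D1]` -/
def cD1 (a : Str) (k : Fin 5) (w : F2) : E5 → ℂ := fun x => zcL a k 0 (w 1) x - zcL a k 1 (w 0) x

/-- `|w|`, pointwise -/
def N0 (w : F2) (x : E5) : ℝ := ‖w 0 x‖ + ‖w 1 x‖

/-- `|Z w|`, pointwise -/
def N1 (w : F2) (x : E5) : ℝ := sZ (w 0) x + sZ (w 1) x

/-- `|Z Z w|`, pointwise -/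
def N2 (w : F2) (x : E5) : ℝ := sZ2 (w 0) x + sZ2 (w 1) x

/-- `|D w|`, pointwise -/
def T0 (a : Str) (w : F2) (x : E5) : ℝ := ‖D0s a w x‖ + ‖D1 a w x‖

/-- `|D Z w|`, pointwise -/
def T1 (a : Str) (w : F2) (x : E5) : ℝ := ∑ m : Fin 5, T0 a (Zp m w) x

/-- `|D Z Z w|`, pointwise -/
def T2 (a : Str) (w : F2) (x : E5) : ℝ := ∑ m : Fin 5, ∑ n : Fin 5, T0 a (Zp m (Zp n w)) x

/-- the energies -/
def g0 (a : Str) (w : F2) : ℝ := (∫ x, gr a (w 0) x) + ∫ x, gr a (w 1) x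

def g1 (a : Str) (w : F2) : ℝ := ∑ m : Fin 5, g0 a (Zp m w)

def g2 (a : Str) (w : F2) : ℝ := ∑ m : Fin 5, ∑ n : Fin 5, g0 a (Zp m (Zp n w))

/-! ### Algebraic identities -/

/-- **aId** The differentiated equation.

Proof.  `Z_k` is linear on smooth functions (`pd_add`, `pd_sub`, ...).  `Z_k (D0 a A j) = D0 a (Z_k A) j + cD0 a k A j` and
`Z_k (D1s a v j) = D1s a (Z_k v) j + cD1s a k v j` (definitions; `D1s a v j` is `-Ls a 1 v` or `Ls a 0 v`);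
`Z_k (D0s a w) = D0s a (Zp k w) + cD0s a k w`, `Z_k (D1 a w) = D1 a (Zp k w) + cD1 a k w`.  `L`, `Ls` are linear (`L_add`, `Ls_add`).
So `Z_k (Box a w j) = D0 a (D0s a (Zp k w) + cD0s a k w) j + cD0 a k (D0s a w) j + D1s a (D1 a (Zp k w) + cD1 a k w) j
+ cD1s a k (D1 a w) j`.  `Z_k` commutes with `pd 4` (`pd_comm`, and `zco k` does not depend on the last coordinate: `pd 4` of the
function `(zco k : ℂ)` is zero). -/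
def S_aId : Prop := ∀ a : Str, SmS a → ∀ (e : ℝ) (w : F2), (∀ j, Sm (w j)) →
  ∀ (k : Fin 5) (j : Fin 2) (x : E5), BoxE a e (Zp k w) j x
    = (Zf k (BoxE a e w j) x - cD0 a k (D0s a w) j x - cD1s a k (D1 a w) j x)
      + D0 a (fun y => -cD0s a k w y) j x + D1s a (fun y => -cD1 a k w y) j x

/-- **aId2** The equation for the second derivatives.  (Uses `S_aId`.)

Proof.  `S_aId` for `Zp k w` and `l`; in `Z_l (BoxE a e (Zp k w) j)` insert `S_aId` for `w` and `k` (the two sides are equal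
as functions of `x`), and use for the smooth functions `q = -cD0s a k w`, `q' = -cD1 a k w`:
`Z_l (D0 a q j) = D0 a (Z_l q) j + cD0 a l q j`, `Z_l (D1s a q' j) = D1s a (Z_l q') j + cD1s a l q' j`; `zcL`, `zcS` and `Z_l` are linear
on smooth functions. -/
def S_aId2 : Prop := ∀ a : Str, SmS a → ∀ (e : ℝ) (w : F2), (∀ j, Sm (w j)) →
  ∀ (l k : Fin 5) (j : Fin 2) (x : E5), BoxE a e (Zp l (Zp k w)) j x
    = (Zf l (Zf k (BoxE a e w j)) x - Zf l (cD0 a k (D0s a w) j) x - Zf l (cD1s a k (D1 a w) j) x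
        - cD0 a l (cD0s a k w) j x - cD1s a l (cD1 a k w) j x
        - cD0 a l (D0s a (Zp k w)) j x - cD1s a l (D1 a (Zp k w)) j x)
      + D0 a (fun y => -(Zf l (cD0s a k w) y + cD0s a l (Zp k w) y)) j x
      + D1s a (fun y => -(Zf l (cD1 a k w) y + cD1 a l (Zp k w) y)) j x

/-! ### The energy estimate -/

/-- **aE1** The energy identity with a cutoff.

Proof.  `χ = conj χ`.  `v = χ² u` is a pair of test functions.  By `ibp_L` (`L` against `Ls`) and its conjugate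
(`⟨Ls g, h⟩ = conj ⟨h, Ls g⟩ = conj ⟨L h, g⟩ = ⟨g, L h⟩`, one of the functions with compact support: `ibp_L'`)
`∑ j ⟨Box a u j, v j⟩ = ⟨D0s a u, D0s a v⟩ + ⟨D1 a u, D1 a v⟩`.  Let `P = ∑ j, Lb a j χ * u j`, `Q = L a 0 χ * u 1 - L a 1 χ * u 0`.
By `Ls_mul`: `D0s a (χ u) = χ D0s a u - P` and `D0s a (χ² u) = χ D0s a (χ u) - χ P` (apply it to `χ * (χ u)`).
So `⟨D0s u, D0s v⟩ = ⟨χ D0s u, D0s (χ u) - P⟩ = ⟨D0s (χ u) + P, D0s (χ u) - P⟩`, with real part `|D0s (χ u)|₂² - |P|₂²`.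
By `L_mul`: `D1 a (χ u) = χ D1 a u + Q`, `D1 a (χ² u) = χ D1 a (χ u) + χ Q`, so
`⟨D1 u, D1 v⟩ = ⟨D1 (χ u) - Q, D1 (χ u) + Q⟩`, with real part `|D1 (χ u)|₂² - |Q|₂²`.
(All integrands are continuous with compact support, hence integrable.) -/
def S_aE1 : Prop := ∀ a : Str, SmS a → ∀ χ : E5 → ℂ, Tst χ → (∀ x, conj (χ x) = χ x) →
  ∀ u : F2, (∀ j, Sm (u j)) →
  (∑ j : Fin 2, ∫ x, Box a u j x * conj (χ x * (χ x * u j x))).re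
    = (∫ x, ‖D0s a (fun j y => χ y * u j y) x‖ ^ 2) + (∫ x, ‖D1 a (fun j y => χ y * u j y) x‖ ^ 2)
      - (∫ x, ‖Lb a 0 χ x * u 0 x + Lb a 1 χ x * u 1 x‖ ^ 2)
      - ∫ x, ‖L a 0 χ x * u 1 x - L a 1 χ x * u 0 x‖ ^ 2

/-- **aE2** The same for `1 - ∂²/∂t²`.

Proof.  `⟨u, χ² u⟩ = |χ u|₂²`.  By `ibp_pd` (with the test function `conj (χ² u)`, `pd_conj`)
`-⟨∂_t² u, χ² u⟩ = ⟨∂_t u, ∂_t (χ² u)⟩`; `∂_t (χ χ u) = χ ∂_t (χ u) + χ_t χ u` and `χ ∂_t u = ∂_t (χ u) - χ_t u`, so this is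
`⟨∂_t (χ u) - χ_t u, ∂_t (χ u) + χ_t u⟩`, with real part `|∂_t (χ u)|₂² - |χ_t u|₂²`. -/
def S_aE2 : Prop := ∀ χ : E5 → ℂ, Tst χ → (∀ x, conj (χ x) = χ x) → ∀ u : E5 → ℂ, Sm u →
  (∫ x, (u x - pd 4 (pd 4 u) x) * conj (χ x * (χ x * u x))).re
    = (∫ x, ‖χ x * u x‖ ^ 2) + (∫ x, ‖pd 4 (fun y => χ y * u y) x‖ ^ 2)
      - ∫ x, ‖pd 4 χ x * u x‖ ^ 2

/-- **aE3** Elementary bounds for test functions.  (Uses `S_Har`, `S_cOut`.)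

Proof.  `ε` small (at most the one of `S_Har`, at most 1).  `|D1 a v|² ≤ 2 |L_0 v_1|² + 2 |L_1 v_0|²`.  `Ls_eq`: `D0s a v = -∑ (Lb_j v_j + dv_j v_j)`, so
`|D0s a v|² ≤ 4 ∑ (|Lb_j v_j|² + |dv_j|² |v_j|²)`, `dv_j` vanishes outside `B₁` (`S_cOut`) and is bounded there: `dv a j =
∑ l, db l (conj (b j l))` near every point of `B₁` (`dv a0 j = 0`), `|pd i (b j l)|² ≤ sq 1 (b j l) ≤ ε²`, so `|dv a j| ≤ 3 ε`.  And
`∫_{B₁} |v_j|² ≤ 2 ∫ |v_j|² / (1 + zz) ≤ C ∫ gr a (v_j)` (`zz x ≤ 1` in `B₁`, `S_Har`). -/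
def S_aE3 : Prop := ∃ ε > 0, ∃ C > 0, ∀ a : Str, Near a 2 ε → ∀ v : F2, (∀ j, Tst (v j)) →
  (∫ x, ‖D0s a v x‖ ^ 2) ≤ C * g0 a v ∧ (∫ x, ‖D1 a v x‖ ^ 2) ≤ C * g0 a v ∧
  ∀ j, (∫ x in Metric.ball (0 : E5) 1, ‖v j x‖ ^ 2) ≤ C * ∫ x, gr a (v j) x

/-- **aE4** The energy estimate with a cutoff.  (Uses `S_Bas`, `S_cOut`, `S_cChi`, `S_aE1`, `S_aE2`, `S_aE3`.)

Proof.  Let `χ` be real, `χ = 1` for `|x| ≤ ρ`, `|L_j χ|, |Lb_j χ|, |∂_t χ| ≤ K/ρ` (for `L`, `Lb` of `a` by `S_cChi`), `G = g0 a (χ u)`,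
`U = |u_0|₂² + |u_1|₂²`, `F = |f_0|₂² + |f_1|₂² + |q0|₂² + |q1|₂²` (these functions vanish outside `B₁`).
Multiply the equation by `conj (χ² u_j)`, integrate, sum over `j` and take real parts.  Left side, by `S_aE1`, `S_aE2` and `S_Bas`:
at least `c G - |P|₂² - |Q|₂² - e |χ_t u|₂² ≥ c G - C (K/ρ)² U` (`e ≤ 1`).
Right side: `⟨f_j, χ² u_j⟩` is at most `|f_j|₂ |χ u_j|_{B₁}` (`|χ| ≤ 1`; `f_j = 0` outside `B₁`) `≤ C √F √G`.  `∑ j ⟨L_j q0, χ² u_j⟩ =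
⟨q0, D0s a (χ² u)⟩` (`ibp_L`); at `|x| < 1` the function `χ` is one near `x`, so `D0s a (χ² u) x = D0s a (χ u) x` there, and `q0 = 0`
elsewhere: at most `|q0|₂ |D0s a (χ u)|₂ ≤ C √F √G` (`S_aE3`).  In the same way `∑ j ⟨D1s a q1 j, χ² u_j⟩ = ⟨q1, D1 a (χ² u)⟩`, at most
`|q1|₂ |D1 a (χ u)|₂ ≤ C √F √G`.  So `c G ≤ C √F √G + C (K/ρ)² U`, and with `C √F √G ≤ (c/2) G + (C²/(2c)) F` the claim follows.
(All integrals of compactly supported continuous functions; `G` is finite.) -/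
def S_aE4 : Prop := ∃ ε > 0, ∃ C > 0, ∀ a : Str, Near a 2 ε → ∀ (f : F2) (q0 q1 : E5 → ℂ),
  (∀ j, Sm (f j)) → Sm q0 → Sm q1 → (∀ x, 1 ≤ ‖x‖ → (∀ j, f j x = 0) ∧ q0 x = 0 ∧ q1 x = 0) →
  ∀ e : ℝ, 0 < e → e ≤ 1 → ∀ u : F2, (∀ j, WW (u j)) →
  (∀ j x, BoxE a e u j x = f j x + D0 a q0 j x + D1s a q1 j x) →
  ∀ (ρ K : ℝ) (χ : E5 → ℂ), 1 ≤ ρ → 0 < K → Tst χ → (∀ x, ‖χ x‖ ≤ 1) →
  (∀ x, conj (χ x) = χ x) → (∀ x, ‖x‖ ≤ ρ → χ x = 1) → (∀ j x, ‖L a0 j χ x‖ ≤ K / ρ) →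
  (∀ j x, ‖Lb a0 j χ x‖ ≤ K / ρ) → (∀ x, ‖pd 4 χ x‖ ≤ K / ρ) →
  g0 a (fun j y => χ y * u j y)
    ≤ C * ((∫ x in Metric.ball (0 : E5) 1, (‖f 0 x‖ ^ 2 + ‖f 1 x‖ ^ 2))
        + (∫ x in Metric.ball (0 : E5) 1, ‖q0 x‖ ^ 2) + (∫ x in Metric.ball (0 : E5) 1, ‖q1 x‖ ^ 2)
        + (K / ρ) ^ 2 * ((∫ x, ‖u 0 x‖ ^ 2) + ∫ x, ‖u 1 x‖ ^ 2))

/-- **aEn** The energy estimate.  (Uses `S_cMem`, `S_aE4`; `tInf2`.)

Proof.  `gr a (u_j)` is integrable (`S_cMem`; `Near a 2 ε` gives `Outs a`).  For `ρ = n + 1` take `χ_n` from `tInf2` (with `K` fixed).  On `|x| < ρ` the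
function `χ_n` is one near `x`, so `gr a (χ_n u_j) x = gr a (u_j) x`; so
`∫_{|x| < n + 1} gr a (u_j) ≤ ∫ gr a (χ_n u_j)` (`gr ≥ 0`).  The left side tends to `∫ gr a (u_j)` (`tendsto_setIntegral_of_monotone` or
dominated convergence), the last term of `S_aE4` tends to zero. -/
def S_aEn : Prop := ∃ ε > 0, ∃ C > 0, ∀ a : Str, Near a 2 ε → ∀ (f : F2) (q0 q1 : E5 → ℂ),
  (∀ j, Sm (f j)) → Sm q0 → Sm q1 → (∀ x, 1 ≤ ‖x‖ → (∀ j, f j x = 0) ∧ q0 x = 0 ∧ q1 x = 0) →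
  ∀ e : ℝ, 0 < e → e ≤ 1 → ∀ u : F2, (∀ j, WW (u j)) →
  (∀ j x, BoxE a e u j x = f j x + D0 a q0 j x + D1s a q1 j x) →
  g0 a u ≤ C * ((∫ x in Metric.ball (0 : E5) 1, (‖f 0 x‖ ^ 2 + ‖f 1 x‖ ^ 2))
        + (∫ x in Metric.ball (0 : E5) 1, ‖q0 x‖ ^ 2)
        + ∫ x in Metric.ball (0 : E5) 1, ‖q1 x‖ ^ 2)

/-! ### Commutators -/

/-- `b = a - a0` -/
def bb (a : Str) (j : Fin 2) (l : Fin 3) : E5 → ℂ := fun x => a j l x - a0 j l x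

/-- the coefficients of `[Z_k, L_j]` -/
def cc (a : Str) (k : Fin 5) (j : Fin 2) (l : Fin 3) : E5 → ℂ := fun x =>
  Zf k (bb a j l) x - if l = 2 then ∑ m : Fin 3, bb a j m x * dz m (fun y => (zco k y : ℂ)) x else 0

/-- **aCf** Formulas for the commutators.  (Uses `S_cCom0`.)

Proof.  `L a j f = L a0 j f + ∑ l, b l * dz l f`; `Z_k` and `L a0 j` commute (`S_cCom0`).
`Z_k (b l * dz l f) = Z_k (b l) * dz l f + b l * Z_k (dz l f)` (`pd_mul`) and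
`Z_k (dz l f) = dz l (Z_k f) - dz l (zco k) * ∂_t f` (`pd_dz`, `dz_add`, `dz_mul`); `∂_t f = dz 2 f`.
So `zcL a k j f = ∑ l, (Z_k (b l) * dz l f - b l * dz l (zco k) * dz 2 f)`.
`Ls a j g = -Lb a j g - dv a j * g` (`Ls_eq`).  `Z_k (Lb a j f) - Lb a j (Z_k f)` is the complex conjugate of `zcL a k j (conj f)`
(`conj_Lb`, `conj_L`, `pd_conj`, `zco` is real), and `dz l (conj f) = conj (db l f)` (`dz_conj`).
`Z_k (dv a j * f) = dv a j * Z_k f + Z_k (dv a j) * f`. -/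
def S_aCf : Prop := ∀ a : Str, SmS a → ∀ (k : Fin 5) (j : Fin 2) (f : E5 → ℂ), Sm f → ∀ x,
  zcL a k j f x = ∑ l, cc a k j l x * dz l f x ∧
  zcS a k j f x = -(∑ l, conj (cc a k j l x) * db l f x) - Zf k (dv a j) x * f x

/-- **aCb** Bounds of the coefficients.  (Uses `S_cOut`.)

Proof.  `bb a j l` is smooth, vanishes for `1 ≤ |x|` and its derivatives of order at most 4 are at most `ε` in absolute value
(`‖f‖² = sq 0 f`, `‖pd i f‖² ≤ sq 1 f`, `‖pd i (pd k f)‖² ≤ sq 2 f`, `‖pd i (pd k (pd m f))‖² ≤ sq 3 f`).  A smooth function which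
vanishes for `1 ≤ |x|` has derivatives with the same property (near a point with `1 < |x|` it is zero; for `|x| = 1` by continuity,
`x = lim (1 + 1/n) x`), so `cc`, `Z_m (cc)`, `Z_k (dv a j)`, `Z_m (Z_k (dv a j))` vanish for `1 ≤ |x|`: note that `dv a j` is
smooth and vanishes for `1 ≤ |x|` (`S_cOut`).  In the unit ball `|zco| ≤ 2`, `|pd i (zco k)| ≤ 2`, the second derivatives of `zco k` are
zero, so `|Z_k g| ≤ |pd k g| + 2 |pd 4 g|`, and `Z_m Z_k g` is a sum of products of first and second derivatives of `g` with numbers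
at most `4`.  `dv a j = ∑ l, db l (conj (bb a j l))` (`dv a0 j = 0`: direct computation as `conj (a0 j 2) = I conj z_j` does not
depend on `t` and `conj (a0 j l) = 0` for `l ≠ 2`). -/
def S_aCb : Prop := ∃ C > 0, ∀ (a : Str) (ε : ℝ), 0 ≤ ε → ε ≤ 1 → Near a 4 ε →
  ∀ (k m : Fin 5) (j : Fin 2),
  (∀ l, Sm (cc a k j l)) ∧ Sm (Zf k (dv a j)) ∧
  (∀ x, 1 ≤ ‖x‖ → (∀ l, cc a k j l x = 0) ∧ Zf k (dv a j) x = 0) ∧
  (∀ l x, ‖cc a k j l x‖ ≤ C * ε) ∧ (∀ l x, ‖Zf m (cc a k j l) x‖ ≤ C * ε) ∧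
  (∀ x, ‖Zf k (dv a j) x‖ ≤ C * ε) ∧ ∀ x, ‖Zf m (Zf k (dv a j)) x‖ ≤ C * ε

/-- **aCm** Pointwise bounds of the commutators.  (Uses `S_cZ`, `S_aCf`, `S_aCb`.)

Proof.  `S_aCf` and `S_aCb`; `|dz l f|, |db l f| ≤ 2 sZ f` for `|x| ≤ 1` (`S_cZ`).  For the last two bounds:
`Z_m (c * dz l f) = Z_m c * dz l f + c * Z_m (dz l f)`, `Z_m (dz l f) = dz l (Z_m f) - dz l (zco m) * dz 2 f`,
`|dz l (Z_m f)| ≤ 2 sZ (Z_m f) ≤ 2 sZ2 f`, `|dz l (zco m)| ≤ 2`; the same for `db`.  Outside the unit ball all coefficients vanish, and so do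
the functions `zcL`, `zcS`.  (The functions in `S_aCf` are equal, so their derivatives are equal.) -/
def S_aCm : Prop := ∃ C > 0, ∀ (a : Str) (ε : ℝ), 0 ≤ ε → ε ≤ 1 → Near a 4 ε →
  ∀ (f : E5 → ℂ), Sm f → ∀ (k m : Fin 5) (j : Fin 2),
  Sm (zcL a k j f) ∧ Sm (zcS a k j f) ∧
  (∀ x, 1 ≤ ‖x‖ → zcL a k j f x = 0 ∧ zcS a k j f x = 0 ∧ Zf m (zcL a k j f) x = 0 ∧
    Zf m (zcS a k j f) x = 0) ∧
  ∀ x, ‖x‖ < 1 → ‖zcL a k j f x‖ ≤ C * ε * sZ f x ∧ ‖zcS a k j f x‖ ≤ C * ε * (‖f x‖ + sZ f x) ∧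
    ‖Zf m (zcL a k j f) x‖ ≤ C * ε * (sZ f x + sZ2 f x) ∧
    ‖Zf m (zcS a k j f) x‖ ≤ C * ε * (‖f x‖ + sZ f x + sZ2 f x)

/-! ### Pointwise bounds of the right sides -/

/-- **aB1** First order.  (Uses `S_aCm`.)

Proof.  `|cD0s a k w|, |cD1 a k w| ≤ C ε (N0 w + N1 w)` by `S_aCm`.  `|cD0 a k F j| ≤ C ε sZ F`, `F = D0s a w`, and
`Z_m F = D0s a (Zp m w) + cD0s a m w`, so `sZ F ≤ T1 a w + 5 C (N0 w + N1 w)`.  `|cD1s a k F' j| ≤ C ε (|F'| + sZ F')`, `F' = D1 a w`,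
`|F'| ≤ T0 a w`, `Z_m F' = D1 a (Zp m w) + cD1 a m w`. -/
def S_aB1 : Prop := ∃ C > 0, ∀ (a : Str) (ε : ℝ), 0 ≤ ε → ε ≤ 1 → Near a 4 ε →
  ∀ w : F2, (∀ j, Sm (w j)) → ∀ (k : Fin 5) (j : Fin 2) (x : E5), ‖x‖ < 1 →
  ‖cD0s a k w x‖ ≤ C * ε * (N0 w x + N1 w x) ∧ ‖cD1 a k w x‖ ≤ C * ε * (N0 w x + N1 w x) ∧
  ‖cD0 a k (D0s a w) j x‖ ≤ C * ε * (T0 a w x + T1 a w x + N0 w x + N1 w x) ∧
  ‖cD1s a k (D1 a w) j x‖ ≤ C * ε * (T0 a w x + T1 a w x + N0 w x + N1 w x)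

/-- **aB2** Second order.  (Uses `S_aCm`, `S_aB1`.)

Proof.  Let `X = T0 + T1 + T2 + N0 + N1 + N2` (of `w`, at `x`).
(1) `|Z_l (cD0s a k w)|, |Z_l (cD1 a k w)| ≤ C ε (N0 + N1 + N2)` by `S_aCm` (the derivative of a sum).
(2) `cD0s a l (Zp k w)`, `cD1 a l (Zp k w)`: at most `C ε (N0 (Zp k w) + N1 (Zp k w)) ≤ C ε (N1 w + N2 w)`.
(3) With `F = D0s a w`: `Z_m Z_n F = Z_m (D0s a (Zp n w) + cD0s a n w) = D0s a (Zp m (Zp n w)) + cD0s a m (Zp n w) + Z_m (cD0s a n w)`, so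
`sZ2 F ≤ C X` and (as in `S_aB1`) `sZ F ≤ C X`, `|F| ≤ T0`; the same for `D1 a w`.  So by `S_aCm`
`|Z_l (cD0 a k (D0s a w) j)|, |Z_l (cD1s a k (D1 a w) j)| ≤ C ε X`.
(4) With `q = cD0s a k w`: `|q| ≤ C (N0 + N1)`, `sZ q ≤ C (N0 + N1 + N2)` by (1), so `|cD0 a l q j| ≤ C ε X`; the same for `cD1s a l (cD1 a k w) j`.
(5) `cD0 a l (D0s a (Zp k w)) j`, `cD1s a l (D1 a (Zp k w)) j`: `S_aB1` for `Zp k w`: `T0 (Zp k w) ≤ T1 w`, `T1 (Zp k w) ≤ T2 w`,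
`N0 (Zp k w) ≤ N1 w`, `N1 (Zp k w) ≤ N2 w`. -/
def S_aB2 : Prop := ∃ C > 0, ∀ (a : Str) (ε : ℝ), 0 ≤ ε → ε ≤ 1 → Near a 4 ε →
  ∀ w : F2, (∀ j, Sm (w j)) → ∀ (l k : Fin 5) (j : Fin 2) (x : E5), ‖x‖ < 1 →
  ∀ X : ℝ, X = T0 a w x + T1 a w x + T2 a w x + N0 w x + N1 w x + N2 w x →
  ‖Zf l (cD0s a k w) x + cD0s a l (Zp k w) x‖ ≤ C * ε * X ∧
  ‖Zf l (cD1 a k w) x + cD1 a l (Zp k w) x‖ ≤ C * ε * X ∧
  ‖Zf l (cD0 a k (D0s a w) j) x‖ ≤ C * ε * X ∧ ‖Zf l (cD1s a k (D1 a w) j) x‖ ≤ C * ε * X ∧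
  ‖cD0 a l (cD0s a k w) j x‖ ≤ C * ε * X ∧ ‖cD1s a l (cD1 a k w) j x‖ ≤ C * ε * X ∧
  ‖cD0 a l (D0s a (Zp k w)) j x‖ ≤ C * ε * X ∧ ‖cD1s a l (D1 a (Zp k w)) j x‖ ≤ C * ε * X

/-! ### Integration -/

/-- **aI** Integrated bounds.  (Uses `S_cOut`, `S_cMem`, `S_cHar`.)

Proof.  `WW (w j)`, `WW (Z_m (w j))`, `WW (Z_m Z_n (w j))` by `WI` (`ZL [] f = f`, `ZL [m, n] f = Zf m (Zf n f)`).  By `S_cHar`
`∫_{B₁} |u|² ≤ C ∫ gr a u` for these functions.  `(sZ f)² ≤ 5 ∑ |Z_m f|²`, `(sZ2 f)² ≤ 25 ∑ ∑ |Z_m Z_n f|²`.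
`T0 a v ² ≤ 2 |D0s a v|² + 2 |D1 a v|² ≤ C ∑ j, (gr a (v j) + |dv a j|² |v j|²)` and `|dv a j| ≤ C` (in `B₁`; the first derivatives of the
coefficients are bounded as `Near a 4 ε`, `ε ≤ 1`), so `∫_{B₁} T0 a v ² ≤ C g0 a v` for `v = w, Zp m w, Zp m (Zp n w)`.
Then `(∑ six terms)² ≤ 6 ∑ squares`, `T1 ² ≤ 5 ∑ T0 (Zp m w) ²` and so on.  All functions are continuous, so integrable on the
ball. -/
def S_aI : Prop := ∃ ε > 0, ∃ C > 0, ∀ a : Str, Near a 4 ε → ∀ w : F2, (∀ j, WI (w j)) →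
  (∫ x in Metric.ball (0 : E5) 1, (T0 a w x + T1 a w x + N0 w x + N1 w x) ^ 2)
    ≤ C * (g0 a w + g1 a w) ∧
  (∫ x in Metric.ball (0 : E5) 1,
      (T0 a w x + T1 a w x + T2 a w x + N0 w x + N1 w x + N2 w x) ^ 2)
    ≤ C * (g0 a w + g1 a w + g2 a w)

/-- **aHs** Derivatives of the right side.

Proof.  In the unit ball `|Z_k g| ≤ |pd k g| + 2 |pd 4 g|`, `|Z_l Z_k g| ≤ C ∑ (|pd i g| + |pd i (pd k g)|)`;
`∑ i, ‖pd i g‖² = sq 1 g`, `∑ i k, ‖pd i (pd k g)‖² = sq 2 g` (definition of `sq`).  `Φ j` and all its derivatives have compact support, so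
`sq i (Φ j)` is integrable, and it is nonnegative; so the integral over the ball is at most the integral over the space. -/
def S_aHs : Prop := ∃ C > 0, ∀ Φ : F2, (∀ j, Tst (Φ j)) →
  (∀ j, (∫ x in Metric.ball (0 : E5) 1, ‖Φ j x‖ ^ 2) ≤ Hs 0 Φ) ∧
  (∀ j k, (∫ x in Metric.ball (0 : E5) 1, ‖Zf k (Φ j) x‖ ^ 2) ≤ C * Hs 1 Φ) ∧
  (∀ j k l, (∫ x in Metric.ball (0 : E5) 1, ‖Zf l (Zf k (Φ j)) x‖ ^ 2) ≤ C * Hs 2 Φ) ∧
  0 ≤ Hs 0 Φ ∧ Hs 0 Φ ≤ Hs 1 Φ ∧ Hs 1 Φ ≤ Hs 2 Φ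

/-- **aL1** Level one.  (Uses `S_aId`, `S_aEn`, `S_aCm`, `S_aB1`, `S_aI`, `S_aHs`.)

Proof.  Level zero: `S_aEn` with `f = Φ`, `q0 = q1 = 0` (`D0 a 0 = 0`, `D1s a 0 = 0`): `g0 a w ≤ C Hs 0 Φ`.
Let `ε' ≤ ε` be the number with `Near a 4 ε'`.  For every `k`: `u = Zp k w` (`WW` by `WI`), by `S_aId` the equation of `S_aEn` holds with
`f j = Z_k (Φ j) - cD0 a k (D0s a w) j - cD1s a k (D1 a w) j` (note that `BoxE a e w j = Φ j` as functions), `q0 = -cD0s a k w`,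
`q1 = -cD1 a k w`; these are smooth and vanish for `1 ≤ |x|` (`S_aCm`; for `Z_k (Φ j)`: `Φ j` vanishes for `1 ≤ |x|`, so its
derivatives do, by continuity on the sphere).  By `S_aB1` in the ball: `|f j| ≤ |Z_k (Φ j)| + 2 C ε' X`, `|q0|, |q1| ≤ C ε' X`,
`X = T0 + T1 + N0 + N1`; so by `S_aI`, `S_aHs`: `g0 a (Zp k w) ≤ C Hs 1 Φ + C ε'² (g0 a w + g1 a w)`.  Sum over the five `k`:
`g1 ≤ C Hs 1 Φ + 5 C ε'² (g0 + g1)`; if `5 C ε² ≤ 1/2` then `g1 ≤ C' (Hs 1 Φ + g0) ≤ C'' Hs 1 Φ`. -/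
def S_aL1 : Prop := ∃ ε > 0, ∃ C > 0, ∀ a : Str, Near a 4 ε → ∀ Φ : F2, (∀ j, Tst (Φ j)) →
  (∀ j x, 1 ≤ ‖x‖ → Φ j x = 0) → ∀ e : ℝ, 0 < e → e ≤ 1 → ∀ w : F2, (∀ j, WI (w j)) →
  (∀ j x, BoxE a e w j x = Φ j x) → g0 a w ≤ C * Hs 0 Φ ∧ g1 a w ≤ C * Hs 1 Φ

/-- **aL2** Level two.  (Uses `S_aId2`, `S_aEn`, `S_aCm`, `S_aB2`, `S_aI`, `S_aHs`, `S_aL1`.)

Proof.  As level one, with `u = Zp l (Zp k w)`, the equation from `S_aId2`, the bounds from `S_aB2`: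
`g0 a (Zp l (Zp k w)) ≤ C Hs 2 Φ + C ε² (g0 + g1 + g2)`.  Sum over the 25 pairs, absorb, and use `S_aL1`. -/
def S_aL2 : Prop := ∃ ε > 0, ∃ C > 0, ∀ a : Str, Near a 4 ε → ∀ Φ : F2, (∀ j, Tst (Φ j)) →
  (∀ j x, 1 ≤ ‖x‖ → Φ j x = 0) → ∀ e : ℝ, 0 < e → e ≤ 1 → ∀ w : F2, (∀ j, WI (w j)) →
  (∀ j x, BoxE a e w j x = Φ j x) → g2 a w ≤ C * Hs 2 Φ

/-- **aUNI** Assembly.  (Uses `S_cHar`, `S_cMem`, `S_aL1`, `S_aL2`.)

Proof.  `∫ gr a (w j) ≤ g0 a w` and so on (all integrals of `gr` are nonnegative), and `S_cHar` for `w 0`, `w 1` (sum of the two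
integrals over the ball; integrability from continuity on the ball or `S_cHar`). -/
def S_aUNI : Prop := S_cUNI

end Pool.Agent.CR5
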