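import Pool.Agent.Lib.CR5.Iface

/-!
# CR5, block D, part (c) and the common lemmas (helper13)

Uniform estimates for the solutions of the regularised equation.  Every `S_...` is a statement to be
proved in its own file `CR5/D/Name.lean` (theorem `pName`); the docstring contains the complete
proof.  The parts (a), (b) (`S_cUNI`) are helper76's.

In the docstrings: `b = a - a0` (smooth, zero for `1 ≤ |x|`), `|f|₂` the norm of `L²(ℝ⁵)`,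
`B₁` the unit ball, `∫ f = ∫ x, f x`.
-/

open MeasureTheory Set Filter Topology
open scoped ENNReal ComplexConjugate

noncomputable section

namespace Pool.Agent.CR5

/-- the structure is smooth and standard outside the unit ball -/
structure Outs (a : Str) : Prop where
  sm : SmS a
  out : ∀ j l x, 1 ≤ ‖x‖ → a j l x = a0 j l x

/-- `∑ k, |Z_k f (x)|` -/
def sZ (f : E5 → ℂ) (x : E5) : ℝ := ∑ k : Fin 5, ‖Zf k f x‖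

/-- `∑ k l, |Z_k Z_l f (x)|` -/
def sZ2 (f : E5 → ℂ) (x : E5) : ℝ := ∑ k : Fin 5, ∑ l : Fin 5, ‖Zf k (Zf l f) x‖

/-! ### common lemmas -/

/-- **D1.** Outside the unit ball everything is standard.

Proof. For `1 ≤ |x|` the values `a j l x` and `a0 j l x` agree, and `L`, `Lb` depend only on these values and on
the derivatives of `f` at `x`.  On the open set `{1 < |x|}` the functions `a j l` and `a0 j l` agree, so their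
derivatives agree (`Filter.EventuallyEq.fderiv_eq`); `dv a0 j = 0` (the only nonzero coefficient is
`conj (a0 j 2) = i conj z_j`, and `db 2` is the derivative in the direction of `t`); `kap a0 l = 0`: for `l = 0, 1` clear,
`kap a0 2 = L a0 0 (-i z_2) - L a0 1 (-i z_1) = 0` (`z_1, z_2` are holomorphic, `db` kills them, and `a0 j l = 0` for
`l ≠ 2`, `dz 2 z_j = 0`).  So `dv a j`, `kap a l` vanish on `{1 < |x|}`, and `pd i (kap a l)` too.  They are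
continuous, and the closure of `{1 < |x|}` contains `{1 ≤ |x|}` (`x = lim (1 + 1/n) x`). -/
def S_cOut : Prop := ∀ a : Str, Outs a →
  (∀ (j : Fin 2) (f : E5 → ℂ) (x : E5), 1 ≤ ‖x‖ → L a j f x = L a0 j f x ∧ Lb a j f x = Lb a0 j f x) ∧
  (∀ (j : Fin 2) (x : E5), 1 ≤ ‖x‖ → dv a j x = 0) ∧
  ∀ (l : Fin 3) (x : E5), 1 ≤ ‖x‖ → kap a l x = 0 ∧ ∀ i, pd i (kap a l) x = 0

/-- **D2.** In the unit ball the derivatives are bounded by the right invariant fields.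

Proof. `Zf 4 f = pd 4 f` (`zco 4 = 0`); for `k < 4`: `pd k f x = Zf k f x - zco k x * pd 4 f x` and `|zco k x| ≤ 2` for
`|x| ≤ 1`.  `dz 0 f = (pd 0 f - i pd 1 f) / 2` etc. -/
def S_cZ : Prop := ∀ (f : E5 → ℂ) (x : E5), ‖x‖ ≤ 1 →
  (∀ k, ‖pd k f x‖ ≤ 2 * sZ f x) ∧ (∀ l, ‖dz l f x‖ ≤ 2 * sZ f x) ∧ ∀ l, ‖db l f x‖ ≤ 2 * sZ f x

/-- **D3.** The right invariant fields commute with the standard structure.

Proof. Direct computation with `pd_mul`, `pd_comm`, `pd_db`, `pd_dz`: for `k = 4` clear (`zc j`, `zco` do not depend on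
`t`).  `Z_k = ∂_k + zco k ∂_t`, `L a0 j = db j - i z_j ∂_t`.
`Z_k L_j f - L_j Z_k f = (-i Z_k z_j - db j (zco k)) ∂_t f` (all other terms cancel, `∂_t zco = ∂_t z_j = 0`), and
`-i ∂_k z_j = db j (zco k)`: for `j = 0`: `k = 0`: `-i` and `db 0 (-2 y₁) = (i / 2) (-2) = -i`; `k = 1`: `-i * i = 1` and
`db 0 (2 x₁) = 1`; `k = 2, 3`: both are zero; `j = 1` in the same way.  The formula for `Lb` is the conjugate one
(`conj_L`, and `Zf k (conj f) = conj (Zf k f)` by `pd_conj`). -/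
def S_cCom0 : Prop := ∀ (f : E5 → ℂ), Sm f → ∀ (j : Fin 2) (k : Fin 5) (x : E5),
  Zf k (L a0 j f) x = L a0 j (Zf k f) x ∧ Zf k (Lb a0 j f) x = Lb a0 j (Zf k f) x

/-- **D4.** Commutators of first order.  (Uses `S_cOut`, `S_cZ`, `S_cCom0`.)

Proof. For `1 < |x|`: `L a j f = L a0 j f` near `x` (`S_cOut`), so both sides are those of `S_cCom0`; for `1 = |x|` by
continuity (as in D1).  `Ls a j g = -Lb a j g - dv a j * g` (`Ls_eq`), `dv a j = 0` near `x`: the same.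
Let `|x| < 1`.  `L a j f = L a0 j f + ∑ l, b l * dz l f` (`b l = a j l - a0 j l`), so by D3
`Z_k L f - L Z_k f = ∑ l, ((Z_k b l) dz l f + b l (Z_k dz l f - dz l Z_k f))`, and
`Z_k dz l f - dz l Z_k f = - dz l (zco k) * ∂_t f` (`pd_dz`, `dz_mul`), `|dz l (zco k)| ≤ 2`.  `|b l| ≤ ε` (`sq 0`),
`|Z_k (b l)| ≤ |∂_k (b l)| + 2 |∂_t (b l)| ≤ 3 ε` (`sq 1`).  With D2: `≤ C ε sZ f x`.
`Lb`: the conjugate computation.  `dv a j = ∑ l, db l (conj (b l))` (as `dv a0 j = 0`), so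
`|Z_k (dv a j)| ≤ C ε` (`sq 2`); `Z_k (dv * f) - dv * Z_k f = (Z_k dv) * f`.
(`‖pd i g x‖ ^ 2 ≤ sq 1 g x`, `‖pd i (pd k g) x‖ ^ 2 ≤ sq 2 g x`.) -/
def S_cCom : Prop := ∃ C > 0, ∀ (a : Str) (ε : ℝ), 0 ≤ ε → ε ≤ 1 → Near a 4 ε →
  ∀ f : E5 → ℂ, Sm f → ∀ (j : Fin 2) (k : Fin 5) (x : E5),
  (1 ≤ ‖x‖ → Zf k (L a j f) x = L a j (Zf k f) x ∧ Zf k (Ls a j f) x = Ls a j (Zf k f) x) ∧
  (‖x‖ < 1 → ‖Zf k (L a j f) x - L a j (Zf k f) x‖ ≤ C * ε * sZ f x ∧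
    ‖Zf k (Ls a j f) x - Ls a j (Zf k f) x‖ ≤ C * ε * (‖f x‖ + sZ f x))

/-- **D6.** Square integrability.  (Uses `S_cOut`.)

Proof. `L a j f - L a0 j f` is smooth and vanishes for `1 ≤ |x|`, so it is in `Tst` (`HasCompactSupport` from the
closed unit ball: `HasCompactSupport.intro (isCompact_closedBall 0 1)`), hence in `L²` (`Tst.memLp`); the same for
`Lb`; `Ls a j f = -Lb a j f - dv a j * f` and `dv a j * f` is in `Tst`.  `gr a f` is a sum of squares of functions in `L²`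
(`MemLp.integrable_norm_pow` or `memLp_two_iff_integrable_sq_norm`). -/
def S_cMem : Prop := ∀ a : Str, Outs a → ∀ f : E5 → ℂ, WW f →
  Integrable (gr a f) ∧ ∀ j, MemLp (L a j f) 2 ∧ MemLp (Lb a j f) 2 ∧ MemLp (Ls a j f) 2

/-- **D7.** Cutoffs.  (Uses `S_cOut`.)

Proof. `χ` as in `S_Inf` is equal to one for `|x| ≤ ρ`, `1 ≤ ρ`.  For `|x| < ρ` the function is constant near `x`, so
`L a j χ x = 0` (`L_const` or all `pd` vanish).  For `ρ ≤ |x|` we have `1 ≤ |x|` and `L a j χ x = L a0 j χ x`.  The same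
for `Lb`. -/
def S_cChi : Prop := ∀ (C ρ : ℝ), 0 < C → 1 ≤ ρ → ∀ χ : E5 → ℂ, (∀ x, ‖x‖ ≤ ρ → χ x = 1) →
  (∀ j x, ‖L a0 j χ x‖ ≤ C / ρ) → (∀ j x, ‖Lb a0 j χ x‖ ≤ C / ρ) → ∀ a : Str, Outs a →
  ∀ j x, ‖L a j χ x‖ ≤ C / ρ ∧ ‖Lb a j χ x‖ ≤ C / ρ

/-- **D8.** Hardy's inequality for functions in `WW`.  (Uses `S_Har`, `S_Inf`, `S_cMem`, `S_cChi`.)

Proof. `χ` from `S_Inf` for `ρ ≥ 1`; `χ f` is in `Tst`.  On `B₁`: `χ = 1` and `1 + zz x ≤ 2`, so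
`∫_{B₁} |f|² ≤ 2 ∫ |χ f|² / (1 + zz) ≤ 2 C ∫ gr a (χ f)`.  `L (χ f) = χ L f + (L χ) f` (`L_mul`), so
`gr a (χ f) ≤ 2 gr a f + 2 * 4 * (C' / ρ)² |f|²` (`|χ| ≤ 1`, D7).  Let `ρ → ∞`: `∫_{B₁} |f|² ≤ 4 C ∫ gr a f`. -/
def S_cHar : Prop := ∃ ε > 0, ∃ C > 0, ∀ a : Str, Near a 2 ε → ∀ f : E5 → ℂ, WW f →
  Integrable (gr a f) ∧ (∫ x in Metric.ball (0 : E5) 1, ‖f x‖ ^ 2) ≤ C * ∫ x, gr a f x

/-! ### parts (a), (b): helper76 -/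

/-- **Uniform estimates** (a), (b) (helper76: this is his statement `S_UNI`). -/
def S_cUNI : Prop := ∃ ε > 0, ∃ C > 0, ∀ a : Str, Near a 4 ε → ∀ Φ : F2, (∀ j, Tst (Φ j)) →
  (∀ j x, 1 ≤ ‖x‖ → Φ j x = 0) → ∀ e : ℝ, 0 < e → e ≤ 1 → ∀ w : F2, (∀ j, WI (w j)) →
  (∀ j x, BoxE a e w j x = Φ j x) →
  (∫ x in Metric.ball (0 : E5) 1, (‖w 0 x‖ ^ 2 + ‖w 1 x‖ ^ 2)) ≤ C * Hs 0 Φ ∧
  (∀ j, (∫ x, gr a (w j) x) ≤ C * Hs 0 Φ) ∧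
  (∀ j k, (∫ x, gr a (Zf k (w j)) x) ≤ C * Hs 1 Φ) ∧
  ∀ j k l, (∫ x, gr a (Zf k (Zf l (w j))) x) ≤ C * Hs 2 Φ

/-! ### part (c) -/

/-- **D9.** `y = D1* v` is square integrable.  (Uses `S_Inf`, `S_cChi`.)

Proof. Let `G = ∑ j, |g_j|₂²` with `g_j = L_j A + y_j`, `y = D1s a v`, i.e. `y_0 = -Ls_1 v`, `y_1 = Ls_0 v`; `K = |Kap A|₂`,
`V = |v|₂`.  Let `ρ ≥ 1`, `χ` from `S_Inf` (real valued), `X = ∫ χ² (|L_0 A|² + |L_1 A|² + |y_0|² + |y_1|²)` (finite).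
`∫ χ² ∑ |g_j|² = X + 2 Re ∑ ∫ χ² L_j A conj (y_j)`.  By `ibp_L'` (with the test function `χ² L_j A`):
`∑ ∫ χ² L_j A conj (y_j) = ∫ (L_0 (χ² L_1 A) - L_1 (χ² L_0 A)) conj v
= ∫ (χ² Kap A + 2 χ (L_0 χ L_1 A - L_1 χ L_0 A)) conj v` (`L_mul`, `D1_D0`).  By D7 and Cauchy-Schwarz its absolute
value is at most `K V + 2 (C / ρ) * 2 * √X * V ≤ K V + 4 C √X V`.  So `X ≤ G + 2 K V + 8 C V √X`, hence
`X ≤ 2 G + 4 K V + 64 C² V²`, for all `ρ ≥ 1`.  So `∫_{|x| ≤ ρ} |y_j|²` is bounded independently of `ρ`, and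
`y_j` is in `L²` (monotone convergence; `y_j` is continuous). -/
def S_cY2 : Prop := ∀ a : Str, Outs a → ∀ A v : E5 → ℂ, Sm A → Sm v → MemLp v 2 →
  MemLp (Kap a A) 2 → (∀ j, MemLp (fun x => L a j A x + D1s a v j x) 2) →
  ∀ j, MemLp (D1s a v j) 2

/-- **D10.** The basic estimate at infinity.  (Uses `S_Har`, `S_Bas`, `S_Inf`, `S_cChi`.)

Proof. `χ` from `S_Inf`, `ρ ≥ 1`.  `χ y` is a pair of test functions.  As in D8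
`∫_{B₁} (|y_0|² + |y_1|²) ≤ 2 ∑ ∫ |χ y_j|² / (1 + zz) ≤ 2 C ∑ ∫ gr a (χ y_j) ≤ (2 C / c) (|D0s (χ y)|₂² + |D1 (χ y)|₂²)`.
`D0s a (χ y) = χ D0s a y - ∑ j, (Lb_j χ) y_j` (`Ls_mul`), `D1 a (χ y) = χ D1 a y + L_0 χ y_1 - L_1 χ y_0` (`L_mul`).  So
`|D0s (χ y)|₂² ≤ 2 |D0s y|₂² + 2 (C' / ρ)² * 2 ∑ |y_j|₂²`, the same for `D1`.  Let `ρ → ∞`. -/
def S_cEll : Prop := ∃ ε > 0, ∃ C > 0, ∀ a : Str, Near a 2 ε → ∀ y : F2, (∀ j, Sm (y j)) →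
  (∀ j, MemLp (y j) 2) → MemLp (D0s a y) 2 → MemLp (D1 a y) 2 →
  (∫ x in Metric.ball (0 : E5) 1, (‖y 0 x‖ ^ 2 + ‖y 1 x‖ ^ 2))
    ≤ C * ((∫ x, ‖D0s a y x‖ ^ 2) + ∫ x, ‖D1 a y x‖ ^ 2)

/-- **D11.** `D0* D1* = [L_0, L_1]*`.

Proof. Both sides are smooth.  For every test function `φ`: `∫ φ conj (D0s a (D1s a v)) = ∫ φ conj (Ls_0 (-Ls_1 v) + Ls_1 (Ls_0 v))
= ∫ (-L_1 L_0 φ + L_0 L_1 φ) conj v = ∫ Kap a φ conj v` (`ibp_L'` twice, `D1_D0`), and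
`∫ φ conj (Kaps a v) = ∫ Kap a φ conj v` (`ibp_dz` for each term: `∫ dz l φ * (kap l * conj v) = -∫ φ * dz l (kap l * conj v)`,
and `conj (db l (conj (kap l) * v)) = dz l (kap l * conj v)` by `dz_conj`, `db_conj`).  So the continuous function
`h = D0s a (D1s a v) - Kaps a v` satisfies `∫ φ conj h = 0` for all test functions `φ`; take `φ = ψ h` with a bump function
`ψ ≥ 0` equal to one near a point: `∫ ψ |h|² = 0`, so `h = 0` (continuity).  (Or by direct computation.) -/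
def S_cKs : Prop := ∀ a : Str, SmS a → ∀ v : E5 → ℂ, Sm v → ∀ x, D0s a (D1s a v) x = Kaps a v x

/-- **D12.** Bounds of the commutator and its adjoint.  (Uses `S_cOut`, `S_cZ`.)

Proof. For `1 ≤ |x|` all `kap a l x` and `pd i (kap a l) x` vanish (D1), so `Kap a f x = 0` and `Kaps a f x = 0` (`db_mul`).
For `|x| < 1`: `|Kap a f x| ≤ 3 κ * 2 sZ f x` (D2); `db l (conj (kap l) f) = conj (kap l) db l f + conj (dz l (kap l)) f`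
(`db_mul`, `db_conj`), `|dz l (kap l)| ≤ κ`; so `|Kaps a f x| ≤ 3 (κ * 2 sZ f x + κ |f x|)`. -/
def S_cKap : Prop := ∀ a : Str, Outs a → ∀ κ : ℝ, (∀ l x, ‖kap a l x‖ ≤ κ) →
  (∀ l i x, ‖pd i (kap a l) x‖ ≤ κ) → ∀ f : E5 → ℂ, Sm f → ∀ x,
  (1 ≤ ‖x‖ → Kap a f x = 0 ∧ Kaps a f x = 0) ∧
  (‖x‖ < 1 → ‖Kap a f x‖ ≤ 6 * κ * sZ f x ∧ ‖Kaps a f x‖ ≤ 6 * κ * (‖f x‖ + sZ f x))

/-- **D13.** Derivatives of `A = D0* w` and `v = D1 w` in the unit ball.  (Uses `S_cUNI`, `S_cCom`, `S_cHar`,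
`S_cMem`.)

Proof. Let `ε` be small (below the `ε` of the used statements and at most 1).  `WW (w j)` and `WW (Zf k (w j))` by `WI`
(`ZL [] f = f`, `ZL [k] f = Zf k f`).  By `S_cHar` and `S_cUNI` (and `Hs 0 Φ ≤ Hs 1 Φ`): `∫_{B₁} |u|² ≤ C Hs 1 Φ` and
`∫ gr a u ≤ C Hs 1 Φ` for `u = w_j` and `u = Z_k w_j`.
`A = Ls_0 w_0 + Ls_1 w_1`, and on `B₁` (`S_cCom`): `|Z_k A| ≤ ∑ j, |Ls_j (Z_k w_j)| + C ∑ j, (|w_j| + sZ (w_j))`,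
`|Ls_j u| ≤ |Lb_j u| + |dv a j| |u|`, `|dv a j| ≤ C`.  So `|Z_k A|² ≤ C ∑ j, (gr a (Z_k w_j) + |Z_k w_j|² + |w_j|² + ∑ l, |Z_l w_j|²)`
(`(sZ f)² ≤ 5 ∑ l, |Z_l f|²`).  Integrate over `B₁`.  `v = L_0 w_1 - L_1 w_0`: the same.
`|v|² ≤ 2 (gr a (w_1) + gr a (w_0))`. -/
def S_cZA : Prop := ∃ ε > 0, ∃ C > 0, ∀ a : Str, Near a 4 ε → ∀ Φ : F2, (∀ j, Tst (Φ j)) →
  (∀ j x, 1 ≤ ‖x‖ → Φ j x = 0) → ∀ e : ℝ, 0 < e → e ≤ 1 → ∀ w : F2, (∀ j, WI (w j)) →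
  (∀ j x, BoxE a e w j x = Φ j x) →
  (∫ x in Metric.ball (0 : E5) 1, (sZ (D0s a w) x ^ 2)) ≤ C * Hs 1 Φ ∧
  (∫ x in Metric.ball (0 : E5) 1, (‖D1 a w x‖ ^ 2 + sZ (D1 a w) x ^ 2)) ≤ C * Hs 1 Φ

/-- **D14.** Assembly.  (Uses `S_cUNI`, `S_cMem`, `S_cY2`, `S_cEll`, `S_cKs`, `S_cKap`, `S_cZA`.)

Proof.  The first claim is in `S_cUNI`.  Second claim.  `A = D0s a w`, `v = D1 a w`, `y = D1s a v`, `g_j = L_j A + y_j = Box a w j = Φ_j - e (w_j - w_j,tt)`, where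
`w_tt = pd 4 (pd 4 w) = ZL [4, 4] w` (`Zf 4 f = pd 4 f`).  `A`, `v` are in `L²` (`S_cMem`: sums of `Ls_j w_j`, `L_j w_k`), `g_j` too
(`WW (w_j)`, `WW (ZL [4, 4] (w_j))`).  `Kap a A` is smooth and vanishes for `1 ≤ |x|` (D12), so it is in `L²`.  D9: `y_j` is in
`L²`.  `D0s a y = Kaps a v` (D11) is smooth with compact support.
`D1 a y = D1 a g - D1 a (D0 a A) = D1 a Φ - e (D1 a w - D1 a w_tt) - Kap a A` (`L_sub`, `L_add`, `L_const_mul`, `D1_D0`); it is in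
`L²`: `D1 a w_tt` is a difference of `L_j` of functions in `WW` (`S_cMem`).
D10: `∫_{B₁} |y|² ≤ C (|Kaps v|₂² + |D1 y|₂²)`.  By D12, D13: `|Kaps v|₂² ≤ C κ² ∫_{B₁} (|v|² + sZ v ²) ≤ C κ² Hs 1 Φ`,
`|Kap A|₂² ≤ C κ² ∫_{B₁} sZ A ² ≤ C κ² Hs 1 Φ`.  `|D1 a w|₂² ≤ 2 ∑ ∫ gr a (w_j) ≤ C Hs 2 Φ`,
`|D1 a w_tt|₂² ≤ 2 ∑ ∫ gr a (Zf 4 (Zf 4 (w_j))) ≤ C Hs 2 Φ`.  Together with `|p + q + r + s|² ≤ 4 (..)` the claim. -/
def S_cLIN : Prop := S_LIN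

end Pool.Agent.CR5
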