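import Pool.Agent.Lib.CR5.BasicG
import Pool.Agent.Lib.CR5.SpecF
import Pool.Agent.Lib.CR5.SpecDc

/-!
# CR5, block G: the substep (`S_SUB` of `Iface.lean`)

Every statement `R_X` / `S_X` has a complete proof in its docstring; task `X` proves
`theorem pX : S_X` (or `R_X`) in `Pool/Agent/Lib/CR5/G/X.lean`.  Notation: `r = Im γ`, `γ = gam F`,
`D_ρ = Dm F ρ`, `X = lam / s ≥ 1`, `W` the weighted sum of `ex μ F * E'` over `D_ρ`.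
`C * lam / s = C * (lam / s)` (`mul_div_assoc`); powers of this kind are combined with `pw_le`, `pw_mul`,
`pw_add`, `pw_one` of `BasicG.lean`.
-/

open MeasureTheory Set Filter Topology
open scoped ENNReal ComplexConjugate

noncomputable section

namespace Pool.Agent.CR5

/-- The parameters of one substep. -/
structure Par (lam R δ s μ D ρ : ℝ) : Prop where
  l1 : 1 ≤ lam
  R1 : 1 / 32 ≤ R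
  R2 : R ≤ 1 / 16
  d0 : 0 < δ
  d1 : δ ≤ 1 / 1000
  s0 : 0 < s
  s1 : s ≤ δ
  m1 : lam ≤ μ
  m2 : μ ≤ 2 * lam
  b0 : 0 < D
  b1 : D ≤ lam
  bR : D * R ≤ lam * δ / 8
  r1 : R - 4 * δ + s ≤ ρ
  r2 : ρ ≤ R - 3 * δ

/-- `Ψ_j = e^{iμγ} E'_j`. -/
def Ps (μ : ℝ) (F : Mp) (E' : F2) : F2 := fun j x => ex μ F x * E' j x

/-! ### The cutoff function and the form `Φ` -/

/-- **gChi** (uses `S_CUT`, `S_GEO`).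

Proof. `S_CUT` (`m = 3`) with `A = Dm F (ρ - s/2)` and width `s/16` gives `χ` with `χ = 1` on `A`,
`χ x ≠ 0 → ∃ y ∈ A, dist x y < s/16`, bounds `(C/(s/16)^i)² ≤ ((16^3 C)/s^i)²`.
`Inn (Dm F (ρ - s/2)) (Dm F (ρ - s/8)) (3s/32)` (`S_GEO`), `s/16 ≤ 3s/32`: so `χ x ≠ 0` implies
`x ∈ Dm F (ρ - s/8)`.  If `x ∉ Dm F ρ`, then no point `y` with `dist x y < s/32` is in `Dm F (ρ - s/8)` (because
`Inn (Dm F (ρ - s/8)) (Dm F ρ) (s/32)`), so `χ = 0` on `ball x (s/32)`.  Compact support: `χ = 0` outside the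
unit ball (`Dm_sub`; `HasCompactSupport.of_support_subset_isCompact` with the closed unit ball). -/
def S_gChi : Prop := S_CUT → S_GEO → ∃ ε1 > 0, ∃ C ≥ 1, ∀ F : Mp, FC ε1 F → ∀ ρ s : ℝ,
  ρ ≤ 1 / 16 → 0 < s → s ≤ 1 → ∃ χ : E5 → ℂ, Tst χ ∧ (∀ x, ‖χ x‖ ≤ 1) ∧
    (∀ x ∈ Dm F (ρ - s / 2), χ x = 1) ∧ (∀ x, x ∉ Dm F ρ → χ =ᶠ[𝓝 x] fun _ => 0) ∧
    ∀ i ≤ 3, ∀ x, sq i χ x ≤ (C / s ^ i) ^ 2

/-- **gEx**: derivatives of `ex D F` (uses `S_Ept`, `S_GEO`).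

Proof. On the unit ball the derivatives of `φ = I * D * gam F` of order `1, 2` are at most `D * C` in the sense of
`sq` (`sq_const_mul`, `‖I D‖ = D`), so `S_Ept` (`n = 2`) with `B = 1 + D * C` gives
`sq i (ex D F) x ≤ (C' * B^i * ‖ex D F x‖)²`, and `‖ex D F x‖ = exp (-(D * r))` (`ex_norm`), `B^i ≤ B^2`,
`B ≤ (1 + C)(1 + D) ≤ 2 (1 + C) lam`. -/
def S_gEx : Prop := S_Ept → S_GEO → ∃ ε1 > 0, ∃ C ≥ 1, ∀ F : Mp, FC ε1 F → ∀ lam D : ℝ, 1 ≤ lam →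
  0 ≤ D → D ≤ lam → ∀ i ≤ 2, ∀ x ∈ Metric.ball (0 : E5) 1,
    sq i (ex D F) x ≤ (C * lam ^ 2 * Real.exp (-(D * (gam F x).im))) ^ 2

/-- **gHs**: a product with a function with bounded derivatives, supported in an open set `Ω`.

Proof. For `x ∉ Ω` the function `g * f` vanishes near `x`, so `sq i (g f) x = 0` (`sq_congr`, `sq_zero_fun`).
For `x ∈ Ω`, `i ≤ 2`: `sq i (g f) x ≤ 4^i ∑_{l ≤ i} sq l g x * sq (i-l) f x ≤ 16 M² ∑_{l < 3} sq l f x`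
(`sq_mul_le`).  So `∫ sq i (g f) = ∫_Ω sq i (g f) ≤ 16 M² ∑_{l < 3} ∫_Ω sq l f` (`setIntegral_eq_integral_of_forall_compl_eq_zero`;
integrability by `intOn_sq`), and `∫_Ω sq l f ≤ N²` because `h l = 1` for `l ≤ 2` (`Adm.one`) and `NN_term`
(`√(∫) ≤ N`).  `Hs 2` is the sum over `i < 3` and the two components: at most
`3 * 16 * 3 * M² (N_0² + N_1²) ≤ 144 M² (N_0 + N_1)²`. -/
def S_gHs : Prop := ∀ (h : ℕ → ℝ) (m : ℕ), Adm h m → ∀ Ω : Set E5, IsOpen Ω →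
  Ω ⊆ Metric.ball 0 1 → ∀ (g : E5 → ℂ) (f : F2) (M : ℝ), Sm g → (∀ j, Sm (f j)) → 0 ≤ M →
  (∀ x, x ∉ Ω → g =ᶠ[𝓝 x] fun _ => 0) → Bo 2 Ω g M →
  Hs 2 (fun j x => g x * f j x) ≤ 144 * M ^ 2 * NN2 h m Ω f ^ 2

/-- **gD1**: the identity for `D1 Φ`.

Proof. `L_mul` (twice), `L_ex`, `ex_add`.  With `G = χ * ex (μ + D) F`:
`L_j (G E'_k) = G L_j E'_k + (L_j χ ex (μ+D) F + χ I (μ+D) ex (μ+D) F L_j γ) E'_k`; the terms `G (L_0 E'_1 - L_1 E'_0)` add up to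
zero (hypothesis). -/
def S_gD1 : Prop := ∀ (a : Str) (F : Mp) (χ : E5 → ℂ) (E' : F2) (μ D : ℝ) (x : E5), SmS a →
  (∀ k, Sm (F k)) → Sm χ → (∀ j, Sm (E' j)) → D1 a E' x = 0 →
  D1 a (fun j y => χ y * (ex (μ + D) F y * E' j y)) x
    = ex D F x * ((L a 0 χ x * Ps μ F E' 1 x - L a 1 χ x * Ps μ F E' 0 x)
      + Complex.I * ((μ + D : ℝ) : ℂ) * χ x
        * (L a 0 (gam F) x * Ps μ F E' 1 x - L a 1 (gam F) x * Ps μ F E' 0 x))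

/-- **gPt**: pointwise bound of `D1 Φ` on `D_ρ` (uses `S_gD1`, `S_ELP`).

Proof. Let `x ∈ Dm F ρ` (so `x ∈ Dm F (R - δ)`, `r < ρ ≤ R - 3δ`), `X = lam/s`.
First terms: if `x ∈ Dm F (ρ - s/2)` then `χ = 1` near `x` (`Dm_open`), so `L a j χ x = 0` (`L_congr`, `L_const`).
Otherwise `r ≥ ρ - s/2 ≥ R - 4δ` and `‖ex D F x‖ = e^{-D r} ≤ e^{-D(R-4δ)} ≤ e^{-D(R-5δ)}`; and
`‖L a j χ x‖ ≤ 20 C/s`: `‖dz l χ‖, ‖db l χ‖ ≤ C/s` on the unit ball (`Bo.dz`, `Bo.db` with `Bo 1`, or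
directly `‖pd k χ x‖² ≤ sq 1 χ x`), coefficients at most 3 (`Bo_near`).
Second terms: `L a j γ x = (1 + (i/2) F_2 x) E_{j,2} x` (`L_gam`), `‖F_2 x‖ ≤ C_F` (hypothesis), `S_ELP` with `i = 0`:
`‖E_{j,2} x‖ ≤ (C lam/δ)^p e^{-lam (R - r)}`, so
`‖ex D F x‖ ‖L a j γ x‖ ≤ (1 + C_F)(C lam/δ)^p e^{(lam - D) r - lam R} ≤ (..) e^{(lam-D)(R-3δ) - lam R}
= (..) e^{-D(R-3δ) - 3 lam δ} ≤ (..) e^{-D (R - 5δ)}`; `μ + D ≤ 3 lam ≤ 3 X`, `‖χ‖ ≤ 1`.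
Together `‖D1 a Φ x‖ ≤ K e^{-D(R-5δ)} (‖Ψ_0 x‖ + ‖Ψ_1 x‖)` with `K ≤ (C' X)^{p+2}`. -/
def S_gPt : Prop := S_gD1 → S_ELP → ∃ ε1 > 0, ∀ CF ≥ 1, ∃ (C : ℝ) (p : ℕ), 1 ≤ C ∧
  ∀ (a : Str) (h : ℕ → ℝ) (m : ℕ) (lam R δ s μ D ρ : ℝ) (F : Mp), Near a 4 1 → Adm h m →
  Par lam R δ s μ D ρ → HypF a h m ε1 lam R F → Bo 0 (Metric.ball 0 1) (F 2) CF →
  ∀ (χ : E5 → ℂ) (E' : F2), Sm χ → (∀ x, ‖χ x‖ ≤ 1) → (∀ i ≤ 1, ∀ x, sq i χ x ≤ (CF / s ^ i) ^ 2) →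
  (∀ x ∈ Dm F (ρ - s / 2), χ x = 1) → (∀ j, Sm (E' j)) → ∀ x ∈ Dm F ρ, D1 a E' x = 0 →
  ‖D1 a (fun j y => χ y * (ex (μ + D) F y * E' j y)) x‖
    ≤ (C * lam / s) ^ p * Real.exp (-(D * (R - 5 * δ))) * (‖Ps μ F E' 0 x‖ + ‖Ps μ F E' 1 x‖)

/-- **gPhi**: the form `Φ` (uses `S_gChi`, `S_gEx`, `S_gHs`, `S_gPt`, `S_Ptw` and the statements behind them).

Proof. `χ` from `S_gChi` (for `ρ`, `s`), `Φ_j = χ * (ex (μ+D) F * E'_j) = (χ * ex D F) * Ψ_j` (`ex_add`).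
`Tst (Φ j)`: `Tst.mul_right`.  `Φ = 0` outside `D_ρ`, in particular for `‖x‖ ≥ 1`.
`Hs 2 Φ`: `S_gHs` with `g = χ * ex D F`, `Ω = Dm F ρ`; `Bo 2 Ω g M` with `M = cmG 2 * (C/s²) * (C lam² e^{DR})`
(`Bo.mul`; for `x ∈ D_ρ`: `r ≥ -1/32 ≥ -R`, so `e^{-D r} ≤ e^{D R}`).
`∫ ‖D1 aS Φ‖²`: `D1 aS Φ x = 0` for `x ∉ D_ρ` (`Φ = 0` near `x`, `L_congr`); on `D_ρ ⊆ Dm F (R - 2δ)` the coefficients of
`aS` and `a` are equal at `x`, so `D1 aS Φ x = D1 a Φ x` (`L_congr_str`); `S_gPt`; integrate over `D_ρ`: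
`∫_{D_ρ} ‖Ψ_j‖² ≤ NN h m D_ρ Ψ_j ²` (`h 0 = 1`, `NN_term`); `(‖Ψ_0‖ + ‖Ψ_1‖)² ≤ 2 (‖Ψ_0‖² + ‖Ψ_1‖²)`. -/
def S_gPhi : Prop := S_CUT → S_GEO → S_Ept → S_ELP → S_gChi → S_gEx → S_gHs → S_gD1 → S_gPt →
  ∃ ε1 > 0, ∃ (C : ℝ) (p : ℕ), 1 ≤ C ∧
  ∀ (a : Str) (h : ℕ → ℝ) (m : ℕ) (lam R δ s μ D ρ : ℝ) (F : Mp), Near a 4 1 → Adm h m →
  Par lam R δ s μ D ρ → HypF a h m ε1 lam R F → ∀ E' : F2, (∀ j, Sm (E' j)) →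
  (∀ x ∈ Dm F ρ, D1 a E' x = 0) → ∃ Φ : F2, (∀ j, Tst (Φ j)) ∧ (∀ j x, 1 ≤ ‖x‖ → Φ j x = 0) ∧
    (∀ j, ∀ x ∈ Dm F (ρ - s / 2), Φ j x = ex (μ + D) F x * E' j x) ∧
    Hs 2 Φ ≤ ((C * lam / s) ^ p * Real.exp (D * R) * NN2 h m (Dm F ρ) (Ps μ F E')) ^ 2 ∧
    ∀ aS : Str, SmS aS → (∀ j l, ∀ x ∈ Dm F (R - 2 * δ), aS j l x = a j l x) →
      ∫ x, ‖D1 aS Φ x‖ ^ 2
        ≤ ((C * lam / s) ^ p * Real.exp (-(D * (R - 5 * δ))) * NN2 h m (Dm F ρ) (Ps μ F E')) ^ 2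

/-! ### The solution of the regularised equation -/

/-- **gSol** (uses `S_EX`, `S_LIN`).

Proof. `S_EX` gives `w` with `WI (w j)` (so `Sm (w j)`: `(WI []).sm`, `ZL [] f = f`) for the smaller `ε`; `S_LIN` gives the
bounds; `Hs 0 Φ ≤ Hs 1 Φ ≤ Hs 2 Φ` (sums of nonnegative terms: `integral_nonneg`, `sq_nonneg'`). -/
def S_gSol : Prop := S_EX → S_LIN → ∃ ε > 0, ∃ C ≥ 1, ∀ a : Str, Near a 4 ε → ∀ Φ : F2,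
  (∀ j, Tst (Φ j)) → (∀ j x, 1 ≤ ‖x‖ → Φ j x = 0) → ∀ κ : ℝ, (∀ l x, ‖kap a l x‖ ≤ κ) →
  (∀ l i x, ‖pd i (kap a l) x‖ ≤ κ) → ∀ e : ℝ, 0 < e → e ≤ 1 → ∃ w : F2, (∀ j, Sm (w j)) ∧
  (∀ j x, BoxE a e w j x = Φ j x) ∧
  (∫ x in Metric.ball (0 : E5) 1, (‖w 0 x‖ ^ 2 + ‖w 1 x‖ ^ 2)) ≤ C * Hs 2 Φ ∧
  (∫ x in Metric.ball (0 : E5) 1,
      (‖D1s a (D1 a w) 0 x‖ ^ 2 + ‖D1s a (D1 a w) 1 x‖ ^ 2))
    ≤ C * ((∫ x, ‖D1 a Φ x‖ ^ 2) + κ ^ 2 * Hs 2 Φ + e ^ 2 * Hs 2 Φ)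

/-- **gBdE**: every structure has bounded derivatives.

Proof. `sq i (a j l - a0 j l)` is continuous (`sq_continuous`) and vanishes for `‖x‖ > 1` (`sq_congr` with the zero
function near such a point), so it is bounded on the closed unit ball by a number; take `B` with `B²` at least the sum of
these numbers over `j`, `l`, `i ≤ n` (or use `B = 1 + ∑`). -/
def S_gBdE : Prop := ∀ (a : Str) (m : ℕ) (ε : ℝ), Near a m ε → ∀ n : ℕ, ∃ B : ℝ, 0 ≤ B ∧ BdA a n B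

/-- **gQua**: qualitative bounds, independent of the regularisation parameter (uses `S_LOC`, `S_gBdE`).

Proof. `ε` of `S_LOC`.  Given `a`, `n`: `B` from `S_gBdE` for the order `n + 4`, `C, p` from `S_LOC` for `(n, B)`; weights
`h = 1` (`Wt (fun _ => 1)`), `f = Φ`, `β = b = 0` (`D1s a 0 = 0`, `D0 a 0 = 0`): the left side is at least `NN2 1 n Ω' w` (all terms
are nonnegative), the right side is at most `Q = (C/s)^p * (NN2 1 n Ω Φ + √Y)` (`NN_zero`). -/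
def S_gQua : Prop := S_LOC → S_gBdE → ∃ ε > 0, ∀ a : Str, Near a 4 ε → ∀ (n : ℕ) (s : ℝ), 0 < s →
  s ≤ 1 → ∀ Ω' Ω : Set E5, IsOpen Ω' → IsOpen Ω → Ω' ⊆ Ω → Inn Ω' Ω s → Ω ⊆ Metric.ball 0 1 →
  ∀ Φ : F2, (∀ j, Sm (Φ j)) → ∀ Y : ℝ, ∃ Q : ℝ, ∀ e : ℝ, 0 < e → e ≤ 1 → ∀ w : F2,
  (∀ j, Sm (w j)) → (∀ j, ∀ x ∈ Ω, BoxE a e w j x = Φ j x) →
  (∫ x in Ω, (‖w 0 x‖ ^ 2 + ‖w 1 x‖ ^ 2)) ≤ Y → NN2 (fun _ => 1) n Ω' w ≤ Q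

/-- **gQuB**: `w - w_tt` and `D1 (w - w_tt)` are controlled by the derivatives of order at most `m + 3` of `w`
(qualitatively).  (Uses `S_gBdE`.)

Proof. `h i ≤ 1`.  For smooth `u`: `NN h m Ω (pd 4 (pd 4 u)) ≤ ∑_{i ≤ m} √(∫_Ω sq (i+2) u) ≤ NN 1 (m+3) Ω u` (`sq_pd_le` twice,
`NN_term`, or a comparison of sums); `NN h m Ω u ≤ NN 1 (m+3) Ω u`.  So the second inequality holds with the factor `2`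
(`NN_sub_le`).  For the first: `g_j = w_j - pd 4 (pd 4 w_j)`, `D1 a g = L a 0 g_1 - L a 1 g_0`, and
`L a j g = db j g + ∑ l, a j l * dz l g`: pointwise on `Ω` (unit ball), `sq i (a j l * dz l g) x ≤ 4^i ∑_{q ≤ i} A² sq (i-q) (dz l g) x`
(`sq_mul_le`; `A` bounds the coefficients: `Bo_a` with `S_gBdE` for the order `m`), and `sq q (dz l g) ≤ 2 sq (q+1) g`
(`sq_add_le`, `sq_const_mul`, `sq_pd_le`), so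
`NN h m Ω (L a j g) ≤ Q' ∑_{q ≤ m + 1} √(∫_Ω sq q g)`, and `sq q g ≤ 2 sq q w + 2 sq (q+2) w`, `q + 2 ≤ m + 3`.
Only the existence of `Q` matters (`√(u + v) ≤ √u + √v`). -/
def S_gQuB : Prop := S_gBdE → ∀ (a : Str) (m : ℕ) (ε : ℝ), Near a m ε → ∀ (h : ℕ → ℝ) (n : ℕ),
  (∀ i, 0 < h i) → (∀ i, h i ≤ 1) → ∀ Ω : Set E5, IsOpen Ω → Ω ⊆ Metric.ball 0 1 →
  ∃ Q : ℝ, 0 ≤ Q ∧ ∀ w : F2, (∀ j, Sm (w j)) →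
    NN h n Ω (D1 a fun j x => w j x - pd 4 (pd 4 (w j)) x) ≤ Q * NN2 (fun _ => 1) (n + 3) Ω w ∧
    NN2 h n Ω (fun j x => w j x - pd 4 (pd 4 (w j)) x) ≤ Q * NN2 (fun _ => 1) (n + 3) Ω w

/-! ### Algebra on the domain where the curvature vanishes -/

/-- **gBox**: the operators of two structures agree on an open set where the structures agree.

Proof. Near a point `x ∈ U` the coefficients agree as germs.  `D0s`, `D1` at points of `U`: `Ls_congr`, `L_congr_str`; so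
`D0s a w = D0s b w` and `D1 a w = D1 b w` on `U` (as germs at every point), then again `L_congr`, `L_congr_str`,
`Ls_congr`. -/
def S_gBox : Prop := ∀ (a b : Str) (U : Set E5), IsOpen U → (∀ j l, ∀ x ∈ U, a j l x = b j l x) →
  ∀ w : F2, ∀ x ∈ U, D0s a w x = D0s b w x ∧ D1 a w x = D1 b w x ∧
    (∀ j, D1s a (D1 a w) j x = D1s b (D1 b w) j x) ∧ ∀ (e : ℝ) (j), BoxE a e w j x = BoxE b e w j x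

/-- **gYeq**: the equation for `y = D1* D1 w` (uses `S_cKs` of `SpecDc.lean`).

Proof. Let `A = D0s a w`, `v = D1 a w`, `y = D1s a v`.  `D0s a y x = Kaps a v x` (`S_cKs`) `= 0` for `x ∈ U`, because the functions
`conj (kap a l) * v` vanish on the open set `U`, hence so do their derivatives.  So `D0 a (D0s a y) = 0` on `U`
(`L_congr`, `L_const`).  On `U`: `y_j = Φ_j - L a j A - e (w_j - pd 4 (pd 4 w_j))` (`BoxE`, `Box`, `D0`), both sides are smooth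
and `U` is open, so `D1 a y = D1 a Φ - D1 a (D0 a A) - e D1 a (w - w_tt)` on `U`, and `D1 a (D0 a A) = Kap a A = 0` on `U`
(`D1_D0`).  So `D1 a y = β` on `U`, therefore `D1s a (D1 a y) = D1s a β` on `U` (`Ls_congr`). -/
def S_gYeq : Prop := S_cKs → ∀ (a : Str) (U : Set E5), SmS a → IsOpen U →
  (∀ l, ∀ x ∈ U, kap a l x = 0) → ∀ (w Φ : F2) (e : ℝ), (∀ j, Sm (w j)) → (∀ j, Sm (Φ j)) →
  (∀ j, ∀ x ∈ U, BoxE a e w j x = Φ j x) → ∀ j, ∀ x ∈ U,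
    BoxE a 0 (D1s a (D1 a w)) j x
      = 0 + D1s a (fun z => D1 a Φ z - (e : ℂ) * D1 a (fun j z => w j z - pd 4 (pd 4 (w j)) z) z) j x
        + D0 a (fun _ => 0) j x

/-- **gUeq**: the new error.

Proof. `u = ex (-(μ+D)) F * A`.  `L a j u = ex (-(μ+D)) F * L a j A + (-I (μ+D) ex (-(μ+D)) F L a j γ) * A` (`L_mul`, `L_ex`);
multiply by `ex (μ+D) F`, use `ex_neg_mul`: `ex (μ+D) F * L a j u = L a j A - I (μ+D) (L a j γ) A`.  And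
`ex (μ+D) F E'_j = Φ_j = L a j A + y_j + e (w_j - pd 4 (pd 4 w_j))` (`BoxE`, `Box`, `D0`). -/
def S_gUeq : Prop := ∀ (a : Str) (F : Mp) (w Φ E' : F2) (e μ D : ℝ) (x : E5), SmS a →
  (∀ k, Sm (F k)) → (∀ j, Sm (w j)) → (∀ j, Φ j x = ex (μ + D) F x * E' j x) →
  (∀ j, BoxE a e w j x = Φ j x) →
  (∀ j, ex (μ + D) F x * (E' j x - D0 a (fun z => ex (-(μ + D)) F z * D0s a w z) j x)
    = D1s a (D1 a w) j x + (e : ℂ) * (w j x - pd 4 (pd 4 (w j)) x)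
      + Complex.I * ((μ + D : ℝ) : ℂ) * (L a j (gam F) x * D0s a w x)) ∧
  ex (μ + D) F x * (ex (-(μ + D)) F x * D0s a w x) = D0s a w x

/-! ### Interior estimates on the domains `Dm` -/

/-- **gIA**: bound for `A = D0* w` (uses `S_LOC`, `S_LGW`, `S_EXPO`, `S_GEO`).

Proof. Let `Ω₁ = Dm F (ρ - 3/4 s)`, `Ω₂ = Dm F (ρ - s/2)`, `Ω₃ = Dm F (ρ - s/4)`; `Inn Ω₁ Ω₂ (s/16)`, `Inn Ω₂ Ω₃ (s/16)` (`S_GEO`), all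
contained in `Dm F (R - δ)`.
`S_LOC` (weights `h`: `Wt h` from `Adm h m`) on `Ω₁, Ω₂`, `f = Φ`, `β = b = 0`:
`NN h m Ω₁ A ≤ (16 C₁/s)^{p₁} (NN2 h m Ω₂ Φ + Y)` (the other terms on the left are nonnegative; `NN_zero`).
On `Ω₂`: `Φ_j = ex D F * Ψ_j` (`ex_add`), so `NN h m Ω₂ Φ_j = NN h m Ω₂ (ex D F * Ψ_j)` (`NN_congr`).  `S_EXPO` with `G = Ω' = Ω₂`, `Ω = Ω₃`,
distance `s/16`, `g = gam F`, `Δ = D`, `M = e^{DR}` (`‖ex D F x‖ = e^{-D r}`, `r ≥ -1/32 ≥ -R`):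
`≤ (16 C₂/s)^{p₂} (1 + D)^m (1 + NN h m Ω₃ γ)^m e^{DR} NN h m Ω₃ Ψ_j`, `NN h m Ω₃ γ ≤ NN h m (Dm F (R-δ)) γ ≤ (C₃ lam/δ)^{p₃} ≤ (C₃ X)^{p₃}`,
`1 + D ≤ 2 lam ≤ 2 X`, `NN h m Ω₃ Ψ_j ≤ NN h m D_ρ Ψ_j` (`NN_mono`).  Everything together is at most
`(C X)^p (e^{DR} W + Y)`. -/
def S_gIA : Prop := S_LOC → S_LGW → S_EXPO → S_GEO → ∃ ε > 0, ∃ ε1 > 0, ∀ (m : ℕ) (B : ℝ),
  ∃ (C : ℝ) (p : ℕ), 1 ≤ C ∧ ∀ a : Str, Near a 4 ε → BdA a (m + 4) B → ∀ h : ℕ → ℝ, Adm h m →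
  ∀ (lam R δ s μ D ρ : ℝ) (F : Mp), Par lam R δ s μ D ρ → HypF a h m ε1 lam R F →
  ∀ (E' Φ w : F2) (e Y : ℝ), (∀ j, Sm (E' j)) → (∀ j, Sm (Φ j)) → (∀ j, Sm (w j)) → 0 < e → e ≤ 1 →
  0 ≤ Y → (∀ j, ∀ x ∈ Dm F (ρ - s / 2), Φ j x = ex (μ + D) F x * E' j x) →
  (∀ j, ∀ x ∈ Dm F (ρ - s / 2), BoxE a e w j x = Φ j x) →
  (∫ x in Dm F (ρ - s / 2), (‖w 0 x‖ ^ 2 + ‖w 1 x‖ ^ 2)) ≤ Y ^ 2 →
  NN h m (Dm F (ρ - 3 / 4 * s)) (D0s a w)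
    ≤ (C * lam / s) ^ p * (Real.exp (D * R) * NN2 h m (Dm F ρ) (Ps μ F E') + Y)

/-- **gIY**: bound for `y = D1* D1 w` (uses `S_LOC`, `S_LGW`, `S_PR`, `S_GEO`, `S_gD1`, `S_gYeq`, `S_cKs`).

Proof. `Ω₀ = Dm F (ρ - s)`, `Ω₁, Ω₂` as in gIA; `κ = 0` on `Ω₂` (`‖x‖ < 3/4` there).  By `S_gYeq` (on `U = Ω₂`) `y` satisfies
`BoxE a 0 y = 0 + D1s a β + D0 a 0` on `Ω₂ ⊇ Ω₁`, `β = D1 a Φ - e D1 a (w - w_tt)` (smooth).  `S_LOC` with `e = 0`, on `Ω₀, Ω₁` (distance `s/16`):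
`NN2 h m Ω₀ y ≤ (16 C₁/s)^{p₁} (NN h m Ω₁ β + √(∫_{Ω₁} |y|²)) ≤ (16 C₁/s)^{p₁} (NN h m Ω₁ (D1 a Φ) + e V + Y)`
(`NN_sub_le`, `NN_const_mul`).  On the open set `Ω₂`, `Φ_j = ex (μ+D) F E'_j`, so by `S_gD1` with `χ = 1` (`L_const`)
`D1 a Φ = I (μ+D) (ex D F L a 0 γ Ψ_1 - ex D F L a 1 γ Ψ_0)` on `Ω₂`.  `S_PR` on `Ω₁, Ω₂`:
`NN h m Ω₁ ((ex D F L a j γ) Ψ_k) ≤ (16 C₂/s)^{p₂} NN h m Ω₂ (ex D F L a j γ) NN h m Ω₂ Ψ_k`, `Ω₂ ⊆ Dm F (R - 2δ)`, `S_LGW` (second part);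
`μ + D ≤ 3 lam ≤ 3 X`. -/
def S_gIY : Prop := S_LOC → S_LGW → S_PR → S_GEO → S_gD1 → S_cKs → S_gYeq → ∃ ε > 0, ∃ ε1 > 0,
  ∀ (m : ℕ) (B : ℝ), ∃ (C : ℝ) (p : ℕ), 1 ≤ C ∧ ∀ a : Str, Near a 4 ε → BdA a (m + 4) B →
  (∀ l x, ‖x‖ < 3 / 4 → kap a l x = 0) → ∀ h : ℕ → ℝ, Adm h m →
  ∀ (lam R δ s μ D ρ : ℝ) (F : Mp), Par lam R δ s μ D ρ → HypF a h m ε1 lam R F →
  ∀ (E' Φ w : F2) (e Y V : ℝ), (∀ j, Sm (E' j)) → (∀ j, Sm (Φ j)) → (∀ j, Sm (w j)) → 0 < e →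
  e ≤ 1 → 0 ≤ Y → 0 ≤ V → (∀ x ∈ Dm F ρ, D1 a E' x = 0) →
  (∀ j, ∀ x ∈ Dm F (ρ - s / 2), Φ j x = ex (μ + D) F x * E' j x) →
  (∀ j, ∀ x ∈ Dm F (ρ - s / 2), BoxE a e w j x = Φ j x) →
  (∫ x in Dm F (ρ - s / 2), (‖D1s a (D1 a w) 0 x‖ ^ 2 + ‖D1s a (D1 a w) 1 x‖ ^ 2)) ≤ Y ^ 2 →
  NN h m (Dm F (ρ - 3 / 4 * s)) (D1 a fun j x => w j x - pd 4 (pd 4 (w j)) x) ≤ V →
  NN2 h m (Dm F (ρ - s)) (D1s a (D1 a w))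
    ≤ (C * lam / s) ^ p * (Real.exp (-(D * (R - δ)) - lam * δ) * NN2 h m (Dm F ρ) (Ps μ F E')
      + e * V + Y)

/-- **gIG**: the product `(L γ) A` (uses `S_LGW`, `S_PR`, `S_GEO`).

Proof. `S_PR` on `Ω₀ = Dm F (ρ - s)`, `Ω₁ = Dm F (ρ - 3/4 s)`, distance `s/16`:
`NN h m Ω₀ (L a j γ * A) ≤ (16 C₁/s)^{p₁} NN h m Ω₁ (L a j γ) NN h m Ω₁ A`; `S_LGW` (second part) with `D = 0`: `ex 0 F = 1`, so
`NN h m Ω₁ (L a j γ) ≤ NN h m (Dm F (R - 2δ)) (..) ≤ (C lam/δ)^p e^{-lam δ}`. -/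
def S_gIG : Prop := S_LGW → S_PR → S_GEO → ∃ ε1 > 0, ∀ m : ℕ, ∃ (C : ℝ) (p : ℕ), 1 ≤ C ∧
  ∀ (a : Str) (h : ℕ → ℝ), SmS a → Adm h m → ∀ (lam R δ s μ D ρ : ℝ) (F : Mp),
  Par lam R δ s μ D ρ → HypF a h m ε1 lam R F → ∀ A : E5 → ℂ, Sm A → ∀ j,
  NN h m (Dm F (ρ - s)) (fun x => L a j (gam F) x * A x)
    ≤ (C * lam / s) ^ p * Real.exp (-(lam * δ)) * NN h m (Dm F (ρ - 3 / 4 * s)) A

/-- **gW0**: a vanishing weighted sum.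

Proof. All terms of `NN` are nonnegative, so the term `i = 0`, `h 0 * √(∫_Ω ‖f‖²)`, is zero, hence `∫_Ω ‖f‖² = 0`; `‖f‖²` is
continuous and nonnegative, so it vanishes on the open set `Ω` (`setIntegral_eq_zero_iff_of_nonneg_ae` and
`MeasureTheory.Measure.eqOn_open_of_ae_eq`, or: if `‖f x‖² > 0` at `x ∈ Ω` there is a small ball on which it is at least
`‖f x‖²/2`). -/
def S_gW0 : Prop := ∀ (h : ℕ → ℝ) (m : ℕ) (Ω : Set E5) (f : E5 → ℂ), (∀ i, 0 < h i) → IsOpen Ω →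
  Ω ⊆ Metric.ball 0 1 → Sm f → NN h m Ω f = 0 → ∀ x ∈ Ω, f x = 0

/-- **gNum**: elementary inequalities.

Proof. `D (R - 5δ) ≤ D R ≤ lam δ/8` (as `D, δ ≥ 0`), so `-lam δ + D R ≤ -(7/8) lam δ ≤ -(lam δ/8) ≤ -D (R - 5δ)`.  The second: add
`-lam δ - D(R - δ) ≤ -D (R - 5 δ)` because `D(R-δ) ≥ D (R - 5δ)` and `lam δ ≥ 0`.  `1 ≤ lam / s`: `s ≤ δ ≤ 1/1000 ≤ 1 ≤ lam`.
`lam/δ ≤ lam/s`. -/
def S_gNum : Prop := ∀ lam R δ s μ D ρ : ℝ, Par lam R δ s μ D ρ →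
  Real.exp (-(lam * δ)) * Real.exp (D * R) ≤ Real.exp (-(D * (R - 5 * δ))) ∧
  Real.exp (-(D * (R - δ)) - lam * δ) ≤ Real.exp (-(D * (R - 5 * δ))) ∧
  Real.exp (-(lam * δ)) ≤ 1 ∧ 1 ≤ lam / s ∧ lam / δ ≤ lam / s ∧ μ + D ≤ 3 * (lam / s) ∧
  1 ≤ Real.exp (D * R)

/-- **gMix**: the choice of the regularisation parameter and of `w` (uses `S_gPhi`, `S_STS`, `S_gSol`, `S_gQua`, `S_gQuB`,
`S_gBox`, `S_gNum`, `S_gBdE`, `S_GEO`).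

Proof. Let `ε'` and `C_s` be from `S_gSol`; `ε, ε1, C₁, p₁` from `S_STS` for `ε'`; `C₂, p₂` from `S_gPhi`; decrease `ε` (below the one of
`S_gQua`, and 1) and `ε1`.  `Near a 4 ε` from `Near a MM ε` (`Near.monoG`, `4 ≤ MM = 10`).
Let `W = NN2 h m (Dm F ρ) (Ps μ F E') > 0`, `X = lam/s`, `κ = (C₁ lam/δ)^{p₁} e^{-lam δ}`, `aS` from `S_STS` (the condition
`p₁ log (C₁ lam/δ) ≤ lam δ/4` is a hypothesis, with `C ≥ C₁`, `p ≥ p₁`, `lam/δ ≤ lam/s`, monotonicity of `log`, the logarithm is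
nonnegative), `Φ` from `S_gPhi`.
`Ω₁ = Dm F (ρ - 3/4 s)`, `Ω₂ = Dm F (ρ - s/2)`.  `Q₁` from `S_gQua` (order `m + 3`, `Ω' = Ω₁`, `Ω = Ω₂`, distance `s/16`, `Y = C_s Hs 2 Φ`), `Q₂`
from `S_gQuB`; `Q = Q₂ * max Q₁ 0`.  Put `e = min (e^{-lam δ}) (e^{-D(R-5δ)} W / (Q + 1))`; `0 < e ≤ 1`.
`w` from `S_gSol` for `aS`, `Φ`, `κ`, `e`.  On `Ω₂ ⊆ Dm F (R - 2δ)` the structures agree (`S_gBox` with `U = Dm F (R - 2δ)`), so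
`BoxE a e w = Φ` on `Ω₂`, `∫_{Ω₂} |w|² ≤ ∫_{B₁} |w|² ≤ C_s Hs 2 Φ ≤ (√C_s (C₂ X)^{p₂} e^{DR} W)²` (`setIntegral_mono_set`, integrability of
continuous functions on bounded sets, `intOn_cont`), and
`∫_{Ω₂} |D1s a (D1 a w)|² = ∫_{Ω₂} |D1s aS (D1 aS w)|² ≤ C_s (∫ ‖D1 aS Φ‖² + κ² Hs 2 Φ + e² Hs 2 Φ)
≤ C_s ((C₂ X)^{p₂} W)² (E² + κ² e^{2DR} + e² e^{2DR})`, `E = e^{-D(R-5δ)}`, and by `S_gNum`
`κ e^{DR} ≤ (C₁ X)^{p₁} E`, `e e^{DR} ≤ E`.  So it is at most `(√(3 C_s) (C₁X)^{p₁} (C₂X)^{p₂} E W)²`; all constants are absorbed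
in `(C X)^p` with `p = p₁ + p₂ + 1` and `C` large.
By `S_gQuB` and `S_gQua`: `NN h m Ω₁ (D1 a (w - w_tt)) ≤ Q` and `NN2 h m Ω₁ (w - w_tt) ≤ Q`, and `e Q ≤ E W`. -/
def S_gMix : Prop := S_gPhi → S_STS → S_gSol → S_gQua → S_gQuB → S_gBdE → S_gBox → S_gNum → S_GEO →
  S_CUT → S_Ept → S_ELP → S_gChi → S_gEx → S_gHs → S_gD1 → S_gPt → S_EX → S_LIN → S_LOC →
  ∃ ε > 0, ∃ ε1 > 0, ∃ (C : ℝ) (p : ℕ), 1 ≤ C ∧ ∀ a : Str, Near a MM ε →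
  (∀ l x, ‖x‖ < 3 / 4 → kap a l x = 0) → ∀ (h : ℕ → ℝ) (m : ℕ), Adm h m →
  ∀ (lam R δ s μ D ρ : ℝ) (F : Mp), Par lam R δ s μ D ρ → HypF a h m ε1 lam R F →
  p * Real.log (C * lam / s) ≤ lam * δ / 4 → ∀ E' : F2, (∀ j, Sm (E' j)) →
  (∀ x ∈ Dm F ρ, D1 a E' x = 0) → 0 < NN2 h m (Dm F ρ) (Ps μ F E') →
  ∃ (Φ w : F2) (e Q : ℝ), (∀ j, Sm (Φ j)) ∧ (∀ j, Sm (w j)) ∧ 0 < e ∧ e ≤ 1 ∧ 0 ≤ Q ∧
    (∀ j, ∀ x ∈ Dm F (ρ - s / 2), Φ j x = ex (μ + D) F x * E' j x) ∧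
    (∀ j, ∀ x ∈ Dm F (ρ - s / 2), BoxE a e w j x = Φ j x) ∧
    (∫ x in Dm F (ρ - s / 2), (‖w 0 x‖ ^ 2 + ‖w 1 x‖ ^ 2))
      ≤ ((C * lam / s) ^ p * (Real.exp (D * R) * NN2 h m (Dm F ρ) (Ps μ F E'))) ^ 2 ∧
    (∫ x in Dm F (ρ - s / 2), (‖D1s a (D1 a w) 0 x‖ ^ 2 + ‖D1s a (D1 a w) 1 x‖ ^ 2))
      ≤ ((C * lam / s) ^ p
        * (Real.exp (-(D * (R - 5 * δ))) * NN2 h m (Dm F ρ) (Ps μ F E'))) ^ 2 ∧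
    NN h m (Dm F (ρ - 3 / 4 * s)) (D1 a fun j x => w j x - pd 4 (pd 4 (w j)) x) ≤ Q ∧
    NN2 h m (Dm F (ρ - 3 / 4 * s)) (fun j x => w j x - pd 4 (pd 4 (w j)) x) ≤ Q ∧
    e * Q ≤ Real.exp (-(D * (R - 5 * δ))) * NN2 h m (Dm F ρ) (Ps μ F E')

/-- **gSub**: the substep from the parts (uses `S_gMix`, `S_gIA`, `S_gIY`, `S_gIG`, `S_gUeq`, `S_gW0`, `S_gNum` as statements
without hypotheses: the variables `P_...` below).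

Proof. Given `m, B`; `ε, ε1` the smallest ones.  `C, p` chosen at the end, at least those of gMix.  `Near a 4 ε` and `BdA a (m+4) B` from the
hypotheses.  `W = NN2 h m (Dm F ρ) (Ps μ F E')` (the right sides of `S_SUB` are `K .. * W` by definition of `Ps`).
If `W = 0`: both `NN h m D_ρ Ψ_j` vanish, so `Ψ_j = 0`, `E'_j = 0` on `D_ρ` (`S_gW0`, `ex_ne`); take `u = 0`; on the open set `Dm F (ρ - s) ⊆ D_ρ` the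
functions in (i), (ii) are zero (`NN_congr`, `NN_zero`, `L_const`).
If `W > 0`: `Φ, w, e, Q` from gMix; `A = D0s a w`, `u = ex (-(μ+D)) F * A`; `E = e^{-D(R-5δ)}`, `X = lam/s`.
`gIA` with `Y = (C₀X)^{p₀} e^{DR} W`: `NN h m Ω₁ A ≤ (C₁X)^{p₁} (1 + (C₀X)^{p₀}) e^{DR} W =: K₁ e^{DR} W`.
`gIY` with `Y = (C₀X)^{p₀} E W`, `V = Q`: `NN2 h m Ω₀ y ≤ (C₂X)^{p₂} (E W + E W + (C₀X)^{p₀} E W)` (`S_gNum` for the first term).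
`gIG`: `NN h m Ω₀ (L a j γ A) ≤ (C₃X)^{p₃} e^{-lam δ} K₁ e^{DR} W ≤ (C₃X)^{p₃} K₁ E W` (`S_gNum`).
By `S_gUeq` on the open set `Ω₀ ⊆ Ω₂` (`NN_congr`), `NN_add_le`, `NN_const_mul`:
`NN2 h m Ω₀ (ex (μ+D) F (E' - D0 a u)) ≤ NN2 h m Ω₀ y + e NN2 h m Ω₀ (w - w_tt) + (μ+D) ∑_j NN h m Ω₀ (L a j γ A)
≤ NN2 y + E W + 3 X * 2 (C₃X)^{p₃} K₁ E W`, and `NN h m Ω₀ (ex (μ+D) F u) = NN h m Ω₀ A ≤ NN h m Ω₁ A ≤ K₁ e^{DR} W` (`NN_mono`).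
Everything is at most `(C X)^p E W`, `(C X)^p e^{DR} W` for suitable `C, p`. -/
def S_gSub : Prop :=
  (∃ ε > 0, ∃ ε1 > 0, ∃ (C : ℝ) (p : ℕ), 1 ≤ C ∧ ∀ a : Str, Near a MM ε →
    (∀ l x, ‖x‖ < 3 / 4 → kap a l x = 0) → ∀ (h : ℕ → ℝ) (m : ℕ), Adm h m →
    ∀ (lam R δ s μ D ρ : ℝ) (F : Mp), Par lam R δ s μ D ρ → HypF a h m ε1 lam R F →
    p * Real.log (C * lam / s) ≤ lam * δ / 4 → ∀ E' : F2, (∀ j, Sm (E' j)) →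
    (∀ x ∈ Dm F ρ, D1 a E' x = 0) → 0 < NN2 h m (Dm F ρ) (Ps μ F E') →
    ∃ (Φ w : F2) (e Q : ℝ), (∀ j, Sm (Φ j)) ∧ (∀ j, Sm (w j)) ∧ 0 < e ∧ e ≤ 1 ∧ 0 ≤ Q ∧
      (∀ j, ∀ x ∈ Dm F (ρ - s / 2), Φ j x = ex (μ + D) F x * E' j x) ∧
      (∀ j, ∀ x ∈ Dm F (ρ - s / 2), BoxE a e w j x = Φ j x) ∧
      (∫ x in Dm F (ρ - s / 2), (‖w 0 x‖ ^ 2 + ‖w 1 x‖ ^ 2))
        ≤ ((C * lam / s) ^ p * (Real.exp (D * R) * NN2 h m (Dm F ρ) (Ps μ F E'))) ^ 2 ∧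
      (∫ x in Dm F (ρ - s / 2), (‖D1s a (D1 a w) 0 x‖ ^ 2 + ‖D1s a (D1 a w) 1 x‖ ^ 2))
        ≤ ((C * lam / s) ^ p
          * (Real.exp (-(D * (R - 5 * δ))) * NN2 h m (Dm F ρ) (Ps μ F E'))) ^ 2 ∧
      NN h m (Dm F (ρ - 3 / 4 * s)) (D1 a fun j x => w j x - pd 4 (pd 4 (w j)) x) ≤ Q ∧
      NN2 h m (Dm F (ρ - 3 / 4 * s)) (fun j x => w j x - pd 4 (pd 4 (w j)) x) ≤ Q ∧
      e * Q ≤ Real.exp (-(D * (R - 5 * δ))) * NN2 h m (Dm F ρ) (Ps μ F E')) →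
  S_gIA → S_gIY → S_gIG → S_gUeq → S_gW0 → S_gNum →
  S_LOC → S_LGW → S_EXPO → S_GEO → S_PR → S_gD1 → S_cKs → S_gYeq → S_SUB

end Pool.Agent.CR5
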