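import Pool.Agent.Lib.CR5.F.Nn

/-!
# CR5, block G: interface of the parts of the substep

`Bo m Ω f M`: the derivatives of `f` up to the order `m` are bounded by `M` on `Ω`.
-/

open MeasureTheory Set Filter Topology
open scoped ENNReal ComplexConjugate

noncomputable section

namespace Pool.Agent.CR5

/-- `sq i f ≤ M ^ 2` on `Ω` for `i ≤ m`. -/
def Bo (m : ℕ) (Ω : Set E5) (f : E5 → ℂ) (M : ℝ) : Prop := ∀ i ≤ m, ∀ x ∈ Ω, sq i f x ≤ M ^ 2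

/-- The first three fields of `HypF`. -/
structure FC (ε1 : ℝ) (F : Mp) : Prop where
  sm : ∀ k, Sm (F k)
  out : ∀ k x, 3 / 4 ≤ ‖x‖ → F k x = F0 k x
  c5 : ∀ k i, i ≤ 5 → ∀ x, sq i (fun y => F k y - F0 k y) x ≤ ε1 ^ 2

/-- **GEO**: geometry of `γ`. -/
def S_GEO : Prop := ∃ ε1 > 0, ∃ C ≥ 1, ∀ F : Mp, FC ε1 F →
  (∀ x, ‖x‖ < 3 / 4 → (gam F x).im < 1 / 16 → ‖x‖ < 5 / 8) ∧
  (∀ x, ‖x‖ < 3 / 4 → -(1 / 32) ≤ (gam F x).im) ∧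
  (∀ x y, ‖x‖ < 3 / 4 → ‖y‖ < 3 / 4 → (gam F x).im ≤ (gam F y).im + 3 * dist x y) ∧
  (∀ ρ ρ' : ℝ, ρ' < ρ → ρ ≤ 1 / 16 → Inn (Dm F ρ') (Dm F ρ) ((ρ - ρ') / 4)) ∧
  (∀ k, Bo 5 (Metric.ball 0 1) (F k) C) ∧ Bo 5 (Metric.ball 0 1) (gam F) C

/-- **ELP**: pointwise bounds of the error `E`. -/
def S_ELP : Prop := ∃ ε1 > 0, ∃ (C : ℝ) (p : ℕ), 1 ≤ C ∧ ∀ (a : Str) (h : ℕ → ℝ) (m : ℕ)
  (lam R δ : ℝ) (F : Mp), SmS a → Adm h m → 1 ≤ lam → 1 / 32 ≤ R → R ≤ 1 / 16 → 0 < δ →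
  δ ≤ 1 / 1000 → HypF a h m ε1 lam R F →
  ∀ j k, ∀ i ≤ 4, ∀ x ∈ Dm F (R - δ), sq i (EF a F j k) x
    ≤ ((C * lam / δ) ^ p * Real.exp (-(lam * (R - (gam F x).im)))) ^ 2

/-- **LGW**: weighted bounds of `γ` and of `L γ`. -/
def S_LGW : Prop := ∃ ε1 > 0, ∀ m : ℕ, ∃ (C : ℝ) (p : ℕ), 1 ≤ C ∧ ∀ (a : Str) (h : ℕ → ℝ)
  (lam R δ : ℝ) (F : Mp), SmS a → Adm h m → 1 ≤ lam → 1 / 32 ≤ R → R ≤ 1 / 16 → 0 < δ →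
  δ ≤ 1 / 1000 → HypF a h m ε1 lam R F →
  NN h m (Dm F (R - δ)) (gam F) ≤ (C * lam / δ) ^ p ∧
  ∀ D : ℝ, 0 ≤ D → D ≤ lam → ∀ j,
    NN h m (Dm F (R - 2 * δ)) (fun x => ex D F x * L a j (gam F) x)
      ≤ (C * lam / δ) ^ p * Real.exp (-(D * (R - δ)) - lam * δ)

/-- **STS**: the glued structure `S`. -/
def S_STS : Prop := ∀ ε' > 0, ∃ ε > 0, ∃ ε1 > 0, ∃ (C : ℝ) (p : ℕ), 1 ≤ C ∧
  ∀ (a : Str), Near a MM ε → (∀ l x, ‖x‖ < 3 / 4 → kap a l x = 0) →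
  ∀ (h : ℕ → ℝ) (m : ℕ) (lam R δ : ℝ) (F : Mp), Adm h m → 1 ≤ lam → 1 / 32 ≤ R → R ≤ 1 / 16 →
  0 < δ → δ ≤ 1 / 1000 → HypF a h m ε1 lam R F → p * Real.log (C * lam / δ) ≤ lam * δ / 4 →
  ∃ aS : Str, Near aS 4 ε' ∧ (∀ j l, ∀ x ∈ Dm F (R - 2 * δ), aS j l x = a j l x) ∧
    (∀ l x, ‖kap aS l x‖ ≤ (C * lam / δ) ^ p * Real.exp (-(lam * δ))) ∧
    ∀ l i x, ‖pd i (kap aS l) x‖ ≤ (C * lam / δ) ^ p * Real.exp (-(lam * δ))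

end Pool.Agent.CR5
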