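import Pool.Agent.Lib.CR5.BasicG
import Pool.Agent.Lib.CR5.SpecF

/-!
# CR5, block G, part one: geometry of `γ`, pointwise and weighted bounds of the error (helper63)

The statements `S_GEO`, `S_ELP`, `S_LGW` of `SpecG0.lean` with complete proofs.  Every theorem is proved in
`Pool/Agent/Lib/CR5/G/X.lean` (`theorem pX`), the statements used are hypotheses.  Tools: `BasicG.lean`
(`Bo`, `Dm_open`, `Dm_sub`, `Dm_mono`, `gam_sm`, `ex_sm`, `ex_norm`, `ex_add`, `L_gam`, `HypF.fc`), `F/Nn.lean`.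
`K = C * lam / δ`; note that `1 ≤ 1 / δ ≤ lam / δ`.
-/

open MeasureTheory Set Filter Topology
open scoped ENNReal ComplexConjugate

noncomputable section

namespace Pool.Agent.CR5

/-- The derivatives of the standard map are bounded in the unit ball. -/
theorem Bo_F0 (m : ℕ) : ∃ C ≥ 1, ∀ k, Bo m (Metric.ball 0 1) (F0 k) C := by
  have hsq : ∀ i : Fin 5, Bo m (Metric.ball (0 : E5) 1)
      (fun x : E5 => ((x i : ℝ) : ℂ) * ((x i : ℝ) : ℂ)) (cmG m * 1 * 1) := fun i =>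
    Bo.mul (Sm.coord i) (Sm.coord i) (Bo_coord m i) (Bo_coord m i)
  have hs : ∀ i : Fin 5, Sm (fun x : E5 => ((x i : ℝ) : ℂ) * ((x i : ℝ) : ℂ)) := fun i =>
    (Sm.coord i).mul (Sm.coord i)
  have hc := cmG_pos m
  have h01 := Bo.add (hs 0) (hs 1) (by positivity) (by positivity) (hsq 0) (hsq 1)
  have h23 := Bo.add (hs 2) (hs 3) (by positivity) (by positivity) (hsq 2) (hsq 3)
  have h03 := Bo.add ((hs 0).add (hs 1)) ((hs 2).add (hs 3)) (by positivity) (by positivity)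
    h01 h23
  have hI := Bo.const_mul (((hs 0).add (hs 1)).add ((hs 2).add (hs 3))) Complex.I h03
  have h4 := Bo.add (Sm.coord 4) ((Sm.const _).mul (((hs 0).add (hs 1)).add ((hs 2).add (hs 3))))
    zero_le_one (by positivity) (Bo_coord m 4) hI
  refine ⟨2 + (1 + ‖Complex.I‖ * (cmG m * 1 * 1 + cmG m * 1 * 1 + (cmG m * 1 * 1 + cmG m * 1 * 1))),
    ?_, fun k => ?_⟩
  · have h5 : 0 ≤ ‖Complex.I‖ * (cmG m * 1 * 1 + cmG m * 1 * 1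
      + (cmG m * 1 * 1 + cmG m * 1 * 1)) := by positivity
    show (1 : ℝ) ≤ _
    linarith
  · have h5 : 0 ≤ ‖Complex.I‖ * (cmG m * 1 * 1 + cmG m * 1 * 1
      + (cmG m * 1 * 1 + cmG m * 1 * 1)) := by positivity
    rcases fin3_cases k with rfl | rfl | rfl
    · have e : F0 0 = zc 0 := by funext x; simp [F0]
      rw [e]
      exact Bo.mono (Bo_zc m 0) le_rfl (Subset.refl _) (by norm_num) (by linarith)
    · have e : F0 1 = zc 1 := by funext x; simp [F0]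
      rw [e]
      exact Bo.mono (Bo_zc m 1) le_rfl (Subset.refl _) (by norm_num) (by linarith)
    · have e : F0 2 = fun x => ((x 4 : ℝ) : ℂ) + Complex.I *
          ((((x 0 : ℝ) : ℂ) * ((x 0 : ℝ) : ℂ) + ((x 1 : ℝ) : ℂ) * ((x 1 : ℝ) : ℂ))
            + (((x 2 : ℝ) : ℂ) * ((x 2 : ℝ) : ℂ) + ((x 3 : ℝ) : ℂ) * ((x 3 : ℝ) : ℂ))) := by
        funext x
        simp [F0, zz]
        ring
      rw [e]
      exact Bo.mono h4 le_rfl (Subset.refl _) (by linarith) (by linarith)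

/-- **ELP** (`S_ELP`; uses `S_GEO`, `S_SOB`, `S_Ept`, 100 lines).

Proof. `ε1` from `S_GEO`, with constant `C₀`; `C₁, p₁` from `S_SOB`, `C₂` from `S_Ept 4`.  Let
`g = ex lam F * EF a F j k` (smooth), `E = EF a F j k`.  By `H.er`: `NN h m (Dm F R) g ≤ e^(-lam R)`; for
`i ≤ 10` we have `i ≤ m` and `h i = 1` (`Adm.big`, `Adm.one`, `MM = 10`), so by `NN_term`
`√(∫_{Dm F R} sq i g) ≤ e^(-lam R)`.  Let `x ∈ Dm F (R - δ)`.  By `S_GEO` (fourth part, `ρ' = R - δ`, `ρ = R`)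
`ball x (δ/4) ⊆ Dm F R`, so `∫_{ball x (δ/4)} sq i g ≤ ∫_{Dm F R} sq i g` (`setIntegral_mono_set`, `intOn_sq`), and
`S_SOB` with `s = δ/4` gives for `i ≤ 4` (`i + q ≤ 9`): `√(sq i g x) ≤ (4 C₁/δ)^p₁ * 6 * e^(-lam R) =: A`.
`φ = I * (-lam) * gam F`, `E = exp φ * g` (`ex_neg_mul`): `sq i φ x = lam² sq i (gam F) x ≤ (C₀ lam)²` for `i ≤ 4`
(`S_GEO` last part, `sq_const_mul`, `x` in the unit ball), `C₀ lam ≥ 1`; `‖exp φ x‖ = e^(lam r)`, `r = (gam F x).im`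
(`ex_norm` with `μ = -lam`).  `S_Ept 4`: `sq i (exp φ) x ≤ (C₂ (C₀ lam)^i e^(lam r))² ≤ (C₂ (C₀ lam)^4 e^(lam r))²`.
`sq_mul_le_cm` with `m = 4`: `sq i E x ≤ (cmG 4 * C₂ (C₀ lam)^4 e^(lam r) * 6 (4 C₁/δ)^p₁ e^(-lam R))²`, and
`cmG 4 * 6 * C₂ C₀^4 lam^4 (4 C₁/δ)^p₁ ≤ (C lam/δ)^(p₁ + 5)` with `C = cmG 4 * 6 * C₂ * C₀ * 4 * C₁` (`≥ 1`, each factor `≥ 1`,
`lam ≥ 1`, `1/δ ≥ 1`); `e^(lam r) e^(-lam R) = e^(-(lam (R - r)))`. -/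
def R_ELP : Prop := S_GEO → S_SOB → S_Ept → S_ELP

/-- **LG1** (uses `S_GEO`, `S_PR`, 60 lines): the weighted bound of `γ` and `F₂`.

Proof. `C₀ ≥ 1` from `Bo_F0 m`.  `NN h m (Dm F R) (F0 2) ≤ (m+1) √volB C₀` (`NN_le_of_sup`, `h i ≤ 1` from
`Adm.one 0`, `Adm.anti`, `Dm_sub`), `F 2 = F0 2 + (F 2 - F0 2)`, so by `NN_add_le` and `H.nn 2`
`NN h m (Dm F R) (F 2) ≤ (m+1) √volB C₀ + 1 =: C₃`, and the same on the smaller set `Dm F (R - δ)` (`NN_mono`).  By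
`S_PR` (`Ω' = Dm F (R - δ)`, `Ω = Dm F R`, `s = δ/4`; `Inn` from `S_GEO`, fourth part)
`NN h m (Dm F (R - δ)) (F 2 * F 2) ≤ (4 C₁/δ)^p₁ C₃²`.  `gam F = F 2 + (I/4) (F 2 * F 2)`: `NN_add_le`, `NN_const_mul`
(`‖I/4‖ ≤ 1`): `NN h m (Dm F (R - δ)) (gam F) ≤ C₃ + (4 C₁/δ)^p₁ C₃² ≤ (C/δ)^(p₁ + 2)` with
`C = 2 * 4 C₁ * C₃` (`C₃ ≥ 1`). -/
def S_LG1 : Prop := ∃ ε1 > 0, ∀ m : ℕ, ∃ (C : ℝ) (p : ℕ), 1 ≤ C ∧ ∀ (a : Str) (h : ℕ → ℝ)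
  (lam R δ : ℝ) (F : Mp), SmS a → Adm h m → 1 ≤ lam → 1 / 32 ≤ R → R ≤ 1 / 16 → 0 < δ →
  δ ≤ 1 / 1000 → HypF a h m ε1 lam R F →
  NN h m (Dm F (R - δ)) (gam F) ≤ (C / δ) ^ p ∧ NN h m (Dm F R) (F 2) ≤ C

/-- the dependence of LG1 on the other statements -/
def R_LG1 : Prop := S_GEO → S_PR → S_LG1

/-- **LGW** (`S_LGW`; uses `S_GEO`, `S_PR`, `S_EXPO`, `S_LG1`, 120 lines).

Proof. `ε1` = the smaller of the numbers of `S_GEO` and `S_LG1` (`HypF` with a smaller `ε1 > 0` implies `HypF` with a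
larger one).  The first claim is in `S_LG1` (`(C/δ)^p ≤ (C lam/δ)^p`).
Let `0 ≤ D ≤ lam`, `g = ex lam F * EF a F j 2`, `Δ = D - lam`, `Ω = Dm F (R - δ/2)`, `G = Ω' = Dm F (R - δ)`.  All sets are
open, contained in the unit ball, `Inn G Ω (δ/8)` by `S_GEO` (fourth part, `ρ - ρ' = δ/2`).
`NN h m Ω g ≤ NN h m (Dm F R) g ≤ e^(-lam R)` (`NN_mono`, `Dm_mono`, `H.er`), `NN h m Ω (gam F) ≤ (2 C₁/δ)^p₁` by
`S_LG1` with `δ/2` (note that `δ/2 ≤ 1/1000`).  For `x ∈ G`: `‖exp (I * Δ * gam F x)‖ = e^(-(Δ r)) = e^((lam - D) r) ≤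
e^((lam - D) (R - δ)) =: M` (`r = (gam F x).im < R - δ`, `ex_norm`; `ex Δ F` is by definition `exp (I * Δ * gam F)`).
`S_EXPO` with `s = δ/8`: `NN h m G (ex Δ F * g) ≤ (8 C₂/δ)^p₂ (1 + |Δ|)^m (1 + (2 C₁/δ)^p₁)^m M e^(-lam R)`, `|Δ| ≤ lam`, and
`M e^(-lam R) = e^(-(D (R - δ)) - lam δ)`.
`ex D F * L a j (gam F) = (1 + (I/2) F 2) * (ex Δ F * g)` (`L_gam`, `ex_add`: `ex D F = ex Δ F * ex lam F`).
`S_PR` with `Ω' = Dm F (R - 2 δ)`, `Ω = Dm F (R - δ)`, `s = δ/4`: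
`NN h m (Dm F (R - 2δ)) (..) ≤ (4 C₃/δ)^p₃ NN h m G (1 + (I/2) F 2) NN h m G (ex Δ F * g)`, and
`NN h m G (1 + (I/2) F 2) ≤ NN h m G 1 + NN h m G (F 2) ≤ (m+1) √volB + C₁` (`NN_le_of_sup`, `Bo.const`; `NN_mono`, `S_LG1`).
The product of the constants is at most `(C lam/δ)^p` for suitable `C, p` which depend only on `m` (each factor is
at most a power of `C' lam/δ ≥ 1`: `1 + |Δ| ≤ 2 lam`, `1 + (2 C₁/δ)^p₁ ≤ 2 (2 C₁/δ)^p₁`; `pw_mul`, `pw_le`). -/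
def R_LGW : Prop := S_GEO → S_PR → S_EXPO → S_LG1 → S_LGW

/-- **GEO** (`S_GEO`; helper63).  Proof. `γ₀ = gam F0`, `Im γ₀ = |z|² + (t² - |z|⁴)/4 ≥ |x|²/4` for `‖x‖ < 3/4`;
`|γ - γ₀| ≤ C ε1` on the unit ball; the gradient of `Im γ₀` is at most `2`; see `G/Geo0.lean`. -/
def R_GEO : Prop := S_GEO

end Pool.Agent.CR5
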