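import Pool.Agent.Lib.CR5.BasicG
import Pool.Agent.Lib.CR5.SpecF

/-!
# CR5, block H1: the stage (`S_STG`) from the substep (`S_SUB`) (helper41)

Section 6 of `TEXT.md`.  Statement `S_stX` is to be proved by `theorem pstX : S_stX` in
`Pool/Agent/Lib/CR5/H/stX.lean`, namespace `Pool.Agent.CR5`, importing this file.  The statements
which are used are hypotheses inside the `Prop` (in the order in which they are named in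
`Uses ..`), so all modules are independent.

NOTATION in the docstrings.  `X = lam / δ ≥ 1000`.  `D_ρ = Dm F ρ`.  `γ = gam F`.
`e^t = Real.exp t`.  Proved calculus: `F/Sq.lean`, `F/Nn.lean` (`NN_nonneg`, `NN_mono`,
`NN_add_le`, `NN_sub_le`, `NN_const_mul`, `NN_neg`, `NN_congr`, `NN_zero`, `NN_le_of_sup`),
`BasicG.lean` (`Dm_open`, `Dm_sub`, `Dm_bdd`, `Dm_mono`, `gam_sm`, `ex_sm`, `ex_norm`, `ex_add`,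
`ex_neg_mul`, `L_congr`, `Bo`, `pw_le`, `pw_one`, `pw_mul`), and the lemmas proved below.
Since `C * lam / δ = C * (lam / δ)` (`mul_div_assoc`) the lemmas `pw_..` apply with `X = lam / δ`.
-/

open MeasureTheory Set Filter Topology
open scoped ENNReal ComplexConjugate

noncomputable section

namespace Pool.Agent.CR5

/-! ### Definitions -/

/-- The standing conditions on the parameters of a stage. -/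
structure PH (lam R δ : ℝ) : Prop where
  l1 : 1 ≤ lam
  r0 : 1 / 32 ≤ R
  r1 : R ≤ 1 / 16
  d0 : 0 < δ
  d1 : δ ≤ 1 / 1000

/-- The conclusion of the substep, with the step `s` and the constant `K`. -/
def SubP (a : Str) (h : ℕ → ℝ) (m : ℕ) (F : Mp) (lam R δ s K : ℝ) : Prop :=
  ∀ (μ D ρ : ℝ), lam ≤ μ → μ ≤ 2 * lam → 0 < D → D ≤ lam → D * R ≤ lam * δ / 8 →
  R - 4 * δ + s ≤ ρ → ρ ≤ R - 3 * δ → ∀ E' : F2, (∀ j, Sm (E' j)) →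
  (∀ x ∈ Dm F ρ, D1 a E' x = 0) → ∃ u : E5 → ℂ, Sm u ∧
    NN2 h m (Dm F (ρ - s)) (fun j x => ex (μ + D) F x * (E' j x - D0 a u j x))
      ≤ K * Real.exp (-(D * (R - 5 * δ))) * NN2 h m (Dm F ρ) (fun j x => ex μ F x * E' j x) ∧
    NN h m (Dm F (ρ - s)) (fun x => ex (μ + D) F x * u x)
      ≤ K * Real.exp (D * R) * NN2 h m (Dm F ρ) (fun j x => ex μ F x * E' j x)

/-- The bound of `u` by `e^{iμγ} u`, with the constant `K'`. -/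
def UnP (h : ℕ → ℝ) (m : ℕ) (F : Mp) (lam R δ K' : ℝ) : Prop :=
  ∀ μ : ℝ, 0 ≤ μ → μ ≤ 2 * lam → ∀ u : E5 → ℂ, Sm u →
    NN h m (Dm F (R - 6 * δ)) u
      ≤ K' * Real.exp (μ * (R - 6 * δ)) * NN h m (Dm F (R - 4 * δ)) (fun x => ex μ F x * u x)

/-! ### Proved lemmas -/

theorem FC.monoH {ε1 ε1' : ℝ} {F : Mp} (h : FC ε1 F) (h0 : 0 ≤ ε1) (hε : ε1 ≤ ε1') : FC ε1' F :=
  ⟨h.sm, h.out, fun k i hi x => (h.c5 k i hi x).trans (pow_le_pow_left₀ h0 hε 2)⟩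

theorem HypF.monoH {a : Str} {h : ℕ → ℝ} {m : ℕ} {ε1 ε1' lam R : ℝ} {F : Mp}
    (H : HypF a h m ε1 lam R F) (h0 : 0 ≤ ε1) (hε : ε1 ≤ ε1') : HypF a h m ε1' lam R F :=
  ⟨H.sm, H.out, fun k i hi x => (H.c5 k i hi x).trans (pow_le_pow_left₀ h0 hε 2), H.nn, H.er⟩

theorem PH.X1 {lam R δ : ℝ} (h : PH lam R δ) : 1000 ≤ lam / δ := by
  rw [le_div_iff₀ h.d0]
  have := h.d1
  have := h.l1
  linarith

/-- The derivatives vanish outside the closed support. -/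
theorem sq_off {f : E5 → ℂ} {x : E5} (hx : x ∉ tsupport f) (i : ℕ) : sq i f x = 0 := by
  have h : f =ᶠ[𝓝 x] fun _ => 0 := by
    filter_upwards [(isClosed_tsupport f).isOpen_compl.mem_nhds hx] with y hy
    exact image_eq_zero_of_notMem_tsupport hy
  rw [sq_congr i h, sq_zero_fun]

theorem int_sq_cs {f : E5 → ℂ} (hf : Sm f) (hc : HasCompactSupport f) (i : ℕ) :
    Integrable (sq i f) volume := by
  refine (sq_continuous i hf).integrable_of_hasCompactSupport ?_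
  exact HasCompactSupport.intro hc fun x hx => sq_off hx i

/-- The sum over the whole space dominates the sums over subsets. -/
theorem NN_le_univ {h : ℕ → ℝ} (hh : ∀ i, 0 < h i) (m : ℕ) (Ω : Set E5) {f : E5 → ℂ} (hf : Sm f)
    (hc : HasCompactSupport f) : NN h m Ω f ≤ NN h m univ f := by
  refine Finset.sum_le_sum fun i _ => mul_le_mul_of_nonneg_left (Real.sqrt_le_sqrt ?_) (hh i).le
  rw [Measure.restrict_univ]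
  exact setIntegral_le_integral (int_sq_cs hf hc i)
    (Eventually.of_forall fun x => sq_nonneg' i f x)

/-- The sum over the whole space is the sum over a set containing the closed support. -/
theorem NN_univ_eq (h : ℕ → ℝ) (m : ℕ) {Ω : Set E5} {f : E5 → ℂ} (hs : tsupport f ⊆ Ω) :
    NN h m univ f = NN h m Ω f := by
  unfold NN
  refine Finset.sum_congr rfl fun i _ => ?_
  rw [Measure.restrict_univ, setIntegral_eq_integral_of_forall_compl_eq_zero]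
  exact fun x hx => sq_off (fun h' => hx (hs h')) i

/-- Compact support from a subset of the unit ball. -/
theorem cs_of_sub {f : E5 → ℂ} {r : ℝ} (hs : tsupport f ⊆ Metric.ball 0 r) :
    HasCompactSupport f :=
  (isCompact_closedBall (0 : E5) r).of_isClosed_subset (isClosed_tsupport f)
    (hs.trans Metric.ball_subset_closedBall)

theorem D1_D0_zero {a : Str} (ha : SmS a) {x : E5} (hk : ∀ l, kap a l x = 0) {f : E5 → ℂ}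
    (hf : Sm f) : D1 a (D0 a f) x = 0 := by
  rw [D1_D0 ha hf]
  unfold Kap
  simp [hk]

/-! ### Numerics -/

/-- **stJ**: the number of substeps.

Proof. `J = ⌈8 R / δ⌉₊`: `8 R / δ ≤ J < 8 R / δ + 1`, so `(J + 10) δ ≤ 8 R + 11 δ ≤ 1/2 + 11/1000`; `0 < 8 R / δ ≤ J`. -/
def S_stJ : Prop := ∀ lam R δ : ℝ, PH lam R δ → ∃ J : ℕ, 1 ≤ J ∧ 8 * R ≤ J * δ ∧
  ((J : ℝ) + 10) * δ ≤ 1

/-- **stT**: powers of the constants are absorbed.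

Proof. `ℓ = log lam + log (1/δ) = log (lam / δ) ≥ log 1000 ≥ 1` (`e ≤ 3`).  Take `C = 4 p1 (log C1 + 1) + 1`.
The logarithm of the left side is `N p1 (log C1 + ℓ) ≤ N p1 (log C1 + 1) ℓ ≤ N C ℓ / 4 ≤ N lam δ² / 4 ≤ lam δ / 4`
(`log C1 ≥ 0`, `ℓ ≥ 1`, `N δ ≤ 1`). -/
def S_stT : Prop := ∀ (C1 : ℝ) (p1 : ℕ), 1 ≤ C1 → ∃ C : ℝ, 1 ≤ C ∧ ∀ lam R δ : ℝ, PH lam R δ →
  C * (Real.log lam + Real.log (1 / δ)) ≤ lam * δ ^ 2 → ∀ N : ℕ, (N : ℝ) * δ ≤ 1 →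
  ((C1 * lam / δ) ^ p1) ^ N ≤ Real.exp (lam * δ / 4)

/-! ### The iteration of the substep -/

/-- **stUn**: the bound of `u` by `e^{iμγ} u`.  (Uses `S_EXPO`, `S_LGW`, `S_GEO`.)

Proof. `ε1` = the smaller one of those of `S_LGW`, `S_GEO` (`HypF.monoH`, `FC.monoH`, `HypF.fc`).  `G = D_{R-6δ}`, `Ω' = D_{R-5δ}`,
`Ω = D_{R-4δ}`: open (`Dm_open`), `G ⊆ Ω' ⊆ Ω` (`Dm_mono`), `Inn Ω' Ω (δ/4)` (`S_GEO`, fourth part, `R - 4δ ≤ 1/16`), in the unit ball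
(`Dm_sub`).  `S_EXPO` with the distance `δ/4`, `g = γ`, `Δ = -μ`, `f = ex μ F * u`, `M = e^{μ (R - 6δ)}`: for `x ∈ G`
`exp (I (-μ) γ x) = ex (-μ) F x` (unfold `ex`; casts) has the norm `e^{μ Im γ} ≤ M` (`ex_norm`).  The left side is `NN h m G u`
(`ex (-μ) F * (ex μ F * u) = u` by `ex_neg_mul`).  The right side is at most
`(4 C₁/δ)^{p₁} (1 + μ)^m (1 + NN h m Ω γ)^m M NN h m Ω (ex μ F u)`; `4 C₁/δ ≤ 4 C₁ X`, `1 + μ ≤ 3 lam ≤ 3 X`,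
`NN h m Ω γ ≤ NN h m D_{R-δ} γ ≤ (C₂ X)^{p₂}` (`NN_mono`, `S_LGW`), so `1 + NN ≤ 2 (C₂X)^{p₂} ≤ (2 C₂ X)^{p₂ + 1}`.  All the factors are
at most powers of `c X`, `c = 24 C₁ C₂`; `C = c`, `p = p₁ + m + (p₂ + 1) m` (`pw_le`). -/
def S_stUn : Prop := S_EXPO → S_LGW → S_GEO → ∃ ε1 > 0, ∀ m : ℕ, ∃ (C : ℝ) (p : ℕ), 1 ≤ C ∧
  ∀ (a : Str) (h : ℕ → ℝ) (lam R δ : ℝ) (F : Mp), SmS a → Adm h m → PH lam R δ →
  HypF a h m ε1 lam R F → UnP h m F lam R δ ((C * lam / δ) ^ p)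

/-- **stIt**: the iteration.

Proof. `s = δ/J`, `D = lam/J`, `W0 = NN2 h m D_{R-3δ} (ex lam F * E)`, `q = K e^{-D(R-5δ)}`.  Induction on `n ≤ J`: there is a smooth `v` with
(i) `NN2 h m D_{R-3δ-ns} (ex (lam + n D) F * (E - D0 a v)) ≤ q^n W0`,
(ii) `NN h m D_{R-6δ} v ≤ n (K' K^n e^{lam (R-5δ)} W0)`.
`n = 0`: `v = 0` (`D0 a 0 = 0` by `L_const`; `NN_zero`).  Step `n → n+1 ≤ J`: `μ = lam + nD ≤ 2 lam`, `ρ = R - 3δ - ns`, `E' = E - D0 a v`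
is smooth (`Sm.L`), and on `‖x‖ < 3/4`: `D1 a E' = D1 a E - D1 a (D0 a v) = 0` (`L_sub`, `D1_D0_zero`).  The conditions of `SubP`:
`D ≤ lam`, `D R ≤ lam δ/8` (`8 R ≤ J δ`), `R - 4δ + s ≤ ρ` (`(n+1) s ≤ J s = δ`).  It gives `u`; put `v' = v + u`:
`E - D0 a v' = E' - D0 a u` (`L_add`).  (i) for `n+1`: `ρ - s = R - 3δ - (n+1)s`, `μ + D = lam + (n+1) D`, `q * q^n = q^(n+1)`.
(ii): `NN h m D_{ρ-s} (ex (μ+D) F u) ≤ K e^{DR} q^n W0`, `D_{R-4δ} ⊆ D_{ρ-s}` (`NN_mono`), and `UnP` for `μ + D`: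
`NN h m D_{R-6δ} u ≤ K' e^{(μ+D)(R-6δ)} K e^{DR} K^n e^{-nD(R-5δ)} W0`; the exponent is
`lam (R-6δ) + D ((n+1)(R-6δ) + R - n(R-5δ)) ≤ lam (R-6δ) + 2 D R ≤ lam (R-6δ) + lam δ/4 ≤ lam (R-5δ)`, so it is at most
`K' K^{n+1} e^{lam(R-5δ)} W0`; add (`NN_add_le`, `K^n ≤ K^{n+1}`).
`n = J`: `R - 3δ - Js = R - 4δ`, `lam + JD = 2 lam`, `q^J = K^J e^{-lam(R-5δ)}`. -/
def S_stIt : Prop := ∀ (a : Str) (h : ℕ → ℝ) (m : ℕ) (F : Mp) (lam R δ K K' : ℝ) (J : ℕ), SmS a →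
  (∀ l x, ‖x‖ < 3 / 4 → kap a l x = 0) → (∀ i, 0 < h i) → (∀ k, Sm (F k)) → PH lam R δ →
  1 ≤ K → 0 ≤ K' → 1 ≤ J → 8 * R ≤ J * δ → SubP a h m F lam R δ (δ / J) K →
  UnP h m F lam R δ K' → ∀ E : F2, (∀ j, Sm (E j)) → (∀ x, ‖x‖ < 3 / 4 → D1 a E x = 0) →
  ∃ u : E5 → ℂ, Sm u ∧
    NN2 h m (Dm F (R - 4 * δ)) (fun j x => ex (2 * lam) F x * (E j x - D0 a u j x))
      ≤ K ^ J * Real.exp (-(lam * (R - 5 * δ)))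
        * NN2 h m (Dm F (R - 3 * δ)) (fun j x => ex lam F x * E j x) ∧
    NN h m (Dm F (R - 6 * δ)) u
      ≤ J * (K' * K ^ J * Real.exp (lam * (R - 5 * δ))
        * NN2 h m (Dm F (R - 3 * δ)) (fun j x => ex lam F x * E j x))

/-! ### Cutting off -/

/-- **stCt**: the cutoff function.  (Uses `S_CUT2`, `S_GEO`.)

Proof. `S_CUT2` for `A = D_{R-8δ}` and `s = δ/8`; `C₀` its constant, `C = C₀ 8^m`.  For `x ∈ A`: `dist x x = 0 < s/4`, so `χ x = 1`.  If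
`x ∈ tsupport χ` (the closure of `{χ ≠ 0}`, `Metric.mem_closure_iff`) there is `x'` with `dist x x' < δ/8` and `χ x' ≠ 0`, so there is
`y ∈ A` with `dist x' y < δ/8`, so `x ∈ ball y (δ/4) ⊆ D_{R-7δ}` (`S_GEO`: `Inn D_{R-8δ} D_{R-7δ} (δ/4)`).
`sq i χ ≤ (C₀/(δ/8)^i)²` and `C₀/(δ/8)^i = C₀ 8^i/δ^i ≤ C₀ 8^m/δ^m` for `i ≤ m` (`0 < δ ≤ 1`). -/
def S_stCt : Prop := S_CUT2 → S_GEO → ∃ ε1 > 0, ∀ m : ℕ, ∃ C ≥ 1, ∀ F : Mp, FC ε1 F →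
  ∀ lam R δ : ℝ, PH lam R δ → ∃ χ : E5 → ℂ, Sm χ ∧ (∀ x ∈ Dm F (R - 8 * δ), χ x = 1) ∧
    tsupport χ ⊆ Dm F (R - 7 * δ) ∧ ∀ i ≤ m, ∀ x, sq i χ x ≤ (C / δ ^ m) ^ 2

/-- **stMu**: multiplication by the cutoff function.  (Uses `S_PB`.)

Proof. `tsupport (χ u) ⊆ tsupport χ ⊆ D_{R-7δ} = G` (`tsupport_mul_subset_left`); `NN_univ_eq`: `NN h m univ (χ u) = NN h m G (χ u)`.  `S_PB`
on the open set `G` (`Dm_open`, `Dm_sub`) with `g = χ`, `f = u`: `≤ C M NN h m G u ≤ C M NN h m D_{R-6δ} u` (`NN_mono`, `Dm_mono`). -/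
def S_stMu : Prop := S_PB → ∀ m : ℕ, ∃ C ≥ 1, ∀ h : ℕ → ℝ, Adm h m → ∀ F : Mp, (∀ k, Sm (F k)) →
  ∀ (R δ M : ℝ) (χ u : E5 → ℂ), 0 < δ → Sm χ → Sm u → 0 ≤ M → tsupport χ ⊆ Dm F (R - 7 * δ) →
  (∀ i ≤ m, ∀ x, sq i χ x ≤ M ^ 2) →
  tsupport (fun x => χ x * u x) ⊆ Dm F (R - 7 * δ) ∧
  NN h m univ (fun x => χ x * u x) ≤ C * M * NN h m (Dm F (R - 6 * δ)) u

/-- **stSp**: pointwise bounds.  (Uses `S_Sup`.)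

Proof. Constants `C₁, p₁` of `S_Sup`; `C = (4 C₁)^{p₁}`.  `f` has compact support (`cs_of_sub`).  If `‖x‖ ≥ 3/4` then `x ∉ tsupport f`, so
`sq i f x = 0` (`sq_off`).  If `‖x‖ < 3/4`: `S_Sup` with `Ω' = ball 0 (3/4)`, `Ω = ball 0 1`, distance `1/4` (`Inn` by the triangle
inequality), `i + 5 ≤ 10 = MM ≤ m`, `h (i + 5) = 1` (`Adm.one`): `√(sq i f x) ≤ (4 C₁)^{p₁} NN h m (ball 0 1) f ≤ C NN h m univ f`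
(`NN_le_univ`); square. -/
def S_stSp : Prop := S_Sup → ∃ C ≥ 1, ∀ (m : ℕ) (h : ℕ → ℝ), Adm h m → ∀ f : E5 → ℂ, Sm f →
  tsupport f ⊆ Metric.ball 0 (3 / 4) → ∀ i ≤ 5, ∀ x, sq i f x ≤ (C * NN h m univ f) ^ 2

/-! ### The new map -/

/-- **stGm**: the change of `γ`.  (Uses `S_PR`, `S_GEO`.)

Here `F' k = F k - f k`.  Proof. `γ' - γ = -f₂ (1 + (i/4)(2 F₂ - f₂))` (`gam`, `ring`).
(A) For `‖x‖ < 1`: `|F0 2 x|² = x 4 ^ 2 + zz x ^ 2 ≤ x 4 ^ 2 + zz x ≤ ‖x‖² ≤ 1` (`F0 2 = t + i |z|²`), `‖F₂ - F0₂‖ ≤ ε1 ≤ 1` (`c5` with `i = 0`), so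
`‖F₂‖ ≤ 2`, `‖1 + (i/4)(2 F₂ - f₂)‖ ≤ 1 + (4 + 1)/4 ≤ 4`.
(B) `Ω' = D_{R-8δ}`, `Ω = D_{R-7δ}`, `Inn Ω' Ω (δ/4)` (`S_GEO`).  `S_PR`: `NN h m Ω' (f₂ g) ≤ (4 C₁/δ)^{p₁} NN h m Ω f₂ NN h m Ω g`,
`g = -(1 + (i/4)(2 F₂ - f₂))`; `NN h m Ω f₂ ≤ NN h m univ f₂` (`NN_le_univ`, `cs_of_sub`); by `NN_add_le`, `NN_sub_le`, `NN_const_mul`
`NN h m Ω g ≤ NN h m Ω 1 + (1/2) (NN h m Ω (F₂ - F0₂) + NN h m Ω F0₂) + (1/4) NN h m Ω f₂`, where `NN h m Ω (F₂ - F0₂) ≤ NN h m D_R (..) ≤ 1` (`HypF.nn`, `NN_mono`),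
`NN h m Ω f₂ ≤ 1`, and `NN h m Ω 1`, `NN h m Ω F0₂` are bounded by constants depending only on `m` (`NN_le_of_sup`, `h i ≤ 1` from `Adm`;
`sq i (F0 2)` is continuous, so bounded on the closed unit ball, for each `i ≤ m`).  `C = 4 C₁ * (bound of NN g)` (at least 1),
`p = p₁ + 1`. -/
def S_stGm : Prop := S_PR → S_GEO → ∃ ε1 > 0, ε1 ≤ 1 ∧ ∀ m : ℕ, ∃ (C : ℝ) (p : ℕ), 1 ≤ C ∧
  ∀ (a : Str) (h : ℕ → ℝ) (lam R δ : ℝ) (F : Mp), Adm h m → PH lam R δ →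
  HypF a h m ε1 lam R F → ∀ f : Fin 3 → E5 → ℂ, (∀ k, Sm (f k)) →
  tsupport (f 2) ⊆ Metric.ball 0 (3 / 4) → (∀ x, ‖f 2 x‖ ≤ 1) → NN h m univ (f 2) ≤ 1 →
  (∀ x, ‖x‖ < 1 → ‖gam (fun k y => F k y - f k y) x - gam F x‖ ≤ 4 * ‖f 2 x‖) ∧
  NN h m (Dm F (R - 8 * δ)) (fun x => gam (fun k y => F k y - f k y) x - gam F x)
    ≤ (C / δ) ^ p * NN h m univ (f 2)

/-- **stEn**: the new error.  (Uses `S_EXPO`, `S_GEO`.)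

Proof. `G = Dm F' (R - 10δ)`, open; `G ⊆ D_{R-9δ} = Ω'` (`Im γ ≤ Im γ' + δ`); `Ω = D_{R-8δ}`, `Inn Ω' Ω (δ/4)` (`S_GEO`).  Let
`g = γ' - γ`.  On `Ω`: `ex (2 lam) F' x * EF a F' j k x = exp (I * (2 lam) * g x) * (ex (2 lam) F x * E x)` (`ex`, `Complex.exp_add`; `hE`).  So
by `NN_congr` (on `G`, open) and `S_EXPO` with the distance `δ/4`, `Δ = 2 lam`, `M = e^1`
(`‖exp (I (2 lam) g)‖ = e^{-2 lam Im g} ≤ e^{2 lam ‖g‖} ≤ e`), `f = ex (2 lam) F * E`: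
`NN ≤ (4 C₁/δ)^{p₁} (1 + 2 lam)^m 2^m e NN h m Ω f`, and `Ω ⊆ D_{R-4δ}` (`NN_mono`).  With `4 C₁/δ ≤ 4 C₁ X`, `1 + 2 lam ≤ 3 X`, `2 ≤ 2 X`, `e ≤ 3 X` all
the factors are powers of `c X`, `c = 12 C₁`: `C = 12 C₁`, `p = p₁ + 2 m + 1`. -/
def S_stEn : Prop := S_EXPO → S_GEO → ∃ ε1 > 0, ∀ m : ℕ, ∃ (C : ℝ) (p : ℕ), 1 ≤ C ∧
  ∀ (a : Str) (h : ℕ → ℝ) (lam R δ : ℝ) (F : Mp), SmS a → Adm h m → PH lam R δ →
  HypF a h m ε1 lam R F → ∀ F' : Mp, (∀ k, Sm (F' k)) →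
  (∀ x, ‖x‖ < 3 / 4 → ‖gam F' x - gam F x‖ ≤ δ ∧ 2 * lam * ‖gam F' x - gam F x‖ ≤ 1) →
  NN h m (Dm F (R - 8 * δ)) (fun x => gam F' x - gam F x) ≤ 1 →
  ∀ (j : Fin 2) (k : Fin 3) (E : E5 → ℂ), Sm E →
  (∀ x ∈ Dm F (R - 8 * δ), EF a F' j k x = E x) →
  NN h m (Dm F' (R - 10 * δ)) (fun x => ex (2 * lam) F' x * EF a F' j k x)
    ≤ (C * lam / δ) ^ p * NN h m (Dm F (R - 4 * δ)) (fun x => ex (2 * lam) F x * E x)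

/-! ### Assembly -/

/-- The corrections `f k` and the functions `Ee j k` (the new errors inside). -/
def S_stCmp : Prop := ∃ ε > 0, ∃ ε1 > 0, ∀ (m : ℕ) (B : ℝ), ∃ C : ℝ, 1 ≤ C ∧
  ∀ a : Str, Near a MM ε → BdA a (m + 6) B → (∀ l x, ‖x‖ < 3 / 4 → kap a l x = 0) →
  ∀ h : ℕ → ℝ, Adm h m → ∀ lam R δ : ℝ, PH lam R δ → ∀ F : Mp, HypF a h m ε1 lam R F →
  C * (Real.log lam + Real.log (1 / δ)) ≤ lam * δ ^ 2 →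
  ∃ (f : Fin 3 → E5 → ℂ) (Ee : Fin 2 → Fin 3 → E5 → ℂ), (∀ k, Sm (f k)) ∧ (∀ j k, Sm (Ee j k)) ∧
    (∀ k, tsupport (f k) ⊆ Dm F (R - 7 * δ)) ∧
    (∀ k, NN h m univ (f k) ≤ Real.exp (-(4 * (lam * δ)))) ∧
    (∀ k i, i ≤ 5 → ∀ x, sq i (f k) x ≤ Real.exp (-(3 * (lam * δ))) ^ 2) ∧
    (∀ j k, ∀ x ∈ Dm F (R - 8 * δ), L a j (fun y => F k y - f k y) x = Ee j k x) ∧
    ∀ j k, NN h m (Dm F (R - 4 * δ)) (fun x => ex (2 * lam) F x * Ee j k x)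
      ≤ Real.exp (-(2 * (lam * R)) + 6 * (lam * δ))

/-- **stCm**: the corrections.  (Uses `S_SUB`, `S_stJ`, `S_stT`, the conclusion of `S_stUn`, `S_stIt`, the conclusions of `S_stCt`,
`S_stMu`, `S_stSp`.)

Proof. `ε` from `S_SUB`; `ε1` = the smallest one of those of `S_SUB`, (Un), (Ct).  Constants `C_S, p_S` (SUB), `C_U, p_U` (Un), `C_χ` (Ct), `C_P`
(Mu), `C_p` (Sp).  `C1 = 2 + C_S + C_U + C_P * C_χ + C_p`, `p1 = 2 p_S + p_U + m + 1`, `C` from `S_stT` for `C1, p1`.  Let `T = (C1 lam/δ)^{p1}`,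
`J` from `S_stJ`, `s = δ/J`.  Then (`X = lam/δ`, `J ≤ 1/δ ≤ X`):
`lam/s = lam J/δ ≤ lam/δ² ≤ X²` (`lam ≥ 1`), so `K := (C_S lam/s)^{p_S} ≤ (C_S X)^{2 p_S} ≤ T`, `K' := (C_U X)^{p_U} ≤ T`,
`C_P * (C_χ/δ^m) ≤ C_P C_χ X^m ≤ T`, `C_p ≤ T`, `J ≤ T`, `2 ≤ T`, `1 ≤ K`, and `T^N ≤ e^{lam δ/4}` for `N = 1` and `N = J + 10` (so also for
all `N ≤ J + 10`).  The condition of `S_SUB`: `p_S log (C_S lam/s) = log K ≤ log T ≤ lam δ/4`.  So `SubP a h m F lam R δ s K` holds.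
For every `k` apply `S_stIt` to `E j = EF a F j k = D0 a (F k) j` (`D1_D0_zero`): `u k`.  `W0 ≤ 2 e^{-lam R}` (`HypF.er`, `NN_mono`).
`f k = χ * u k`, `Ee j k = EF a F j k - L a j (u k)`.
`NN h m univ (f k) ≤ C_P (C_χ/δ^m) J K' K^J e^{lam(R-5δ)} 2 e^{-lam R} ≤ T^{J+4} e^{-5 lam δ} ≤ e^{-4 lam δ}`.
`sq i (f k) ≤ (C_p e^{-4 lam δ})² ≤ (T e^{-4 lam δ})² ≤ (e^{-3 lam δ})²`.
On the open set `D_{R-8δ}`: `χ = 1`, so `F k - f k = F k - u k` near `x`; `L_congr`, `L_sub`.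
`NN h m D_{R-4δ} (ex (2 lam) F * Ee j k) ≤ NN2 .. ≤ K^J e^{-lam(R-5δ)} 2 e^{-lam R} ≤ T^{J+1} e^{-2 lam R + 5 lam δ} ≤ e^{-2 lam R + 6 lam δ}`
(`NN_nonneg` for the other component). -/
def S_stCm : Prop := S_SUB → S_stJ → S_stT →
  (∃ ε1 > 0, ∀ m : ℕ, ∃ (C : ℝ) (p : ℕ), 1 ≤ C ∧
    ∀ (a : Str) (h : ℕ → ℝ) (lam R δ : ℝ) (F : Mp), SmS a → Adm h m → PH lam R δ →
    HypF a h m ε1 lam R F → UnP h m F lam R δ ((C * lam / δ) ^ p)) →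
  S_stIt →
  (∃ ε1 > 0, ∀ m : ℕ, ∃ C ≥ 1, ∀ F : Mp, FC ε1 F →
    ∀ lam R δ : ℝ, PH lam R δ → ∃ χ : E5 → ℂ, Sm χ ∧ (∀ x ∈ Dm F (R - 8 * δ), χ x = 1) ∧
      tsupport χ ⊆ Dm F (R - 7 * δ) ∧ ∀ i ≤ m, ∀ x, sq i χ x ≤ (C / δ ^ m) ^ 2) →
  (∀ m : ℕ, ∃ C ≥ 1, ∀ h : ℕ → ℝ, Adm h m → ∀ F : Mp, (∀ k, Sm (F k)) →
    ∀ (R δ M : ℝ) (χ u : E5 → ℂ), 0 < δ → Sm χ → Sm u → 0 ≤ M → tsupport χ ⊆ Dm F (R - 7 * δ) →
    (∀ i ≤ m, ∀ x, sq i χ x ≤ M ^ 2) →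
    tsupport (fun x => χ x * u x) ⊆ Dm F (R - 7 * δ) ∧
    NN h m univ (fun x => χ x * u x) ≤ C * M * NN h m (Dm F (R - 6 * δ)) u) →
  (∃ C ≥ 1, ∀ (m : ℕ) (h : ℕ → ℝ), Adm h m → ∀ f : E5 → ℂ, Sm f →
    tsupport f ⊆ Metric.ball 0 (3 / 4) → ∀ i ≤ 5, ∀ x, sq i f x ≤ (C * NN h m univ f) ^ 2) →
  S_stCmp

/-- **stFin**: the stage.  (Uses `S_stT`, `S_stCmp`, the conclusions of `S_stGm`, `S_stEn`.)

Proof. `ε` from `S_stCmp`; `ε1` = the smallest one.  Constants `C_G, p_G` (Gm), `C_E, p_E` (En).  `C1 = 4 + C_G + C_E`, `p1 = p_G + p_E + 1`;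
`C` = the sum of the constants of `S_stCmp` and of `S_stT` for `C1, p1` (the logarithms are nonnegative).  `T = (C1 lam/δ)^{p1}`:
`T ≤ e^{lam δ/4}` (`N = 1`, `δ ≤ 1`), `T ≥ 4`, `T ≥ X = lam/δ`, `(C_G/δ)^{p_G} ≤ T`, `(C_E lam/δ)^{p_E} ≤ T`.
`f`, `Ee` from `S_stCmp`; `F' k = F k - f k`.  Smooth; for `‖x‖ ≥ 3/4` or `Im γ ≥ R - 7δ` the point `x` is not in `D_{R-7δ}`, so not in
`tsupport (f k)`, `f k x = 0`, `F' k x = F k x` (`HypF.out`).  `F' k - F k = -f k`: `NN_neg`, `sq_neg`; `e^{-4 lam δ} ≤ e^{-2 lam δ}`,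
`(e^{-3 lam δ})² ≤ (e^{-lam δ})²`.  `‖f 2 x‖² = sq 0 (f 2) x ≤ (e^{-3 lam δ})²`, so `‖f 2 x‖ ≤ e^{-3 lam δ} ≤ 1`, and by Gm (A)
`‖γ' - γ‖ ≤ 4 e^{-3 lam δ} ≤ T e^{-3 lam δ} ≤ e^{-2 lam δ} ≤ 1/(T * T) ≤ 1/(4 X)`, which is at most `δ` and at most `1/(2 lam)`.  Gm (B):
`NN h m D_{R-8δ} (γ' - γ) ≤ T e^{-4 lam δ} ≤ 1`.  `EF a F' j k = L a j (F' k) = Ee j k` on `D_{R-8δ}`.  En:
`NN ≤ T e^{-2 lam R + 6 lam δ} ≤ e^{-2 lam R + 7 lam δ} ≤ e^{-2 lam (R-10δ)} e^{-lam δ}`. -/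
def S_stFin : Prop := S_stT → S_stCmp →
  (∃ ε1 > 0, ε1 ≤ 1 ∧ ∀ m : ℕ, ∃ (C : ℝ) (p : ℕ), 1 ≤ C ∧
    ∀ (a : Str) (h : ℕ → ℝ) (lam R δ : ℝ) (F : Mp), Adm h m → PH lam R δ →
    HypF a h m ε1 lam R F → ∀ f : Fin 3 → E5 → ℂ, (∀ k, Sm (f k)) →
    tsupport (f 2) ⊆ Metric.ball 0 (3 / 4) → (∀ x, ‖f 2 x‖ ≤ 1) → NN h m univ (f 2) ≤ 1 →
    (∀ x, ‖x‖ < 1 → ‖gam (fun k y => F k y - f k y) x - gam F x‖ ≤ 4 * ‖f 2 x‖) ∧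
    NN h m (Dm F (R - 8 * δ)) (fun x => gam (fun k y => F k y - f k y) x - gam F x)
      ≤ (C / δ) ^ p * NN h m univ (f 2)) →
  (∃ ε1 > 0, ∀ m : ℕ, ∃ (C : ℝ) (p : ℕ), 1 ≤ C ∧
    ∀ (a : Str) (h : ℕ → ℝ) (lam R δ : ℝ) (F : Mp), SmS a → Adm h m → PH lam R δ →
    HypF a h m ε1 lam R F → ∀ F' : Mp, (∀ k, Sm (F' k)) →
    (∀ x, ‖x‖ < 3 / 4 → ‖gam F' x - gam F x‖ ≤ δ ∧ 2 * lam * ‖gam F' x - gam F x‖ ≤ 1) →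
    NN h m (Dm F (R - 8 * δ)) (fun x => gam F' x - gam F x) ≤ 1 →
    ∀ (j : Fin 2) (k : Fin 3) (E : E5 → ℂ), Sm E →
    (∀ x ∈ Dm F (R - 8 * δ), EF a F' j k x = E x) →
    NN h m (Dm F' (R - 10 * δ)) (fun x => ex (2 * lam) F' x * EF a F' j k x)
      ≤ (C * lam / δ) ^ p * NN h m (Dm F (R - 4 * δ)) (fun x => ex (2 * lam) F x * E x)) →
  S_STG

/-- The stage from the parts (to be combined by hand). -/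
theorem stage_of (h1 : S_SUB) (h2 : S_EXPO) (h3 : S_LGW) (h4 : S_GEO) (h5 : S_CUT2) (h6 : S_PB)
    (h7 : S_Sup) (h8 : S_PR) (pJ : S_stJ) (pT : S_stT) (pUn : S_stUn) (pIt : S_stIt) (pCt : S_stCt)
    (pMu : S_stMu) (pSp : S_stSp) (pGm : S_stGm) (pEn : S_stEn) (pCm : S_stCm) (pFin : S_stFin) :
    S_STG :=
  pFin pT (pCm h1 pJ pT (pUn h2 h3 h4) pIt (pCt h5 h4) (pMu h6) (pSp h7)) (pGm h8 h4) (pEn h2 h4)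

end Pool.Agent.CR5
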