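import Pool.Agent.Lib.CR5.BasicG
import Pool.Agent.Lib.CR5.SpecF

/-!
# CR5, block H2: `S_CORE` from `S_STG` (iteration of the stage)

`λ_k = 2^k l0`, `δ_k = (3/4)^k / 2000`, `R_k = 1/16 - 10 ∑_{j<k} δ_j`; so `λ_k δ_k = l0 (3/2)^k / 2000` and
`λ_k δ_k² = l0 (9/8)^k / (4·10^6)`.  Complete proofs in the docstrings; task `X` proves `theorem pX : S_X` in
`Pool/Agent/Lib/CR5/H/X.lean`.
-/

open MeasureTheory Set Filter Topology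
open scoped ENNReal ComplexConjugate

noncomputable section

namespace Pool.Agent.CR5

/-- `λ_k`. -/
def lk (l0 : ℝ) (k : ℕ) : ℝ := 2 ^ k * l0

/-- `δ_k`. -/
def dk (k : ℕ) : ℝ := (3 / 4) ^ k / 2000

/-- `R_k`. -/
def Rk (k : ℕ) : ℝ := 1 / 16 - 10 * ∑ j ∈ Finset.range k, dk j

/-- The condition of the stage with the constant `C` holds from the step `k` on. -/
def Good (l0 C : ℝ) (k : ℕ) : Prop :=
  ∀ n, k ≤ n → C * (Real.log (lk l0 n) + Real.log (1 / dk n)) ≤ lk l0 n * dk n ^ 2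

/-- The conclusion of `S_STG` for a fixed structure, order and constant. -/
def StgP (a : Str) (ε1 : ℝ) (m : ℕ) (C : ℝ) : Prop :=
  ∀ h : ℕ → ℝ, Adm h m → ∀ (lam R δ : ℝ), 1 ≤ lam → 1 / 32 ≤ R → R ≤ 1 / 16 → 0 < δ →
  δ ≤ 1 / 1000 → ∀ F : Mp, HypF a h m ε1 lam R F →
  C * (Real.log lam + Real.log (1 / δ)) ≤ lam * δ ^ 2 →
  ∃ F' : Mp, (∀ k, Sm (F' k)) ∧ (∀ k x, 3 / 4 ≤ ‖x‖ → F' k x = F0 k x) ∧
    (∀ k x, R - 7 * δ ≤ (gam F x).im → F' k x = F k x) ∧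
    (∀ k, NN h m Set.univ (fun y => F' k y - F k y) ≤ Real.exp (-(2 * lam * δ))) ∧
    (∀ k i, i ≤ 5 → ∀ x, sq i (fun y => F' k y - F k y) x ≤ Real.exp (-(lam * δ)) ^ 2) ∧
    ∀ j k, NN h m (Dm F' (R - 10 * δ)) (fun y => ex (2 * lam) F' y * EF a F' j k y)
      ≤ Real.exp (-(2 * lam * (R - 10 * δ))) * Real.exp (-(lam * δ))

/-- The state after `k` stages. -/
structure Sta (a : Str) (l0 ε1 : ℝ) (k m : ℕ) (h : ℕ → ℝ) (F : Mp) : Prop where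
  adm : Adm h m
  sm : ∀ i, Sm (F i)
  out : ∀ i x, 3 / 4 ≤ ‖x‖ → F i x = F0 i x
  c5 : ∀ j i, i ≤ 5 → ∀ x,
    Real.sqrt (sq i (fun y => F j y - F0 j y) x) ≤ ε1 * (1 - (1 / 2) ^ k)
  nn : ∀ j, NN h m Set.univ (fun y => F j y - F0 j y) ≤ 1 - (1 / 2) ^ k
  er : ∀ j i, NN h m (Dm F (Rk k)) (fun y => ex (lk l0 k) F y * EF a F j i y)
    ≤ Real.exp (-(lk l0 k * Rk k))

/-- The state after the stage `k`, with some room. -/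
structure Sls (a : Str) (l0 ε1 : ℝ) (k m : ℕ) (h : ℕ → ℝ) (F : Mp) : Prop where
  adm : Adm h m
  sm : ∀ i, Sm (F i)
  out : ∀ i x, 3 / 4 ≤ ‖x‖ → F i x = F0 i x
  c5 : ∀ j i, i ≤ 5 → ∀ x,
    Real.sqrt (sq i (fun y => F j y - F0 j y) x) ≤ ε1 * (1 - (1 / 2) ^ (k + 1))
  nn : ∀ j, NN h m Set.univ (fun y => F j y - F0 j y) ≤ 1 - (1 / 2) ^ k + (1 / 2) ^ (k + 2)
  er : ∀ j i, NN h m (Dm F (Rk (k + 1))) (fun y => ex (lk l0 (k + 1)) F y * EF a F j i y)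
    ≤ Real.exp (-(lk l0 (k + 1) * Rk (k + 1))) * Real.exp (-(lk l0 k * dk k))

/-- **hPr**: elementary facts on the parameters.

Proof. `∑_{j<k} (3/4)^j = 4 (1 - (3/4)^k) ≤ 4` (`geom_sum_eq`), so `10 ∑ δ_j ≤ 40/2000 = 1/50` and
`R_k ≥ 1/16 - 1/50 = 17/400 ≥ 1/25`.  The rest is immediate (`Finset.sum_range_succ`, `pow_succ`). -/
def S_hPr : Prop := (∀ k, 1 / 25 ≤ Rk k ∧ Rk k ≤ 1 / 16 ∧ 0 < dk k ∧ dk k ≤ 1 / 1000 ∧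
    Rk (k + 1) = Rk k - 10 * dk k) ∧ Rk 0 = 1 / 16 ∧
  ∀ l0 : ℝ, 1 ≤ l0 → ∀ k, 1 ≤ lk l0 k ∧ lk l0 (k + 1) = 2 * lk l0 k ∧
    lk l0 k * dk k = l0 * (3 / 2) ^ k / 2000 ∧ lk l0 k * dk k ^ 2 = l0 * (9 / 8) ^ k / 4000000

/-- **hGd**: the conditions on the parameters.  (Uses `S_hPr`.)

Proof. `log λ_n + log (1/δ_n) = n log 2 + log l0 + n log (4/3) + log 2000 ≤ n + log l0 + 8` (`log 2 ≤ 0.7`, `log (4/3) ≤ 0.3`
by `Real.log_le_sub_one_of_pos`-type bounds or `log (8/3) ≤ 1` since `8/3 ≤ e`; `log 2000 ≤ 11 log 2 ≤ 8` since `2000 ≤ 2^11`), and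
`n + 8 ≤ 8 (9/8)^n` (Bernoulli, `one_add_mul_le_pow`), `(9/8)^n ≥ 1`; so the sum `S_n` satisfies `0 ≤ S_n ≤ (8 + log l0) (9/8)^n`
and `S_n ≤ n + 8 + log l0`.
(1) `C ≤ 0`: trivial (`S_n ≥ 0`, both logarithms are nonnegative: `λ_n ≥ 1`, `δ_n ≤ 1`).  `C > 0`: `(n + 8 + log l0) / (9/8)^n → 0`
(`tendsto_pow_const_div_const_pow_of_one_lt` or `tendsto_self_mul_const_pow_of_lt_one`), so for all `n ≥ k`
`C (n + 8 + log l0) ≤ l0 (9/8)^n / (4·10^6)`.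
(2) `C' = max C 1`; `Good l0 C 0` follows from `4·10^6 C' (8 + log l0) ≤ l0`, true for all large `l0` (`log l0 / l0 → 0`,
`Real.isLittleO_log_id_atTop`).  `λ_k δ_k = (l0/2000) (3/2)^k ≥ (l0/2000)(1 + k/2)`, so
`exp (-λ_k δ_k) ≤ exp (-l0/2000) (exp (-l0/4000))^k ≤ (η/4) (1/2)^k` if `exp (-l0/2000) ≤ η/4` and `l0 ≥ 4000`
(`exp (-1) ≤ 1/2`). -/
def S_hGd : Prop := S_hPr → (∀ C l0 : ℝ, 1 ≤ l0 → ∃ k, Good l0 C k) ∧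
  ∀ C η : ℝ, 0 < η → ∃ l1 : ℝ, 1 ≤ l1 ∧ ∀ l0, l1 ≤ l0 →
    Good l0 C 0 ∧ ∀ k, Real.exp (-(lk l0 k * dk k)) ≤ η * (1 / 2) ^ (k + 2)

/-- **hHyp**: a state satisfies the hypotheses of the stage.

Proof. `c5`: `√(sq ..) ≤ ε1 (1 - 2^{-k}) ≤ ε1` (`Real.sqrt_le_left`), as `ε1 ≥ 0`.  `nn`: `F j - F0 j` vanishes for `‖x‖ ≥ 3/4`, so
`sq i (F j - F0 j)` is continuous with compact support, integrable; the integral over `Dm F (Rk k)` is at most the one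
over the whole space (`setIntegral_le_integral`), so `NN h m (Dm ..) ≤ NN h m univ ≤ 1`. -/
def S_hHyp : Prop := ∀ (a : Str) (l0 ε1 : ℝ) (k m : ℕ) (h : ℕ → ℝ) (F : Mp), 0 ≤ ε1 →
  Sta a l0 ε1 k m h F → HypF a h m ε1 (lk l0 k) (Rk k) F

/-- **hStp**: one stage.  (Uses `S_hPr`, `S_hHyp`.)

Proof. `StgP` for `lam = λ_k`, `R = R_k ≥ 1/25 ≥ 1/32`, `δ = δ_k` and `HypF` from `S_hHyp` gives `F'`.  `2 λ_k = λ_{k+1}`, `R_k - 10 δ_k = R_{k+1}`.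
`c5`: triangle inequality `√sq i (F' - F0) ≤ √sq i (F' - F) + √sq i (F - F0) ≤ e^{-λ_k δ_k} + ε1 (1 - 2^{-k})
≤ ε1 (1/2)^{k+2} + ε1 (1 - 2^{-k}) ≤ ε1 (1 - 2^{-(k+1)})` (`sqrt_sq_add_le`; `F' - F0 = (F' - F) + (F - F0)`).
`nn`: Minkowski over the whole space (`sqrt_int_add_le` with `μ = volume`; all functions have compact support: they vanish for
`‖x‖ ≥ 3/4`), `NN h m univ (F' - F) ≤ e^{-2 λ_k δ_k} ≤ e^{-λ_k δ_k} ≤ (1/2)^{k+2}`. -/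
def S_hStp : Prop := S_hPr → S_hHyp → ∀ (a : Str) (l0 ε1 : ℝ) (k m : ℕ) (h : ℕ → ℝ) (F : Mp) (C : ℝ),
  0 ≤ ε1 → ε1 ≤ 1 → 1 ≤ l0 → StgP a ε1 m C → Sta a l0 ε1 k m h F →
  C * (Real.log (lk l0 k) + Real.log (1 / dk k)) ≤ lk l0 k * dk k ^ 2 →
  Real.exp (-(lk l0 k * dk k)) ≤ ε1 * (1 / 2) ^ (k + 2) →
  ∃ F' : Mp, Sls a l0 ε1 k m h F' ∧
    (∀ j, NN h m Set.univ (fun y => F' j y - F j y) ≤ Real.exp (-(lk l0 k * dk k))) ∧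
    ∀ j i, i ≤ 5 → ∀ x,
      Real.sqrt (sq i (fun y => F' j y - F j y) x) ≤ Real.exp (-(lk l0 k * dk k))

/-- **hUp**: raising the order (uses `S_Wt2`, `S_hPr`).

Proof. First part: `Sls` implies `Sta` for `k + 1` with the same `m`, `h`, because `1 - 2^{-k} + 2^{-(k+2)} ≤ 1 - 2^{-(k+1)}` and
`exp (-(λ_k δ_k)) ≤ 1`.  Second part: let `T` be the sum of the numbers `√(∫ sq (m+1) (F j - F0 j))` (`j < 3`) and
`√(∫_{D} sq (m+1) (ex F * EF a F j i))` (`j < 2, i < 3`), `D = Dm F (Rk (k+1))`, and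
`σ = min ((1/2)^{k+2}) (e^{-λ_{k+1} R_{k+1}} (1 - e^{-λ_k δ_k})) > 0` (`λ_k δ_k > 0`), `η = σ / (T + 1)`.  `h'` from `S_Wt2`.  Then
`NN h' (m+1) Ω f = NN h m Ω f + h' (m+1) √(∫_Ω sq (m+1) f) ≤ NN h m Ω f + η T` (`Finset.sum_range_succ`, the weights agree up to
`m`), and `η T ≤ σ`. -/
def S_hUp : Prop := S_Wt2 → S_hPr → ∀ (a : Str) (l0 ε1 : ℝ) (k m : ℕ) (h : ℕ → ℝ) (F : Mp), 1 ≤ l0 →
  0 ≤ ε1 → Sls a l0 ε1 k m h F → Sta a l0 ε1 (k + 1) m h F ∧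
  ∃ h' : ℕ → ℝ, (∀ i ≤ m, h' i = h i) ∧ Sta a l0 ε1 (k + 1) (m + 1) h' F

/-- The result of the iteration. -/
structure Itr (a : Str) (l0 ε1 : ℝ) (M : ℕ → ℕ) (H : ℕ → ℕ → ℝ) (FF : ℕ → Mp) : Prop where
  st : ∀ k, Sta a l0 ε1 k (M k) (H k) (FF k)
  eq : ∀ k, ∀ i ≤ M k, H (k + 1) i = H k i
  mono : ∀ k, M k ≤ M (k + 1)
  unb : ∀ m, ∃ k, m ≤ M k
  nn : ∀ k j, NN (H k) (M k) Set.univ (fun y => FF (k + 1) j y - FF k j y)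
    ≤ Real.exp (-(lk l0 k * dk k))
  c5 : ∀ k j i, i ≤ 5 → ∀ x,
    Real.sqrt (sq i (fun y => FF (k + 1) j y - FF k j y) x) ≤ Real.exp (-(lk l0 k * dk k))

/-- **hSeq**: the iteration.  (Uses the statements `S_hStp`, `S_hUp`, `S_hGd` and what is behind them.)

Proof. Consider the type of triples `(k, m, h, F)` with `Sta a l0 ε1 k m h F`, `MM ≤ m` (from `Adm.big`) and `Good l0 (Cf m) k`.
Step from `(k, m, h, F)` to `(k+1, ..)`: `S_hStp` gives `F'` with `Sls`; if `Good l0 (Cf (m+1)) (k+1)` take `m + 1`, `h'`, `F'` from `S_hUp`;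
otherwise `m, h, F'` (`Good` is monotone in `k`).  By recursion (`Nat.rec` on a subtype, or `exists_seq` with choice) we get
sequences `M, H, FF` with `FF 0 = F0`, `M 0 = MM`, `H 0 = 1`, satisfying `st`, `eq`, `mono`, `nn`, `c5`, and
(*) `Good l0 (Cf (M k + 1)) (k+1) → M (k+1) = M k + 1`.  `unb`: induction on `m`: if `m ≤ M k` for some `k`; by `S_hGd` (1) there is `n ≥ k` with
`Good l0 (Cf (m+1)) n` (monotone in `n`); if `M n ≥ m + 1` done; otherwise `M n = m` and (*) with `k = n`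
(`Good l0 (Cf (m+1)) (n+1)`) gives `M (n+1) = m + 1`. -/
def S_hSeq : Prop := S_hPr → S_hGd → S_hHyp → S_hStp → S_Wt2 → S_hUp →
  ∀ (a : Str) (l0 ε1 : ℝ) (Cf : ℕ → ℝ), 0 ≤ ε1 → ε1 ≤ 1 → 1 ≤ l0 →
  (∀ m, MM ≤ m → StgP a ε1 m (Cf m)) → Good l0 (Cf MM) 0 →
  (∀ k, Real.exp (-(lk l0 k * dk k)) ≤ ε1 * (1 / 2) ^ (k + 2)) →
  Sta a l0 ε1 0 MM (fun _ => 1) F0 → ∃ (M : ℕ → ℕ) (H : ℕ → ℕ → ℝ) (FF : ℕ → Mp),
    Itr a l0 ε1 M H FF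

/-- **hSup**: sup bounds for the differences (uses `S_SOB`).

Proof. Given `i` let `K` with `i + 5 ≤ M K` (`unb`); `M k ≥ M K` for `k ≥ K` (`mono`) and `H k q = H K q` for `k ≥ K`, `q ≤ M K`
(induction with `eq`).  Let `w > 0` be the minimum of `H K (i+q)`, `q < 6`.  `S_SOB` with `s = 1`:
`√(sq i (g k) x) ≤ C^p ∑_{q<6} √(∫_{ball x 1} sq (i+q) (g k)) ≤ C^p ∑_{q<6} √(∫ sq (i+q) (g k))` (`sq n (g k)` is continuous with compact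
support, so integrable) `≤ C^p ∑_{q<6} (1/w) NN (H k) (M k) univ (g k)` (`NN_term`) `≤ 6 C^p / w * u k`. -/
def S_hSup : Prop := S_SOB → ∀ (M : ℕ → ℕ) (H : ℕ → ℕ → ℝ) (g : ℕ → E5 → ℂ) (u : ℕ → ℝ),
  (∀ k, Tst (g k)) → (∀ k i, 0 < H k i) → (∀ k, ∀ i ≤ M k, H (k + 1) i = H k i) →
  (∀ k, M k ≤ M (k + 1)) → (∀ m, ∃ k, m ≤ M k) → (∀ k, NN (H k) (M k) Set.univ (g k) ≤ u k) →
  ∀ i, ∃ (c : ℝ) (K : ℕ), ∀ k, K ≤ k → ∀ x, Real.sqrt (sq i (g k) x) ≤ c * u k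

/-- **hLim**: limits.

Proof. `G x = f 0 x + ∑' k, (f (k+1) x - f k x)`.  Smooth: `contDiff_tsum_of_eventually` with `v i k = |c_i| * u k` (or `c_i u k`),
`norm_ifd_le` of `F/Ifd.lean` bounds `‖iteratedFDeriv ℝ i g x‖ ≤ √(sq i g x)`.  Convergence of `f k x`: partial sums telescope
(`Finset.sum_range_sub`), `Summable` by comparison with `u` (order `0`), `HasSum.tendsto_sum_nat`.  Derivatives:
`‖fderiv (f (k+1) - f k) x‖ ≤ √(sq 1 ..) ≤ u k` (`norm_ifd_le` with `n = 1` and `norm_iteratedFDeriv_one`), so by `fderiv_tsum`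
(or `hasFDerivAt_tsum`) `fderiv G x = fderiv (f 0) x + ∑' k, fderiv (f (k+1) - f k) x`; evaluate at `e5 i`; the partial sums are
`pd i (f k) x`. -/
def S_hLim : Prop := ∀ (f : ℕ → E5 → ℂ) (u : ℕ → ℝ), (∀ k, Sm (f k)) → Summable u →
  (∀ k, 0 ≤ u k) → (∀ k i, i ≤ 1 → ∀ x, Real.sqrt (sq i (fun y => f (k + 1) y - f k y) x) ≤ u k) →
  (∀ i, ∃ (c : ℝ) (K : ℕ), ∀ k, K ≤ k → ∀ x,
    Real.sqrt (sq i (fun y => f (k + 1) y - f k y) x) ≤ c * u k) →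
  ∃ G : E5 → ℂ, Sm G ∧ (∀ x, Tendsto (fun k => f k x) atTop (𝓝 (G x))) ∧
    ∀ i x, Tendsto (fun k => pd i (f k) x) atTop (𝓝 (pd i G x))

/-- **hSt0**: the start (uses `S_Wt1`, `S_hPr`).

Proof. `F = F0`: `c5`: `F0 j - F0 j = 0`, `sq i 0 = 0`, `0 ≤ ε1 * (1 - 1)`; `nn` the same (`NN_zero` after rewriting the function as
`fun _ => 0`).  `er`: `EF a F0 j i = L a j (F0 i) = ∑ l, (a j l - a0 j l) * dz l (F0 i)`, because `L a0 j (F0 i) = 0` (computation: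
`db j (zc i) = 0`, `dz l (zc i) = 0` for `l = 2`; `F0 2 = t + I ∑ zc k * conj (zc k)`: `db j (F0 2) = I zc j`, `dz 2 (F0 2) = 1`, and
`a0 j 2 = -I zc j`).  The functions `dz l (F0 i)` have `Bo MM (ball 0 1)` bounds (a constant `C₁`; polynomials: `F0 2` in terms of coordinates,
`Bo_coord`, `Bo.mul`, `Bo.dz`), `a j l - a0 j l` has the bound `ε`, so `Bo MM (ball 0 1) (EF a F0 j i) (C₂ ε)`; `ex l0 F0` is smooth, so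
`Bo MM (ball 0 1) (ex l0 F0) C₃` for some `C₃ = C₃(l0)` (continuity of `sq i` on the closed unit ball, finitely many `i`).
`Bo.mul` and `NN_le_of_sup`: `NN 1 MM (Dm F0 (1/16)) (..) ≤ (MM + 1) √volB cmG MM C₃ C₂ ε ≤ exp (-(l0/16))` for small `ε`. -/
def S_hSt0 : Prop := S_Wt1 → S_hPr → ∀ l0 ε1 : ℝ, 1 ≤ l0 → 0 ≤ ε1 → ∃ ε > 0, ∀ a : Str,
  Near a (MM + 6) ε → Sta a l0 ε1 0 MM (fun _ => 1) F0

/-- **hR**: `r ≤ 1/50` on the ball of radius `1/8`.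

Proof. Let `‖x‖ < 1/8`, `u = F 2 x`, `u0 = F0 2 x = t + I |z|²`, `‖u - u0‖ ≤ 1/1000` (`sq 0`), `‖u0‖ ≤ |t| + |z|² ≤ 1/8 + 1/64 ≤ 1/4`.
`γ - γ0 = (u - u0) (1 + (I/4)(u + u0))`, so `‖γ - γ0‖ ≤ (1/1000)(1 + (1/4)(3/4)) ≤ 1/500`.
`Im γ0 = |z|² + (t² - |z|⁴)/4 ≤ |z|² + t² = ‖x‖² ≤ 1/64`.  `1/64 + 1/500 ≤ 1/50`. -/
def S_hR : Prop := ∀ F : Mp, (∀ x, sq 0 (fun y => F 2 y - F0 2 y) x ≤ (1 / 1000) ^ 2) →
  ∀ x : E5, ‖x‖ < 1 / 8 → (gam F x).im ≤ 1 / 50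

/-- **hEnd**: the errors tend to zero (uses `S_ELP`, `S_hPr`, `S_hHyp`, `S_hR`).

Proof. `ε1` the one of `S_ELP`, at most `1/1000`.  Let `‖x‖ < 1/8`.  `HypF a (H k) (M k) ε1 λ_k R_k (FF k)` (`S_hHyp`), `r_k = (gam (FF k) x).im ≤ 1/50`
(`S_hR`; `sq 0 ≤ ε1²`), and `R_k - δ_k ≥ 1/25 - 1/1000 > 1/50`, so `x ∈ Dm (FF k) (R_k - δ_k)`.  `S_ELP` (`i = 0`, `SmS a`):
`‖EF a (FF k) j i x‖ ≤ (C λ_k/δ_k)^p exp (-(λ_k (R_k - r_k))) ≤ (C λ_k/δ_k)^p exp (-(λ_k/50))`.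
`λ_k/δ_k = 2000 l0 (8/3)^k ≤ 2000 l0 4^k ≤ 2000 λ_k²` (`l0 ≥ 1`), so the bound is at most `(2000 C)^p λ_k^{2p} e^{-λ_k/50} → 0`
(`λ_k → ∞`; `Real.tendsto_pow_mul_exp_neg_atTop_nhds_zero` after scaling). -/
def S_hEnd : Prop := S_ELP → S_hPr → S_hHyp → S_hR → ∃ ε1 > 0, ε1 ≤ 1 / 1000 ∧
  ∀ (a : Str) (l0 e : ℝ) (M : ℕ → ℕ) (H : ℕ → ℕ → ℝ) (FF : ℕ → Mp), SmS a → 1 ≤ l0 → 0 ≤ e →
  e ≤ ε1 → Itr a l0 e M H FF → ∀ j i x, ‖x‖ < 1 / 8 →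
  Tendsto (fun k => EF a (FF k) j i x) atTop (𝓝 0)

/-- **hBdE**: bounded derivatives (the same as `S_gBdE` of `SpecG.lean`).

Proof. See there. -/
def S_hBdE : Prop := ∀ (a : Str) (m : ℕ) (ε : ℝ), Near a m ε → ∀ n : ℕ, ∃ B : ℝ, 0 ≤ B ∧ BdA a n B

/-- **hCore**: assembly of `S_CORE`.

Proof. `ε_S, ε1_S` and the constants `CS m B` (choice) from `S_STG`; `ε1_E` from `S_hEnd`; `ε1 = min (min ε1_S ε1_E) (1/1000) > 0`.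
`l0` from `S_hGd` (2) for `C = CS MM 1`, `η = ε1`.  `ε_0` from `S_hSt0` for `l0, ε1`.  `ε = min (min ε_S ε_0) 1`.
Let `a` with `Near a (MM + 6) ε`, `kap = 0` on `‖x‖ < 3/4`.  `Bf m = if m = MM then 1 else B_m` with `B_m` from `S_hBdE` (order `m + 6`); so
`BdA a (m+6) (Bf m)` for all `m` (for `m = MM` from `Near`), `Cf m = CS m (Bf m)`, and `StgP a ε1 m (Cf m)` (`HypF` for `ε1` implies `HypF` for `ε1_S`:
`sq ≤ ε1² ≤ ε1_S²`); `Cf MM = CS MM 1`.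
`S_hSeq` gives `M, H, FF` with `Itr`.  For each `j < 3`: `u k = exp (-(λ_k δ_k)) ≤ (1/2)^{k+2}` summable; `g k = FF (k+1) j - FF k j` is a test function
(smooth, zero for `‖x‖ ≥ 3/4`), so `S_hSup` and `S_hLim` apply (`f k = FF k j`) and give `F j`.
`F j` is smooth.  `L a i (F j) x = lim L a i (FF k j) x` (`L` is a finite combination of the `pd`'s with coefficients at `x`) and this is `0`
for `‖x‖ < 1/8` by `S_hEnd` (`EF a (FF k) i j x = L a i (FF k j) x`; uniqueness of limits).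
Closeness: `‖FF k j x - F0 j x‖ ≤ ε1` (`c5`, `i = 0`) and `‖pd i (FF k j) x - pd i (F0 j) x‖ ≤ √(sq 1 (FF k j - F0 j) x) ≤ ε1` pass to the limit
(`le_of_tendsto`); `ε1 ≤ 1/100`. -/
def S_hCore : Prop := S_STG → S_ELP → S_SOB → S_Wt1 → S_Wt2 → S_hPr → S_hGd → S_hHyp → S_hStp →
  S_hUp → S_hSeq → S_hSup → S_hLim → S_hSt0 → S_hR → S_hEnd → S_hBdE → S_CORE

end Pool.Agent.CR5
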