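import Pool.Agent.Lib.CR5.Iface

/-!
# CR5, block I2: the normal form at a point (helper13)

From two complex vector fields near the origin of `ℝ⁵` (a local frame of the conjugate of the CR
structure, involutive, with a definite Levi form at the origin) to a structure `a` with `a(0) = 0`,
`kap a = 0` near the origin, and the first order terms of the standard structure.  Every `S_...` is a
statement to be proved in its own file `CR5/I/Name.lean` (theorem `pName`); the docstring contains the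
complete proof.
-/

open MeasureTheory Set Filter Topology
open scoped ENNReal ComplexConjugate

noncomputable section

namespace Pool.Agent.CR5

/-- the complex vector field with the coefficients `c i` -/
def vf (c : Fin 5 → E5 → ℂ) (f : E5 → ℂ) : E5 → ℂ := fun x => ∑ i, c i x * pd i f x

/-- the bracket `[V, W]` of two complex vector fields with the coefficients `c`, `d` -/
def brk (c d : Fin 5 → E5 → ℂ) : Fin 5 → E5 → ℂ := fun i x => vf c (d i) x - vf d (c i) x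

/-- the conjugate vector field -/
def cj (c : Fin 5 → E5 → ℂ) : Fin 5 → E5 → ℂ := fun i x => conj (c i x)

/-- two vectors and their conjugates are linearly independent -/
def Ind4 (v : Fin 2 → Fin 5 → ℂ) : Prop :=
  ∀ s t : Fin 2 → ℂ, (∀ i, ∑ j, (s j * v j i + t j * conj (v j i)) = 0) → s = 0 ∧ t = 0

/-- the Levi form `B` is nowhere zero modulo the span of `v`, `conj v` -/
def Lev (v : Fin 2 → Fin 5 → ℂ) (B : Fin 2 → Fin 2 → Fin 5 → ℂ) : Prop :=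
  ∀ q : Fin 2 → ℂ, q ≠ 0 → ∀ s t : Fin 2 → ℂ,
    ¬ ∀ i, ∑ j, ∑ k, q j * conj (q k) * B j k i = ∑ j, (s j * v j i + t j * conj (v j i))

/-- **Local data**: two complex vector fields on the open set `U ∋ 0` -/
structure LV (U : Set E5) (c : Fin 2 → Fin 5 → E5 → ℂ) : Prop where
  op : IsOpen U
  zero : (0 : E5) ∈ U
  sm : ∀ j i, ContDiffOn ℝ (⊤ : ℕ∞) (c j i) U
  ind : ∀ x ∈ U, Ind4 fun j i => c j i x
  inv : ∃ p : Fin 2 → E5 → ℂ, ∀ x ∈ U, ∀ i, brk (c 0) (c 1) i x = p 0 x * c 0 i x + p 1 x * c 1 i x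
  lev : Lev (fun j i => c j i 0) fun j k i => brk (c j) (cj (c k)) i 0

/-- the same with coefficients which are smooth on the whole space; the conditions hold on the ball of
radius `ρ` -/
structure LG (ρ : ℝ) (c : Fin 2 → Fin 5 → E5 → ℂ) : Prop where
  pos : 0 < ρ
  sm : ∀ j i, Sm (c j i)
  ind : ∀ x, ‖x‖ < ρ → Ind4 fun j i => c j i x
  inv : ∃ p : Fin 2 → E5 → ℂ, ∀ x, ‖x‖ < ρ → ∀ i,
    brk (c 0) (c 1) i x = p 0 x * c 0 i x + p 1 x * c 1 i x
  lev : Lev (fun j i => c j i 0) fun j k i => brk (c j) (cj (c k)) i 0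

/-- the linear map of a real matrix -/
def mv (S : Matrix (Fin 5) (Fin 5) ℝ) : E5 →L[ℝ] E5 := Matrix.toEuclideanCLM (𝕜 := ℝ) S

/-- the coefficients of `∂/∂z̄_j` -/
def std5 (j : Fin 2) (i : Fin 5) : ℂ :=
  if i.val = 2 * j.val then 1 / 2 else if i.val = 2 * j.val + 1 then Complex.I / 2 else 0

/-- the coefficient of `∂/∂z̄_k` of the field `j` -/
def Mc (c : Fin 2 → Fin 5 → E5 → ℂ) (j k : Fin 2) : E5 → ℂ := fun x =>
  if k = 0 then c j 0 x - Complex.I * c j 1 x else c j 2 x - Complex.I * c j 3 x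

/-- the coefficient of `∂/∂z_1`, `∂/∂z_2`, `∂/∂t` of the field `j` -/
def Gc (c : Fin 2 → Fin 5 → E5 → ℂ) (j : Fin 2) (l : Fin 3) : E5 → ℂ := fun x =>
  if l = 0 then c j 0 x + Complex.I * c j 1 x else if l = 1 then c j 2 x + Complex.I * c j 3 x
  else c j 4 x

/-- the shear `(z, t) ↦ (z, t + q(z))` -/
def shr (q : E5 → ℝ) : E5 → E5 := fun x => x + q x • e5 4

/-! ### vector fields -/

/-- **I1.** The bracket of two vector fields.

Proof. `vf c (vf d g) = ∑ i, c i * pd i (∑ k, d k * pd k g) = ∑ i k, (c i * pd i (d k) * pd k g + c i * d k * pd i (pd k g))`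
(`pd_sum`, `pd_mul`), and the second order terms are symmetric (`pd_comm`). -/
def S_iBr : Prop := ∀ (c d : Fin 5 → E5 → ℂ), (∀ i, Sm (c i)) → (∀ i, Sm (d i)) → ∀ g : E5 → ℂ, Sm g →
  ∀ x, vf c (vf d g) x - vf d (vf c g) x = vf (brk c d) g x

/-- **I2.** Chain rule.

Proof. `fderiv ℝ (fun y => g (ψ y)) x (e5 i) = fderiv ℝ g (ψ x) (fderiv ℝ ψ x (e5 i))`, and
`fderiv ℝ ψ x (e5 i) = ∑ m, (fderiv ℝ ψ x (e5 i)) m • e5 m`; linearity of `fderiv ℝ g (ψ x)`. -/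
def S_iCh : Prop := ∀ (ψ : E5 → E5) (g : E5 → ℂ) (x : E5), DifferentiableAt ℝ ψ x →
  DifferentiableAt ℝ g (ψ x) → ∀ i, pd i (fun y => g (ψ y)) x
    = ∑ m, ((fderiv ℝ ψ x (e5 i) m : ℝ) : ℂ) * pd m g (ψ x)

/-- **I3.** Brackets of combinations.  (Direct computation with `pd_sum`, `pd_mul`.)

Proof. Put `X i = ∑ k, N k * c k i`, `Y i = ∑ k, O k * d k i` (`k : Fin 2`).  `vf X (Y i) = ∑ m, (vf X (O m) * d m i + O m * vf X (d m i))`
and `vf X (d m i) = ∑ k, N k * vf (c k) (d m i)`; in the same way for `vf Y (X i)`. -/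
def S_iBc : Prop := ∀ (c d : Fin 2 → Fin 5 → E5 → ℂ) (N O : Fin 2 → E5 → ℂ), (∀ k i, Sm (c k i)) →
  (∀ k i, Sm (d k i)) → (∀ k, Sm (N k)) → (∀ k, Sm (O k)) → ∀ i x,
  brk (fun i y => ∑ k, N k y * c k i y) (fun i y => ∑ k, O k y * d k i y) i x
    = (∑ k, ∑ m, N k x * O m x * brk (c k) (d m) i x)
      + (∑ m, vf (fun i y => ∑ k, N k y * c k i y) (O m) x * d m i x)
      - ∑ k, vf (fun i y => ∑ k, O k y * d k i y) (N k) x * c k i x

/-! ### reductions -/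

/-- **I4.** Reduction to coefficients which are smooth on the whole space.

Proof. Let `closedBall 0 (2 ρ) ⊆ U`, `0 < ρ`, `χ` a smooth bump function, `χ = 1` on `closedBall 0 ρ`, support in `ball 0 (2 ρ)`
(`ContDiffBump`), `c' j i x = χ x * c j i x`.  It is smooth: on `U` as a product, and near a point outside
`closedBall 0 (2 ρ)` it is zero (the support of `χ` is `closedBall`/`ball 0 (2 ρ)`, contained in `U`).  On the open ball of
radius `ρ` the functions `c'` and `c` agree, so all `pd` agree there (`Filter.EventuallyEq.fderiv_eq`), and `inv`, `lev`, `ind`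
hold. -/
def S_iRed : Prop := ∀ (U : Set E5) (c : Fin 2 → Fin 5 → E5 → ℂ), LV U c →
  ∃ (ρ : ℝ) (c' : Fin 2 → Fin 5 → E5 → ℂ), LG ρ c' ∧ Metric.ball 0 ρ ⊆ U ∧
    ∀ j i x, ‖x‖ < ρ → c' j i x = c j i x

/-- **I5.** Definite Hermitian forms in two variables.

Proof. The form is `h(q) = ∑ j k, q j conj (q k) Λ j k`, real valued.  `h(1, 0) = Λ 0 0` is real and not zero; let `σ = ± 1` be
its sign, and replace `Λ` by `σ Λ`: `Λ 0 0 > 0`.  Let `s₀ = -Λ 1 0 / Λ 0 0`.  For `s ∈ ℂ`: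
`h(s, 1) = Λ 0 0 |s|² + s Λ 0 1 + conj s Λ 1 0 + Λ 1 1 = Λ 0 0 |s - s₀|² + d`, `d = h(s₀, 1) = Λ 1 1 - |Λ 1 0|² / Λ 0 0` real.
`d ≠ 0`; if `d < 0` then `s = s₀ + √(-d / Λ 0 0)` gives `h(s, 1) = 0`: contradiction.  So `d > 0`.
`P 0 = (√(2 / Λ 0 0), 0)`, `P 1 = √(2 / d) (s₀, 1)`: `∑ k l, P j k conj (P j' l) Λ k l = 2 δ` (for `j ≠ j'`:
`s₀ Λ 0 0 + Λ 1 0 = 0` and the conjugate).  `P` is triangular with nonzero diagonal; `Q` its inverse. -/
def S_iHer : Prop := ∀ Λ : Fin 2 → Fin 2 → ℂ, (∀ j k, Λ k j = conj (Λ j k)) →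
  (∀ q : Fin 2 → ℂ, q ≠ 0 → ∑ j, ∑ k, q j * conj (q k) * Λ j k ≠ 0) →
  ∃ (σ : ℝ) (P Q : Matrix (Fin 2) (Fin 2) ℂ), (σ = 1 ∨ σ = -1) ∧ P * Q = 1 ∧ Q * P = 1 ∧
    ∀ j j', ∑ k, ∑ l, P j k * conj (P j' l) * Λ k l = if j = j' then 2 * (σ : ℂ) else 0

/-- **I6.** Linear algebra at the point.  (Uses `S_iHer`.)

Proof. The real vectors `Re (v 0)`, `Im (v 0)`, `Re (v 1)`, `Im (v 1)` of `ℝ⁵` span a subspace of dimension at most four, so
there is a real vector `θ ≠ 0` orthogonal to them: `∑ i, θ i v j i = 0`, and so `∑ i, θ i conj (v j i) = 0`.  By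
`Ind4` a complex vector `b` with `∑ θ i b i = 0` is in the span of `v 0, v 1, conj (v 0), conj (v 1)` (this span has dimension four
and is contained in the kernel of `θ`, which has dimension four).  `Λ j k = -i ∑ m, θ m B j k m` satisfies
`Λ k j = conj (Λ j k)`; it is nowhere zero in the sense of I5 by `Lev`.  Let `σ, P, Q` be as in I5, and replace `θ` by `σ θ`:
then `∑ k l, P j k conj (P j' l) (∑ m, θ m B k l m) = 2 i δ` (`σ² = 1`).  `w j = ∑ k, P j k v k`; `w 0, w 1, conj (w 0), conj (w 1)` are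
linearly independent too (`P` invertible).  Let `τ = θ / |θ|²`.  `S` = the real matrix with the columns
`2 Re (w 0), 2 Im (w 0), 2 Re (w 1), 2 Im (w 1), τ`; its columns are linearly independent over `ℝ` (a real relation
`∑ (α_j 2 Re w j + β_j 2 Im w j) + γ τ = 0`: apply `θ`: `γ = 0`; then `∑ ((α_j - i β_j) w j + (α_j + i β_j) conj (w j)) = 0`, so
all are zero), so `S` is invertible, `T = S⁻¹`.  `S e_{2 j} = w j + conj (w j)`, `S e_{2 j + 1} = -i (w j - conj (w j))`, so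
`S (std5 j) = w j`, and `T (w j) = std5 j`.  The last row of `T` is `θ`: `θ S e_m = 0` for `m < 4`, `θ S e_4 = 1`. -/
def S_iLin : Prop := ∀ (v : Fin 2 → Fin 5 → ℂ) (B : Fin 2 → Fin 2 → Fin 5 → ℂ), Ind4 v →
  (∀ j k i, B k j i = -conj (B j k i)) → Lev v B →
  ∃ (P Q : Matrix (Fin 2) (Fin 2) ℂ) (S T : Matrix (Fin 5) (Fin 5) ℝ), P * Q = 1 ∧ Q * P = 1 ∧
    S * T = 1 ∧ T * S = 1 ∧
    (∀ j i, ∑ m, (T i m : ℂ) * ∑ k, P j k * v k m = std5 j i) ∧
    ∀ j j', ∑ m, (T 4 m : ℂ) * ∑ k, ∑ l, P j k * conj (P j' l) * B k l m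
      = if j = j' then 2 * Complex.I else 0

/-- the coefficients after the linear change of coordinates `x = S y` and the constant change `P` of the
frame -/
def chg (P : Matrix (Fin 2) (Fin 2) ℂ) (S T : Matrix (Fin 5) (Fin 5) ℝ)
    (c : Fin 2 → Fin 5 → E5 → ℂ) : Fin 2 → Fin 5 → E5 → ℂ :=
  fun j i y => ∑ m, (T i m : ℂ) * ∑ k, P j k * c k m (mv S y)

/-- **I7.** Linear changes: vector fields and brackets.  (Uses `S_iCh`.)

Proof. `mv T (mv S y) = y`.  Chain rule for the linear map `mv S`: `pd i (g ∘ mv S) y = ∑ m, S m i * pd m g (mv S y)`.  So for every `f`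
differentiable at `mv S y`: `vf (chg c j) (f ∘ mv S) y = ∑ i m, T i m (∑ k, P j k c k m (S y)) ∑ n, S n i pd n f (S y)
= ∑ k, P j k * vf (c k) f (mv S y)`, as `∑ i, S n i T i m = δ`.  First claim: `f = g ∘ mv T`, `f ∘ mv S = g`.  Second claim (all
coefficients smooth): `brk (chg c j) (cj (chg c k)) i y = vf (chg c j) (cj (chg c k) i) y - ..` and `cj (chg c k) i = f ∘ mv S` with
`f = ∑ n, T i n ∑ l, conj (P k l) conj (c l n)` (constants come out of `vf`). -/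
def S_iChg : Prop := ∀ (P : Matrix (Fin 2) (Fin 2) ℂ) (S T : Matrix (Fin 5) (Fin 5) ℝ)
  (c : Fin 2 → Fin 5 → E5 → ℂ), S * T = 1 → T * S = 1 → (∀ j i, Sm (c j i)) →
  (∀ j i, Sm (chg P S T c j i)) ∧
  (∀ (g : E5 → ℂ) (y : E5), DifferentiableAt ℝ g y → ∀ j,
    vf (chg P S T c j) g y = ∑ k, P j k * vf (c k) (fun x => g (mv T x)) (mv S y)) ∧
  (∀ j k i y, brk (chg P S T c j) (cj (chg P S T c k)) i y
    = ∑ m, (T i m : ℂ) * ∑ l, ∑ n, P j l * conj (P k n) * brk (c l) (cj (c n)) m (mv S y)) ∧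
  ∀ i y, brk (chg P S T c 0) (chg P S T c 1) i y
    = ∑ m, (T i m : ℂ) * ∑ l, ∑ n, P 0 l * P 1 n * brk (c l) (c n) m (mv S y)

/-- **I8.** Linear changes preserve the local data.  (Uses `S_iLin`, `S_iChg`.)

Proof. `brk (c k) (cj (c j)) i 0 = -conj (brk (c j) (cj (c k)) i 0)` (`pd_conj`), so `S_iLin` applies to `v j i = c j i 0`,
`B j k i = brk (c j) (cj (c k)) i 0`.  `c' = chg P S T c`.  `ρ' > 0` with `‖mv S y‖ < ρ` for `‖y‖ < ρ'` (continuity).  `LG ρ' c'`: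
`ind`: if `∑ (s j c' j i y + t j conj (c' j i y)) = 0` for all `i`, multiply by `S` (`∑ i, S n i T i m = δ`):
`∑ k, ((∑ j, s j P j k) c k n + (∑ j, t j conj (P j k)) conj (c k n)) = 0` at `mv S y`, so `∑ j, s j P j k = 0`, and `s = 0` as `P` is
invertible; the same for `t`.  `inv`: `∑ l n, P 0 l P 1 n brk (c l) (c n) = det P * brk (c 0) (c 1)` (`brk c c = 0`,
antisymmetric) is a combination of `c 0, c 1`, and these are combinations of `P`-combinations (`Q`).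
`lev`: by the last formula of `S_iLin` and I7, `∑ j k, q j conj (q k) brk (c' j) (cj (c' k)) 4 0 = 2 i ∑ |q j|² ≠ 0`, while the
coefficient `i = 4` of `c' j` and of its conjugate at `0` vanishes (`std5 j 4 = 0`). -/
def S_iLG : Prop := ∀ (ρ : ℝ) (c : Fin 2 → Fin 5 → E5 → ℂ), LG ρ c →
  ∃ (P Q : Matrix (Fin 2) (Fin 2) ℂ) (S T : Matrix (Fin 5) (Fin 5) ℝ) (ρ' : ℝ), P * Q = 1 ∧
    Q * P = 1 ∧ S * T = 1 ∧ T * S = 1 ∧ LG ρ' (chg P S T c) ∧
    (∀ y, ‖y‖ < ρ' → ‖mv S y‖ < ρ) ∧ (∀ j i, chg P S T c j i 0 = std5 j i) ∧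
    ∀ j k, brk (chg P S T c j) (cj (chg P S T c k)) 4 0 = if j = k then 2 * Complex.I else 0

/-! ### the normal frame -/

/-- **I9.** The normal frame.

Proof. `Mc c j k 0 = δ` (`std5`: `1 / 2 - i (i / 2) = 1`).  `det = Mc 0 0 * Mc 1 1 - Mc 0 1 * Mc 1 0` is continuous and equal to one at
`0`; let `|det| ≥ 1 / 2` on `closedBall 0 (2 r)`, `0 < r`, `2 r ≤ ρ`.  `χ` a smooth bump function equal to one on
`closedBall 0 r` with support in `ball 0 (2 r)`.  `N 0 0 = χ Mc 1 1 / det`, `N 0 1 = -χ Mc 0 1 / det`, `N 1 0 = -χ Mc 1 0 / det`,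
`N 1 1 = χ Mc 0 0 / det`: smooth on the whole space (as in I4).  `a j l = ∑ k, N j k * Gc c k l`.  `Gc c k l 0 = 0`
(`1 / 2 + i (i / 2) = 0`). -/
def S_iNa : Prop := ∀ (ρ : ℝ) (c : Fin 2 → Fin 5 → E5 → ℂ), LG ρ c → (∀ j i, c j i 0 = std5 j i) →
  ∃ (a : Str) (N : Fin 2 → Fin 2 → E5 → ℂ) (r : ℝ), SmS a ∧ (∀ j k, Sm (N j k)) ∧ 0 < r ∧ r ≤ ρ ∧
    (∀ j k x, ‖x‖ < r → ∑ m, N j m x * Mc c m k x = if j = k then 1 else 0) ∧
    (∀ j k x, ‖x‖ < r → ∑ m, Mc c j m x * N m k x = if j = k then 1 else 0) ∧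
    (∀ j l x, ‖x‖ < r → a j l x = ∑ k, N j k x * Gc c k l x) ∧
    (∀ j k, N j k 0 = if j = k then 1 else 0) ∧ ∀ j l, a j l 0 = 0

/-- **I10.** The fields `L a j` are combinations of the given fields.

Proof. `vf (c k) g = ∑ i, c k i * pd i g = ∑ m, Mc c k m * db m.castSucc g + ∑ l, Gc c k l * dz l g`: check with
`c₀ p₀ + c₁ p₁ = (c₀ - i c₁) (p₀ + i p₁) / 2 + (c₀ + i c₁) (p₀ - i p₁) / 2` (no differentiability is needed).  Multiply by
`N j k` and sum over `k`. -/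
def S_iNb : Prop := ∀ (c : Fin 2 → Fin 5 → E5 → ℂ) (a : Str) (N : Fin 2 → Fin 2 → E5 → ℂ) (x : E5),
  (∀ j k, ∑ m, N j m x * Mc c m k x = if j = k then 1 else 0) →
  (∀ j l, a j l x = ∑ k, N j k x * Gc c k l x) → ∀ (g : E5 → ℂ) (j : Fin 2),
  L a j g x = ∑ k, N j k x * vf (c k) g x

/-- **I11.** The normal frame commutes.  (Uses `S_iBr`, `S_iBc`, `S_iNb`.)

Proof. `X j i = ∑ k, N j k * c k i` (smooth).  By `S_iNb`, for `‖y‖ < r`: `L a j g y = vf (X j) g y` for all `g`.  Let `‖x‖ < r`.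
By `S_iBc`: `brk (X 0) (X 1) i x = ∑ k m, N 0 k N 1 m brk (c k) (c m) i + ∑ m, vf (X 0) (N 1 m) c m i - ∑ k, vf (X 1) (N 0 k) c k i`, and
the first sum is `(N 0 0 N 1 1 - N 0 1 N 1 0) brk (c 0) (c 1) i` (`brk c c = 0`, antisymmetry), a combination of `c 0 i`, `c 1 i` by
`LG.inv`.  So there are `lam k` with `brk (X 0) (X 1) i x = ∑ k, lam k * c k i x` for all `i`, and by `S_iBr`
(*) `vf (X 0) (vf (X 1) g) x - vf (X 1) (vf (X 0) g) x = ∑ k, lam k * vf (c k) g x` for all smooth `g`.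
`g = conj (zc m)`: `vf (X j) g y = L a j g y = δ` for `‖y‖ < r` (`db k (conj zc m) = δ`, `dz l (conj zc m) = 0`), locally constant, so
the left side of (*) is zero; `vf (c k) g = Mc c k m`; so `∑ k, lam k Mc c k m x = 0` for `m = 0, 1`, and `lam = 0` (multiply by `N`).
`g = zc 0, zc 1, x 4` (as complex functions): `vf (X j) g y = L a j g y = a j l y` for `‖y‖ < r`, so (*) says
`L a 0 (a 1 l) x - L a 1 (a 0 l) x = 0` (the derivatives at `x` depend only on the values near `x`). -/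
def S_iNk : Prop := ∀ (ρ : ℝ) (c : Fin 2 → Fin 5 → E5 → ℂ) (a : Str) (N : Fin 2 → Fin 2 → E5 → ℂ)
  (r : ℝ), LG ρ c → SmS a → (∀ j k, Sm (N j k)) → 0 < r → r ≤ ρ →
  (∀ j k x, ‖x‖ < r → ∑ m, N j m x * Mc c m k x = if j = k then 1 else 0) →
  (∀ j k x, ‖x‖ < r → ∑ m, Mc c j m x * N m k x = if j = k then 1 else 0) →
  (∀ j l x, ‖x‖ < r → a j l x = ∑ k, N j k x * Gc c k l x) → ∀ l x, ‖x‖ < r → kap a l x = 0

/-- **I12.** The Levi form of the normal frame at the origin.  (Uses `S_iBc`, `S_iNb`.)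

Proof. `X j i = ∑ k, N j k * c k i`; near `0`: `a j 2 = X j 4` (`Gc c k 2 = c k 4`).  As `a j l 0 = 0`:
`db j (f) 0 = L a j f 0 = vf (X j) f 0`, and `dz k f 0 = vf (cj (X k)) f 0` (the conjugate: `X k i 0 = std5 k i`).  So the left side is
`vf (X j) (cj (X k) 4) 0 - vf (cj (X k)) (X j 4) 0 = brk (X j) (cj (X k)) 4 0`.  `cj (X k) i = ∑ l, conj (N k l) * cj (c l) i`; by `S_iBc`
this is `∑ m l, N j m conj (N k l) brk (c m) (cj (c l)) 4 0` plus multiples of `c m 4 0 = 0` and `conj (c l 4 0) = 0`, and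
`N j m 0 = δ`. -/
def S_iNl : Prop := ∀ (c : Fin 2 → Fin 5 → E5 → ℂ) (a : Str) (N : Fin 2 → Fin 2 → E5 → ℂ)
  (r : ℝ), (∀ j i, Sm (c j i)) → (∀ j i, c j i 0 = std5 j i) → SmS a → (∀ j k, Sm (N j k)) → 0 < r →
  (∀ j k x, ‖x‖ < r → ∑ m, N j m x * Mc c m k x = if j = k then 1 else 0) →
  (∀ j l x, ‖x‖ < r → a j l x = ∑ k, N j k x * Gc c k l x) →
  (∀ j k, N j k 0 = if j = k then 1 else 0) → (∀ j l, a j l 0 = 0) →
  ∀ j k : Fin 2, db j.castSucc (fun y => conj (a k 2 y)) 0 - dz k.castSucc (a j 2) 0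
    = brk (c j) (cj (c k)) 4 0

/-! ### the shear -/

/-- the structure in the coordinates `(z, t + q(z))` -/
def shA (q : E5 → ℝ) (a : Str) : Str := fun j l y =>
  if l = 2 then
    (fun x => a j 2 x + db j.castSucc (fun u => (q u : ℂ)) x
      + a j 0 x * dz 0 (fun u => (q u : ℂ)) x + a j 1 x * dz 1 (fun u => (q u : ℂ)) x)
      (shr (fun u => -q u) y)
  else a j l (shr (fun u => -q u) y)

/-- `q` is smooth and does not depend on `t` -/
structure Qf (q : E5 → ℝ) : Prop where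
  sm : ContDiff ℝ (⊤ : ℕ∞) q
  inv : ∀ (x : E5) (s : ℝ), q (x + s • e5 4) = q x

/-- **I13.** The shear.  (Uses `S_iCh`.)

Proof. `shr q` is smooth; `shr (-q) (shr q x) = shr q x - q (shr q x) e_4 = x` (`Qf.inv`), and conversely.
`fderiv (shr q) x (e5 i) = e5 i + (∂_i q) e5 4`; so for `g` differentiable at `shr q x` (`S_iCh`):
`pd i (g ∘ shr q) x = pd i g (shr q x) + ∂_i q(x) * pd 4 g (shr q x)`, and `∂_4 q = 0` (`Qf.inv`).  So
`db j (g ∘ shr q) = (db j g) ∘ shr q + db j q * (pd 4 g) ∘ shr q`, the same for `dz 0`, `dz 1`, and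
`dz 2 (g ∘ shr q) = (dz 2 g) ∘ shr q`.  Insert in `L a j (g ∘ shr q) x`: this is `L (shA q a) j g (shr q x)`
(`shr (-q) (shr q x) = x`). -/
def S_iSh : Prop := ∀ (q : E5 → ℝ) (a : Str), Qf q → SmS a →
  ContDiff ℝ (⊤ : ℕ∞) (shr q) ∧ ContDiff ℝ (⊤ : ℕ∞) (shr fun u => -q u) ∧
  (∀ x, shr (fun u => -q u) (shr q x) = x) ∧ (∀ x, shr q (shr (fun u => -q u) x) = x) ∧
  SmS (shA q a) ∧ ∀ (g : E5 → ℂ) (x : E5), DifferentiableAt ℝ g (shr q x) → ∀ j,
    L (shA q a) j g (shr q x) = L a j (fun y => g (shr q y)) x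

/-- **I14.** The commutator after the shear.  (Uses `S_iSh`.)

Proof. `b = shA q a`.  Let `g_l = zc 0, zc 1, x 4` for `l = 0, 1, 2` (smooth).  `L b j g_l = b j l` (`db j g_l = 0` for `j = 0, 1`,
`dz m g_l = δ`).  So `kap b l = L b 0 (L b 1 g_l) - L b 1 (L b 0 g_l)`, and by I13 twice (for `G = g_l ∘ shr q`, smooth):
`kap b l (shr q x) = L a 0 (L a 1 G) x - L a 1 (L a 0 G) x = Kap a G x` (`D1_D0`), a combination of the `kap a m x`. -/
def S_iShk : Prop := ∀ (q : E5 → ℝ) (a : Str), Qf q → SmS a → ∀ x, (∀ l, kap a l x = 0) →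
  ∀ l, kap (shA q a) l (shr q x) = 0

/-- **I15.** Removal of the quadratic terms.

Proof. `α j k = dz k (a j 2) 0`, `β j k = db k (a j 2) 0` (`j, k : Fin 2`).  The Levi hypothesis says
`conj (α k j) - α j k = 2 i δ` (`db_conj`), so `h j k = α j k + i δ` satisfies `h j k = conj (h k j)`.  `kap a 2 0 = 0` says
`β 1 0 = β 0 1` (`a j l 0 = 0`: `L a j f 0 = db j f 0`).
`q(x) = -Re (∑ j k, h j k z_k conj (z_j)) - Re (∑ j k, β j k conj (z_j) conj (z_k))` (`z_j = zc j x`).  `Qf q`: clear (`zc j` does not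
depend on `t`).  As complex functions (`h` Hermitian): `q = -∑ h j k z_k conj (z_j) - (1 / 2) ∑ (β j k conj (z_j) conj (z_k) + conj (β j k) z_j z_k)`,
`db j q = -∑ k, h j k z_k - ∑ k, β j k conj (z_k)` and `dz l q` is a linear form in `z, conj z` (so it vanishes at `0`).
`q` vanishes of second order at `0`, so `shr (-q)` fixes `0` and has the identity as its derivative at `0`.
`b = shA q a`: `b j l 0 = 0`; for `i ≠ 4` (product rule, `a j l 0 = 0`, `dz l q 0 = 0`):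
`pd i (b j 2) 0 = pd i (a j 2) 0 + pd i (db j q) 0`.  In terms of `dz`, `db`: `dz k (b j 2) 0 = α j k - h j k = -i δ`,
`db k (b j 2) 0 = β j k - β j k = 0`, the same values as for `a0 j 2 = -i z_j`.  And `pd 0 = dz 0 + db 0`, `pd 1 = i (dz 0 - db 0)`,
`pd 2 = dz 1 + db 1`, `pd 3 = i (dz 1 - db 1)`. -/
def S_iQd : Prop := ∀ a : Str, SmS a → (∀ j l, a j l 0 = 0) → (∀ l, kap a l 0 = 0) →
  (∀ j k : Fin 2, db j.castSucc (fun y => conj (a k 2 y)) 0 - dz k.castSucc (a j 2) 0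
    = if j = k then 2 * Complex.I else 0) →
  ∃ q : E5 → ℝ, Qf q ∧ q 0 = 0 ∧ (∀ j l, shA q a j l 0 = 0) ∧
    ∀ (j : Fin 2) (i : Fin 5), i ≠ 4 → pd i (shA q a j 2) 0 = pd i (a0 j 2) 0

/-! ### assembly -/

/-- **I16.** The normal form.  (Uses `S_iRed`, `S_iLG`, `S_iChg`, `S_iNa`, `S_iNb`, `S_iNk`, `S_iNl`, `S_iSh`,
`S_iShk`, `S_iQd`.)

Proof. `c'` from `S_iRed`; `c'' = chg P S T c'` from `S_iLG`; `a`, `N`, `r` from `S_iNa` for `c''`; `kap a = 0` on the ball of radius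
`r` (`S_iNk`); the Levi condition from `S_iNl` and `S_iLG`; `q` from `S_iQd`; `b = shA q a`.  `ψ = shr q ∘ mv T`,
`ψ' = mv S ∘ shr (-q)`.  By continuity there is `r₁ > 0` with `‖shr (-q) y‖ < r` for `‖y‖ < r₁`; `kap b l y = 0` for `‖y‖ < r₁`
(`S_iShk` for `x = shr (-q) y`).  Let `‖ψ x‖ < r₁`, `u = mv T x = shr (-q) (ψ x)`, `‖u‖ < r ≤ ρ'`, so `x = mv S u` has `‖x‖ < ρ`, `x ∈ U`.
Let `g` be differentiable at `ψ x`, `L b j g (ψ x) = 0`.  By I13: `L a j (g ∘ shr q) u = 0`; by `S_iNb`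
`∑ k, N j k u * vf (c'' k) (g ∘ shr q) u = 0` for `j = 0, 1`, so `vf (c'' k) (g ∘ shr q) u = 0` (multiply by `Mc`); by `S_iChg`
`∑ k, P j k * vf (c' k) (g ∘ ψ) x = 0`, so `vf (c' k) (g ∘ ψ) x = 0` (multiply by `Q`); near `x` `c' = c`. -/
def S_I2 : Prop := ∀ (U : Set E5) (c : Fin 2 → Fin 5 → E5 → ℂ), LV U c →
  ∃ (a : Str) (r : ℝ) (ψ ψ' : E5 → E5), SmS a ∧ 0 < r ∧ ContDiff ℝ (⊤ : ℕ∞) ψ ∧
    ContDiff ℝ (⊤ : ℕ∞) ψ' ∧ (∀ x, ψ' (ψ x) = x) ∧ (∀ x, ψ (ψ' x) = x) ∧ ψ 0 = 0 ∧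
    (∀ l x, ‖x‖ < r → kap a l x = 0) ∧ (∀ j l, a j l 0 = 0) ∧
    (∀ (j : Fin 2) (i : Fin 5), i ≠ 4 → pd i (a j 2) 0 = pd i (a0 j 2) 0) ∧
    ∀ x, ‖ψ x‖ < r → x ∈ U ∧ ∀ g : E5 → ℂ, DifferentiableAt ℝ g (ψ x) →
      (∀ j, L a j g (ψ x) = 0) → ∀ j, vf (c j) (fun y => g (ψ y)) x = 0

end Pool.Agent.CR5
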