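import Pool.Agent.Lib.CR5.BasicG
import Pool.Agent.Lib.CR5.SpecF

/-!
# CR5, block H1: interface between the two halves of `S_STG`
-/

open MeasureTheory Set Filter Topology
open scoped ENNReal ComplexConjugate

noncomputable section

namespace Pool.Agent.CR5

/-- The correction `u` of one stage (all substeps together). -/
def S_UU : Prop := ∃ ε > 0, ∃ ε1 > 0, ∀ (m : ℕ) (B : ℝ), ∃ C : ℝ, 1 ≤ C ∧
  ∀ a : Str, Near a MM ε → BdA a (m + 6) B → (∀ l x, ‖x‖ < 3 / 4 → kap a l x = 0) →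
  ∀ h : ℕ → ℝ, Adm h m → ∀ (lam R δ : ℝ), 1 ≤ lam → 1 / 32 ≤ R → R ≤ 1 / 16 → 0 < δ →
  δ ≤ 1 / 1000 → ∀ F : Mp, HypF a h m ε1 lam R F →
  C * (Real.log lam + Real.log (1 / δ)) ≤ lam * δ ^ 2 →
  ∃ u : Mp, (∀ k, Sm (u k)) ∧
    (∀ k, NN h m (Dm F (R - 6 * δ)) (u k) ≤ Real.exp (-(5 * lam * δ))) ∧
    ∀ j k, NN h m (Dm F (R - 4 * δ)) (fun x => ex (2 * lam) F x * (EF a F j k x - L a j (u k) x))
      ≤ Real.exp (-(2 * lam * R) + 6 * lam * δ)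

end Pool.Agent.CR5
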